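import Pool.Agent.CHN.Targets

/-!
# MP_0e7bd3_pr (project CHN): growth of the Airy function in the imaginary direction (`T_ACL`)
-/

set_option autoImplicit false

open MeasureTheory ProbabilityTheory Filter Topology Set

namespace Pool.Agent.CHN

open Pool.Agent.Freud (Airy Airy')

namespace ACL_

theorem hasDerivAt_line (c y : ℝ) :
    HasDerivAt (fun t : ℝ => Airy ((c : ℂ) + Complex.I * (t : ℂ)))
      (Airy' ((c : ℂ) + Complex.I * (y : ℂ)) * Complex.I) y := by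
  have h1 : HasDerivAt (fun t : ℝ => (c : ℂ) + Complex.I * (t : ℂ)) Complex.I y := by
    have h := (Complex.ofRealCLM.hasDerivAt (x := y)).const_mul Complex.I
    simpa using h.const_add (c : ℂ)
  exact (Pool.Agent.Freud.Airy_hasDerivAt _).comp y h1

/-- the squared norm along a vertical line -/
noncomputable def N (c y : ℝ) : ℝ := (Airy ((c : ℂ) + Complex.I * (y : ℂ))).re ^ 2 +
  (Airy ((c : ℂ) + Complex.I * (y : ℂ))).im ^ 2

theorem N_eq (c y : ℝ) : N c y = ‖Airy ((c : ℂ) + Complex.I * (y : ℂ))‖ ^ 2 := by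
  rw [← Complex.normSq_eq_norm_sq, Complex.normSq_apply, N]
  ring

theorem N_hasDerivAt (c y : ℝ) (h0 : Airy ((c : ℂ) + Complex.I * (y : ℂ)) ≠ 0) :
    HasDerivAt (N c) (2 * N c y * -(Airy' ((c : ℂ) + Complex.I * (y : ℂ)) /
      Airy ((c : ℂ) + Complex.I * (y : ℂ))).im) y := by
  have hG := hasDerivAt_line c y
  have hr := Complex.reCLM.hasFDerivAt.comp_hasDerivAt y hG
  have hi := Complex.imCLM.hasFDerivAt.comp_hasDerivAt y hG
  have h := (hr.pow 2).add (hi.pow 2)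
  set w := Airy ((c : ℂ) + Complex.I * (y : ℂ)) with hw
  set u := Airy' ((c : ℂ) + Complex.I * (y : ℂ)) / w with hu
  have hw' : Airy' ((c : ℂ) + Complex.I * (y : ℂ)) = u * w := by
    rw [hu]; field_simp
  rw [hw'] at h
  have e : HasDerivAt (N c) _ y := h
  refine e.congr_deriv ?_
  simp only [N, ← hw]
  simp [Complex.mul_re, Complex.mul_im, ← hw]
  ring

theorem hasSum_im (hULG : T_ULG) {a : ℕ → ℝ} (ha : ZS a) {c y : ℝ} (hc : 0 ≤ c) :
    HasSum (fun k => y / ((c + a k) ^ 2 + y ^ 2)) (-(Airy' ((c : ℂ) + Complex.I * (y : ℂ)) /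
      Airy ((c : ℂ) + Complex.I * (y : ℂ))).im) := by
  have h := hULG a ha ((c : ℂ) + Complex.I * (y : ℂ)) (by simpa using hc)
  have h2 := (Complex.hasSum_im h).neg
  have e1 : -(Airy' ((c : ℂ) + Complex.I * (y : ℂ)) / Airy ((c : ℂ) + Complex.I * (y : ℂ)) -
      (u0 : ℂ)).im = -(Airy' ((c : ℂ) + Complex.I * (y : ℂ)) /
      Airy ((c : ℂ) + Complex.I * (y : ℂ))).im := by
    rw [Complex.sub_im, Complex.ofReal_im, sub_zero]
  rw [e1] at h2
  refine h2.congr_fun fun k => ?_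
  have e2 : (1 / (a k : ℂ)).im = 0 := by
    rw [← Complex.ofReal_one, ← Complex.ofReal_div, Complex.ofReal_im]
  rw [Complex.sub_im, e2, sub_zero, one_div, Complex.inv_im, Complex.normSq_apply]
  simp
  ring

theorem sum_ge (hULG : T_ULG) {a : ℕ → ℝ} (ha : ZS a) {c y b : ℝ} (hc : 0 ≤ c) (hy : 0 ≤ y)
    (hb : ∀ k < 6, a k ≤ b) :
    6 * (y / ((c + b) ^ 2 + y ^ 2)) ≤ -(Airy' ((c : ℂ) + Complex.I * (y : ℂ)) /
      Airy ((c : ℂ) + Complex.I * (y : ℂ))).im := by
  have h := sum_le_hasSum (Finset.range 6) (fun k _ => by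
    have := ha.pos k
    positivity) (hasSum_im hULG ha hc (y := y))
  refine le_trans ?_ h
  have h1 : ∑ _k ∈ Finset.range 6, y / ((c + b) ^ 2 + y ^ 2) ≤
      ∑ k ∈ Finset.range 6, y / ((c + a k) ^ 2 + y ^ 2) := by
    refine Finset.sum_le_sum fun k hk => ?_
    have hk' := hb k (Finset.mem_range.1 hk)
    have hk0 := ha.pos k
    apply div_le_div_of_nonneg_left hy (by positivity)
    have : (c + a k) ^ 2 ≤ (c + b) ^ 2 := by
      apply pow_le_pow_left₀ (by linarith)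
      linarith
    linarith
  simpa using h1

theorem main (hULG : T_ULG) (hAZR : T_AZR) {a : ℕ → ℝ} (ha : ZS a) {b : ℝ} (hb0 : 0 < b)
    (hb : ∀ k < 6, a k ≤ b) {c y : ℝ} (hc : 0 ≤ c) (hy : 0 ≤ y) :
    (1 + (y / (c + b)) ^ 2) ^ 6 * N c 0 ≤ N c y := by
  have hcb : 0 < c + b := by linarith
  have hne : ∀ t : ℝ, Airy ((c : ℂ) + Complex.I * (t : ℂ)) ≠ 0 := by
    intro t h
    have := (hAZR _ h).2
    simp at this
    linarith
  have hN0 : ∀ t, 0 ≤ N c t := fun t => by rw [N_eq]; positivity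
  -- the quotient
  have hP : ∀ t : ℝ, HasDerivAt (fun t : ℝ => (1 + (t / (c + b)) ^ 2) ^ 6)
      ((1 + (t / (c + b)) ^ 2) ^ 6 * (12 * (t / ((c + b) ^ 2 + t ^ 2)))) t := by
    intro t
    have h1 : HasDerivAt (fun t : ℝ => t / (c + b)) (1 / (c + b)) t := (hasDerivAt_id t).div_const _
    have h2 : HasDerivAt (fun t : ℝ => (1 + (t / (c + b)) ^ 2) ^ 6) _ t :=
      ((h1.pow 2).const_add 1).pow 6
    refine h2.congr_deriv ?_
    have h3 : (c + b) ^ 2 + t ^ 2 ≠ 0 := by positivity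
    have h4 : (1 + (t / (c + b)) ^ 2) = ((c + b) ^ 2 + t ^ 2) / (c + b) ^ 2 := by
      field_simp
    simp only [Pi.pow_apply]
    rw [h4]
    push_cast
    field_simp
    ring
  have hPpos : ∀ t : ℝ, 0 < (1 + (t / (c + b)) ^ 2) ^ 6 := fun t => by positivity
  have hmono : MonotoneOn (fun t => N c t / (1 + (t / (c + b)) ^ 2) ^ 6) (Ici 0) := by
    have hder : ∀ t : ℝ, HasDerivAt (fun t => N c t / (1 + (t / (c + b)) ^ 2) ^ 6) _ t :=
      fun t => (N_hasDerivAt c t (hne t)).div (hP t) (hPpos t).ne'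
    refine monotoneOn_of_deriv_nonneg (convex_Ici 0) (fun t _ => (hder t).continuousAt.continuousWithinAt)
      (fun t _ => (hder t).differentiableAt.differentiableWithinAt) fun t ht => ?_
    rw [interior_Ici] at ht
    rw [(hder t).deriv]
    refine div_nonneg ?_ (by positivity)
    have h5 := sum_ge hULG ha hc (le_of_lt ht) hb
    have h6 : 0 ≤ N c t * (1 + (t / (c + b)) ^ 2) ^ 6 := mul_nonneg (hN0 t) (hPpos t).le
    have h7 := mul_le_mul_of_nonneg_left h5 h6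
    nlinarith [h7]
  have h8 := hmono (mem_Ici.2 le_rfl) (mem_Ici.2 hy) hy
  simp only [zero_div] at h8
  rw [le_div_iff₀ (hPpos y)] at h8
  norm_num at h8
  linarith

end ACL_

theorem p_ACL (hULG : T_ULG) (hAZR : T_AZR) : T_ACL := by
  intro a ha
  have hb : ∀ k < 6, a k ≤ ∑ i ∈ Finset.range 6, a i := fun k hk =>
    Finset.single_le_sum (f := a) (fun i _ => (ha.pos i).le) (Finset.mem_range.2 hk)
  have hb0 : 0 < ∑ i ∈ Finset.range 6, a i := (ha.pos 0).trans_le (hb 0 (by norm_num))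
  refine ⟨∑ i ∈ Finset.range 6, a i, hb0, fun c y hc => ?_⟩
  set b := ∑ i ∈ Finset.range 6, a i with hbdef
  have key : ∀ y : ℝ, 0 ≤ y → (1 + (y / (c + b)) ^ 2) ^ 3 * ‖Airy (c : ℂ)‖ ≤
      ‖Airy ((c : ℂ) + Complex.I * y)‖ := by
    intro y hy
    have h := ACL_.main hULG hAZR ha hb0 hb hc hy
    rw [ACL_.N_eq, ACL_.N_eq] at h
    simp only [Complex.ofReal_zero, mul_zero, add_zero] at h
    refine le_of_sq_le_sq ?_ (norm_nonneg _)
    calc ((1 + (y / (c + b)) ^ 2) ^ 3 * ‖Airy (c : ℂ)‖) ^ 2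
        = (1 + (y / (c + b)) ^ 2) ^ 6 * ‖Airy (c : ℂ)‖ ^ 2 := by ring
      _ ≤ _ := h
  rcases le_total 0 y with hy | hy
  · exact key y hy
  · have h := key (-y) (by linarith)
    have e1 : ((-y) / (c + b)) ^ 2 = (y / (c + b)) ^ 2 := by ring
    have e2 : ‖Airy ((c : ℂ) + Complex.I * ((-y : ℝ) : ℂ))‖ =
        ‖Airy ((c : ℂ) + Complex.I * (y : ℂ))‖ := by
      have h3 : (c : ℂ) + Complex.I * ((-y : ℝ) : ℂ) =
          starRingEnd ℂ ((c : ℂ) + Complex.I * (y : ℂ)) := by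
        simp
      rw [h3, Pool.Agent.Freud.Airy_conj, RCLike.norm_conj]
    rwa [e1, e2] at h

end Pool.Agent.CHN
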