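import Pool.Agent.CHN.Targets

/-!
# MP_0e7bd3_pr (project CHN): Airy, comparison with the real axis (CHN-ACM) (helper21)
-/

set_option autoImplicit false

open MeasureTheory ProbabilityTheory Filter Topology Set
open scoped NNReal

namespace Pool.Agent.CHN

open Pool.Agent.Freud (Airy Airy' Airy_hasDerivAt Airy'_hasDerivAt)

namespace ACM_

/-- the horizontal line through `c + i y` -/
noncomputable def ln (c y t : ℝ) : ℂ := ((c + t : ℝ) : ℂ) + Complex.I * y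

theorem ln_deriv (c y t : ℝ) : HasDerivAt (ln c y) 1 t := by
  have h1 : HasDerivAt (fun t : ℝ => c + t) 1 t := (hasDerivAt_id t).const_add c
  have h2 := h1.ofReal_comp.add_const (Complex.I * (y : ℂ))
  rw [Complex.ofReal_one] at h2
  exact h2

theorem ln_re (c y t : ℝ) : (ln c y t).re = c + t := by
  simp [ln]

theorem airy_ne (hAZR : T_AZR) {z : ℂ} (hz : 0 ≤ z.re) : Airy z ≠ 0 := by
  intro h
  have := (hAZR z h).2
  linarith

theorem re_le {s : ℂ} (hs : 0 ≤ s.re) {b : ℝ} (hb : 0 < b) :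
    (1 / (s + (b : ℂ))).re ≤ (1 / ((s.re : ℂ) + (b : ℂ))).re := by
  have h1 : 0 < s.re + b := by linarith
  have e1 : (1 / (s + (b : ℂ))).re = (s.re + b) / ((s.re + b) ^ 2 + s.im ^ 2) := by
    rw [one_div, Complex.inv_re, Complex.normSq_apply, Complex.add_re, Complex.add_im,
      Complex.ofReal_re, Complex.ofReal_im, add_zero]
    congr 1
    ring
  have e2 : (1 / ((s.re : ℂ) + (b : ℂ))).re = 1 / (s.re + b) := by
    rw [← Complex.ofReal_add, one_div, ← Complex.ofReal_inv, Complex.ofReal_re, one_div]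
  rw [e1, e2, div_le_div_iff₀ (by positivity) h1]
  nlinarith [sq_nonneg s.im]

theorem log_le (hULG : T_ULG) {a : ℕ → ℝ} (ha : ZS a) {s : ℂ} (hs : 0 ≤ s.re) :
    (Airy' s / Airy s).re ≤ (Airy' (s.re : ℂ) / Airy (s.re : ℂ)).re := by
  have h1 := Complex.reCLM.hasSum (hULG a ha s hs)
  have h2 := Complex.reCLM.hasSum (hULG a ha (s.re : ℂ) (by rw [Complex.ofReal_re]; exact hs))
  have h3 := hasSum_le (fun k => ?_) h1 h2
  · simp only [Complex.reCLM_apply, Complex.sub_re] at h3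
    linarith
  · simp only [Complex.reCLM_apply, Complex.sub_re]
    have := re_le hs (ha.pos k)
    linarith

theorem inner_eq {z w : ℂ} (hz : z ≠ 0) :
    inner ℝ z w = ‖z‖ ^ 2 * (w / z).re := by
  have h1 : w = z * (w / z) := by field_simp
  have h2 : inner ℝ z w = (starRingEnd ℂ z * w).re := by
    rw [Complex.inner, mul_comm]
  rw [h2]
  conv_lhs => rw [h1]
  rw [← mul_assoc, Complex.conj_mul', ← Complex.ofReal_pow, Complex.re_ofReal_mul]

end ACM_

open ACM_ in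
/-- CHN-ACM. -/
theorem p_ACM (hULG : T_ULG) (hAZR : T_AZR) : T_ACM := by
  intro a ha c x y hc hx
  let f : ℝ → ℂ := fun t => Airy (ln c y t)
  let k : ℝ → ℂ := fun t => Airy (ln c 0 t)
  have hf : ∀ t, HasDerivAt f (Airy' (ln c y t)) t := by
    intro t
    have := (Airy_hasDerivAt (ln c y t)).comp t (ln_deriv c y t)
    rwa [mul_one] at this
  have hk : ∀ t, HasDerivAt k (Airy' (ln c 0 t)) t := by
    intro t
    have := (Airy_hasDerivAt (ln c 0 t)).comp t (ln_deriv c 0 t)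
    rwa [mul_one] at this
  have hfn : ∀ t, 0 ≤ t → f t ≠ 0 := fun t ht => airy_ne hAZR (by rw [ln_re]; linarith)
  have hkn : ∀ t, 0 ≤ t → k t ≠ 0 := fun t ht => airy_ne hAZR (by rw [ln_re]; linarith)
  let R : ℝ → ℝ := fun t => ‖f t‖ ^ 2 / ‖k t‖ ^ 2
  have hR : ∀ t, 0 ≤ t → HasDerivAt R ((2 * inner ℝ (f t) (Airy' (ln c y t)) * ‖k t‖ ^ 2 -
      ‖f t‖ ^ 2 * (2 * inner ℝ (k t) (Airy' (ln c 0 t)))) / (‖k t‖ ^ 2) ^ 2) t := by
    intro t ht
    have h1 : ‖k t‖ ^ 2 ≠ 0 := pow_ne_zero 2 (norm_ne_zero_iff.2 (hkn t ht))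
    exact (hf t).norm_sq.div (hk t).norm_sq h1
  have hanti : AntitoneOn R (Ici 0) := by
    refine antitoneOn_of_deriv_nonpos (convex_Ici 0) ?_ ?_ ?_
    · intro t ht
      exact (hR t ht).continuousAt.continuousWithinAt
    · intro t ht
      rw [interior_Ici] at ht
      replace ht : (0 : ℝ) < t := ht
      exact (hR t ht.le).differentiableAt.differentiableWithinAt
    · intro t ht
      rw [interior_Ici] at ht
      replace ht : (0 : ℝ) < t := ht
      rw [(hR t ht.le).deriv]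
      refine div_nonpos_of_nonpos_of_nonneg ?_ (by positivity)
      rw [inner_eq (hfn t ht.le), inner_eq (hkn t ht.le)]
      have h3 := log_le hULG ha (s := ln c y t) (by rw [ln_re]; linarith [ht.le])
      have h4 : ((ln c y t).re : ℂ) = ln c 0 t := by
        rw [ln_re]; simp [ln]
      rw [h4] at h3
      have h5 : (Airy' (ln c y t) / f t).re ≤ (Airy' (ln c 0 t) / k t).re := h3
      have h6 : 0 ≤ ‖f t‖ ^ 2 * ‖k t‖ ^ 2 := by positivity
      nlinarith
  have h7 := hanti (self_mem_Ici : (0 : ℝ) ∈ Ici 0) hx hx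
  have hk0 : 0 < ‖k 0‖ := norm_pos_iff.2 (hkn 0 le_rfl)
  have hkx : 0 < ‖k x‖ := norm_pos_iff.2 (hkn x hx)
  have h8 : ‖f x‖ ^ 2 * ‖k 0‖ ^ 2 ≤ ‖f 0‖ ^ 2 * ‖k x‖ ^ 2 := by
    have h9 : ‖f x‖ ^ 2 / ‖k x‖ ^ 2 ≤ ‖f 0‖ ^ 2 / ‖k 0‖ ^ 2 := h7
    rwa [div_le_div_iff₀ (by positivity) (by positivity)] at h9
  have h10 : ‖f x‖ * ‖k 0‖ ≤ ‖f 0‖ * ‖k x‖ := by
    refine le_of_sq_le_sq ?_ (by positivity)
    rw [mul_pow, mul_pow]
    exact h8
  have e1 : k 0 = Airy (c : ℂ) := by simp [k, ln]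
  have e2 : f 0 = Airy ((c : ℂ) + Complex.I * y) := by simp [f, ln]
  have e3 : k x = Airy ((c + x : ℝ) : ℂ) := by simp [k, ln]
  rw [e1, e2, e3] at h10
  calc ‖Airy (((c + x : ℝ) : ℂ) + Complex.I * y)‖ * ‖Airy (c : ℂ)‖ ≤
      ‖Airy ((c : ℂ) + Complex.I * y)‖ * ‖Airy ((c + x : ℝ) : ℂ)‖ := h10
    _ = _ := mul_comm _ _

end Pool.Agent.CHN
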