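import Pool.Agent.CHN.Targets

/-! # CHN-AEN: enumeration of the Airy zeros -/

set_option autoImplicit false

open MeasureTheory ProbabilityTheory Filter Topology Set
open scoped NNReal

namespace Pool.Agent.CHN

open Pool.Agent.Freud (Airy Airy')

namespace AEN_

theorem A_der (z : ℂ) : HasDerivAt Airy (Airy' z) z := Freud.Airy_hasDerivAt z
theorem A'_der (z : ℂ) : HasDerivAt Airy' (z * Airy z) z := Freud.Airy'_hasDerivAt z

/-- uniqueness for the Airy equation, centred at `w` -/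
theorem unique (w : ℂ) (h0 : Airy w = 0) (h0' : Airy' w = 0) (ζ : ℂ) : Airy (w + ζ) = 0 := by
  let f : ℝ → ℂ × ℂ := fun t => (Airy (w + t * ζ), Airy' (w + t * ζ))
  let f' : ℝ → ℂ × ℂ := fun t =>
    (Airy' (w + t * ζ) * ζ, ((w + t * ζ) * Airy (w + t * ζ)) * ζ)
  have hline : ∀ t : ℝ, HasDerivAt (fun t : ℝ => w + (t : ℂ) * ζ) ζ t := by
    intro t
    have := ((Complex.ofRealCLM.hasDerivAt (x := t)).mul_const ζ).const_add w
    simpa using this
  have hf : ∀ t, HasDerivAt f (f' t) t := by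
    intro t
    exact ((A_der _).comp_of_eq t (hline t) rfl).prodMk ((A'_der _).comp_of_eq t (hline t) rfl)
  have key := eq_zero_of_abs_deriv_le_mul_abs_self_of_eq_zero_right (f := f) (f' := f')
    (K := ‖ζ‖ + (‖w‖ + ‖ζ‖) * ‖ζ‖) (a := 0) (b := 1)
    (fun t _ => (hf t).continuousAt.continuousWithinAt)
    (fun t _ => (hf t).hasDerivWithinAt)
    (by simp [f, h0, h0'])
    (by
      intro t ht
      have ht0 : 0 ≤ t := ht.1
      have ht1 : t ≤ 1 := ht.2.le
      have e1 : ‖Airy (w + t * ζ)‖ ≤ ‖f t‖ := norm_fst_le (f t)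
      have e2 : ‖Airy' (w + t * ζ)‖ ≤ ‖f t‖ := norm_snd_le (f t)
      have e3 : ‖w + (t : ℂ) * ζ‖ ≤ ‖w‖ + ‖ζ‖ := by
        refine (norm_add_le _ _).trans ?_
        rw [norm_mul, Complex.norm_real, Real.norm_eq_abs, abs_of_nonneg ht0]
        have := mul_le_mul_of_nonneg_right ht1 (norm_nonneg ζ)
        linarith
      rw [Prod.norm_def]
      apply max_le
      · calc ‖(f' t).1‖ = ‖Airy' (w + t * ζ)‖ * ‖ζ‖ := norm_mul _ _
          _ ≤ ‖f t‖ * ‖ζ‖ := by gcongr
          _ ≤ (‖ζ‖ + (‖w‖ + ‖ζ‖) * ‖ζ‖) * ‖f t‖ := by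
              have e4 : 0 ≤ (‖w‖ + ‖ζ‖) * ‖ζ‖ * ‖f t‖ := by positivity
              nlinarith
      · calc ‖(f' t).2‖ = ‖w + (t : ℂ) * ζ‖ * ‖Airy (w + t * ζ)‖ * ‖ζ‖ := by
              show ‖(w + (t : ℂ) * ζ) * Airy (w + t * ζ) * ζ‖ = _
              rw [norm_mul, norm_mul]
          _ ≤ (‖w‖ + ‖ζ‖) * ‖f t‖ * ‖ζ‖ := by gcongr
          _ ≤ (‖ζ‖ + (‖w‖ + ‖ζ‖) * ‖ζ‖) * ‖f t‖ := by
              have e4 := mul_nonneg (norm_nonneg ζ) (norm_nonneg (f t))
              nlinarith)
    1 ⟨zero_le_one, le_rfl⟩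
  have e3 : f 1 = (Airy (w + ζ), Airy' (w + ζ)) := by simp [f]
  rw [e3] at key
  exact (Prod.mk_eq_zero.1 key).1

/-- finitely many zeros: exponential growth on the imaginary axis -/
theorem growth (S : Finset ℂ) (hne : ∀ y : ℝ, Airy (Complex.I * y) ≠ 0)
    (hS : ∀ y : ℝ, ∀ w ∈ S, Complex.I * y ≠ w)
    (hml : ∀ y : ℝ, ∑ w ∈ S, 1 / (Complex.I * y - w) ^ 2 =
      (Airy' (Complex.I * y) / Airy (Complex.I * y)) ^ 2 - Complex.I * y) :
    ∃ K L : ℝ, 0 < L ∧ 0 < K ∧ ∀ y : ℝ, 0 ≤ y →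
      ‖Airy (Complex.I * y)‖ ≤ K * Real.exp (L * y) := by
  have hline : ∀ y : ℝ, HasDerivAt (fun y : ℝ => Complex.I * (y : ℂ)) Complex.I y := by
    intro y
    have := (Complex.ofRealCLM.hasDerivAt (x := y)).const_mul Complex.I
    simpa using this
  have hA : ∀ y : ℝ, HasDerivAt (fun y : ℝ => Airy (Complex.I * y))
      (Airy' (Complex.I * y) * Complex.I) y :=
    fun y => (A_der _).comp_of_eq y (hline y) rfl
  have hA' : ∀ y : ℝ, HasDerivAt (fun y : ℝ => Airy' (Complex.I * y))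
      (Complex.I * y * Airy (Complex.I * y) * Complex.I) y :=
    fun y => (A'_der _).comp_of_eq y (hline y) rfl
  have hw : ∀ y : ℝ, ∀ w ∈ S, HasDerivAt (fun y : ℝ => 1 / (Complex.I * y - w))
      (-Complex.I * (1 / (Complex.I * y - w) ^ 2)) y := by
    intro y w hwS
    have h1 : Complex.I * y - w ≠ 0 := sub_ne_zero.2 (hS y w hwS)
    have h2 := ((hline y).sub_const w).inv h1
    have e : (fun y : ℝ => 1 / (Complex.I * (y : ℂ) - w)) =
        fun y : ℝ => (Complex.I * (y : ℂ) - w)⁻¹ := by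
      funext y
      rw [one_div]
    rw [e]
    refine h2.congr_deriv ?_
    ring
  set D : ℝ → ℂ := fun y => Airy' (Complex.I * y) / Airy (Complex.I * y) -
    ∑ w ∈ S, 1 / (Complex.I * y - w) with hD
  have hDd : ∀ y : ℝ, HasDerivAt D 0 y := by
    intro y
    have h1 := ((hA' y).div (hA y) (hne y)).sub (HasDerivAt.fun_sum (hw y))
    refine h1.congr_deriv ?_
    rw [← Finset.mul_sum, hml y]
    have h2 := hne y
    field_simp
    ring
  have hDc : ∀ y : ℝ, D y = D 0 := by
    intro y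
    exact is_const_of_deriv_eq_zero (fun y => (hDd y).differentiableAt)
      (fun y => (hDd y).deriv) y 0
  set c := D 0 with hc
  -- the product
  have hP : ∀ y : ℝ, HasDerivAt (fun y : ℝ => ∏ w ∈ S, (Complex.I * (y : ℂ) - w))
      ((∏ w ∈ S, (Complex.I * (y : ℂ) - w)) *
        (Complex.I * ∑ w ∈ S, 1 / (Complex.I * (y : ℂ) - w))) y := by
    intro y
    have h1 := HasDerivAt.fun_finsetProd (u := S) (f := fun w (y : ℝ) => Complex.I * (y : ℂ) - w)
      (f' := fun _ => Complex.I) (x := y) (fun w _ => (hline y).sub_const w)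
    refine h1.congr_deriv ?_
    rw [Finset.mul_sum, Finset.mul_sum]
    refine Finset.sum_congr rfl fun w hwS => ?_
    rw [smul_eq_mul, ← Finset.mul_prod_erase S _ hwS]
    have h2 : Complex.I * y - w ≠ 0 := sub_ne_zero.2 (hS y w hwS)
    field_simp
  have hPne : ∀ y : ℝ, ∏ w ∈ S, (Complex.I * (y : ℂ) - w) ≠ 0 := fun y =>
    Finset.prod_ne_zero_iff.2 fun w hwS => sub_ne_zero.2 (hS y w hwS)
  have hE : ∀ y : ℝ, HasDerivAt (fun y : ℝ => Complex.exp (-(c * (Complex.I * y))))
      (Complex.exp (-(c * (Complex.I * y))) * (-(c * Complex.I))) y := by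
    intro y
    exact ((hline y).const_mul c).fun_neg.cexp
  set H : ℝ → ℂ := fun y => Airy (Complex.I * y) * Complex.exp (-(c * (Complex.I * y))) /
    ∏ w ∈ S, (Complex.I * (y : ℂ) - w) with hH
  have hHd : ∀ y : ℝ, HasDerivAt H 0 y := by
    intro y
    have h1' : HasDerivAt (fun y : ℝ => Airy (Complex.I * y) *
        Complex.exp (-(c * (Complex.I * y)))) (Airy' (Complex.I * y) * Complex.I *
        Complex.exp (-(c * (Complex.I * y))) + Airy (Complex.I * y) *
        (Complex.exp (-(c * (Complex.I * y))) * (-(c * Complex.I)))) y := (hA y).mul (hE y)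
    have h1 := h1'.div (hP y) (hPne y)
    refine h1.congr_deriv ?_
    have h2 : ∑ w ∈ S, 1 / (Complex.I * (y : ℂ) - w) =
        Airy' (Complex.I * y) / Airy (Complex.I * y) - c := by
      rw [← hDc y, hD]
      ring
    rw [h2]
    have h3 := hne y
    have h4 := hPne y
    rw [div_eq_zero_iff]
    left
    field_simp
    ring
  have hHc : ∀ y : ℝ, H y = H 0 := by
    intro y
    exact is_const_of_deriv_eq_zero (fun y => (hHd y).differentiableAt)
      (fun y => (hHd y).deriv) y 0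
  have hA0 : ∀ y : ℝ, Airy (Complex.I * y) =
      H 0 * Complex.exp (c * (Complex.I * y)) * ∏ w ∈ S, (Complex.I * (y : ℂ) - w) := by
    intro y
    rw [← hHc y, hH]
    simp only
    rw [Complex.exp_neg]
    have h4 := hPne y
    have h5 := Complex.exp_ne_zero (c * (Complex.I * y))
    field_simp
  refine ⟨(‖H 0‖ + 1) * Real.exp (∑ w ∈ S, ‖w‖), ‖c‖ + S.card + 1,
    add_pos_of_nonneg_of_pos (add_nonneg (norm_nonneg _) (Nat.cast_nonneg _)) one_pos,
    mul_pos (add_pos_of_nonneg_of_pos (norm_nonneg _) one_pos) (Real.exp_pos _),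
    fun y hy => ?_⟩
  rw [hA0 y, norm_mul, norm_mul, Complex.norm_exp]
  have h1 : (c * (Complex.I * y)).re ≤ ‖c‖ * y := by
    refine (Complex.re_le_norm _).trans ?_
    rw [norm_mul, norm_mul, Complex.norm_I, one_mul, Complex.norm_real, Real.norm_eq_abs,
      abs_of_nonneg hy]
  have h2 : ‖∏ w ∈ S, (Complex.I * (y : ℂ) - w)‖ ≤ Real.exp (S.card * y + ∑ w ∈ S, ‖w‖) := by
    rw [norm_prod]
    have h3 : ∀ w ∈ S, ‖Complex.I * (y : ℂ) - w‖ ≤ Real.exp (y + ‖w‖) := by
      intro w _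
      have h4 : ‖Complex.I * (y : ℂ) - w‖ ≤ y + ‖w‖ := by
        refine (norm_sub_le _ _).trans ?_
        rw [norm_mul, Complex.norm_I, one_mul, Complex.norm_real, Real.norm_eq_abs,
          abs_of_nonneg hy]
      have h5 := Real.add_one_le_exp (y + ‖w‖)
      linarith
    refine (Finset.prod_le_prod (fun w _ => norm_nonneg _) h3).trans ?_
    rw [← Real.exp_sum, Finset.sum_add_distrib, Finset.sum_const, nsmul_eq_mul]
  calc ‖H 0‖ * Real.exp (c * (Complex.I * y)).re * ‖∏ w ∈ S, (Complex.I * (y : ℂ) - w)‖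
      ≤ (‖H 0‖ + 1) * Real.exp (‖c‖ * y) * Real.exp (S.card * y + ∑ w ∈ S, ‖w‖) := by
        gcongr
        linarith
    _ ≤ (‖H 0‖ + 1) * Real.exp (∑ w ∈ S, ‖w‖) * Real.exp ((‖c‖ + S.card + 1) * y) := by
        rw [mul_assoc, mul_assoc, ← Real.exp_add, ← Real.exp_add]
        refine mul_le_mul_of_nonneg_left (Real.exp_le_exp.2 ?_) (by positivity)
        nlinarith

/-- growth of order `3/2` is not bounded by exponential growth -/
theorem contra (c K L : ℝ) (hc : 0 < c) (hK : 0 < K) (hL : 0 < L)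
    (h : ∀ y : ℝ, 0 ≤ y → c * Real.exp (c * |y| ^ (3 / 2 : ℝ)) ≤ K * Real.exp (L * y)) :
    False := by
  set s := (L + 1) / c + K / c + 1 with hs
  have hs1 : 1 ≤ s := by
    have : 0 < (L + 1) / c + K / c := by positivity
    linarith
  have hs0 : 0 < s := by linarith
  have h1 := h (s ^ 2) (sq_nonneg s)
  have h2 : |s ^ 2| ^ (3 / 2 : ℝ) = s ^ 3 := by
    rw [abs_of_nonneg (sq_nonneg s), ← Real.rpow_natCast s 2, ← Real.rpow_mul hs0.le,
      ← Real.rpow_natCast s 3]
    norm_num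
  rw [h2] at h1
  have h3 : L + 1 ≤ c * s := by
    have e : c * s = (L + 1) + K + c := by
      rw [hs]
      field_simp
    rw [e]
    linarith
  have h4 : L * s ^ 2 + s ^ 2 ≤ c * s ^ 3 := by
    have := mul_le_mul_of_nonneg_right h3 (sq_nonneg s)
    nlinarith
  have h5 : Real.exp (L * s ^ 2) * Real.exp (s ^ 2) ≤ Real.exp (c * s ^ 3) := by
    rw [← Real.exp_add]
    exact Real.exp_le_exp.2 h4
  have h6 : K < c * Real.exp (s ^ 2) := by
    have h7 := Real.add_one_le_exp (s ^ 2)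
    have h8 : K / c ≤ s := by
      have : 0 < (L + 1) / c := by positivity
      linarith
    have h9 : s ≤ s ^ 2 := by nlinarith
    have h10 : K ≤ c * s := by
      rw [div_le_iff₀ hc] at h8
      linarith
    nlinarith
  have h7 := Real.exp_pos (L * s ^ 2)
  have h8 : K * Real.exp (L * s ^ 2) < c * Real.exp (c * s ^ 3) := by
    calc K * Real.exp (L * s ^ 2) < c * Real.exp (s ^ 2) * Real.exp (L * s ^ 2) :=
          mul_lt_mul_of_pos_right h6 h7
      _ = c * (Real.exp (L * s ^ 2) * Real.exp (s ^ 2)) := by ring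
      _ ≤ c * Real.exp (c * s ^ 3) := mul_le_mul_of_nonneg_left h5 hc.le
  linarith

end AEN_

open AEN_ in
theorem p_AEN (hAGR : T_AGR) (hAZR : T_AZR) (hALO : T_ALO) (hHAD : T_HAD) : T_AEN := by
  obtain ⟨C, hC, hgr⟩ := hAGR
  obtain ⟨c, hc, hlow⟩ := hALO
  have hne : ∀ y : ℝ, Airy (Complex.I * y) ≠ 0 := by
    intro y h
    have h1 := hlow y
    rw [h, norm_zero] at h1
    have := mul_pos hc (Real.exp_pos (c * |y| ^ (3 / 2 : ℝ)))
    linarith
  have h00 : Airy 0 ≠ 0 := by
    have := hne 0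
    simpa using this
  have hd : deriv Airy = Airy' := funext fun z => (A_der z).deriv
  have hd' : deriv Airy' = fun z => z * Airy z := funext fun z => (A'_der z).deriv
  have hsimple : ∀ w, Airy w = 0 → deriv Airy w ≠ 0 := by
    intro w hw hw'
    rw [hd] at hw'
    have := unique w hw hw' (-w)
    rw [add_neg_cancel] at this
    exact h00 this
  obtain ⟨hsum, hml⟩ := hHAD Airy C (fun z => (A_der z).differentiableAt) h00 hgr hsimple
  have hml' : ∀ z : ℂ, Airy z ≠ 0 →
      HasSum (fun w : {w : ℂ // Airy w = 0} => 1 / (z - (w : ℂ)) ^ 2)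
        ((Airy' z / Airy z) ^ 2 - z) := by
    intro z hz
    have h1 := hml z hz
    rw [hd, hd'] at h1
    simp only at h1
    rwa [mul_div_assoc, div_self hz, mul_one] at h1
  -- countable
  have hcount : Countable {w : ℂ // Airy w = 0} := by
    have h1 := hsum.countable_support
    have h2 : Function.support (fun w : {w : ℂ // Airy w = 0} => 1 / ‖(w : ℂ)‖ ^ 2) =
        Set.univ := by
      rw [Set.eq_univ_iff_forall]
      intro w
      rw [Function.mem_support]
      have h3 : (w : ℂ) ≠ 0 := by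
        intro h
        have := w.2
        rw [h] at this
        exact h00 this
      have := norm_pos_iff.2 h3
      positivity
    rw [h2] at h1
    exact Set.countable_univ_iff.1 h1
  -- infinite
  have hinf : Infinite {w : ℂ // Airy w = 0} := by
    by_contra hfin
    rw [not_infinite_iff_finite] at hfin
    have hfin' : Finite ({w : ℂ | Airy w = 0} : Set ℂ) := hfin
    have hfs : Set.Finite {w : ℂ | Airy w = 0} := Set.toFinite _
    set S := hfs.toFinset with hS
    have hmem : ∀ w, w ∈ S ↔ Airy w = 0 := fun w => by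
      rw [hS, Set.Finite.mem_toFinset]
      rfl
    obtain ⟨K, L, hL, hK, hbd⟩ := growth S hne
      (fun y w hw h => by
        rw [hmem] at hw
        rw [← h] at hw
        exact hne y hw)
      (fun y => by
        have h1 := hml' (Complex.I * y) (hne y)
        have h2 : HasSum (fun w : {w : ℂ // w ∈ S} => 1 / (Complex.I * y - (w : ℂ)) ^ 2)
            ((Airy' (Complex.I * y) / Airy (Complex.I * y)) ^ 2 - Complex.I * y) := by
          let e : {w : ℂ // w ∈ S} ≃ {w : ℂ // Airy w = 0} :=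
            Equiv.subtypeEquivRight hmem
          exact (e.hasSum_iff).2 h1
        have h3 := hasSum_fintype
          (fun w : {w : ℂ // w ∈ S} => 1 / (Complex.I * y - (w : ℂ)) ^ 2)
        exact (Finset.sum_coe_sort S (fun w => 1 / (Complex.I * y - w) ^ 2)).symm.trans
          (h3.unique h2))
    exact contra c K L hc hK hL fun y hy => (hlow y).trans (hbd y hy)
  obtain ⟨den⟩ := nonempty_denumerable_iff.2 ⟨hcount, hinf⟩
  let e : ℕ ≃ {w : ℂ // Airy w = 0} := (Denumerable.eqv {w : ℂ // Airy w = 0}).symm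
  have hre : ∀ k, ((e k : ℂ)) = -(((-(e k : ℂ).re : ℝ)) : ℂ) := by
    intro k
    have h1 := (hAZR (e k) (e k).2).1
    apply Complex.ext
    · simp
    · simp [h1]
  refine ⟨fun k => -(e k : ℂ).re, ?_, ?_, ?_, ?_, ?_⟩
  · intro k l hkl
    have h1 : (e k : ℂ) = e l := by
      rw [hre k, hre l]
      simp only at hkl
      rw [hkl]
    exact e.injective (Subtype.ext h1)
  · intro k
    have := (hAZR (e k) (e k).2).2
    linarith
  · have h1 := (e.summable_iff).2 hsum
    refine h1.congr fun k => ?_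
    simp only [Function.comp]
    rw [hre k, norm_neg, Complex.norm_real, Real.norm_eq_abs, sq_abs]
    simp
  · intro z
    constructor
    · intro hz
      obtain ⟨k, hk⟩ := e.surjective ⟨z, hz⟩
      refine ⟨k, ?_⟩
      rw [← hre k, hk]
    · rintro ⟨k, hk⟩
      rw [hk, ← hre k]
      exact (e k).2
  · intro z hz
    have h1 := (e.hasSum_iff).2 (hml' z hz)
    have h2 : (fun k => 1 / (z + ((-(e k : ℂ).re : ℝ) : ℂ)) ^ 2) =
        (fun w : {w : ℂ // Airy w = 0} => 1 / (z - (w : ℂ)) ^ 2) ∘ e := by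
      funext k
      simp only [Function.comp]
      nth_rw 2 [hre k]
      rw [sub_neg_eq_add]
    rw [h2]
    exact h1

end Pool.Agent.CHN
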