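import Pool.Agent.CHN.Targets
import Pool.Agent.Freud.AiryA

/-!
# Project CHN: growth of the Airy function
-/

set_option autoImplicit false

open MeasureTheory ProbabilityTheory Filter Topology Set
open scoped NNReal

namespace Pool.Agent.CHN

open Pool.Agent.Freud (Airy Airy' aaJ aaF aaJ_const)

namespace AGR_

theorem norm_aaF (z : ℂ) (c : ℝ) (hc : 0 < c) (s : ℝ) :
    ‖aaF 0 z ((c : ℂ) + Complex.I * s)‖ ≤
      Real.exp (c ^ 3 / 3 + c * ‖z‖ + ‖z‖ ^ 2 / (2 * c)) * Real.exp (-(c / 2) * s ^ 2) := by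
  unfold aaF
  rw [pow_zero, one_mul, Complex.norm_exp, ← Real.exp_add]
  apply Real.exp_le_exp.mpr
  have e2 : (((c : ℂ) + Complex.I * s) ^ 3 / 3).re = c ^ 3 / 3 - c * s ^ 2 := by
    have e3 : (((c : ℂ) + Complex.I * s) ^ 3 / 3).re = (((c : ℂ) + Complex.I * s) ^ 3).re / 3 := by
      rw [show ((c : ℂ) + Complex.I * s) ^ 3 / 3 = ((c : ℂ) + Complex.I * s) ^ 3 / ((3 : ℝ) : ℂ) by
        norm_num, Complex.div_ofReal_re]
    rw [e3, pow_succ, pow_two]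
    simp only [Complex.mul_re, Complex.mul_im, Complex.add_re, Complex.add_im, Complex.I_re,
      Complex.I_im, Complex.ofReal_re, Complex.ofReal_im]
    ring
  have e4 : (z * ((c : ℂ) + Complex.I * s)).re = c * z.re - s * z.im := by
    simp only [Complex.mul_re, Complex.mul_im, Complex.add_re, Complex.add_im, Complex.I_re,
      Complex.I_im, Complex.ofReal_re, Complex.ofReal_im]
    ring
  rw [Complex.sub_re, e2, e4]
  have h1 : -(c * z.re) ≤ c * ‖z‖ := by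
    have := (abs_le.1 (Complex.abs_re_le_norm z)).1
    nlinarith
  have h2 : s * z.im ≤ c / 2 * s ^ 2 + ‖z‖ ^ 2 / (2 * c) := by
    have h3 : z.im ^ 2 ≤ ‖z‖ ^ 2 := by
      have := Complex.abs_im_le_norm z
      rw [← sq_abs z.im]
      exact pow_le_pow_left₀ (abs_nonneg _) this 2
    have h4 : c / 2 * s ^ 2 + ‖z‖ ^ 2 / (2 * c) - s * z.im =
        ((c * s - z.im) ^ 2 + (‖z‖ ^ 2 - z.im ^ 2)) / (2 * c) := by
      field_simp
      ring
    have h5 : 0 ≤ ((c * s - z.im) ^ 2 + (‖z‖ ^ 2 - z.im ^ 2)) / (2 * c) :=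
      div_nonneg (add_nonneg (sq_nonneg _) (sub_nonneg.2 h3)) (by positivity)
    linarith
  linarith

theorem norm_Airy_le (z : ℂ) (c : ℝ) (hc : 1 ≤ c) :
    ‖Airy z‖ ≤ Real.exp (c ^ 3 / 3 + c * ‖z‖ + ‖z‖ ^ 2 / (2 * c)) := by
  have hc0 : 0 < c := lt_of_lt_of_le one_pos hc
  have h0 : Airy z = 1 / (2 * (Real.pi : ℂ)) * aaJ 0 z (c : ℂ) := by
    rw [aaJ_const 0 z (c : ℂ) (by simpa using hc0)]
    unfold Airy aaJ aaF
    simp
  have hint : Integrable (fun s : ℝ => Real.exp (c ^ 3 / 3 + c * ‖z‖ + ‖z‖ ^ 2 / (2 * c)) *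
      Real.exp (-(c / 2) * s ^ 2)) :=
    (integrable_exp_neg_mul_sq (by positivity)).const_mul _
  have h1 : ‖aaJ 0 z (c : ℂ)‖ ≤ Real.exp (c ^ 3 / 3 + c * ‖z‖ + ‖z‖ ^ 2 / (2 * c)) *
      √(Real.pi / (c / 2)) := by
    unfold aaJ
    calc ‖∫ s : ℝ, aaF 0 z ((c : ℂ) + Complex.I * s)‖
        ≤ ∫ s : ℝ, Real.exp (c ^ 3 / 3 + c * ‖z‖ + ‖z‖ ^ 2 / (2 * c)) *
          Real.exp (-(c / 2) * s ^ 2) :=
          norm_integral_le_of_norm_le hint (Filter.Eventually.of_forall (norm_aaF z c hc0))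
      _ = _ := by rw [integral_const_mul, integral_gaussian]
  have h2 : √(Real.pi / (c / 2)) ≤ 2 * Real.pi := by
    rw [Real.sqrt_le_left (by positivity)]
    rw [div_le_iff₀ (by positivity)]
    have hpi : 3 < Real.pi := Real.pi_gt_three
    have h3 : Real.pi ≤ (2 * Real.pi) ^ 2 * (1 / 2) := by nlinarith
    have h4 : (2 * Real.pi) ^ 2 * (1 / 2) ≤ (2 * Real.pi) ^ 2 * (c / 2) := by
      apply mul_le_mul_of_nonneg_left _ (by positivity)
      linarith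
    linarith
  rw [h0, norm_mul]
  have h5 : ‖1 / (2 * (Real.pi : ℂ))‖ = 1 / (2 * Real.pi) := by
    rw [norm_div, norm_mul, norm_one]
    simp [abs_of_pos Real.pi_pos]
  rw [h5]
  calc 1 / (2 * Real.pi) * ‖aaJ 0 z (c : ℂ)‖
      ≤ 1 / (2 * Real.pi) * (Real.exp (c ^ 3 / 3 + c * ‖z‖ + ‖z‖ ^ 2 / (2 * c)) * (2 * Real.pi)) := by
        apply mul_le_mul_of_nonneg_left _ (by positivity)
        exact h1.trans (mul_le_mul_of_nonneg_left h2 (Real.exp_pos _).le)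
    _ = _ := by
        have := Real.pi_pos
        field_simp

end AGR_

open AGR_ in
theorem p_AGR : T_AGR := by
  refine ⟨Real.exp 2, Real.exp_pos _, fun z => ?_⟩
  have he : (2 : ℝ) ≤ Real.exp 2 := by
    have := Real.add_one_le_exp (2 : ℝ)
    linarith
  have hx0 : 0 ≤ ‖z‖ ^ (3 / 2 : ℝ) := Real.rpow_nonneg (norm_nonneg _) _
  rcases le_total 1 ‖z‖ with h | h
  · have hc1 : 1 ≤ √‖z‖ := Real.one_le_sqrt.2 h
    have hc0 : 0 < √‖z‖ := lt_of_lt_of_le one_pos hc1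
    have hsq : √‖z‖ ^ 2 = ‖z‖ := Real.sq_sqrt (norm_nonneg _)
    have hx : ‖z‖ ^ (3 / 2 : ℝ) = √‖z‖ ^ 3 := by
      conv_lhs => rw [← hsq]
      rw [← Real.rpow_natCast (√‖z‖) 2, ← Real.rpow_mul hc0.le, ← Real.rpow_natCast (√‖z‖) 3]
      norm_num
    refine (norm_Airy_le z _ hc1).trans ?_
    rw [hx]
    have h6 : √‖z‖ ^ 3 / 3 + √‖z‖ * ‖z‖ + ‖z‖ ^ 2 / (2 * √‖z‖) = (11 / 6) * √‖z‖ ^ 3 := by
      set c := √‖z‖ with hc
      rw [← hsq]
      field_simp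
      ring
    rw [h6]
    have h7 : 0 ≤ √‖z‖ ^ 3 := by positivity
    calc Real.exp (11 / 6 * √‖z‖ ^ 3) ≤ Real.exp (Real.exp 2 * √‖z‖ ^ 3) := by
          apply Real.exp_le_exp.mpr
          nlinarith
      _ = 1 * Real.exp (Real.exp 2 * √‖z‖ ^ 3) := (one_mul _).symm
      _ ≤ _ := by
          apply mul_le_mul_of_nonneg_right _ (Real.exp_pos _).le
          linarith
  · refine (norm_Airy_le z 1 le_rfl).trans ?_
    have h8 : (1 : ℝ) ^ 3 / 3 + 1 * ‖z‖ + ‖z‖ ^ 2 / (2 * 1) ≤ 2 := by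
      have := norm_nonneg z
      nlinarith
    calc Real.exp ((1 : ℝ) ^ 3 / 3 + 1 * ‖z‖ + ‖z‖ ^ 2 / (2 * 1)) ≤ Real.exp 2 :=
          Real.exp_le_exp.mpr h8
      _ = Real.exp 2 * 1 := (mul_one _).symm
      _ ≤ _ := by
          apply mul_le_mul_of_nonneg_left _ (Real.exp_pos _).le
          exact Real.one_le_exp (mul_nonneg (Real.exp_pos _).le hx0)

end Pool.Agent.CHN
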