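import Pool.Agent.CHN.Targets

/-!
# CHN-ALD: the logarithmic derivative of the Airy function in the right half-plane (helper98)
-/

set_option autoImplicit false

namespace Pool.Agent.CHN

open Pool.Agent.Freud (Airy Airy')

theorem p_ALD (hAZR : T_AZR) : T_ALD := by
  intro a ha
  have hS0 : 0 ≤ ∑' k, 1 / a k ^ 2 := tsum_nonneg fun k => by positivity
  refine ⟨1 + ∑' k, 1 / a k ^ 2, by linarith, fun z hz => ?_⟩
  have hne : Airy z ≠ 0 := fun h => absurd (hAZR z h).2 (not_lt.2 hz)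
  have hsum := ha.ml z hne
  have hb : ‖(Airy' z / Airy z) ^ 2 - z‖ ≤ ∑' k, 1 / a k ^ 2 := by
    refine hsum.norm_le_of_bounded ha.summ.hasSum fun k => ?_
    have h1 : a k ≤ ‖z + (a k : ℂ)‖ := by
      refine le_trans ?_ (Complex.re_le_norm _)
      simp only [Complex.add_re, Complex.ofReal_re]
      linarith
    have h2 := ha.pos k
    rw [norm_div, norm_one, norm_pow]
    exact one_div_le_one_div_of_le (by positivity) (pow_le_pow_left₀ h2.le h1 2)
  have h3 : ‖Airy' z / Airy z‖ ^ 2 ≤ ‖z‖ + ∑' k, 1 / a k ^ 2 := by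
    rw [← norm_pow]
    calc ‖(Airy' z / Airy z) ^ 2‖ = ‖((Airy' z / Airy z) ^ 2 - z) + z‖ := by rw [sub_add_cancel]
      _ ≤ ‖(Airy' z / Airy z) ^ 2 - z‖ + ‖z‖ := norm_add_le _ _
      _ ≤ _ := by linarith
  have h4 : ‖Airy' z / Airy z‖ ≤ (1 + ∑' k, 1 / a k ^ 2) * (1 + ‖z‖) := by
    have hz0 := norm_nonneg z
    rw [← pow_le_pow_iff_left₀ (norm_nonneg _) (by positivity) (two_ne_zero)]
    refine h3.trans ?_
    generalize (∑' k, 1 / a k ^ 2) = S at hS0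
    have h5 : 0 ≤ S * ‖z‖ := mul_nonneg hS0 hz0
    have h6 : 0 ≤ S * ‖z‖ ^ 2 := by positivity
    have h7 : 0 ≤ S ^ 2 * (1 + ‖z‖) ^ 2 := by positivity
    nlinarith [sq_nonneg ‖z‖]
  calc ‖Airy' z‖ = ‖Airy' z / Airy z‖ * ‖Airy z‖ := by
        rw [norm_div, div_mul_cancel₀ _ (norm_ne_zero_iff.2 hne)]
    _ ≤ _ := mul_le_mul_of_nonneg_right h4 (norm_nonneg _)

end Pool.Agent.CHN
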