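import Pool.Agent.CHN.Targets

/-!
# MP_0e7bd3_pr (project CHN): lower bound on the imaginary axis (helper43, job CHN-ALO)
-/

set_option autoImplicit false

open MeasureTheory ProbabilityTheory Filter Topology Set
open scoped NNReal

namespace Pool.Agent.CHN

open Pool.Agent.Freud (Airy Airy')

namespace ALO_

theorem re_pow (y : ℝ) (hy : 0 < y) :
    ((Complex.I * y) ^ (3 / 2 : ℂ)).re = -(√2 / 2) * y ^ (3 / 2 : ℝ) := by
  have hne : Complex.I * (y : ℂ) ≠ 0 :=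
    mul_ne_zero Complex.I_ne_zero (Complex.ofReal_ne_zero.2 hy.ne')
  have hlog : Complex.log (Complex.I * y) = (Real.log y : ℂ) + (Real.pi / 2 : ℝ) * Complex.I := by
    apply Complex.ext
    · rw [Complex.log_re]
      simp [abs_of_pos hy]
    · rw [Complex.log_im, mul_comm, Complex.arg_real_mul _ hy, Complex.arg_I]
      simp
  rw [Complex.cpow_def_of_ne_zero hne, hlog]
  have h1 : ((Real.log y : ℂ) + (Real.pi / 2 : ℝ) * Complex.I) * (3 / 2 : ℂ) =
      ((Real.log y * (3 / 2) : ℝ) : ℂ) + ((Real.pi - Real.pi / 4 : ℝ) : ℂ) * Complex.I := by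
    push_cast
    ring
  rw [h1, Complex.exp_add_mul_I, ← Complex.ofReal_exp, ← Complex.ofReal_cos, ← Complex.ofReal_sin,
    Real.cos_pi_sub, Real.cos_pi_div_four, Real.rpow_def_of_pos hy, Complex.re_ofReal_mul,
    Complex.add_re, Complex.ofReal_re, Complex.re_ofReal_mul, Complex.I_re]
  ring

theorem norm_quarter (y : ℝ) (hy : 0 < y) :
    ‖(Complex.I * y) ^ (1 / 4 : ℂ)‖ = y ^ (1 / 4 : ℝ) := by
  have hne : Complex.I * (y : ℂ) ≠ 0 :=
    mul_ne_zero Complex.I_ne_zero (Complex.ofReal_ne_zero.2 hy.ne')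
  rw [Complex.norm_cpow_of_ne_zero hne]
  simp [abs_of_pos hy]

theorem big : ∃ y0 : ℝ, 1 ≤ y0 ∧ ∀ y : ℝ, y0 ≤ y →
    1 / (40 * √Real.pi) * Real.exp (3 / 10 * y ^ (3 / 2 : ℝ)) ≤ ‖Airy (Complex.I * y)‖ := by
  obtain ⟨u, v, hu, -, hA⟩ := Pool.Agent.Freud.Airy_asymp
  obtain ⟨C, hC⟩ := hA 0 1 one_pos
  refine ⟨max 1 (2 * |C|), le_max_left _ _, fun y hy => ?_⟩
  have hy1 : 1 ≤ y := (le_max_left _ _).trans hy
  have hyC : 2 * |C| ≤ y := (le_max_right _ _).trans hy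
  have hy0 : 0 < y := by linarith
  have hn : ‖Complex.I * (y : ℂ)‖ = y := by simp [abs_of_pos hy0]
  have harg : |(Complex.I * (y : ℂ)).arg| ≤ Real.pi - 1 := by
    rw [mul_comm, Complex.arg_real_mul _ hy0, Complex.arg_I,
      abs_of_pos (by linarith [Real.pi_pos])]
    linarith [Real.pi_gt_three]
  have h1 := (hC (Complex.I * y) (by rw [hn]; exact hy1) harg).1
  simp only [zero_add, Finset.range_one, Finset.sum_singleton, pow_zero, inv_one, mul_one, hu,
    hn, Nat.cast_zero] at h1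
  set t := y ^ (3 / 2 : ℝ) with ht
  have ht1 : 1 ≤ t := Real.one_le_rpow hy1 (by norm_num)
  have hyt : y ≤ t := by
    calc y = y ^ (1 : ℝ) := (Real.rpow_one y).symm
      _ ≤ y ^ (3 / 2 : ℝ) := Real.rpow_le_rpow_of_exponent_le hy1 (by norm_num)
  have h2 : C * y ^ (-(3 / 2) : ℝ) ≤ 1 / 2 := by
    rw [Real.rpow_neg hy0.le, ← ht, ← div_eq_mul_inv, div_le_iff₀ (by linarith)]
    have := le_abs_self C
    linarith
  have h3 : ‖2 * √Real.pi * (Complex.I * y) ^ (1 / 4 : ℂ) *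
      Complex.exp (2 / 3 * (Complex.I * y) ^ (3 / 2 : ℂ)) * Airy (Complex.I * y) - 1‖ ≤ 1 / 2 := by
    refine le_trans ?_ h2
    convert h1 using 3
  have h4 : 1 / 2 ≤ ‖2 * √Real.pi * (Complex.I * y) ^ (1 / 4 : ℂ) *
      Complex.exp (2 / 3 * (Complex.I * y) ^ (3 / 2 : ℂ)) * Airy (Complex.I * y)‖ := by
    have := norm_sub_norm_le (1 : ℂ) (1 - 2 * √Real.pi * (Complex.I * y) ^ (1 / 4 : ℂ) *
      Complex.exp (2 / 3 * (Complex.I * y) ^ (3 / 2 : ℂ)) * Airy (Complex.I * y))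
    rw [sub_sub_cancel, norm_one, norm_sub_rev] at this
    linarith
  have hexp : ‖Complex.exp (2 / 3 * (Complex.I * y) ^ (3 / 2 : ℂ))‖ =
      Real.exp (-(√2 / 3) * t) := by
    rw [Complex.norm_exp]
    congr 1
    have h23 : (2 / 3 * (Complex.I * y) ^ (3 / 2 : ℂ)).re =
        2 / 3 * ((Complex.I * y) ^ (3 / 2 : ℂ)).re := by
      have : (2 / 3 : ℂ) = ((2 / 3 : ℝ) : ℂ) := by push_cast; rfl
      rw [this, Complex.re_ofReal_mul]
    rw [h23, re_pow y hy0]
    ring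
  have hsp : 0 < √Real.pi := Real.sqrt_pos.2 Real.pi_pos
  rw [norm_mul, norm_mul, norm_mul, norm_mul, norm_quarter y hy0, hexp, Complex.norm_real,
    Real.norm_of_nonneg hsp.le] at h4
  have h2n : ‖(2 : ℂ)‖ = 2 := by simp
  rw [h2n] at h4
  have hq : y ^ (1 / 4 : ℝ) ≤ t := Real.rpow_le_rpow_of_exponent_le hy1 (by norm_num)
  have hq2 : t ≤ 10 * Real.exp (t / 10) := by
    have := Real.add_one_le_exp (t / 10)
    linarith
  have hs2 : (12 / 10 : ℝ) ≤ √2 := by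
    apply Real.le_sqrt_of_sq_le
    norm_num
  have hE : Real.exp (-(√2 / 3) * t) ≤ Real.exp (-(4 / 10) * t) := by
    apply Real.exp_le_exp.2
    nlinarith
  have h5 : 1 / 2 ≤ 2 * √Real.pi * (10 * Real.exp (t / 10)) * Real.exp (-(4 / 10) * t) *
      ‖Airy (Complex.I * y)‖ := by
    refine h4.trans ?_
    gcongr
    exact hq.trans hq2
  have h6 : Real.exp (t / 10) * Real.exp (-(4 / 10) * t) * Real.exp (3 / 10 * t) = 1 := by
    rw [← Real.exp_add, ← Real.exp_add]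
    rw [← Real.exp_zero]
    congr 1
    ring
  have hE3 := Real.exp_pos (3 / 10 * t)
  have h7 : 1 / 2 * Real.exp (3 / 10 * t) ≤ 20 * √Real.pi * ‖Airy (Complex.I * y)‖ := by
    calc 1 / 2 * Real.exp (3 / 10 * t) ≤ 2 * √Real.pi * (10 * Real.exp (t / 10)) *
          Real.exp (-(4 / 10) * t) * ‖Airy (Complex.I * y)‖ * Real.exp (3 / 10 * t) := by
          gcongr
      _ = 20 * √Real.pi * ‖Airy (Complex.I * y)‖ *
          (Real.exp (t / 10) * Real.exp (-(4 / 10) * t) * Real.exp (3 / 10 * t)) := by ring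
      _ = 20 * √Real.pi * ‖Airy (Complex.I * y)‖ := by rw [h6, mul_one]
  rw [div_mul_eq_mul_div, one_mul, div_le_iff₀ (by positivity)]
  linarith

theorem sym (y : ℝ) : ‖Airy (Complex.I * y)‖ = ‖Airy (Complex.I * (|y| : ℝ))‖ := by
  rcases le_total 0 y with h | h
  · rw [abs_of_nonneg h]
  · rw [abs_of_nonpos h]
    have h1 : Complex.I * (y : ℂ) = starRingEnd ℂ (Complex.I * ((-y : ℝ) : ℂ)) := by
      rw [map_mul, Complex.conj_I, Complex.conj_ofReal]
      push_cast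
      ring
    rw [h1, Pool.Agent.Freud.Airy_conj, RCLike.norm_conj]

end ALO_

theorem p_ALO (hAZR : T_AZR) : T_ALO := by
  obtain ⟨y0, hy0, hbig⟩ := ALO_.big
  have hcont : Continuous fun y : ℝ => ‖Airy (Complex.I * y)‖ := by
    have h1 : Continuous Airy :=
      continuous_iff_continuousAt.2 fun z => (Pool.Agent.Freud.Airy_hasDerivAt z).continuousAt
    fun_prop
  obtain ⟨z, hz, hmin⟩ := (isCompact_Icc (a := (0 : ℝ)) (b := y0)).exists_isMinOn
    ⟨0, by constructor <;> linarith⟩ hcont.continuousOn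
  set m := ‖Airy (Complex.I * z)‖ with hm
  have hm0 : 0 < m := by
    rw [hm, norm_pos_iff]
    intro h
    have := (hAZR _ h).2
    simp at this
  set c := min (min (3 / 10) (1 / (40 * √Real.pi))) (m * Real.exp (-y0 ^ (3 / 2 : ℝ))) with hc
  have hsp : 0 < √Real.pi := Real.sqrt_pos.2 Real.pi_pos
  have hc0 : 0 < c := by
    rw [hc]
    positivity
  have hc1 : c ≤ 3 / 10 := (min_le_left _ _).trans (min_le_left _ _)
  have hc2 : c ≤ 1 / (40 * √Real.pi) := (min_le_left _ _).trans (min_le_right _ _)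
  have hc3 : c ≤ m * Real.exp (-y0 ^ (3 / 2 : ℝ)) := min_le_right _ _
  refine ⟨c, hc0, fun y => ?_⟩
  rw [ALO_.sym y]
  have hy : 0 ≤ |y| := abs_nonneg y
  generalize |y| = s at hy
  have ht0 : 0 ≤ s ^ (3 / 2 : ℝ) := Real.rpow_nonneg hy _
  rcases le_total y0 s with h | h
  · refine le_trans ?_ (hbig s h)
    gcongr
  · have h1 : m ≤ ‖Airy (Complex.I * s)‖ := hmin ⟨hy, h⟩
    refine le_trans ?_ h1
    have h2 : s ^ (3 / 2 : ℝ) ≤ y0 ^ (3 / 2 : ℝ) := Real.rpow_le_rpow hy h (by norm_num)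
    calc c * Real.exp (c * s ^ (3 / 2 : ℝ))
        ≤ (m * Real.exp (-y0 ^ (3 / 2 : ℝ))) * Real.exp (y0 ^ (3 / 2 : ℝ)) := by
          gcongr
          nlinarith
      _ = m := by
          rw [mul_assoc, ← Real.exp_add]
          simp

end Pool.Agent.CHN
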