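import Pool.Agent.CHN.Targets

/-!
# MP_0e7bd3_pr (project CHN): Airy on horizontal lines (CHN-ALX) (helper21)
-/

set_option autoImplicit false

open MeasureTheory ProbabilityTheory Filter Topology Set
open scoped NNReal

namespace Pool.Agent.CHN

open Pool.Agent.Freud (Airy Airy' Airy_hasDerivAt Airy'_hasDerivAt)

namespace ALX_

/-- the path -/
noncomputable def pth (x y t : ℝ) : ℂ := (x : ℂ) * t + Complex.I * y

theorem pth_deriv (x y t : ℝ) : HasDerivAt (pth x y) (x : ℂ) t := by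
  have h1 : HasDerivAt (fun t : ℝ => (x : ℂ) * (t : ℂ)) ((x : ℂ) * 1) t :=
    (Complex.ofRealCLM.hasDerivAt (x := t)).const_mul (x : ℂ)
  have h2 := h1.add_const (Complex.I * (y : ℂ))
  rw [mul_one] at h2
  exact h2

theorem pth_norm {x y t : ℝ} (h0 : 0 ≤ t) (h1 : t ≤ 1) : ‖pth x y t‖ ≤ |x| + |y| := by
  unfold pth
  calc ‖(x : ℂ) * t + Complex.I * y‖ ≤ ‖(x : ℂ) * t‖ + ‖Complex.I * (y : ℂ)‖ := norm_add_le _ _
    _ = |x| * |t| + |y| := by
        rw [norm_mul, norm_mul, Complex.norm_I, one_mul, Complex.norm_real, Complex.norm_real,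
          Complex.norm_real]
        rfl
    _ ≤ |x| + |y| := by
        have h2 : |t| ≤ 1 := by rw [abs_of_nonneg h0]; exact h1
        nlinarith [abs_nonneg x, abs_nonneg t]

end ALX_

open ALX_ in
/-- CHN-ALX. -/
theorem p_ALX (hALD : T_ALD) : T_ALX := by
  intro a ha
  obtain ⟨C, hC, hA⟩ := hALD a ha
  refine ⟨1 + C, by positivity, ?_⟩
  intro i x y
  set q : ℝ := √(|x| + |y| + 1) with hq
  have hs : 0 ≤ |x| + |y| + 1 := by positivity
  have hq2 : q ^ 2 = |x| + |y| + 1 := Real.sq_sqrt hs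
  have hq0 : 0 ≤ q := Real.sqrt_nonneg _
  have hq1 : 1 ≤ q := by
    rw [hq]
    apply Real.one_le_sqrt.2
    nlinarith [abs_nonneg x, abs_nonneg y]
  have hqpos : 0 < q := by linarith
  have hqle : q ≤ (1 + |x|) * (1 + |y|) := by
    have h0 := mul_nonneg (abs_nonneg x) (abs_nonneg y)
    have h1 : 1 ≤ (1 + |x|) * (1 + |y|) := by nlinarith [abs_nonneg x, abs_nonneg y]
    have h2 : q ^ 2 ≤ (1 + |x|) * (1 + |y|) := by
      rw [hq2]; nlinarith [mul_nonneg (abs_nonneg x) (abs_nonneg y)]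
    nlinarith
  let f : ℝ → ℂ × ℂ := fun t => (Airy (pth x y t), Airy' (pth x y t) / (q : ℂ))
  let f' : ℝ → ℂ × ℂ := fun t => (Airy' (pth x y t) * (x : ℂ),
    (pth x y t * Airy (pth x y t)) * (x : ℂ) / (q : ℂ))
  have hd : ∀ t, HasDerivAt f (f' t) t := by
    intro t
    refine HasDerivAt.prodMk ?_ ?_
    · exact (Airy_hasDerivAt (pth x y t)).comp t (pth_deriv x y t)
    · exact ((Airy'_hasDerivAt (pth x y t)).comp t (pth_deriv x y t)).div_const _
  have hqn : ‖(q : ℂ)‖ = q := by rw [Complex.norm_real]; exact abs_of_nonneg hq0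
  have hb : ∀ t ∈ Ico (0 : ℝ) 1, ‖f' t‖ ≤ (|x| * q) * ‖f t‖ + 0 := by
    intro t ht
    have hp := pth_norm (x := x) (y := y) ht.1 ht.2.le
    have hf1 : ‖Airy (pth x y t)‖ ≤ ‖f t‖ := norm_fst_le (f t)
    have hf2 : ‖Airy' (pth x y t)‖ / q ≤ ‖f t‖ := by
      have := norm_snd_le (f t)
      have e : ‖(f t).2‖ = ‖Airy' (pth x y t)‖ / q := by
        show ‖Airy' (pth x y t) / (q : ℂ)‖ = _
        rw [norm_div, hqn]
      rwa [e] at this
    have hxn : ‖(x : ℂ)‖ = |x| := Complex.norm_real x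
    rw [add_zero]
    refine (Prod.norm_mk _ _).le.trans (max_le ?_ ?_)
    · rw [norm_mul, hxn]
      have h3 : ‖Airy' (pth x y t)‖ ≤ q * ‖f t‖ := by
        rw [div_le_iff₀ hqpos] at hf2
        linarith
      calc ‖Airy' (pth x y t)‖ * |x| ≤ (q * ‖f t‖) * |x| := by gcongr
        _ = |x| * q * ‖f t‖ := by ring
    · rw [norm_div, norm_mul, norm_mul, hxn, hqn, div_le_iff₀ hqpos]
      have h4 : ‖pth x y t‖ ≤ q * q := by nlinarith
      calc ‖pth x y t‖ * ‖Airy (pth x y t)‖ * |x| ≤ (q * q) * ‖f t‖ * |x| := by gcongr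
        _ = |x| * q * ‖f t‖ * q := by ring
  have hg := norm_le_gronwallBound_of_norm_deriv_right_le (f := f) (f' := f') (δ := ‖f 0‖)
    (K := |x| * q) (ε := 0) (a := 0) (b := 1)
    (fun t _ => (hd t).continuousAt.continuousWithinAt)
    (fun t _ => (hd t).hasDerivWithinAt) le_rfl hb 1 (right_mem_Icc.2 zero_le_one)
  rw [gronwallBound_ε0, sub_zero, mul_one] at hg
  have hp0 : pth x y 0 = Complex.I * y := by simp [pth]
  have hp1 : pth x y 1 = (x : ℂ) + Complex.I * y := by simp [pth]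
  have hre : (0 : ℝ) ≤ (Complex.I * (y : ℂ)).re := by simp
  have hA0 := hA (Complex.I * y) hre
  have hny : ‖Complex.I * (y : ℂ)‖ = |y| := by
    rw [norm_mul, Complex.norm_I, one_mul, Complex.norm_real]; rfl
  rw [hny] at hA0
  have hnn : 0 ≤ ‖Airy (Complex.I * y)‖ := norm_nonneg _
  have hf0 : ‖f 0‖ ≤ (1 + C) * (1 + |y|) * ‖Airy (Complex.I * y)‖ := by
    refine (Prod.norm_mk _ _).le.trans (max_le ?_ ?_)
    · rw [hp0]
      have h5 : 1 ≤ (1 + C) * (1 + |y|) := by nlinarith [abs_nonneg y, mul_nonneg hC.le (abs_nonneg y)]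
      nlinarith
    · rw [hp0, norm_div, hqn, div_le_iff₀ hqpos]
      have h6 : C * (1 + |y|) * ‖Airy (Complex.I * y)‖ ≤
          (1 + C) * (1 + |y|) * ‖Airy (Complex.I * y)‖ := by
        gcongr
        linarith
      have h7 : 0 ≤ (1 + C) * (1 + |y|) * ‖Airy (Complex.I * y)‖ := by positivity
      nlinarith
  set E : ℝ := Real.exp (|x| * q) with hE
  have hEpos : 0 < E := Real.exp_pos _
  have hf1 : ‖f 1‖ ≤ (1 + C) * (1 + |y|) * ‖Airy (Complex.I * y)‖ * E :=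
    hg.trans (by gcongr)
  have hx1 : 1 ≤ 1 + |x| := by linarith [abs_nonneg x]
  have hy1 : 1 ≤ 1 + |y| := by linarith [abs_nonneg y]
  have hG : 0 ≤ (1 + C) * (1 + |y|) * ‖Airy (Complex.I * y)‖ * E := by positivity
  unfold Ak
  split_ifs with hi
  · have h8 : ‖Airy ((x : ℂ) + Complex.I * y)‖ ≤ ‖f 1‖ := by
      have := norm_fst_le (f 1)
      rw [← hp1]
      exact this
    calc ‖Airy ((x : ℂ) + Complex.I * y)‖
        ≤ (1 + C) * (1 + |y|) * ‖Airy (Complex.I * y)‖ * E := h8.trans hf1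
      _ ≤ ((1 + C) * (1 + |y|) * ‖Airy (Complex.I * y)‖ * E) * ((1 + |x|) * (1 + |y|)) := by
          have : 1 ≤ (1 + |x|) * (1 + |y|) := by nlinarith
          nlinarith
      _ = (1 + C) * (1 + |x|) * (1 + |y|) ^ 2 * E * ‖Airy (Complex.I * y)‖ := by ring
  · have h9 : ‖Airy' ((x : ℂ) + Complex.I * y)‖ ≤ q * ‖f 1‖ := by
      have := norm_snd_le (f 1)
      have e : ‖(f 1).2‖ = ‖Airy' (pth x y 1)‖ / q := by
        show ‖Airy' (pth x y 1) / (q : ℂ)‖ = _
        rw [norm_div, hqn]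
      rw [e, div_le_iff₀ hqpos, hp1] at this
      linarith
    calc ‖Airy' ((x : ℂ) + Complex.I * y)‖ ≤ q * ‖f 1‖ := h9
      _ ≤ ((1 + |x|) * (1 + |y|)) * ((1 + C) * (1 + |y|) * ‖Airy (Complex.I * y)‖ * E) := by
          gcongr
      _ = (1 + C) * (1 + |x|) * (1 + |y|) ^ 2 * E * ‖Airy (Complex.I * y)‖ := by ring

end Pool.Agent.CHN
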