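import Pool.Agent.CHN.Targets

/-!
# MP_0e7bd3_pr (project CHN): Airy on the positive half-line (CHN-ARE) (helper21)
-/

set_option autoImplicit false

open MeasureTheory ProbabilityTheory Filter Topology Set
open scoped NNReal

namespace Pool.Agent.CHN

open Pool.Agent.Freud (Airy Airy' Airy_hasDerivAt Airy_conj Airy_asymp)

namespace ARE_

theorem im_zero (x : ℝ) : (Airy (x : ℂ)).im = 0 := by
  have h := Airy_conj (x : ℂ)
  rw [Complex.conj_ofReal] at h
  exact Complex.conj_eq_iff_im.1 h.symm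

/-- the scaled function -/
noncomputable def F (x : ℝ) : ℝ := (Airy (x : ℂ)).re * Real.exp (2 / 3 * x ^ (3 / 2 : ℝ))

theorem cont_re : Continuous fun x : ℝ => (Airy (x : ℂ)).re := by
  have h1 : Continuous Airy := continuous_iff_continuousAt.2 fun z => (Airy_hasDerivAt z).continuousAt
  exact Complex.continuous_re.comp (h1.comp Complex.continuous_ofReal)

theorem cont_F : Continuous F := by
  refine cont_re.mul (Real.continuous_exp.comp (continuous_const.mul ?_))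
  exact Real.continuous_rpow_const (by norm_num)

theorem asym : ∃ C0 : ℝ, ∀ x : ℝ, 1 ≤ x →
    |2 * √Real.pi * x ^ (1 / 4 : ℝ) * F x - 1| ≤ C0 * x ^ (-(3 / 2) : ℝ) := by
  obtain ⟨u, v, hu, -, h⟩ := Airy_asymp
  obtain ⟨C, hC⟩ := h 0 1 one_pos
  refine ⟨C, fun x hx => ?_⟩
  have hx0 : 0 ≤ x := by linarith
  have hn : ‖(x : ℂ)‖ = x := by rw [Complex.norm_real]; exact abs_of_nonneg hx0
  have h1 := (hC (x : ℂ) (by rw [hn]; exact hx) (by
    rw [Complex.arg_ofReal_of_nonneg hx0, abs_zero]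
    linarith [Real.pi_gt_three])).1
  rw [hn] at h1
  have e0 : ∑ k ∈ Finset.range (0 + 1), u k * (((x : ℂ) ^ (3 / 2 : ℂ)) ^ k)⁻¹ = 1 := by
    simp [hu]
  rw [e0] at h1
  have e1 : (x : ℂ) ^ (1 / 4 : ℂ) = ((x ^ (1 / 4 : ℝ) : ℝ) : ℂ) := by
    rw [Complex.ofReal_cpow hx0]
    norm_num
  have e2 : (x : ℂ) ^ (3 / 2 : ℂ) = ((x ^ (3 / 2 : ℝ) : ℝ) : ℂ) := by
    rw [Complex.ofReal_cpow hx0]
    norm_num
  have e3 : Airy (x : ℂ) = (((Airy (x : ℂ)).re : ℝ) : ℂ) :=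
    Complex.ext (by simp) (by simp [im_zero])
  have e4 : 2 * (√Real.pi : ℂ) * (x : ℂ) ^ (1 / 4 : ℂ) *
      Complex.exp (2 / 3 * (x : ℂ) ^ (3 / 2 : ℂ)) * Airy (x : ℂ) - 1 =
      ((2 * √Real.pi * x ^ (1 / 4 : ℝ) * F x - 1 : ℝ) : ℂ) := by
    rw [e1, e2, e3]
    unfold F
    push_cast
    ring
  rw [e4, Complex.norm_real, Real.norm_eq_abs] at h1
  have e5 : (-(3 * ((0 : ℕ) + 1) / 2) : ℝ) = -(3 / 2) := by norm_num
  rw [e5] at h1
  exact h1

end ARE_

open ARE_ in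
/-- CHN-ARE. -/
theorem p_ARE (hAZR : T_AZR) : T_ARE := by
  obtain ⟨C0, hC0⟩ := asym
  have ht : Tendsto (fun x : ℝ => C0 * x ^ (-(3 / 2) : ℝ)) atTop (𝓝 (C0 * 0)) :=
    (tendsto_rpow_neg_atTop (by norm_num : (0 : ℝ) < 3 / 2)).const_mul C0
  rw [mul_zero] at ht
  have hev : ∀ᶠ x : ℝ in atTop, C0 * x ^ (-(3 / 2) : ℝ) ≤ 1 / 2 :=
    ht.eventually_le_const (by norm_num)
  obtain ⟨x1, hx1⟩ := eventually_atTop.1 hev
  set x0 : ℝ := max x1 1 with hx0
  have hx01 : 1 ≤ x0 := le_max_right _ _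
  have hpi1 : 1 ≤ √Real.pi := Real.one_le_sqrt.2 (by linarith [Real.pi_gt_three])
  have hpi2 : √Real.pi ≤ 2 := by
    rw [Real.sqrt_le_left (by norm_num)]
    linarith [Real.pi_lt_four]
  have hbig : ∀ x, x0 ≤ x → 1 / 8 ≤ F x * (1 + x) ∧ F x ≤ 1 := by
    intro x hx
    have hx1' : 1 ≤ x := hx01.trans hx
    have h1 := (hC0 x hx1').trans (hx1 x ((le_max_left _ _).trans hx))
    rw [abs_le] at h1
    set p : ℝ := x ^ (1 / 4 : ℝ) with hp
    have hp1 : 1 ≤ p := Real.one_le_rpow hx1' (by norm_num)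
    have hp2 : p ≤ 1 + x := by
      have : x ^ (1 / 4 : ℝ) ≤ x ^ (1 : ℝ) := Real.rpow_le_rpow_of_exponent_le hx1' (by norm_num)
      rw [Real.rpow_one] at this
      linarith
    have hpp : 0 < 2 * √Real.pi * p := by positivity
    have hFpos : 0 < F x := by
      by_contra hneg
      have : 2 * √Real.pi * p * F x ≤ 0 := mul_nonpos_of_nonneg_of_nonpos hpp.le (not_lt.1 hneg)
      linarith [h1.1]
    constructor
    · have h3 : 2 * √Real.pi * p * F x ≤ 4 * (1 + x) * F x := by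
        have : 2 * √Real.pi * p ≤ 4 * (1 + x) := by nlinarith
        exact mul_le_mul_of_nonneg_right this hFpos.le
      nlinarith [h1.1]
    · have h4 : 2 * F x ≤ 2 * √Real.pi * p * F x := by
        have : 2 ≤ 2 * √Real.pi * p := by nlinarith
        exact mul_le_mul_of_nonneg_right this hFpos.le
      linarith [h1.2]
  have hne : ∀ x : ℝ, 0 ≤ x → (Airy (x : ℂ)).re ≠ 0 := by
    intro x hx h
    have h1 : Airy (x : ℂ) = 0 := Complex.ext h (im_zero x)
    have := (hAZR _ h1).2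
    rw [Complex.ofReal_re] at this
    linarith
  have hpos : ∀ x : ℝ, 0 ≤ x → 0 < (Airy (x : ℂ)).re := by
    intro x hx
    by_contra hneg
    rw [not_lt] at hneg
    have hM : 0 < (Airy ((max x x0 : ℝ) : ℂ)).re := by
      have h1 := (hbig (max x x0) (le_max_right _ _)).1
      by_contra h2
      rw [not_lt] at h2
      have h3 : F (max x x0) ≤ 0 := mul_nonpos_of_nonpos_of_nonneg h2 (Real.exp_pos _).le
      have h4 : 0 ≤ 1 + max x x0 := by
        have := le_max_right x x0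
        linarith
      have h5 := mul_nonpos_of_nonpos_of_nonneg h3 h4
      linarith
    obtain ⟨z, hz, hz0⟩ := intermediate_value_Icc (le_max_left x x0) cont_re.continuousOn
      ⟨hneg, hM.le⟩
    exact hne z (hx.trans hz.1) hz0
  obtain ⟨xm, hxm, hmin⟩ := (isCompact_Icc (a := (0 : ℝ)) (b := x0)).exists_isMinOn
    ⟨0, le_rfl, by linarith⟩ cont_F.continuousOn
  obtain ⟨xM, hxM, hmax⟩ := (isCompact_Icc (a := (0 : ℝ)) (b := x0)).exists_isMaxOn
    ⟨0, le_rfl, by linarith⟩ cont_F.continuousOn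
  have hm : 0 < F xm := mul_pos (hpos xm hxm.1) (Real.exp_pos _)
  refine ⟨min (F xm) (1 / 8), max (F xM) 1, lt_min hm (by norm_num),
    lt_max_of_lt_right one_pos, fun x hx => ⟨im_zero x, ?_⟩⟩
  have hE : 0 < Real.exp (2 / 3 * x ^ (3 / 2 : ℝ)) := Real.exp_pos _
  have hEE : Real.exp (-(2 / 3 * x ^ (3 / 2 : ℝ))) * Real.exp (2 / 3 * x ^ (3 / 2 : ℝ)) = 1 := by
    rw [← Real.exp_add, neg_add_cancel, Real.exp_zero]
  have hA : (Airy (x : ℂ)).re = F x * Real.exp (-(2 / 3 * x ^ (3 / 2 : ℝ))) := by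
    unfold F
    rw [mul_assoc, mul_comm (Real.exp (2 / 3 * x ^ (3 / 2 : ℝ))), hEE, mul_one]
  have hkey : min (F xm) (1 / 8) ≤ F x * (1 + x) ∧ F x ≤ max (F xM) 1 := by
    by_cases hc : x ≤ x0
    · have h1 : F xm ≤ F x := hmin ⟨hx, hc⟩
      have h2 : F x ≤ F xM := hmax ⟨hx, hc⟩
      refine ⟨(min_le_left _ _).trans ?_, h2.trans (le_max_left _ _)⟩
      nlinarith
    · have h1 := hbig x (not_le.1 hc).le
      exact ⟨(min_le_right _ _).trans h1.1, h1.2.trans (le_max_right _ _)⟩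
  have hx1' : 0 < 1 + x := by linarith
  have hEp : 0 < Real.exp (-(2 / 3 * x ^ (3 / 2 : ℝ))) := Real.exp_pos _
  constructor
  · rw [hA, div_le_iff₀ hx1']
    calc min (F xm) (1 / 8) * Real.exp (-(2 / 3 * x ^ (3 / 2 : ℝ)))
        ≤ (F x * (1 + x)) * Real.exp (-(2 / 3 * x ^ (3 / 2 : ℝ))) :=
          mul_le_mul_of_nonneg_right hkey.1 hEp.le
      _ = F x * Real.exp (-(2 / 3 * x ^ (3 / 2 : ℝ))) * (1 + x) := by ring
  · rw [hA]
    exact mul_le_mul_of_nonneg_right hkey.2 hEp.le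

end Pool.Agent.CHN
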