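import Pool.Agent.CHN.Targets

/-!
# CHN-AZR: the zeros of the Airy function are negative
-/

set_option autoImplicit false

open MeasureTheory ProbabilityTheory Filter Topology Set
open scoped NNReal

namespace Pool.Agent.CHN

open Pool.Agent.Freud (Airy Airy' airyW airyK)

namespace AZR_

/-- decay of the moments along a horizontal ray -/
theorem moment_decay (k : ℕ) (s : ℂ) (x : ℝ) :
    ‖∫ t : ℝ, airyW t ^ k * airyK (s + x) t‖ ≤
      Real.exp (-x) * ∫ t : ℝ, ‖airyW t ^ k * airyK s t‖ := by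
  rw [← integral_const_mul]
  have h1 : ∀ t : ℝ, ‖airyW t ^ k * airyK (s + x) t‖ =
      Real.exp (-x) * ‖airyW t ^ k * airyK s t‖ := by
    intro t
    have h2 : airyK (s + x) t = Complex.exp (-((x : ℂ) * airyW t)) * airyK s t := by
      unfold airyK
      rw [← Complex.exp_add]
      congr 1
      ring
    have h3 : ‖Complex.exp (-((x : ℂ) * airyW t))‖ = Real.exp (-x) := by
      rw [Complex.norm_exp]
      congr 1
      unfold airyW
      simp
    rw [h2, norm_mul, norm_mul, norm_mul, h3]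
    ring
  calc ‖∫ t : ℝ, airyW t ^ k * airyK (s + x) t‖ ≤ ∫ t : ℝ, ‖airyW t ^ k * airyK (s + x) t‖ :=
        norm_integral_le_integral_norm _
    _ = ∫ t : ℝ, Real.exp (-x) * ‖airyW t ^ k * airyK s t‖ := by simp_rw [h1]

theorem moment_tendsto (k : ℕ) (s : ℂ) :
    Tendsto (fun x : ℝ => ∫ t : ℝ, airyW t ^ k * airyK (s + x) t) atTop (𝓝 0) := by
  apply squeeze_zero_norm (moment_decay k s)
  have h1 : Tendsto (fun x : ℝ => Real.exp (-x) * ∫ t : ℝ, ‖airyW t ^ k * airyK s t‖) atTop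
      (𝓝 (0 * ∫ t : ℝ, ‖airyW t ^ k * airyK s t‖)) :=
    (Real.tendsto_exp_neg_atTop_nhds_zero).mul_const _
  rwa [zero_mul] at h1

theorem Airy_tendsto (s : ℂ) : Tendsto (fun x : ℝ => Airy (s + x)) atTop (𝓝 0) := by
  have h1 := (moment_tendsto 0 s).const_mul (1 / (2 * (Real.pi : ℂ)))
  rw [mul_zero] at h1
  exact h1.congr fun x => (Pool.Agent.Freud.Airy_eq _).symm

theorem Airy'_tendsto (s : ℂ) : Tendsto (fun x : ℝ => Airy' (s + x)) atTop (𝓝 0) := by
  have h1 := (moment_tendsto 1 s).const_mul (-(1 / (2 * (Real.pi : ℂ))))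
  rw [mul_zero] at h1
  exact h1.congr fun x => (Pool.Agent.Freud.Airy'_eq _).symm

/-- no zeros far away in the right half-plane -/
theorem Airy_far : ∃ r : ℝ, ∀ ζ : ℂ, 0 ≤ ζ.re → r ≤ ‖ζ‖ → Airy ζ ≠ 0 := by
  obtain ⟨u, v, hu, -, h⟩ := Pool.Agent.Freud.Airy_asymp
  obtain ⟨C, hC⟩ := h 0 1 one_pos
  have h1 : Tendsto (fun r : ℝ => C * r ^ (-(3 / 2) : ℝ)) atTop (𝓝 (C * 0)) :=
    (tendsto_rpow_neg_atTop (by norm_num : (0 : ℝ) < 3 / 2)).const_mul C
  rw [mul_zero] at h1
  have h2 : ∀ᶠ r : ℝ in atTop, C * r ^ (-(3 / 2) : ℝ) < 1 :=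
    h1.eventually (gt_mem_nhds one_pos)
  obtain ⟨r, hr⟩ := eventually_atTop.1 (h2.and (eventually_ge_atTop 1))
  refine ⟨r, fun ζ hre hζ h0 => ?_⟩
  obtain ⟨h3, h4⟩ := hr ‖ζ‖ hζ
  have h5 : |ζ.arg| ≤ Real.pi - 1 := by
    have := Complex.abs_arg_le_pi_div_two_iff.2 hre
    linarith [Real.pi_gt_three]
  have h6 := (hC ζ h4 h5).1
  rw [h0] at h6
  simp only [mul_zero, zero_add, Finset.range_one, Finset.sum_singleton, hu, pow_zero, inv_one,
    mul_one, zero_sub, norm_neg, norm_one, Nat.cast_zero] at h6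
  have h7 : (-(3 / 2) : ℝ) = -(3 / 2 : ℝ) := rfl
  linarith

/-- a monotone function with equal ends -/
theorem flat {h d : ℝ → ℝ} (hd : ∀ x, HasDerivAt h (d x) x) (hnn : ∀ x, 0 ≤ x → 0 ≤ d x)
    (h0 : h 0 = 0) (hl : Tendsto h atTop (𝓝 0)) : ∀ x, 0 < x → d x = 0 := by
  have hc : Continuous h := continuous_iff_continuousAt.2 fun x => (hd x).continuousAt
  have hm : MonotoneOn h (Ici 0) := by
    apply monotoneOn_of_deriv_nonneg (convex_Ici 0) hc.continuousOn
      (fun v _ => (hd v).differentiableAt.differentiableWithinAt)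
    intro v hv
    rw [interior_Ici] at hv
    rw [(hd v).deriv]
    exact hnn v (le_of_lt hv)
  have hz : ∀ x, 0 ≤ x → h x = 0 := by
    intro x hx
    apply le_antisymm
    · apply ge_of_tendsto hl
      filter_upwards [eventually_ge_atTop x] with y hy
      exact hm hx (mem_Ici.2 (hx.trans hy)) hy
    · rw [← h0]
      exact hm (mem_Ici.2 (le_refl _)) hx hx
  intro x hx
  have h1 : h =ᶠ[𝓝 x] fun _ => 0 := by
    filter_upwards [lt_mem_nhds hx] with y hy
    exact hz y (le_of_lt hy)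
  have h2 : HasDerivAt h 0 x := (hasDerivAt_const x (0 : ℝ)).congr_of_eventuallyEq h1
  exact (hd x).unique h2

end AZR_

open AZR_ in
theorem p_AZR : T_AZR := by
  intro s hs
  -- the Wronskian type function
  set W : ℝ → ℂ := fun x => Airy' (s + x) * (starRingEnd ℂ) (Airy (s + x)) with hW
  have hline : ∀ x : ℝ, HasDerivAt (fun x : ℝ => s + (x : ℂ)) 1 x := by
    intro x
    have := (Complex.ofRealCLM.hasDerivAt (x := x)).const_add s
    simpa using this
  have hA : ∀ x : ℝ, HasDerivAt (fun x : ℝ => Airy (s + x)) (Airy' (s + x)) x := by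
    intro x
    have := (Pool.Agent.Freud.Airy_hasDerivAt (s + x)).comp x (hline x)
    rwa [mul_one] at this
  have hA' : ∀ x : ℝ, HasDerivAt (fun x : ℝ => Airy' (s + x)) ((s + x) * Airy (s + x)) x := by
    intro x
    have := (Pool.Agent.Freud.Airy'_hasDerivAt (s + x)).comp x (hline x)
    rwa [mul_one] at this
  have hWd : ∀ x : ℝ, HasDerivAt W ((s + x) * Airy (s + x) * (starRingEnd ℂ) (Airy (s + x)) +
      Airy' (s + x) * (starRingEnd ℂ) (Airy' (s + x))) x := by
    intro x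
    exact (hA' x).mul (hA x).star
  have hWd' : ∀ x : ℝ, HasDerivAt W ((s + x) * ((‖Airy (s + x)‖ ^ 2 : ℝ) : ℂ) +
      ((‖Airy' (s + x)‖ ^ 2 : ℝ) : ℂ)) x := by
    intro x
    refine (hWd x).congr_deriv ?_
    rw [mul_assoc, Complex.mul_conj, Complex.mul_conj, Complex.normSq_eq_norm_sq,
      Complex.normSq_eq_norm_sq]
  have hW0 : W 0 = 0 := by
    simp only [hW, Complex.ofReal_zero, add_zero, hs, map_zero, mul_zero]
  have hWl : Tendsto W atTop (𝓝 0) := by
    have h1 := (Airy'_tendsto s).mul ((Complex.continuous_conj.tendsto 0).comp (Airy_tendsto s))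
    rw [map_zero, mul_zero] at h1
    exact h1
  have hre : ∀ x : ℝ, HasDerivAt (fun x => (W x).re)
      ((s.re + x) * ‖Airy (s + x)‖ ^ 2 + ‖Airy' (s + x)‖ ^ 2) x := by
    intro x
    have h1 := Complex.reCLM.hasFDerivAt.comp_hasDerivAt x (hWd' x)
    refine h1.congr_deriv ?_
    rw [Complex.reCLM_apply, Complex.add_re, Complex.re_mul_ofReal, Complex.ofReal_re,
      Complex.add_re, Complex.ofReal_re]
  have him : ∀ x : ℝ, HasDerivAt (fun x => (W x).im) (s.im * ‖Airy (s + x)‖ ^ 2) x := by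
    intro x
    have h1 := Complex.imCLM.hasFDerivAt.comp_hasDerivAt x (hWd' x)
    refine h1.congr_deriv ?_
    rw [Complex.imCLM_apply, Complex.add_im, Complex.im_mul_ofReal, Complex.ofReal_im,
      Complex.add_im, Complex.ofReal_im, add_zero, add_zero]
  have hrel : Tendsto (fun x => (W x).re) atTop (𝓝 0) := by
    have h1 := (Complex.continuous_re.tendsto 0).comp hWl
    rwa [Complex.zero_re] at h1
  have himl : Tendsto (fun x => (W x).im) atTop (𝓝 0) := by
    have h1 := (Complex.continuous_im.tendsto 0).comp hWl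
    rwa [Complex.zero_im] at h1
  -- it cannot vanish on the whole ray
  have hray : ¬ ∀ x : ℝ, 0 < x → Airy (s + x) = 0 := by
    intro hall
    obtain ⟨r, hr⟩ := Airy_far
    have hx : 0 < |r| + ‖s‖ + 1 := by positivity
    refine hr (s + ((|r| + ‖s‖ + 1 : ℝ) : ℂ)) ?_ ?_ (hall _ hx)
    · rw [Complex.add_re, Complex.ofReal_re]
      have := Complex.abs_re_le_norm s
      have := neg_le_of_abs_le this
      linarith [abs_nonneg r]
    · have h1 : ‖((|r| + ‖s‖ + 1 : ℝ) : ℂ)‖ ≤ ‖s + ((|r| + ‖s‖ + 1 : ℝ) : ℂ)‖ + ‖s‖ := by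
        have h2 := norm_sub_le (s + ((|r| + ‖s‖ + 1 : ℝ) : ℂ)) s
        rwa [add_sub_cancel_left] at h2
      rw [Complex.norm_real, Real.norm_eq_abs, abs_of_pos hx] at h1
      linarith [le_abs_self r]
  by_contra hcon
  rcases eq_or_ne s.im 0 with h | h
  · have hge : 0 ≤ s.re := by
      by_contra hc
      push Not at hc
      exact hcon ⟨h, hc⟩
    apply hray
    intro x hx
    have h1 := flat hre (fun x hx => by positivity) (by simp [hW0]) hrel x hx
    have h2 : (s.re + x) * ‖Airy (s + x)‖ ^ 2 = 0 := by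
      have h3 : 0 ≤ (s.re + x) * ‖Airy (s + x)‖ ^ 2 := by positivity
      have h4 : 0 ≤ ‖Airy' (s + x)‖ ^ 2 := by positivity
      linarith
    have h3 : s.re + x ≠ 0 := by linarith
    simpa [h3] using h2
  · apply hray
    intro x hx
    have hdd : ∀ x : ℝ, HasDerivAt (fun x => (W x).im / s.im) (‖Airy (s + x)‖ ^ 2) x := by
      intro x
      refine ((him x).div_const s.im).congr_deriv ?_
      field_simp
    have h1 := flat hdd (fun x _ => by positivity) (by simp [hW0]) (by
      have := himl.div_const s.im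
      rwa [zero_div] at this) x hx
    simpa using h1

end Pool.Agent.CHN
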