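import Pool.Agent.CHN.Targets

/-! # CHN-BLQ: division by finite Blaschke products (helper86) -/

set_option autoImplicit false

namespace Pool.Agent.CHN

theorem p_BLQ : T_BLQ := by
  intro f r K hf hr hK S
  have hrC : (r : ℂ) ≠ 0 := by exact_mod_cast hr.ne'
  induction S using Finset.induction_on with
  | empty =>
    intro _
    exact ⟨f, hf, hK, fun z => by rw [Finset.prod_empty, Finset.prod_empty]⟩
  | insert w S hw ih =>
    intro hS
    obtain ⟨F, hFd, hFK, hFe⟩ := ih fun v hv => hS v (Finset.mem_insert_of_mem hv)
    obtain ⟨hwr, hfw⟩ := hS w (Finset.mem_insert_self w S)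
    have hFw : F w = 0 := by
      have h1 := hFe w
      rw [hfw, zero_mul, mul_eq_zero] at h1
      refine h1.resolve_right (Finset.prod_ne_zero_iff.2 fun v hv => mul_ne_zero hrC ?_)
      intro h2
      exact hw ((sub_eq_zero.1 h2) ▸ hv)
    have hds : ∀ z, F z = (z - w) * dslope F w z := by
      intro z
      have h1 := sub_smul_dslope F w z
      rw [hFw, sub_zero, smul_eq_mul] at h1
      exact h1.symm
    have hdd : Differentiable ℂ (dslope F w) := by
      have h1 := (Complex.differentiableOn_dslope (f := F) (c := w) (s := Set.univ)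
        Filter.univ_mem).2 hFd.differentiableOn
      exact differentiableOn_univ.1 h1
    have hF1 : Differentiable ℂ
        (fun z => dslope F w z * ((r : ℂ) ^ 2 - starRingEnd ℂ w * z) / r) := by
      refine Differentiable.div_const (hdd.mul ?_) _
      exact (differentiable_const _).sub ((differentiable_const _).mul differentiable_id)
    refine ⟨fun z => dslope F w z * ((r : ℂ) ^ 2 - starRingEnd ℂ w * z) / r, hF1, ?_, ?_⟩
    · intro z hz
      refine Complex.norm_le_of_forall_mem_frontier_norm_le (U := Metric.ball (0 : ℂ) r)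
        Metric.isBounded_ball hF1.diffContOnCl ?_ ?_
      · intro y hy
        rw [frontier_ball (0 : ℂ) hr.ne', mem_sphere_zero_iff_norm] at hy
        have h1 : ((r : ℂ) ^ 2 - starRingEnd ℂ w * y) = y * (starRingEnd ℂ (y - w)) := by
          have h2 : (r : ℂ) ^ 2 = y * starRingEnd ℂ y := by
            rw [Complex.mul_conj, Complex.normSq_eq_norm_sq, hy]
            push_cast
            rfl
          rw [h2, map_sub]
          ring
        have h3 : ‖dslope F w y * ((r : ℂ) ^ 2 - starRingEnd ℂ w * y) / r‖ = ‖F y‖ := by
          rw [h1, hds y, norm_div, norm_mul, norm_mul, norm_mul, RCLike.norm_conj, hy,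
            Complex.norm_real, Real.norm_of_nonneg hr.le]
          field_simp
        rw [h3]
        exact hFK y hy.le
      · rw [closure_ball (0 : ℂ) hr.ne', mem_closedBall_zero_iff]
        exact hz
    · intro z
      have h1 := hFe z
      rw [Finset.prod_insert hw, Finset.prod_insert hw]
      have h2 : dslope F w z * ((r : ℂ) ^ 2 - starRingEnd ℂ w * z) / r *
          ((r : ℂ) * (z - w) * ∏ v ∈ S, ((r : ℂ) * (z - v))) =
          ((z - w) * dslope F w z * ∏ v ∈ S, ((r : ℂ) * (z - v))) *
            ((r : ℂ) ^ 2 - starRingEnd ℂ w * z) := by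
        field_simp
      show dslope F w z * ((r : ℂ) ^ 2 - starRingEnd ℂ w * z) / r *
          ((r : ℂ) * (z - w) * ∏ v ∈ S, ((r : ℂ) * (z - v))) = _
      rw [h2, ← hds z, h1]
      ring

end Pool.Agent.CHN
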