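import Pool.Agent.CHN.Targets

/-!
# CHN-CVX: from the third derivative to convexity
-/

set_option autoImplicit false

open MeasureTheory ProbabilityTheory Filter Topology Set
open scoped NNReal

namespace Pool.Agent.CHN

namespace CVX_

theorem Phi_eq (x : ℝ) : Phi x = ∫ y in Iic x, gaussianPDFReal 0 1 y := by
  unfold Phi
  rw [measureReal_def, gaussianReal_apply_eq_integral 0 one_ne_zero, ENNReal.toReal_ofReal]
  exact setIntegral_nonneg measurableSet_Iic fun y _ => gaussianPDFReal_nonneg _ _ _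

theorem pdf_cont : Continuous (gaussianPDFReal 0 1) := by
  rw [gaussianPDFReal_def]
  fun_prop

theorem Phi_deriv (x : ℝ) : HasDerivAt Phi (gaussianPDFReal 0 1 x) x := by
  have h1 : ∀ y, Phi y = Phi 0 + ∫ z in (0 : ℝ)..y, gaussianPDFReal 0 1 z := by
    intro y
    rw [← intervalIntegral.integral_Iic_sub_Iic (integrable_gaussianPDFReal 0 1).integrableOn
      (integrable_gaussianPDFReal 0 1).integrableOn, Phi_eq, Phi_eq]
    ring
  have h2 : HasDerivAt (fun y => Phi 0 + ∫ z in (0 : ℝ)..y, gaussianPDFReal 0 1 z)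
      (gaussianPDFReal 0 1 x) x :=
    (intervalIntegral.integral_hasDerivAt_right (pdf_cont.intervalIntegrable 0 x)
      (pdf_cont.stronglyMeasurableAtFilter _ _) pdf_cont.continuousAt).const_add _
  exact h2.congr_of_eventuallyEq (Eventually.of_forall h1)

theorem Phi_cdf : Phi = cdf (gaussianReal 0 1) := by
  funext x
  rw [cdf_eq_real]
  rfl

theorem Phi_bot : Tendsto Phi atBot (𝓝 0) := by
  rw [Phi_cdf]; exact tendsto_cdf_atBot _

theorem Phi_top : Tendsto Phi atTop (𝓝 1) := by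
  rw [Phi_cdf]; exact tendsto_cdf_atTop _

theorem pdf_pos (x : ℝ) : 0 < gaussianPDFReal 0 1 x := gaussianPDFReal_pos _ _ _ one_ne_zero

theorem pdf_eq (x : ℝ) : gaussianPDFReal 0 1 x = (√(2 * Real.pi))⁻¹ * Real.exp (-(x ^ 2 / 2)) := by
  simp only [gaussianPDFReal, NNReal.coe_one, mul_one, sub_zero]
  congr 2
  ring

theorem pdf_even (x : ℝ) : gaussianPDFReal 0 1 (-x) = gaussianPDFReal 0 1 x := by
  rw [pdf_eq, pdf_eq]; norm_num

/-- strict monotonicity -/
theorem mono {F f : ℝ → ℝ} (hF : ∀ w, HasDerivAt F (f w) w) (hf : ∀ w, 0 < f w) :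
    StrictMono F :=
  strictMono_of_deriv_pos fun w => by rw [(hF w).deriv]; exact hf w

theorem cont {F f : ℝ → ℝ} (hF : ∀ w, HasDerivAt F (f w) w) : Continuous F :=
  continuous_iff_continuousAt.2 fun w => (hF w).continuousAt

theorem rng {F : ℝ → ℝ} (hm : StrictMono F) (h0 : Tendsto F atBot (𝓝 0))
    (h1 : Tendsto F atTop (𝓝 1)) (w : ℝ) : 0 < F w ∧ F w < 1 := by
  constructor
  · exact lt_of_le_of_lt (hm.monotone.le_of_tendsto h0 (w - 1)) (hm (by linarith))
  · exact lt_of_lt_of_le (hm (show w < w + 1 by linarith)) (hm.monotone.ge_of_tendsto h1 (w + 1))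

theorem half {F f : ℝ → ℝ} (hF : ∀ w, HasDerivAt F (f w) w) (he : ∀ w, f (-w) = f w)
    (h0 : Tendsto F atBot (𝓝 0)) (h1 : Tendsto F atTop (𝓝 1)) : F 0 = 1 / 2 := by
  have hK : ∀ w, HasDerivAt (fun w => F w + F (-w)) 0 w := by
    intro w
    have h2 : HasDerivAt (fun w => F (-w)) (-f w) w := by
      have h := (hF (-w)).comp w (hasDerivAt_neg w)
      rw [he, mul_neg_one] at h
      exact h
    have h3 := (hF w).add h2
    rwa [add_neg_cancel] at h3
  have hc : ∀ w, F w + F (-w) = F 0 + F (-0) := fun w =>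
    is_const_of_deriv_eq_zero (fun w => (hK w).differentiableAt) (fun w => (hK w).deriv) w 0
  have hl : Tendsto (fun w => F w + F (-w)) atTop (𝓝 (1 + 0)) :=
    h1.add (h0.comp tendsto_neg_atTop_atBot)
  have hl2 : Tendsto (fun w => F w + F (-w)) atTop (𝓝 (F 0 + F (-0))) := by
    simp_rw [hc]
    exact tendsto_const_nhds
  have h5 := tendsto_nhds_unique hl hl2
  rw [neg_zero] at h5
  linarith

theorem surj {F : ℝ → ℝ} (hc : Continuous F) (h0 : Tendsto F atBot (𝓝 0))
    (h1 : Tendsto F atTop (𝓝 1)) {y : ℝ} (hy0 : 0 < y) (hy1 : y < 1) : ∃ w, F w = y := by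
  have ha : ∃ a, F a ≤ y := ((h0.eventually (gt_mem_nhds hy0)).exists).imp fun a h => le_of_lt h
  have hb : ∃ b, y ≤ F b := ((h1.eventually (lt_mem_nhds hy1)).exists).imp fun a h => le_of_lt h
  exact mem_range_of_exists_le_of_exists_ge hc ha hb

theorem Phi_mono : StrictMono Phi := mono Phi_deriv pdf_pos

/-- derivative of the quantile transform -/
theorem G_deriv {F f G : ℝ → ℝ} (hF : ∀ w, HasDerivAt F (f w) w) (hf : ∀ w, 0 < f w)
    (h0 : Tendsto F atBot (𝓝 0)) (h1 : Tendsto F atTop (𝓝 1)) (hG : ∀ w, Phi (G w) = F w)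
    (w : ℝ) : HasDerivAt G (f w / gaussianPDFReal 0 1 (G w)) w := by
  have hFm := mono hF hf
  have hGm : StrictMono G := by
    intro a b hab
    rw [← Phi_mono.lt_iff_lt, hG, hG]
    exact hFm hab
  have hGs : Function.Surjective G := by
    intro x
    obtain ⟨hx0, hx1⟩ := rng Phi_mono Phi_bot Phi_top x
    obtain ⟨v, hv⟩ := surj (cont hF) h0 h1 hx0 hx1
    exact ⟨v, Phi_mono.injective (by rw [hG, hv])⟩
  have hGc : Continuous G := hGm.monotone.continuous_of_surjective hGs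
  rw [hasDerivAt_iff_tendsto_slope]
  have hs1 : Tendsto (slope F w) (𝓝[≠] w) (𝓝 (f w)) := hasDerivAt_iff_tendsto_slope.1 (hF w)
  have hs2 : Tendsto (slope Phi (G w)) (𝓝[≠] (G w)) (𝓝 (gaussianPDFReal 0 1 (G w))) :=
    hasDerivAt_iff_tendsto_slope.1 (Phi_deriv (G w))
  have hs3 : Tendsto G (𝓝[≠] w) (𝓝[≠] (G w)) := by
    apply tendsto_nhdsWithin_of_tendsto_nhds_of_eventually_within
    · exact (hGc.tendsto w).mono_left nhdsWithin_le_nhds
    · filter_upwards [self_mem_nhdsWithin] with v hv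
      exact hGm.injective.ne hv
  have hs4 := hs1.div (hs2.comp hs3) (pdf_pos (G w)).ne'
  refine hs4.congr' ?_
  filter_upwards [self_mem_nhdsWithin] with v hv
  have hv1 : v - w ≠ 0 := sub_ne_zero.2 hv
  have hv2 : G v - G w ≠ 0 := sub_ne_zero.2 (hGm.injective.ne hv)
  have hv3 : F v - F w ≠ 0 := sub_ne_zero.2 (hFm.injective.ne hv)
  simp only [Function.comp, Pi.div_apply, slope_def_field, hG]
  field_simp

/-- the ODE argument -/
theorem ode {G p m q : ℝ → ℝ} {ℓ₃ : ℝ → ℝ} (hG : ∀ w, HasDerivAt G (p w) w) (hp : ∀ w, 0 < p w)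
    (hG0 : G 0 = 0) (hm0 : m 0 = 0) (hm : ∀ w, HasDerivAt m (q w + G w * (p w * m w)) w)
    (hq : ∀ w, HasDerivAt q (ℓ₃ w + 2 * p w * (p w * m w)) w) (hl : ∀ w, 0 < w → ℓ₃ w ≤ 0)
    (hpd : ∀ w, HasDerivAt p (p w * m w) w) (hub : ∀ w₀ B, ∃ w, w₀ ≤ w ∧ B < G w) :
    ∀ w, 0 < w → 0 ≤ m w := by
  have hGm : StrictMono G := mono hG hp
  have hGp : ∀ w, 0 ≤ w → 0 ≤ G w := fun w hw => by rw [← hG0]; exact hGm.monotone hw
  have hmc : Continuous m := cont hm
  have hqc : Continuous q := cont hq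
  -- the antitone lemma
  have key : ∀ a b : ℝ, 0 ≤ a → q a ≤ 0 → (∀ v ∈ Ioo a b, m v < 0) →
      AntitoneOn m (Icc a b) ∧ AntitoneOn q (Icc a b) := by
    intro a b ha hqa hneg
    have hqa' : AntitoneOn q (Icc a b) := by
      apply antitoneOn_of_deriv_nonpos (convex_Icc a b) hqc.continuousOn
        (fun v _ => (hq v).differentiableAt.differentiableWithinAt)
      intro v hv
      rw [interior_Icc] at hv
      rw [(hq v).deriv]
      have h1 := hl v (lt_of_le_of_lt ha hv.1)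
      have h2 := hneg v hv
      have h3 : p v * (p v * m v) ≤ 0 := by
        have := mul_pos (hp v) (hp v)
        nlinarith
      nlinarith
    refine ⟨?_, hqa'⟩
    apply antitoneOn_of_deriv_nonpos (convex_Icc a b) hmc.continuousOn
      (fun v _ => (hm v).differentiableAt.differentiableWithinAt)
    intro v hv
    rw [interior_Icc] at hv
    rw [(hm v).deriv]
    have h2 := hneg v hv
    have h4 : q v ≤ q a :=
      hqa' (left_mem_Icc.2 (hv.1.le.trans hv.2.le)) ⟨hv.1.le, hv.2.le⟩ hv.1.le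
    have h5 : 0 ≤ G v * p v := mul_nonneg (hGp v (ha.trans hv.1.le)) (hp v).le
    nlinarith
  by_contra hcon
  push Not at hcon
  obtain ⟨w₀, hw₀, hmw₀⟩ := hcon
  -- the last nonnegative point before `w₀`
  set S : Set ℝ := Icc 0 w₀ ∩ {w | 0 ≤ m w} with hS
  have hSc : IsCompact S := isCompact_Icc.inter_right (isClosed_le continuous_const hmc)
  have hSn : S.Nonempty := ⟨0, ⟨le_refl _, hw₀.le⟩, hm0.ge⟩
  have hw₁ := hSc.sSup_mem hSn
  set w₁ := sSup S with hw₁d
  obtain ⟨⟨hw₁0, hw₁1⟩, hmw₁⟩ := hw₁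
  have hmw₁' : 0 ≤ m w₁ := hmw₁
  have hlt : w₁ < w₀ := lt_of_le_of_ne hw₁1 (fun h => by rw [h] at hmw₁'; linarith)
  have hneg1 : ∀ v, w₁ < v → v ≤ w₀ → m v < 0 := by
    intro v hv1 hv2
    by_contra hc
    push Not at hc
    have : v ≤ w₁ := le_csSup hSc.bddAbove ⟨⟨hw₁0.trans hv1.le, hv2⟩, hc⟩
    linarith
  have hqw₁ : q w₁ ≤ 0 := by
    by_contra hc
    push Not at hc
    have hd : 0 < q w₁ + G w₁ * (p w₁ * m w₁) :=
      add_pos_of_pos_of_nonneg hc (mul_nonneg (hGp _ hw₁0) (mul_nonneg (hp _).le hmw₁'))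
    have hs := hasDerivAt_iff_tendsto_slope.1 (hm w₁)
    have hev : ∀ᶠ v in 𝓝[>] w₁, 0 < slope m w₁ v :=
      (hs.eventually (lt_mem_nhds hd)).filter_mono
        (nhdsWithin_mono _ (fun v hv => ne_of_gt hv))
    have hev2 : ∀ᶠ v in 𝓝[>] w₁, v ∈ Ioo w₁ w₀ := Ioo_mem_nhdsGT hlt
    obtain ⟨v, hv1, hv2⟩ := (hev.and hev2).exists
    rw [slope_def_field] at hv1
    have hv3 : 0 < v - w₁ := by linarith [hv2.1]
    have hv4 : 0 < m v - m w₁ := by
      by_contra hc2
      push Not at hc2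
      exact absurd hv1 (not_lt.2 (div_nonpos_of_nonpos_of_nonneg hc2 hv3.le))
    have := hneg1 v hv2.1 hv2.2.le
    linarith
  -- `m` stays negative
  have hneg2 : ∀ W, w₁ < W → m W < 0 := by
    intro W hW
    rcases le_or_gt W w₀ with h | h
    · exact hneg1 W hW h
    by_contra hc
    push Not at hc
    set S' : Set ℝ := Icc w₀ W ∩ {w | 0 ≤ m w} with hS'
    have hSc' : IsCompact S' := isCompact_Icc.inter_right (isClosed_le continuous_const hmc)
    have hSn' : S'.Nonempty := ⟨W, ⟨h.le, le_refl _⟩, hc⟩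
    obtain ⟨⟨h30, h31⟩, h32⟩ := hSc'.sInf_mem hSn'
    set w₃ := sInf S' with hw₃
    have h32' : 0 ≤ m w₃ := h32
    have hk := (key w₁ w₃ hw₁0 hqw₁ (by
      intro v hv
      rcases le_or_gt v w₀ with h4 | h4
      · exact hneg1 v hv.1 h4
      · by_contra hc2
        push Not at hc2
        have : w₃ ≤ v := csInf_le hSc'.bddBelow ⟨⟨h4.le, hv.2.le.trans h31⟩, hc2⟩
        linarith [hv.2])).1
    have := hk (show w₀ ∈ Icc w₁ w₃ from ⟨hlt.le, h30⟩) (show w₃ ∈ Icc w₁ w₃ from
      ⟨hlt.le.trans h30, le_refl _⟩) h30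
    linarith
  -- and bounded away from zero
  have hle : ∀ W, w₀ ≤ W → m W ≤ m w₀ := by
    intro W hW
    have hk := (key w₁ W hw₁0 hqw₁ fun v hv => hneg2 v hv.1).1
    exact hk ⟨hlt.le, hW⟩ ⟨hlt.le.trans hW, le_refl _⟩ hW
  set c := -m w₀ with hc
  have hcp : 0 < c := by rw [hc]; linarith
  have hH : AntitoneOn (fun w => G w + p w / c) (Ici w₀) := by
    have hHd : ∀ w, HasDerivAt (fun w => G w + p w / c) (p w + p w * m w / c) w := fun w =>
      (hG w).add ((hpd w).div_const c)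
    apply antitoneOn_of_deriv_nonpos (convex_Ici w₀) (cont hHd).continuousOn
      (fun v _ => (hHd v).differentiableAt.differentiableWithinAt)
    intro v hv
    rw [interior_Ici] at hv
    rw [(hHd v).deriv]
    have h1 : m v ≤ -c := by rw [hc, neg_neg]; exact hle v (le_of_lt hv)
    have h2 : p v * m v / c ≤ - p v := by
      rw [div_le_iff₀ hcp]
      have := hp v
      nlinarith
    linarith
  obtain ⟨w, hw, hw2⟩ := hub w₀ (G w₀ + p w₀ / c)
  have h1 := hH (mem_Ici.2 (le_refl w₀)) (show w ∈ Ici w₀ from hw) hw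
  have h2 : 0 < p w / c := div_pos (hp w) hcp
  simp only at h1
  linarith

end CVX_

open CVX_ in
theorem p_CVX : T_CVX := by
  intro F f ℓ₁ ℓ₂ ℓ₃ hF hf he h0 h1 hl1 hl2 hl3 hneg
  have hFm := mono hF hf
  have hex : ∀ w, ∃ x, Phi x = F w := fun w =>
    surj (cont Phi_deriv) Phi_bot Phi_top (rng hFm h0 h1 w).1 (rng hFm h0 h1 w).2
  choose G hG using hex
  refine ⟨⟨G, hG⟩, ?_⟩
  intro T hT
  have hTG : EqOn G T (Ioi 0) := fun w hw => Phi_mono.injective (by rw [hG, hT w hw])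
  suffices hconv : ConvexOn ℝ (Ioi 0) G from hconv.congr hTG
  set p : ℝ → ℝ := fun w => f w / gaussianPDFReal 0 1 (G w) with hp
  have hGd : ∀ w, HasDerivAt G (p w) w := G_deriv hF hf h0 h1 hG
  have hpp : ∀ w, 0 < p w := fun w => div_pos (hf w) (pdf_pos _)
  have hG0 : G 0 = 0 := by
    apply Phi_mono.injective
    rw [hG, half hF he h0 h1, half Phi_deriv pdf_even Phi_bot Phi_top]
  -- logarithmic derivative of `p`
  have hplog : ∀ w, p w = Real.exp (Real.log (f w) + G w ^ 2 / 2 + Real.log √(2 * Real.pi)) := by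
    intro w
    have h2 : (0 : ℝ) < √(2 * Real.pi) := Real.sqrt_pos.2 (by positivity)
    rw [Real.exp_add, Real.exp_add, Real.exp_log (hf w), Real.exp_log h2, hp]
    simp only
    rw [pdf_eq, Real.exp_neg]
    field_simp
  set m : ℝ → ℝ := fun w => ℓ₁ w + G w * p w with hm
  have hpd : ∀ w, HasDerivAt p (p w * m w) w := by
    intro w
    have h2 : HasDerivAt (fun w => Real.log (f w) + G w ^ 2 / 2 + Real.log √(2 * Real.pi))
        (ℓ₁ w + G w * p w) w := by
      have h3 := (((hl1 w).add (((hGd w).pow 2).div_const 2)).add_const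
        (Real.log √(2 * Real.pi)))
      refine (h3.congr_deriv ?_)
      push_cast
      ring
    have h4 := h2.exp
    rw [← hplog w] at h4
    exact h4.congr_of_eventuallyEq (Eventually.of_forall hplog)
  have hl0 : ℓ₁ 0 = 0 := by
    have h2 : HasDerivAt (fun w => Real.log (f (-w))) (-ℓ₁ (-0)) 0 := by
      have h := (hl1 (-0)).comp 0 (hasDerivAt_neg 0)
      rw [mul_neg_one] at h
      exact h
    have h3 : HasDerivAt (fun w => Real.log (f w)) (-ℓ₁ (-0)) 0 :=
      h2.congr_of_eventuallyEq (Eventually.of_forall fun w => by simp only [he])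
    have h4 := h3.unique (hl1 0)
    rw [neg_zero] at h4
    linarith
  have hm0 : m 0 = 0 := by simp only [hm, hl0, hG0]; ring
  set q : ℝ → ℝ := fun w => ℓ₂ w + p w ^ 2 with hq
  have hmd : ∀ w, HasDerivAt m (q w + G w * (p w * m w)) w := by
    intro w
    refine ((hl2 w).add ((hGd w).mul (hpd w))).congr_deriv ?_
    simp only [hq]
    ring
  have hqd : ∀ w, HasDerivAt q (ℓ₃ w + 2 * p w * (p w * m w)) w := by
    intro w
    refine ((hl3 w).add ((hpd w).pow 2)).congr_deriv ?_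
    push_cast
    ring
  have hub : ∀ w₀ B, ∃ w, w₀ ≤ w ∧ B < G w := by
    intro w₀ B
    have h2 : ∀ᶠ w in atTop, Phi B < F w :=
      h1.eventually (lt_mem_nhds (rng Phi_mono Phi_bot Phi_top B).2)
    obtain ⟨w, hw1, hw2⟩ := (h2.and (eventually_ge_atTop w₀)).exists
    refine ⟨w, hw2, ?_⟩
    rw [← Phi_mono.lt_iff_lt, hG]
    exact hw1
  have hmn := ode hGd hpp hG0 hm0 hmd hqd hneg hpd hub
  have hpm : MonotoneOn p (Ioi 0) := by
    apply monotoneOn_of_deriv_nonneg (convex_Ioi 0) (cont hpd).continuousOn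
      (fun v _ => (hpd v).differentiableAt.differentiableWithinAt)
    intro v hv
    rw [interior_Ioi] at hv
    rw [(hpd v).deriv]
    exact mul_nonneg (hpp v).le (hmn v hv)
  apply MonotoneOn.convexOn_of_deriv (convex_Ioi 0) (cont hGd).continuousOn
    (fun v _ => (hGd v).differentiableAt.differentiableWithinAt)
  have hde : deriv G = p := by
    funext w; exact (hGd w).deriv
  rw [interior_Ioi, hde]
  exact hpm

end Pool.Agent.CHN
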