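import Pool.Agent.CHN.Targets

/-!
# Project CHN, target DER: the density (helper80)
-/

set_option autoImplicit false

open MeasureTheory ProbabilityTheory Filter Topology Set
open scoped NNReal

namespace Pool.Agent.CHN

namespace DER_

/-- exponential decay of `R`, `R1`, `R2`, locally uniformly in `a` -/
theorem bnd (hRDE : T_RDE) (K : ℝ) (hK : 0 ≤ K) : ∃ D : ℝ, 0 ≤ D ∧ ∀ a x : ℝ, |a| ≤ K → 0 ≤ x →
    |R a x| ≤ D * Real.exp (-x) ∧ |R1 a x| ≤ D * Real.exp (-x) ∧
      |R2 a x| ≤ D * Real.exp (-x) := by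
  obtain ⟨C0, h0⟩ := hRDE (K + 2) 0
  obtain ⟨C1, h1⟩ := hRDE (K + 2) 1
  set C : ℝ := max (max C0 C1) 0 with hC
  have hC0 : 0 ≤ C := le_max_right _ _
  have b0 : ∀ (i : Fin 2) (a x : ℝ), 0 ≤ x → |r i 0 a x| ≤ C * Real.exp (-((K + 2) * x)) := by
    intro i a x hx
    refine (h0 i a x hx).trans ?_
    gcongr
    exact (le_max_left _ _).trans (le_max_left _ _)
  have b1 : ∀ (i : Fin 2) (a x : ℝ), 0 ≤ x → |r i 1 a x| ≤ C * Real.exp (-((K + 2) * x)) := by
    intro i a x hx
    refine (h1 i a x hx).trans ?_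
    gcongr
    exact (le_max_right _ _).trans (le_max_left _ _)
  refine ⟨Real.exp (K ^ 3 / 3) * ((K ^ 2 + 2 * K + 3) * C), by positivity, ?_⟩
  intro a x ha hx
  have ha1 := (abs_le.1 ha).1
  have ha2 := (abs_le.1 ha).2
  -- the exponential factor
  have e1 : Real.exp (a * x - a ^ 3 / 3) ≤ Real.exp (K ^ 3 / 3) * Real.exp (K * x) := by
    rw [← Real.exp_add]
    apply Real.exp_le_exp.2
    have : a * x ≤ K * x := mul_le_mul_of_nonneg_right ha2 hx
    have h3 : -(K ^ 3) ≤ a ^ 3 := by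
      have : (-K) ^ 3 ≤ a ^ 3 := (Odd.pow_le_pow (by decide : Odd 3)).2 ha1
      have h4 : (-K) ^ 3 = -(K ^ 3) := by ring
      rwa [h4] at this
    linarith
  have e2 : Real.exp (K * x) * Real.exp (-((K + 2) * x)) = Real.exp (-x) * Real.exp (-x) := by
    rw [← Real.exp_add, ← Real.exp_add]; congr 1; ring
  have e3 : Real.exp (-x) ≤ 1 := Real.exp_le_one_iff.2 (by linarith)
  have e4 : x * Real.exp (-x) ≤ 1 := by
    have := Real.add_one_le_exp x
    rw [Real.exp_neg, ← div_eq_mul_inv, div_le_one (Real.exp_pos _)]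
    linarith
  -- the general step
  have key : ∀ (T B : ℝ), 0 ≤ B → |T| ≤ B * C * Real.exp (-((K + 2) * x)) →
      B * Real.exp (-x) ≤ K ^ 2 + 2 * K + 3 →
      |Real.exp (a * x - a ^ 3 / 3) * T| ≤
        Real.exp (K ^ 3 / 3) * ((K ^ 2 + 2 * K + 3) * C) * Real.exp (-x) := by
    intro T B hB hT hB2
    rw [abs_mul, abs_of_pos (Real.exp_pos _)]
    calc Real.exp (a * x - a ^ 3 / 3) * |T|
        ≤ (Real.exp (K ^ 3 / 3) * Real.exp (K * x)) *
            (B * C * Real.exp (-((K + 2) * x))) := by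
          apply mul_le_mul e1 hT (abs_nonneg _) (by positivity)
      _ = Real.exp (K ^ 3 / 3) * (B * Real.exp (-x) * C) * Real.exp (-x) := by
          rw [show Real.exp (K ^ 3 / 3) * Real.exp (K * x) *
            (B * C * Real.exp (-((K + 2) * x))) = Real.exp (K ^ 3 / 3) * B * C *
            (Real.exp (K * x) * Real.exp (-((K + 2) * x))) by ring, e2]
          ring
      _ ≤ Real.exp (K ^ 3 / 3) * ((K ^ 2 + 2 * K + 3) * C) * Real.exp (-x) := by
          gcongr
  have hE : 0 < Real.exp (-((K + 2) * x)) := Real.exp_pos _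
  refine ⟨?_, ?_, ?_⟩
  · refine key (r 0 0 a x) 1 zero_le_one (by simpa using b0 0 a x hx) ?_
    nlinarith
  · refine key (a * r 0 0 a x + r 1 0 a x) (K + 1) (by linarith) ?_ ?_
    · have t1 : |a * r 0 0 a x| ≤ K * (C * Real.exp (-((K + 2) * x))) := by
        rw [abs_mul]
        exact mul_le_mul ha (b0 0 a x hx) (abs_nonneg _) hK
      have t2 := b0 1 a x hx
      calc |a * r 0 0 a x + r 1 0 a x| ≤ |a * r 0 0 a x| + |r 1 0 a x| := abs_add_le _ _
        _ ≤ K * (C * Real.exp (-((K + 2) * x))) + C * Real.exp (-((K + 2) * x)) :=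
          add_le_add t1 t2
        _ = (K + 1) * C * Real.exp (-((K + 2) * x)) := by ring
    · nlinarith
  · refine key (a ^ 2 * r 0 0 a x + 2 * a * r 1 0 a x + (x * r 0 0 a x + r 0 1 a x))
      (K ^ 2 + 2 * K + (x + 1)) (by positivity) ?_ ?_
    · have t1 : |a ^ 2 * r 0 0 a x| ≤ K ^ 2 * (C * Real.exp (-((K + 2) * x))) := by
        rw [abs_mul]
        refine mul_le_mul ?_ (b0 0 a x hx) (abs_nonneg _) (by positivity)
        rw [abs_pow]
        exact pow_le_pow_left₀ (abs_nonneg _) ha 2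
      have t2 : |2 * a * r 1 0 a x| ≤ 2 * K * (C * Real.exp (-((K + 2) * x))) := by
        rw [abs_mul]
        refine mul_le_mul ?_ (b0 1 a x hx) (abs_nonneg _) (by positivity)
        rw [abs_mul, abs_two]
        linarith
      have t3 : |x * r 0 0 a x| ≤ x * (C * Real.exp (-((K + 2) * x))) := by
        rw [abs_mul, abs_of_nonneg hx]
        exact mul_le_mul_of_nonneg_left (b0 0 a x hx) hx
      have t4 := b1 0 a x hx
      calc |a ^ 2 * r 0 0 a x + 2 * a * r 1 0 a x + (x * r 0 0 a x + r 0 1 a x)|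
          ≤ |a ^ 2 * r 0 0 a x| + |2 * a * r 1 0 a x| + (|x * r 0 0 a x| + |r 0 1 a x|) :=
            (abs_add_le _ _).trans (add_le_add (abs_add_le _ _) (abs_add_le _ _))
        _ ≤ K ^ 2 * (C * Real.exp (-((K + 2) * x))) + 2 * K * (C * Real.exp (-((K + 2) * x))) +
            (x * (C * Real.exp (-((K + 2) * x))) + C * Real.exp (-((K + 2) * x))) :=
          add_le_add (add_le_add t1 t2) (add_le_add t3 t4)
        _ = (K ^ 2 + 2 * K + (x + 1)) * C * Real.exp (-((K + 2) * x)) := by ring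
    · nlinarith [mul_nonneg hK hK]

theorem expInt : IntegrableOn (fun y : ℝ => Real.exp (-y)) (Ioi 0) := by
  simpa using integrableOn_exp_neg_Ioi 0

/-- `Q` is bounded on the positive half-line -/
theorem bndQ {a D : ℝ} (hD : 0 ≤ D)
    (h : ∀ x : ℝ, 0 ≤ x → |R a x| ≤ D * Real.exp (-x)) (x : ℝ) (hx : 0 ≤ x) : |Q a x| ≤ D := by
  have h1 : ‖∫ z in (0 : ℝ)..x, R a z‖ ≤ ∫ z in (0 : ℝ)..x, D * Real.exp (-z) := by
    refine intervalIntegral.norm_integral_le_of_norm_le hx ?_ ?_
    · exact Filter.Eventually.of_forall fun z hz => h z hz.1.le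
    · exact Continuous.intervalIntegrable (by fun_prop) _ _
  have h2 : ∫ z in (0 : ℝ)..x, D * Real.exp (-z) = D * (1 - Real.exp (-x)) := by
    have hd : ∀ z ∈ uIcc (0 : ℝ) x,
        HasDerivAt (fun z => -(D * Real.exp (-z))) (D * Real.exp (-z)) z := by
      intro z _
      have h1 : HasDerivAt (fun z : ℝ => Real.exp (-z)) (Real.exp (-z) * -1) z :=
        (Real.hasDerivAt_exp (-z)).comp z (hasDerivAt_neg z)
      exact (h1.const_mul D).neg.congr_deriv (by ring)
    rw [intervalIntegral.integral_eq_sub_of_hasDerivAt hd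
      (Continuous.intervalIntegrable (by fun_prop) _ _)]
    simp
    ring
  rw [h2] at h1
  refine (h1.trans ?_)
  have := Real.exp_pos (-x)
  nlinarith

end DER_

open DER_ in
theorem p_DER (hQPD : T_QPD) (hRDE : T_RDE) (hRB0 : T_RB0) : T_DER := by
  intro w
  obtain ⟨dQ, dR, dR1, aR, aQ, cQ, cR, cR1, cR2⟩ := hQPD
  set K : ℝ := |w| + 1 with hK
  have hK0 : 0 ≤ K := by positivity
  obtain ⟨D, hD, hb⟩ := bnd hRDE K hK0
  have cRa : ∀ a, Continuous (R a) := fun a => cR.comp (Continuous.prodMk_right a)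
  have cR1a : ∀ a, Continuous (R1 a) := fun a => cR1.comp (Continuous.prodMk_right a)
  have cR2a : ∀ a, Continuous (R2 a) := fun a => cR2.comp (Continuous.prodMk_right a)
  have cQa : ∀ a, Continuous (Q a) := fun a => cQ.comp (Continuous.prodMk_right a)
  have hQ : ∀ a x : ℝ, |a| ≤ K → 0 ≤ x → |Q a x| ≤ D := fun a x ha hx =>
    bndQ hD (fun z hz => (hb a z ha hz).1) x hx
  have hwK : |w| ≤ K := by rw [hK]; linarith
  have hwK' : |-w| ≤ K := by rwa [abs_neg]
  have hball : ∀ v ∈ Metric.ball w 1, |v| ≤ K ∧ |-v| ≤ K := by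
    intro v hv
    rw [Metric.mem_ball, Real.dist_eq] at hv
    have : |v| ≤ |v - w| + |w| := by
      calc |v| = |(v - w) + w| := by ring_nf
        _ ≤ _ := abs_add_le _ _
    rw [abs_neg]
    constructor <;> linarith
  set F' : ℝ → ℝ → ℝ := fun v y => -(R1 (-v) y - 2 * (-v) * R (-v) y) * R v y +
    Q (-v) y * (R2 v y - 2 * v * R1 v y) with hF'
  have hbase : ∀ v y : ℝ, |v| ≤ K → |-v| ≤ K → 0 ≤ y →
      ‖F' v y‖ ≤ (2 * D ^ 2 * (1 + 2 * K)) * Real.exp (-y) := by
    intro v y hv hv' hy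
    obtain ⟨p1, p2, p3⟩ := hb v y hv hy
    obtain ⟨q1, q2, q3⟩ := hb (-v) y hv' hy
    have q0 := hQ (-v) y hv' hy
    have e3 : Real.exp (-y) ≤ 1 := Real.exp_le_one_iff.2 (by linarith)
    have e0 := Real.exp_pos (-y)
    have s1 : |-(R1 (-v) y - 2 * (-v) * R (-v) y)| ≤ D * (1 + 2 * K) := by
      rw [abs_neg]
      calc |R1 (-v) y - 2 * (-v) * R (-v) y| ≤ |R1 (-v) y| + |2 * (-v) * R (-v) y| :=
            abs_sub _ _
        _ ≤ D * Real.exp (-y) + 2 * K * (D * Real.exp (-y)) := by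
            refine add_le_add q2 ?_
            rw [abs_mul, abs_mul, abs_two]
            exact mul_le_mul (by linarith) q1 (abs_nonneg _) (by positivity)
        _ = D * (1 + 2 * K) * Real.exp (-y) := by ring
        _ ≤ D * (1 + 2 * K) * 1 := by gcongr
        _ = D * (1 + 2 * K) := mul_one _
    have s2 : |R2 v y - 2 * v * R1 v y| ≤ D * (1 + 2 * K) * Real.exp (-y) := by
      calc |R2 v y - 2 * v * R1 v y| ≤ |R2 v y| + |2 * v * R1 v y| := abs_sub _ _
        _ ≤ D * Real.exp (-y) + 2 * K * (D * Real.exp (-y)) := by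
            refine add_le_add p3 ?_
            rw [abs_mul, abs_mul, abs_two]
            exact mul_le_mul (by linarith) p2 (abs_nonneg _) (by positivity)
        _ = D * (1 + 2 * K) * Real.exp (-y) := by ring
    rw [Real.norm_eq_abs, hF']
    calc |-(R1 (-v) y - 2 * (-v) * R (-v) y) * R v y + Q (-v) y * (R2 v y - 2 * v * R1 v y)|
        ≤ |-(R1 (-v) y - 2 * (-v) * R (-v) y)| * |R v y| +
            |Q (-v) y| * |R2 v y - 2 * v * R1 v y| := by
          refine (abs_add_le _ _).trans ?_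
          rw [abs_mul, abs_mul]
      _ ≤ D * (1 + 2 * K) * (D * Real.exp (-y)) + D * (D * (1 + 2 * K) * Real.exp (-y)) := by
          refine add_le_add (mul_le_mul s1 p1 (abs_nonneg _) (by positivity))
            (mul_le_mul q0 s2 (abs_nonneg _) hD)
      _ = (2 * D ^ 2 * (1 + 2 * K)) * Real.exp (-y) := by ring
  have hderiv : ∀ v y : ℝ, HasDerivAt (fun v => Q (-v) y * R v y) (F' v y) v := by
    intro v y
    have h1 : HasDerivAt (fun v => Q (-v) y) (-(R1 (-v) y - 2 * (-v) * R (-v) y)) v := by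
      have := (aQ (-v) y).comp v (hasDerivAt_neg v)
      simpa [Function.comp_def] using this
    exact h1.mul (aR v y)
  have hcF : ∀ v, Continuous fun y => Q (-v) y * R v y := fun v => (cQa _).mul (cRa _)
  have hcF' : ∀ v, Continuous (F' v) := by
    intro v
    have h1 := cR1a (-v)
    have h2 := cRa (-v)
    have h3 := cRa v
    have h4 := cQa (-v)
    have h5 := cR2a v
    have h6 := cR1a v
    rw [hF']
    fun_prop
  have hint0 : Integrable (fun y => Q (-w) y * R w y) (volume.restrict (Ioi (0 : ℝ))) := by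
    refine Integrable.mono' (expInt.const_mul (D * D)) (hcF w).aestronglyMeasurable ?_
    refine (ae_restrict_iff' measurableSet_Ioi).2 (Filter.Eventually.of_forall fun y hy => ?_)
    have hy' : 0 ≤ y := le_of_lt hy
    rw [norm_mul, Real.norm_eq_abs, Real.norm_eq_abs, mul_assoc]
    exact mul_le_mul (hQ _ _ hwK' hy') (hb w y hwK hy').1 (abs_nonneg _) hD
  have hmain := hasDerivAt_integral_of_dominated_loc_of_deriv_le
    (μ := volume.restrict (Ioi (0 : ℝ))) (F := fun v y => Q (-v) y * R v y) (F' := F')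
    (x₀ := w) (s := Metric.ball w 1)
    (bound := fun y => (2 * D ^ 2 * (1 + 2 * K)) * Real.exp (-y))
    (Metric.ball_mem_nhds w one_pos)
    (Filter.Eventually.of_forall fun v => (hcF v).aestronglyMeasurable) hint0
    (hcF' w).aestronglyMeasurable
    ((ae_restrict_iff' measurableSet_Ioi).2 (Filter.Eventually.of_forall fun y hy v hv =>
      hbase v y (hball v hv).1 (hball v hv).2 (le_of_lt hy)))
    (expInt.const_mul _)
    (Filter.Eventually.of_forall fun y v _ => hderiv v y)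
  obtain ⟨hint1, hder⟩ := hmain
  -- the antiderivative in `y`
  set Ψ : ℝ → ℝ := fun y => -2 * w * (Q (-w) y * R w y) + Q (-w) y * R1 w y -
    R (-w) y * R w y with hΨ
  have hΨd : ∀ y ∈ Ici (0 : ℝ), HasDerivAt Ψ (F' w y) y := by
    intro y _
    have h1 := ((dQ (-w) y).mul (dR w y)).const_mul (-2 * w)
    have h2 := (dQ (-w) y).mul (dR1 w y)
    have h3 := (dR (-w) y).mul (dR w y)
    have h4 := (h1.add h2).sub h3
    refine h4.congr_deriv ?_
    rw [hF']
    ring
  have hΨl : Tendsto Ψ atTop (𝓝 0) := by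
    have hz : Tendsto (fun y : ℝ => ((2 * K + 1) * D ^ 2 + D ^ 2) * Real.exp (-y)) atTop
        (𝓝 (((2 * K + 1) * D ^ 2 + D ^ 2) * 0)) :=
      (Real.tendsto_exp_neg_atTop_nhds_zero).const_mul _
    rw [mul_zero] at hz
    refine squeeze_zero_norm' ?_ hz
    filter_upwards [eventually_ge_atTop (0 : ℝ)] with y hy
    obtain ⟨p1, p2, p3⟩ := hb w y hwK hy
    obtain ⟨q1, q2, q3⟩ := hb (-w) y hwK' hy
    have q0 := hQ (-w) y hwK' hy
    have e3 : Real.exp (-y) ≤ 1 := Real.exp_le_one_iff.2 (by linarith)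
    have e0 := Real.exp_pos (-y)
    have u1 : |Q (-w) y * R w y| ≤ D * (D * Real.exp (-y)) := by
      rw [abs_mul]; exact mul_le_mul q0 p1 (abs_nonneg _) hD
    have u2 : |Q (-w) y * R1 w y| ≤ D * (D * Real.exp (-y)) := by
      rw [abs_mul]; exact mul_le_mul q0 p2 (abs_nonneg _) hD
    have q1' : |R (-w) y| ≤ D := q1.trans (by nlinarith)
    have u3 : |R (-w) y * R w y| ≤ D * (D * Real.exp (-y)) := by
      rw [abs_mul]; exact mul_le_mul q1' p1 (abs_nonneg _) hD
    rw [Real.norm_eq_abs, hΨ]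
    calc |-2 * w * (Q (-w) y * R w y) + Q (-w) y * R1 w y - R (-w) y * R w y|
        ≤ |-2 * w * (Q (-w) y * R w y)| + |Q (-w) y * R1 w y| + |R (-w) y * R w y| :=
          (abs_sub _ _).trans (add_le_add (abs_add_le _ _) le_rfl)
      _ ≤ 2 * K * (D * (D * Real.exp (-y))) + D * (D * Real.exp (-y)) +
            D * (D * Real.exp (-y)) := by
          refine add_le_add (add_le_add ?_ u2) u3
          rw [abs_mul, abs_mul, abs_neg, abs_two]
          exact mul_le_mul (by linarith) u1 (abs_nonneg _) (by positivity)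
      _ = ((2 * K + 1) * D ^ 2 + D ^ 2) * Real.exp (-y) := by ring
  have hval : ∫ y in Ioi (0 : ℝ), F' w y = g 0 w * g 0 (-w) := by
    rw [integral_Ioi_of_hasDerivAt_of_tendsto' hΨd hint1 hΨl]
    have hQ0 : Q (-w) 0 = 0 := by rw [Q, intervalIntegral.integral_same]
    have hR : ∀ a, R a 0 = Real.exp (-(a ^ 3 / 3)) * g 0 a := by
      intro a
      rw [R, (hRB0 a).1]
      congr 2
      ring
    have hexp : Real.exp (-((-w) ^ 3 / 3)) * Real.exp (-(w ^ 3 / 3)) = 1 := by
      rw [← Real.exp_add, ← Real.exp_zero]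
      congr 1
      ring
    rw [hΨ]
    simp only [hQ0, hR]
    linear_combination (g 0 w * g 0 (-w)) * hexp
  rw [← hval]
  exact hder

end Pool.Agent.CHN
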