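import Pool.Agent.CHN.Targets

set_option autoImplicit false

open MeasureTheory ProbabilityTheory Filter Topology Set
open scoped NNReal

namespace Pool.Agent.CHN

namespace DYN_

/-- the weight -/
noncomputable def w (ξ : ℝ) : ℝ := Real.exp (-(1 / 2) * ξ ^ 2)

theorem w_cont : Continuous w := by unfold w; fun_prop

theorem w_pos (ξ : ℝ) : 0 < w ξ := Real.exp_pos _

/-- the dominating function -/
noncomputable def bb (ξ : ℝ) : ℝ := Real.exp (-(1 / 4) * ξ ^ 2)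

theorem bb_int : Integrable bb := integrable_exp_neg_mul_sq (b := 1 / 4) (by norm_num)

theorem e8w (ξ : ℝ) : Real.exp (ξ ^ 2 / 8) * w ξ ≤ bb ξ := by
  unfold w bb
  rw [← Real.exp_add]
  apply Real.exp_le_exp.2
  nlinarith [sq_nonneg ξ]

theorem xi_le (ξ : ℝ) : |ξ| ≤ 8 * Real.exp (ξ ^ 2 / 8) := by
  have h1 := Real.add_one_le_exp (ξ ^ 2 / 8)
  have h2 : |ξ| ^ 2 = ξ ^ 2 := sq_abs ξ
  nlinarith [sq_nonneg (|ξ| - 1), abs_nonneg ξ]

theorem xi_e8w (ξ : ℝ) : |ξ| * (Real.exp (ξ ^ 2 / 8) * w ξ) ≤ 8 * bb ξ := by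
  have h1 := xi_le ξ
  have h2 : 0 ≤ Real.exp (ξ ^ 2 / 8) * w ξ := (mul_pos (Real.exp_pos _) (w_pos ξ)).le
  refine (mul_le_mul_of_nonneg_right h1 h2).trans (le_of_eq ?_)
  unfold w bb
  rw [mul_assoc, ← Real.exp_add, ← Real.exp_add]
  congr 2
  ring

/-- the bound along the path -/
theorem bound {f : ℝ → ℝ → ℝ}
    (hf : ∀ K ε : ℝ, 0 < ε → ∃ C : ℝ, ∀ s z, |s| ≤ K → |f s z| ≤ C * Real.exp (ε * z ^ 2))
    (z S : ℝ) (hS : 0 ≤ S) :
    ∃ C : ℝ, 0 ≤ C ∧ ∀ s, 0 ≤ s → s ≤ S → ∀ ξ : ℝ,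
      |f s (z + √s * ξ)| ≤ C * Real.exp (ξ ^ 2 / 8) := by
  have hS1 : 0 < 16 * (S + 1) := by linarith
  obtain ⟨C, hC⟩ := hf S (1 / (16 * (S + 1))) (by positivity)
  refine ⟨|C| * Real.exp (1 / (16 * (S + 1)) * (2 * z ^ 2)), by positivity, fun s h0 hs ξ => ?_⟩
  have h1 := hC s (z + √s * ξ) (by rw [abs_of_nonneg h0]; exact hs)
  have h2 : (√s) ^ 2 = s := Real.sq_sqrt h0
  have h3 : (z + √s * ξ) ^ 2 ≤ 2 * z ^ 2 + 2 * s * ξ ^ 2 := by
    nlinarith [sq_nonneg (z - √s * ξ)]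
  have h4 : 1 / (16 * (S + 1)) * (z + √s * ξ) ^ 2 ≤
      1 / (16 * (S + 1)) * (2 * z ^ 2) + ξ ^ 2 / 8 := by
    have h5 : 1 / (16 * (S + 1)) * (z + √s * ξ) ^ 2 ≤
      1 / (16 * (S + 1)) * (2 * z ^ 2 + 2 * s * ξ ^ 2) :=
      mul_le_mul_of_nonneg_left h3 (by positivity)
    refine h5.trans ?_
    rw [mul_add]
    have h6 : 1 / (16 * (S + 1)) * (2 * s * ξ ^ 2) ≤ ξ ^ 2 / 8 := by
      rw [one_div, inv_mul_le_iff₀ hS1]
      nlinarith [sq_nonneg ξ, mul_nonneg (sub_nonneg.2 hs) (sq_nonneg ξ)]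
    linarith
  calc |f s (z + √s * ξ)| ≤ C * Real.exp (1 / (16 * (S + 1)) * (z + √s * ξ) ^ 2) := h1
    _ ≤ |C| * Real.exp (1 / (16 * (S + 1)) * (z + √s * ξ) ^ 2) :=
        mul_le_mul_of_nonneg_right (le_abs_self C) (Real.exp_pos _).le
    _ ≤ |C| * Real.exp (1 / (16 * (S + 1)) * (2 * z ^ 2) + ξ ^ 2 / 8) :=
        mul_le_mul_of_nonneg_left (Real.exp_le_exp.2 h4) (abs_nonneg _)
    _ = |C| * Real.exp (1 / (16 * (S + 1)) * (2 * z ^ 2)) * Real.exp (ξ ^ 2 / 8) := by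
        rw [Real.exp_add]; ring

theorem path_cont {f : ℝ → ℝ → ℝ} (hf : Continuous fun p : ℝ × ℝ => f p.1 p.2) (z s : ℝ) :
    Continuous fun ξ : ℝ => f s (z + √s * ξ) :=
  hf.comp (Continuous.prodMk continuous_const (by fun_prop))

/-- derivative along the path -/
theorem path_deriv {H Hs Hz : ℝ → ℝ → ℝ}
    (h1 : ∀ s z, HasDerivAt (fun s => H s z) (Hs s z) s)
    (h2 : ∀ s z, HasDerivAt (H s) (Hz s z) z)
    (c1 : Continuous fun p : ℝ × ℝ => Hs p.1 p.2) (c2 : Continuous fun p : ℝ × ℝ => Hz p.1 p.2)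
    (z ξ s : ℝ) (hs : 0 < s) :
    HasDerivAt (fun s => H s (z + √s * ξ))
      (Hs s (z + √s * ξ) + Hz s (z + √s * ξ) * (ξ / (2 * √s))) s := by
  have h3 : HasStrictFDerivAt (Function.uncurry H)
      ((ContinuousLinearMap.toSpanSingleton ℝ (Hs s (z + √s * ξ))).coprod
        (ContinuousLinearMap.toSpanSingleton ℝ (Hz s (z + √s * ξ)))) (s, z + √s * ξ) := by
    have := hasStrictFDerivAt_uncurry_coprod (𝕜 := ℝ) (u := (s, z + √s * ξ)) (f := H)
      (f₁ := fun s z => ContinuousLinearMap.toSpanSingleton ℝ (Hs s z))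
      (f₂ := fun s z => ContinuousLinearMap.toSpanSingleton ℝ (Hz s z))
      (Eventually.of_forall fun v => (h1 v.1 v.2).hasFDerivAt)
      (Eventually.of_forall fun v => (h2 v.1 v.2).hasFDerivAt)
      (((ContinuousLinearMap.toSpanSingletonCLE (𝕜 := ℝ) (E := ℝ)).continuous.comp c1).continuousAt)
      (((ContinuousLinearMap.toSpanSingletonCLE (𝕜 := ℝ) (E := ℝ)).continuous.comp c2).continuousAt)
    exact this
  have h4 : HasDerivAt (fun s : ℝ => (s, z + √s * ξ)) ((1 : ℝ), 1 / (2 * √s) * ξ) s := by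
    refine (hasDerivAt_id s).prodMk ?_
    exact ((Real.hasDerivAt_sqrt hs.ne').mul_const ξ).const_add z
  have h5 := h3.hasFDerivAt.comp_hasDerivAt s h4
  refine h5.congr_deriv ?_
  simp
  ring

/-- Stein's identity for the weight -/
theorem stein {φ φ' : ℝ → ℝ} (h : ∀ x, HasDerivAt φ (φ' x) x)
    (i1 : Integrable fun x => φ x * (x * w x)) (i2 : Integrable fun x => φ' x * w x)
    (i3 : Integrable fun x => φ x * w x) :
    ∫ x, φ x * (x * w x) = ∫ x, φ' x * w x := by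
  have hw : ∀ x : ℝ, HasDerivAt (fun x => -w x) (x * w x) x := by
    intro x
    have h1 : HasDerivAt (fun x : ℝ => -(1 / 2) * x ^ 2) (-(1 / 2) * (2 * x)) x := by
      simpa using (hasDerivAt_pow 2 x).const_mul (-(1 / 2 : ℝ))
    have h2 := h1.exp.neg
    refine h2.congr_deriv ?_
    unfold w
    ring
  have h1 := integral_mul_deriv_eq_deriv_mul_of_integrable (u := φ) (u' := φ')
    (v := fun x => -w x) (v' := fun x => x * w x) (fun x _ => h x) (fun x _ => hw x) i1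
    (by
      have := i2.neg
      refine this.congr (Eventually.of_forall fun x => ?_)
      simp)
    (by
      have := i3.neg
      refine this.congr (Eventually.of_forall fun x => ?_)
      simp)
  rw [h1, ← integral_neg]
  congr 1
  ext x
  ring

end DYN_

open DYN_ in
theorem p_DYN : T_DYN := by
  intro H Hs Hz Hzz dHs dHz dHzz cH cHs cHz cHzz heq hb σ z
  by_cases h0 : σ = 0
  · subst h0
    rw [gaussianReal_zero_var, integral_dirac]
    simp
  have hσ : (0 : ℝ) < σ := lt_of_le_of_ne σ.2 (fun h => h0 (NNReal.coe_eq_zero.1 h.symm))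
  -- bounds
  obtain ⟨C1, hC1, b1⟩ := bound (f := H)
    (fun K ε he => (hb K ε he).imp fun C h s z hs => (h s z hs).1) z σ hσ.le
  obtain ⟨C2, hC2, b2⟩ := bound (f := Hs)
    (fun K ε he => (hb K ε he).imp fun C h s z hs => (h s z hs).2.1) z σ hσ.le
  obtain ⟨C3, hC3, b3⟩ := bound (f := Hz)
    (fun K ε he => (hb K ε he).imp fun C h s z hs => (h s z hs).2.2.1) z σ hσ.le
  obtain ⟨C4, hC4, b4⟩ := bound (f := Hzz)
    (fun K ε he => (hb K ε he).imp fun C h s z hs => (h s z hs).2.2.2) z σ hσ.le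
  have bw : ∀ (f : ℝ → ℝ → ℝ) (C : ℝ), 0 ≤ C → (∀ s, 0 ≤ s → s ≤ (σ : ℝ) → ∀ ξ : ℝ,
      |f s (z + √s * ξ)| ≤ C * Real.exp (ξ ^ 2 / 8)) → ∀ s, 0 ≤ s → s ≤ (σ : ℝ) → ∀ ξ : ℝ,
      |f s (z + √s * ξ) * w ξ| ≤ C * bb ξ := by
    intro f C hC hf s hs0 hs1 ξ
    rw [abs_mul, abs_of_pos (w_pos ξ)]
    calc |f s (z + √s * ξ)| * w ξ ≤ C * Real.exp (ξ ^ 2 / 8) * w ξ :=
          mul_le_mul_of_nonneg_right (hf s hs0 hs1 ξ) (w_pos ξ).le
      _ = C * (Real.exp (ξ ^ 2 / 8) * w ξ) := by ring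
      _ ≤ C * bb ξ := mul_le_mul_of_nonneg_left (e8w ξ) hC
  have bxw : ∀ (f : ℝ → ℝ → ℝ) (C : ℝ), 0 ≤ C → (∀ s, 0 ≤ s → s ≤ (σ : ℝ) → ∀ ξ : ℝ,
      |f s (z + √s * ξ)| ≤ C * Real.exp (ξ ^ 2 / 8)) → ∀ s, 0 ≤ s → s ≤ (σ : ℝ) → ∀ ξ : ℝ,
      |f s (z + √s * ξ) * (ξ * w ξ)| ≤ C * (8 * bb ξ) := by
    intro f C hC hf s hs0 hs1 ξ
    rw [abs_mul, abs_mul, abs_of_pos (w_pos ξ)]
    calc |f s (z + √s * ξ)| * (|ξ| * w ξ) ≤ C * Real.exp (ξ ^ 2 / 8) * (|ξ| * w ξ) :=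
          mul_le_mul_of_nonneg_right (hf s hs0 hs1 ξ) (mul_nonneg (abs_nonneg _) (w_pos ξ).le)
      _ = C * (|ξ| * (Real.exp (ξ ^ 2 / 8) * w ξ)) := by ring
      _ ≤ C * (8 * bb ξ) := mul_le_mul_of_nonneg_left (xi_e8w ξ) hC
  have meas : ∀ (f : ℝ → ℝ → ℝ), (Continuous fun p : ℝ × ℝ => f p.1 p.2) → ∀ s : ℝ,
      AEStronglyMeasurable (fun ξ => f s (z + √s * ξ) * w ξ) volume :=
    fun f hf s => ((path_cont hf z s).mul w_cont).aestronglyMeasurable
  have measx : ∀ (f : ℝ → ℝ → ℝ), (Continuous fun p : ℝ × ℝ => f p.1 p.2) → ∀ s : ℝ,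
      AEStronglyMeasurable (fun ξ => f s (z + √s * ξ) * (ξ * w ξ)) volume :=
    fun f hf s => ((path_cont hf z s).mul (continuous_id.mul w_cont)).aestronglyMeasurable
  have int1 : ∀ (f : ℝ → ℝ → ℝ) (C : ℝ), 0 ≤ C → (Continuous fun p : ℝ × ℝ => f p.1 p.2) →
      (∀ s, 0 ≤ s → s ≤ (σ : ℝ) → ∀ ξ : ℝ,
      |f s (z + √s * ξ)| ≤ C * Real.exp (ξ ^ 2 / 8)) → ∀ s, 0 ≤ s → s ≤ (σ : ℝ) →
      Integrable (fun ξ => f s (z + √s * ξ) * w ξ) := by
    intro f C hC hc hf s hs0 hs1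
    refine (bb_int.const_mul C).mono' (meas f hc s) (Eventually.of_forall fun ξ => ?_)
    exact bw f C hC hf s hs0 hs1 ξ
  have int2 : ∀ (f : ℝ → ℝ → ℝ) (C : ℝ), 0 ≤ C → (Continuous fun p : ℝ × ℝ => f p.1 p.2) →
      (∀ s, 0 ≤ s → s ≤ (σ : ℝ) → ∀ ξ : ℝ,
      |f s (z + √s * ξ)| ≤ C * Real.exp (ξ ^ 2 / 8)) → ∀ s, 0 ≤ s → s ≤ (σ : ℝ) →
      Integrable (fun ξ => f s (z + √s * ξ) * (ξ * w ξ)) := by
    intro f C hC hc hf s hs0 hs1
    refine ((bb_int.const_mul 8).const_mul C).mono' (measx f hc s)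
      (Eventually.of_forall fun ξ => ?_)
    exact bxw f C hC hf s hs0 hs1 ξ
  -- the function K
  let K : ℝ → ℝ := fun s => ∫ ξ, H s (z + √s * ξ) * w ξ
  have hKc : ContinuousOn K (Icc 0 (σ : ℝ)) := by
    refine continuousOn_of_dominated (bound := fun ξ => C1 * bb ξ)
      (fun s _ => meas H cH s)
      (fun s hs => Eventually.of_forall fun ξ => bw H C1 hC1 b1 s hs.1 hs.2 ξ)
      (bb_int.const_mul C1) (Eventually.of_forall fun ξ => ?_)
    refine Continuous.continuousOn ?_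
    exact (cH.comp (Continuous.prodMk continuous_id (by fun_prop))).mul continuous_const
  have hKd : ∀ s ∈ Ioo 0 (σ : ℝ), HasDerivAt K 0 s := by
    intro s hs
    have hs2 : 0 < √(s / 2) := Real.sqrt_pos.2 (by linarith [hs.1])
    have hnb : Ioo (s / 2) (σ : ℝ) ∈ 𝓝 s := Ioo_mem_nhds (by linarith [hs.1]) hs.2
    have hd := (hasDerivAt_integral_of_dominated_loc_of_deriv_le (μ := volume)
      (F := fun s ξ => H s (z + √s * ξ) * w ξ)
      (F' := fun s ξ => (Hs s (z + √s * ξ) + Hz s (z + √s * ξ) * (ξ / (2 * √s))) * w ξ)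
      (bound := fun ξ => C2 * bb ξ + C3 * (8 * bb ξ) * (1 / (2 * √(s / 2))))
      hnb (Eventually.of_forall fun s => meas H cH s)
      (int1 H C1 hC1 cH b1 s hs.1.le hs.2.le)
      (by
        refine Continuous.aestronglyMeasurable ?_
        refine Continuous.mul (Continuous.add (path_cont cHs z s) ?_) w_cont
        exact (path_cont cHz z s).mul (by fun_prop))
      (Eventually.of_forall fun ξ => ?_)
      ((bb_int.const_mul C2).add (((bb_int.const_mul 8).const_mul C3).mul_const _))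
      (Eventually.of_forall fun ξ s' hs' => ?_)).2
    · -- value of the derivative
      refine hd.congr_deriv ?_
      have hss : √s ≠ 0 := (Real.sqrt_pos.2 hs.1).ne'
      have e1 : ∀ ξ, (Hs s (z + √s * ξ) + Hz s (z + √s * ξ) * (ξ / (2 * √s))) * w ξ =
          Hs s (z + √s * ξ) * w ξ + (1 / (2 * √s)) * (Hz s (z + √s * ξ) * (ξ * w ξ)) := by
        intro ξ
        field_simp
      simp only [e1]
      rw [integral_add (int1 Hs C2 hC2 cHs b2 s hs.1.le hs.2.le)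
        ((int2 Hz C3 hC3 cHz b3 s hs.1.le hs.2.le).const_mul _), integral_const_mul]
      have hst := stein (φ := fun ξ => Hz s (z + √s * ξ)) (φ' := fun ξ => √s * Hzz s (z + √s * ξ))
        (by
          intro ξ
          have h1 : HasDerivAt (fun ξ : ℝ => z + √s * ξ) (√s * 1) ξ :=
            ((hasDerivAt_id ξ).const_mul (√s)).const_add z
          have h2 := (dHzz s (z + √s * ξ)).comp ξ h1
          refine h2.congr_deriv ?_
          ring)
        (int2 Hz C3 hC3 cHz b3 s hs.1.le hs.2.le)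
        (by
          have := (int1 Hzz C4 hC4 cHzz b4 s hs.1.le hs.2.le).const_mul (√s)
          refine this.congr (Eventually.of_forall fun ξ => ?_)
          ring)
        (int1 Hz C3 hC3 cHz b3 s hs.1.le hs.2.le)
      rw [hst]
      have e2 : ∀ ξ, √s * Hzz s (z + √s * ξ) * w ξ = √s * (Hzz s (z + √s * ξ) * w ξ) := by
        intro ξ; ring
      simp only [e2]
      rw [integral_const_mul, ← mul_assoc]
      have e3 : 1 / (2 * √s) * √s = 1 / 2 := by field_simp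
      rw [e3, ← integral_const_mul, ← integral_add (int1 Hs C2 hC2 cHs b2 s hs.1.le hs.2.le)
        ((int1 Hzz C4 hC4 cHzz b4 s hs.1.le hs.2.le).const_mul _)]
      rw [← integral_zero ℝ ℝ]
      congr 1
      ext ξ
      have := heq s (z + √s * ξ)
      have e4 : Hs s (z + √s * ξ) * w ξ + 1 / 2 * (Hzz s (z + √s * ξ) * w ξ) =
          (Hs s (z + √s * ξ) + Hzz s (z + √s * ξ) / 2) * w ξ := by ring
      rw [e4, this, zero_mul]
    · -- domination
      intro s' hs'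
      have hs'0 : 0 ≤ s' := by linarith [hs'.1, hs.1]
      have hss : √(s / 2) ≤ √s' := Real.sqrt_le_sqrt hs'.1.le
      have hss' : 0 < √s' := lt_of_lt_of_le hs2 hss
      have e1 : (Hs s' (z + √s' * ξ) + Hz s' (z + √s' * ξ) * (ξ / (2 * √s'))) * w ξ =
          Hs s' (z + √s' * ξ) * w ξ + (Hz s' (z + √s' * ξ) * (ξ * w ξ)) * (1 / (2 * √s')) := by
        field_simp
      rw [Real.norm_eq_abs, e1]
      refine (abs_add_le _ _).trans (add_le_add (bw Hs C2 hC2 b2 s' hs'0 hs'.2.le ξ) ?_)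
      rw [abs_mul, abs_of_pos (a := 1 / (2 * √s')) (by positivity)]
      refine mul_le_mul (bxw Hz C3 hC3 b3 s' hs'0 hs'.2.le ξ) ?_ (by positivity) ?_
      · apply one_div_le_one_div_of_le
        · positivity
        · linarith
      · have : 0 < bb ξ := Real.exp_pos _
        positivity
    · have hs'0 : 0 < s' := by linarith [hs'.1, hs.1]
      exact (path_deriv dHs dHz cHs cHz z ξ s' hs'0).mul_const (w ξ)
  -- K is constant
  have hKeq : K σ = K 0 := by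
    obtain ⟨c, -, hc⟩ := exists_hasDerivAt_eq_slope K (fun _ => 0) hσ hKc hKd
    rw [sub_zero] at hc
    have := (div_eq_zero_iff.1 hc.symm).resolve_right hσ.ne'
    linarith
  -- the integral in the statement
  have hmap : gaussianReal 0 σ = (gaussianReal 0 1).map (fun x => √(σ : ℝ) * x) := by
    rw [gaussianReal_map_const_mul]
    congr 1
    · simp
    · rw [mul_one]
      apply NNReal.coe_injective
      simp
  have hint : ∀ f : ℝ → ℝ, ∫ x, f x ∂(gaussianReal 0 1) = (√(2 * Real.pi * (1 : ℝ≥0)))⁻¹ * ∫ x, f x * w x := by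
    intro f
    rw [integral_gaussianReal_eq_integral_smul one_ne_zero, ← integral_const_mul]
    congr 1
    ext x
    simp only [gaussianPDFReal, smul_eq_mul, w]
    have : -(x - 0) ^ 2 / (2 * ((1 : ℝ≥0) : ℝ)) = -(1 / 2) * x ^ 2 := by
      push_cast; ring
    rw [this]
    ring
  have hcont : Continuous fun ζ => H σ (z + ζ) :=
    cH.comp (Continuous.prodMk continuous_const (by fun_prop))
  rw [hmap, integral_map (by fun_prop) hcont.aestronglyMeasurable, hint]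
  have h1 : ∫ x, H σ (z + √(σ : ℝ) * x) * w x = K σ := rfl
  rw [h1, hKeq]
  have h2 := hint (fun _ => H 0 z)
  rw [integral_const] at h2
  simp only [probReal_univ, one_smul] at h2
  rw [h2]
  congr 1
  simp [K]

end Pool.Agent.CHN
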