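import Pool.Agent.CHN.Targets

set_option autoImplicit false

open MeasureTheory ProbabilityTheory Filter Topology Set
open scoped NNReal

namespace Pool.Agent.CHN

open Pool.Agent.Freud (Airy Airy')

namespace GBS_

/-- the integrand -/
noncomputable def F (j : ℕ) (t : ℝ) (y : ℝ) : ℂ :=
  (Complex.I * y) ^ j * Complex.exp (Complex.I * y * t) / Airy (Complex.I * y)

/-- the modulus of the integrand -/
noncomputable def B (j : ℕ) (y : ℝ) : ℝ := |y| ^ j / ‖Airy (Complex.I * y)‖

theorem cont_A : Continuous (fun y : ℝ => Airy (Complex.I * y)) := by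
  have h : Continuous Airy :=
    continuous_iff_continuousAt.2 fun z => (Pool.Agent.Freud.Airy_hasDerivAt z).continuousAt
  exact h.comp (continuous_const.mul Complex.continuous_ofReal)

theorem ne_zero (hALO : T_ALO) (y : ℝ) : Airy (Complex.I * y) ≠ 0 := by
  obtain ⟨c, hc, h⟩ := hALO
  have h1 := h y
  have h2 : 0 < c * Real.exp (c * |y| ^ (3 / 2 : ℝ)) := by positivity
  exact norm_pos_iff.1 (lt_of_lt_of_le h2 h1)

theorem norm_F (j : ℕ) (t y : ℝ) : ‖F j t y‖ = B j y := by
  unfold F B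
  have h : Complex.I * y * t = ((y * t : ℝ) : ℂ) * Complex.I := by push_cast; ring
  rw [norm_div, norm_mul, norm_pow, norm_mul, Complex.norm_I, one_mul, Complex.norm_real,
    Real.norm_eq_abs, h, Complex.norm_exp_ofReal_mul_I, mul_one]

theorem cont_F (hALO : T_ALO) (j : ℕ) (t : ℝ) : Continuous (F j t) := by
  unfold F
  refine Continuous.div ?_ cont_A (ne_zero hALO)
  fun_prop

theorem cont_B (hALO : T_ALO) (j : ℕ) : Continuous (B j) := by
  unfold B
  refine Continuous.div (by fun_prop) cont_A.norm fun y => ?_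
  exact (norm_pos_iff.2 (ne_zero hALO y)).ne'

theorem pow_exp (c : ℝ) (hc : 0 < c) (n : ℕ) (x : ℝ) (hx : 0 ≤ x) :
    x ^ n * Real.exp (-(c * x)) ≤ n.factorial / c ^ n := by
  have h := Real.pow_div_factorial_le_exp (c * x) (by positivity) n
  rw [Real.exp_neg, ← div_eq_mul_inv, div_le_div_iff₀ (Real.exp_pos _) (by positivity)]
  have hf : (0 : ℝ) < n.factorial := by positivity
  rw [div_le_iff₀ hf, mul_pow] at h
  linarith

theorem B_le (hALO : T_ALO) (j : ℕ) : ∃ K : ℝ, ∀ y, B j y ≤ K * (1 + y ^ 2)⁻¹ := by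
  obtain ⟨c, hc, h⟩ := hALO
  refine ⟨Real.exp c / c * (j.factorial / c ^ j + (j + 2).factorial / c ^ (j + 2)), fun y => ?_⟩
  have h1 := h y
  have ha : 0 ≤ |y| := abs_nonneg y
  have h2 : |y| - 1 ≤ |y| ^ (3 / 2 : ℝ) := by
    rcases le_total 1 |y| with h3 | h3
    · have : |y| ^ (1 : ℝ) ≤ |y| ^ (3 / 2 : ℝ) :=
        Real.rpow_le_rpow_of_exponent_le h3 (by norm_num)
      rw [Real.rpow_one] at this
      linarith
    · have : 0 ≤ |y| ^ (3 / 2 : ℝ) := by positivity
      linarith
  have h3 : c * Real.exp (c * (|y| - 1)) ≤ ‖Airy (Complex.I * y)‖ := by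
    refine le_trans ?_ h1
    gcongr
  have h4 : 0 < c * Real.exp (c * (|y| - 1)) := by positivity
  have h5 : B j y ≤ |y| ^ j / (c * Real.exp (c * (|y| - 1))) := by
    unfold B
    gcongr
  have h6 : |y| ^ j / (c * Real.exp (c * (|y| - 1))) =
      Real.exp c / c * (|y| ^ j * Real.exp (-(c * |y|))) := by
    have e1 : c * (|y| - 1) = -(-(c * |y|)) + -c := by ring
    rw [e1, Real.exp_add, Real.exp_neg (-(c * |y|)), Real.exp_neg c]
    field_simp
  have h7 : (0 : ℝ) < 1 + y ^ 2 := by positivity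
  rw [← div_eq_mul_inv, le_div_iff₀ h7]
  have h8 := pow_exp c hc j |y| ha
  have h9 := pow_exp c hc (j + 2) |y| ha
  have h10 : (0 : ℝ) < Real.exp c / c := by positivity
  calc B j y * (1 + y ^ 2) ≤ Real.exp c / c * (|y| ^ j * Real.exp (-(c * |y|))) * (1 + y ^ 2) := by
        rw [← h6]
        gcongr
    _ = Real.exp c / c * (|y| ^ j * Real.exp (-(c * |y|)) + |y| ^ (j + 2) * Real.exp (-(c * |y|))) := by
        rw [← sq_abs y]
        ring
    _ ≤ _ := by
        gcongr

theorem int_B (hALO : T_ALO) (j : ℕ) : Integrable (B j) := by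
  obtain ⟨K, hK⟩ := B_le hALO j
  refine Integrable.mono' (integrable_inv_one_add_sq.const_mul K)
    (cont_B hALO j).aestronglyMeasurable (Eventually.of_forall fun y => ?_)
  have h0 : 0 ≤ B j y := by unfold B; positivity
  rw [Real.norm_eq_abs, abs_of_nonneg h0]
  exact hK y

theorem int_F (hALO : T_ALO) (j : ℕ) (t : ℝ) : Integrable (F j t) := by
  refine Integrable.mono' (int_B hALO j) (cont_F hALO j t).aestronglyMeasurable
    (Eventually.of_forall fun y => (norm_F j t y).le)

theorem gC_eq (j : ℕ) (t : ℝ) : gC j t = (1 / (2 * Real.pi) : ℂ) * ∫ y : ℝ, F j t y := rfl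

theorem conj_F (j : ℕ) (t y : ℝ) : (starRingEnd ℂ) (F j t y) = F j t (-y) := by
  unfold F
  have h : Complex.I * ((-y : ℝ) : ℂ) = (starRingEnd ℂ) (Complex.I * y) := by
    rw [map_mul, Complex.conj_I, Complex.conj_ofReal]
    push_cast; ring
  rw [h, Pool.Agent.Freud.Airy_conj, map_div₀, map_mul, map_pow, ← Complex.exp_conj, map_mul _ _ (t : ℂ),
    Complex.conj_ofReal t]

theorem conj_int (j : ℕ) (t : ℝ) :
    (starRingEnd ℂ) (∫ y : ℝ, F j t y) = ∫ y : ℝ, F j t y := by
  rw [← integral_conj]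
  simp_rw [conj_F]
  exact integral_neg_eq_self (fun y => F j t y) volume

theorem gC_real (j : ℕ) (t : ℝ) : gC j t = (g j t : ℂ) := by
  have h : (starRingEnd ℂ) (gC j t) = gC j t := by
    have h2 : (starRingEnd ℂ) (1 / (2 * Real.pi) : ℂ) = (1 / (2 * Real.pi) : ℂ) := by
      have h3 : (1 / (2 * Real.pi) : ℂ) = ((1 / (2 * Real.pi) : ℝ) : ℂ) := by push_cast; rfl
      rw [h3, Complex.conj_ofReal]
    rw [gC_eq, map_mul, conj_int, h2]
  unfold g
  exact (Complex.conj_eq_iff_re.1 h).symm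

theorem gC_deriv (hALO : T_ALO) (j : ℕ) (t : ℝ) :
    HasDerivAt (gC j) (gC (j + 1) t) t := by
  have key := hasDerivAt_integral_of_dominated_loc_of_deriv_le (μ := volume)
    (F := fun t y => F j t y) (F' := fun t y => F (j + 1) t y) (x₀ := t) (s := Set.univ)
    (bound := B (j + 1)) Filter.univ_mem
    (Eventually.of_forall fun t => (cont_F hALO j t).aestronglyMeasurable)
    (int_F hALO j t) (cont_F hALO (j + 1) t).aestronglyMeasurable
    (Eventually.of_forall fun y t _ => (norm_F (j + 1) t y).le) (int_B hALO (j + 1))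
    (Eventually.of_forall fun y t _ => ?_)
  · exact key.2.const_mul _
  · show HasDerivAt (fun t : ℝ => F j t y) (F (j + 1) t y) t
    unfold F
    have h1 : HasDerivAt (fun t : ℝ => Complex.I * y * (t : ℂ)) (Complex.I * y) t := by
      simpa using (Complex.ofRealCLM.hasDerivAt (x := t)).const_mul (Complex.I * y)
    have h2 := ((h1.cexp).const_mul ((Complex.I * y) ^ j)).div_const (Airy (Complex.I * y))
    refine h2.congr_deriv ?_
    rw [pow_succ]
    ring

end GBS_

open GBS_

theorem p_GBS (hALO : T_ALO) : T_GBS := by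
  refine ⟨gC_real, fun j t => ?_, fun j => ?_⟩
  · exact Complex.reCLM.hasFDerivAt.comp_hasDerivAt t (gC_deriv hALO j t)
  · refine ⟨‖(1 / (2 * Real.pi) : ℂ)‖ * ∫ y, B j y, fun t => ?_⟩
    calc |g j t| ≤ ‖gC j t‖ := Complex.abs_re_le_norm _
      _ ≤ _ := by
        rw [gC_eq, norm_mul]
        gcongr
        refine (norm_integral_le_integral_norm _).trans (le_of_eq ?_)
        simp_rw [norm_F]

end Pool.Agent.CHN
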