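import Pool.Agent.CHN.GBS

/-!
# MP_0e7bd3_pr (project CHN): the first identity (helper15)
-/

set_option autoImplicit false

open MeasureTheory ProbabilityTheory Filter Topology Set
open scoped NNReal

namespace Pool.Agent.CHN

open Pool.Agent.Freud (Airy Airy')

namespace GI1_

open GBS_

theorem cont_A' : Continuous (fun y : ℝ => Airy' (Complex.I * y)) := by
  have h : Continuous Airy' :=
    continuous_iff_continuousAt.2 fun z => (Pool.Agent.Freud.Airy'_hasDerivAt z).continuousAt
  exact h.comp (continuous_const.mul Complex.continuous_ofReal)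

theorem add_ne {A : ℝ} (hA : 0 < A) (y : ℝ) : Complex.I * y + (A : ℂ) ≠ 0 := by
  intro h
  have := congrArg Complex.re h
  simp at this
  exact hA.ne' this

theorem norm_add_ge {A : ℝ} (hA : 0 < A) (y : ℝ) : A ≤ ‖Complex.I * y + (A : ℂ)‖ := by
  have h := Complex.abs_re_le_norm (Complex.I * y + (A : ℂ))
  simp at h
  exact (le_abs_self A).trans h

/-- the inner integral -/
theorem inner {A : ℝ} (hA : 0 < A) (y : ℝ) :
    ∫ v in Ioi (0 : ℝ), Complex.exp (-(A * v)) * Complex.exp (-(Complex.I * y * v)) =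
      1 / (Complex.I * y + (A : ℂ)) := by
  have h1 : (-(Complex.I * y + (A : ℂ))).re < 0 := by simp [hA]
  have h := integral_exp_mul_complex_Ioi h1 0
  have h2 : ∀ v : ℝ, Complex.exp (-(A * v)) * Complex.exp (-(Complex.I * y * v)) =
      Complex.exp (-(Complex.I * y + (A : ℂ)) * v) := by
    intro v
    rw [← Complex.exp_add]
    congr 1
    ring
  simp_rw [h2]
  rw [h]
  have h3 := add_ne hA y
  simp only [Complex.ofReal_zero, mul_zero, Complex.exp_zero]
  rw [div_neg, neg_div, neg_neg]

theorem F_shift (j : ℕ) (t v y : ℝ) :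
    F j (t - v) y = F j t y * Complex.exp (-(Complex.I * y * v)) := by
  unfold F
  have h : Complex.I * y * ((t - v : ℝ) : ℂ) = Complex.I * y * t + -(Complex.I * y * v) := by
    push_cast
    ring
  rw [h, Complex.exp_add]
  ring

theorem swap (hALO : T_ALO) {A : ℝ} (hA : 0 < A) (j : ℕ) (t : ℝ) :
    ∫ v in Ioi (0 : ℝ), ∫ y : ℝ, Complex.exp (-(A * v)) * F j (t - v) y =
      ∫ y : ℝ, F j t y * (1 / (Complex.I * y + (A : ℂ))) := by
  rw [integral_integral_swap]
  · refine integral_congr_ae (Eventually.of_forall fun y => ?_)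
    simp only
    rw [← inner hA y, ← integral_const_mul]
    refine integral_congr_ae (Eventually.of_forall fun v => ?_)
    simp only
    rw [F_shift]
    ring
  · have h1 : Integrable (fun v : ℝ => Complex.exp (-(A * v))) (volume.restrict (Ioi 0)) := by
      have h := integrableOn_exp_mul_complex_Ioi (a := -(A : ℂ)) (by simpa using hA) 0
      refine h.congr_fun (fun v _ => ?_) measurableSet_Ioi
      simp only
      congr 1
      ring
    have h2 := h1.mul_prod (int_F hALO j t)
    refine h2.mono ?_ (Eventually.of_forall fun p => ?_)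
    · refine Continuous.aestronglyMeasurable ?_
      have : (Function.uncurry fun (v y : ℝ) => Complex.exp (-(A * v)) * F j (t - v) y) =
          fun p : ℝ × ℝ => Complex.exp (-(A * p.1)) * (F j t p.2 *
            Complex.exp (-(Complex.I * p.2 * p.1))) := by
        ext p
        simp only [Function.uncurry]
        rw [F_shift]
      rw [this]
      have h3 := (cont_F hALO j t).comp (continuous_snd (X := ℝ) (Y := ℝ))
      have h4 : Continuous fun p : ℝ × ℝ => Complex.exp (-(A * p.1)) := by fun_prop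
      have h5 : Continuous fun p : ℝ × ℝ => Complex.exp (-(Complex.I * p.2 * p.1)) := by fun_prop
      exact h4.mul (h3.mul h5)
    · simp only [Function.uncurry]
      rw [norm_mul, norm_mul, norm_F, norm_F]

/-- the Laplace transform of `g` -/
theorem lap (hALO : T_ALO) {A : ℝ} (hA : 0 < A) (j : ℕ) (t : ℝ) :
    ((∫ v in Ioi (0 : ℝ), Real.exp (-(A * v)) * g j (t - v) : ℝ) : ℂ) =
      (1 / (2 * Real.pi) : ℂ) * ∫ y : ℝ, F j t y * (1 / (Complex.I * y + (A : ℂ))) := by
  rw [← integral_complex_ofReal, ← swap hALO hA, ← integral_const_mul]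
  refine integral_congr_ae (Eventually.of_forall fun v => ?_)
  simp only
  rw [Complex.ofReal_mul, ← gC_real, gC_eq, integral_const_mul, Complex.ofReal_exp]
  push_cast
  ring

/-- the `k`-th integrand -/
noncomputable def Fk (a : ℕ → ℝ) (j : ℕ) (t : ℝ) (k : ℕ) (y : ℝ) : ℂ :=
  F j t y * (1 / (Complex.I * y + (a k : ℂ)) - 1 / (a k : ℂ))

theorem bd {A : ℝ} (hA : 0 < A) (y : ℝ) :
    ‖1 / (Complex.I * y + (A : ℂ)) - 1 / (A : ℂ)‖ ≤ |y| * (1 / A ^ 2) := by
  have h1 := add_ne hA y
  have h2 : (A : ℂ) ≠ 0 := by exact_mod_cast hA.ne'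
  have h3 : 1 / (Complex.I * y + (A : ℂ)) - 1 / (A : ℂ) =
      -(Complex.I * y) / ((Complex.I * y + (A : ℂ)) * A) := by
    field_simp
    ring
  have h4 := norm_add_ge hA y
  rw [h3, norm_div, norm_neg, norm_mul, norm_mul, Complex.norm_I, one_mul, Complex.norm_real,
    Complex.norm_real, Real.norm_eq_abs, Real.norm_eq_abs, abs_of_pos hA, ← div_eq_mul_one_div]
  have h5 : A ^ 2 ≤ ‖Complex.I * y + (A : ℂ)‖ * A := by
    rw [sq]
    gcongr
  gcongr

theorem norm_Fk {a : ℕ → ℝ} (ha : ∀ k, 0 < a k) (j : ℕ) (t : ℝ) (k : ℕ) (y : ℝ) :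
    ‖Fk a j t k y‖ ≤ B (j + 1) y * (1 / a k ^ 2) := by
  unfold Fk
  rw [norm_mul, norm_F]
  have h := bd (ha k) y
  have h0 : 0 ≤ B j y := by unfold B; positivity
  calc B j y * ‖1 / (Complex.I * y + (a k : ℂ)) - 1 / (a k : ℂ)‖
      ≤ B j y * (|y| * (1 / a k ^ 2)) := by gcongr
    _ = B (j + 1) y * (1 / a k ^ 2) := by
        unfold B
        rw [pow_succ]
        ring

theorem cont_Fk (hALO : T_ALO) {a : ℕ → ℝ} (ha : ∀ k, 0 < a k) (j : ℕ) (t : ℝ) (k : ℕ) :
    Continuous (Fk a j t k) := by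
  unfold Fk
  refine (cont_F hALO j t).mul (Continuous.sub ?_ continuous_const)
  exact Continuous.div continuous_const (by fun_prop) fun y => add_ne (ha k) y

theorem int_Fk (hALO : T_ALO) {a : ℕ → ℝ} (ha : ∀ k, 0 < a k) (j : ℕ) (t : ℝ) (k : ℕ) :
    Integrable (Fk a j t k) :=
  Integrable.mono' ((int_B hALO (j + 1)).mul_const _) (cont_Fk hALO ha j t k).aestronglyMeasurable
    (Eventually.of_forall fun y => norm_Fk ha j t k y)

theorem term (hALO : T_ALO) {a : ℕ → ℝ} (ha : ∀ k, 0 < a k) (j : ℕ) (t : ℝ) (k : ℕ) :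
    (((∫ v in Ioi (0 : ℝ), Real.exp (-(a k * v)) * g j (t - v)) - g j t / a k : ℝ) : ℂ) =
      (1 / (2 * Real.pi) : ℂ) * ∫ y : ℝ, Fk a j t k y := by
  have h1 : Integrable fun y : ℝ => F j t y * (1 / (Complex.I * y + (a k : ℂ))) := by
    have h := (int_Fk hALO ha j t k).add ((int_F hALO j t).mul_const (1 / (a k : ℂ)))
    refine h.congr (Eventually.of_forall fun y => ?_)
    simp only [Pi.add_apply, Fk]
    ring
  have h2 : ∫ y : ℝ, Fk a j t k y =
      (∫ y : ℝ, F j t y * (1 / (Complex.I * y + (a k : ℂ)))) -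
        (∫ y : ℝ, F j t y) * (1 / (a k : ℂ)) := by
    rw [← integral_mul_const, ← integral_sub h1 ((int_F hALO j t).mul_const _)]
    refine integral_congr_ae (Eventually.of_forall fun y => ?_)
    simp only [Fk]
    ring
  rw [h2, Complex.ofReal_sub, lap hALO (ha k), Complex.ofReal_div, ← gC_real, gC_eq]
  ring

end GI1_

open GBS_ GI1_

theorem p_GI1 (hGPR : T_GPR) (hULG : T_ULG) (hALO : T_ALO) : T_GI1 := by
  intro a hZ j t
  have ha := hZ.pos
  have hS := hZ.summ
  rw [← Complex.hasSum_ofReal]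
  simp_rw [term hALO ha j t]
  have hsum : Summable fun k => ∫ y : ℝ, ‖Fk a j t k y‖ := by
    refine Summable.of_nonneg_of_le (fun k => integral_nonneg fun y => norm_nonneg _) (fun k => ?_)
      (hS.mul_left (∫ y : ℝ, B (j + 1) y))
    rw [← integral_mul_const]
    exact integral_mono (int_Fk hALO ha j t k).norm ((int_B hALO (j + 1)).mul_const _)
      fun y => norm_Fk ha j t k y
  have h1 := hasSum_integral_of_summable_integral_norm (int_Fk hALO ha j t) hsum
  have h2 : ∀ y : ℝ, HasSum (fun k => Fk a j t k y)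
      (F j t y * (Airy' (Complex.I * y) / Airy (Complex.I * y) - (u0 : ℂ))) := fun y =>
    (hULG a hZ (Complex.I * y) (by simp)).mul_left _
  have h3 : ∀ y : ℝ, ∑' k, Fk a j t k y =
      F j t y * (Airy' (Complex.I * y) / Airy (Complex.I * y) - (u0 : ℂ)) := fun y => (h2 y).tsum_eq
  simp_rw [h3] at h1
  have h4 : Integrable fun y : ℝ =>
      F j t y * (Airy' (Complex.I * y) / Airy (Complex.I * y) - (u0 : ℂ)) := by
    refine Integrable.mono' ((int_B hALO (j + 1)).mul_const (∑' k, 1 / a k ^ 2)) ?_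
      (Eventually.of_forall fun y => ?_)
    · refine Continuous.aestronglyMeasurable ?_
      refine (cont_F hALO j t).mul (Continuous.sub ?_ continuous_const)
      exact Continuous.div cont_A' cont_A (ne_zero hALO)
    · exact (h2 y).norm_le_of_bounded (hS.hasSum.mul_left _) fun k => norm_Fk ha j t k y
  have h5 := (hGPR a hZ j t).1
  have h6 : ∫ y : ℝ, F j t y * (Airy' (Complex.I * y) / Airy (Complex.I * y) - (u0 : ℂ)) =
      (∫ y : ℝ, (Complex.I * y) ^ j * Complex.exp (Complex.I * y * t) *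
        (Airy' (Complex.I * y) / Airy (Complex.I * y)) / Airy (Complex.I * y)) -
        (∫ y : ℝ, F j t y) * (u0 : ℂ) := by
    have h7 : Integrable fun y : ℝ => (Complex.I * y) ^ j * Complex.exp (Complex.I * y * t) *
        (Airy' (Complex.I * y) / Airy (Complex.I * y)) / Airy (Complex.I * y) := by
      refine (h4.add ((int_F hALO j t).mul_const (u0 : ℂ))).congr (Eventually.of_forall fun y => ?_)
      simp only [Pi.add_apply, F]
      ring
    rw [← integral_mul_const, ← integral_sub h7 ((int_F hALO j t).mul_const _)]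
    refine integral_congr_ae (Eventually.of_forall fun y => ?_)
    simp only [F]
    ring
  have h8 : (((t - u0) * g j t + j * g (j - 1) t : ℝ) : ℂ) = (1 / (2 * Real.pi) : ℂ) *
      ∫ y : ℝ, F j t y * (Airy' (Complex.I * y) / Airy (Complex.I * y) - (u0 : ℂ)) := by
    rw [h6, mul_sub, ← h5, ← mul_assoc, ← gC_eq, gC_real]
    push_cast
    ring
  rw [h8]
  exact h1.mul_left _

end Pool.Agent.CHN
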