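import Pool.Agent.CHN.Targets

/-!
# CHN: target GI2, the second identity (helper2)
-/

set_option autoImplicit false

open MeasureTheory ProbabilityTheory Filter Topology Set
open scoped NNReal

namespace Pool.Agent.CHN

open Pool.Agent.Freud (Airy Airy')

namespace GI2_

theorem half (j : ℕ) {c : ℝ} (hc : 0 < c) :
    Integrable fun y : ℝ => |y| ^ j * Real.exp (-(c * |y| ^ (3 / 2 : ℝ))) := by
  have h1 : IntegrableOn (fun y : ℝ => |y| ^ j * Real.exp (-(c * |y| ^ (3 / 2 : ℝ))))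
      (Ioi 0) := by
    refine (integrableOn_rpow_mul_exp_neg_mul_rpow (s := (j : ℝ)) (p := 3 / 2) (b := c)
      (by have : (0 : ℝ) ≤ j := Nat.cast_nonneg j
          linarith) (by norm_num) hc).congr_fun ?_ measurableSet_Ioi
    intro y hy
    have hy' : (0 : ℝ) < y := hy
    simp only [abs_of_pos hy', Real.rpow_natCast, neg_mul]
  rw [← integrableOn_univ, ← @Iio_union_Ici _ _ (0 : ℝ), integrableOn_union,
    integrableOn_Ici_iff_integrableOn_Ioi]
  refine ⟨?_, h1⟩
  rw [← (Measure.measurePreserving_neg (volume : Measure ℝ)).integrableOn_comp_preimage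
      (Homeomorph.neg ℝ).measurableEmbedding]
  simpa only [Function.comp_def, neg_preimage, neg_Iio, neg_zero, abs_neg] using h1

/-- the integrand of `gC` -/
noncomputable def F (j : ℕ) (t y : ℝ) : ℂ :=
  (Complex.I * y) ^ j * Complex.exp (Complex.I * y * t) / Airy (Complex.I * y)

theorem airy_ne (hALO : T_ALO) (y : ℝ) : Airy (Complex.I * y) ≠ 0 := by
  obtain ⟨c, hc, h⟩ := hALO
  have h1 := h y
  intro h2
  rw [h2, norm_zero] at h1
  have := mul_pos hc (Real.exp_pos (c * |y| ^ (3 / 2 : ℝ)))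
  linarith

theorem airy_cont : Continuous fun y : ℝ => Airy (Complex.I * y) := by
  have h : Differentiable ℂ Airy := fun z => (Freud.Airy_hasDerivAt z).differentiableAt
  exact h.continuous.comp (continuous_const.mul Complex.continuous_ofReal)

theorem F_cont (hALO : T_ALO) (j : ℕ) (t : ℝ) : Continuous (F j t) := by
  refine Continuous.div ?_ airy_cont fun y => airy_ne hALO y
  fun_prop

theorem norm_E (y t : ℝ) : ‖Complex.exp (Complex.I * y * t)‖ = 1 := by
  rw [Complex.norm_exp]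
  simp

theorem F_int (hALO : T_ALO) (j : ℕ) (t : ℝ) : Integrable (F j t) := by
  obtain ⟨c, hc, h⟩ := hALO
  refine ((half j hc).const_mul (1 / c)).mono' (F_cont ⟨c, hc, h⟩ j t).aestronglyMeasurable
    (Filter.Eventually.of_forall fun y => ?_)
  have hp : 0 < c * Real.exp (c * |y| ^ (3 / 2 : ℝ)) := mul_pos hc (Real.exp_pos _)
  have e : ‖F j t y‖ = |y| ^ j / ‖Airy (Complex.I * y)‖ := by
    unfold F
    rw [norm_div, norm_mul, norm_E, mul_one, norm_pow, norm_mul, Complex.norm_I, one_mul,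
      Complex.norm_real, Real.norm_eq_abs]
  rw [e, Real.exp_neg]
  calc |y| ^ j / ‖Airy (Complex.I * y)‖ ≤ |y| ^ j / (c * Real.exp (c * |y| ^ (3 / 2 : ℝ))) :=
        div_le_div_of_nonneg_left (by positivity) hp (h y)
    _ = 1 / c * (|y| ^ j * (Real.exp (c * |y| ^ (3 / 2 : ℝ)))⁻¹) := by
        field_simp

/-- the kernel -/
noncomputable def K (a v : ℝ) : ℝ := v * Real.exp (-(a * v))

theorem K_int {a : ℝ} (ha : 0 < a) : IntegrableOn (K a) (Ioi 0) := by
  refine (integrableOn_rpow_mul_exp_neg_mul_rpow (s := 1) (p := 1) (b := a)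
    (by norm_num) (by norm_num) ha).congr_fun ?_ measurableSet_Ioi
  intro v _
  simp only [K, Real.rpow_one, neg_mul]

theorem K_int' {a : ℝ} (ha : 0 < a) :
    Integrable (fun v : ℝ => ((K a v : ℝ) : ℂ)) (volume.restrict (Ioi 0)) :=
  (K_int ha).ofReal

theorem lap {a : ℝ} (ha : 0 < a) (y : ℝ) :
    ∫ v in Ioi (0 : ℝ), ((K a v : ℝ) : ℂ) * Complex.exp (-(Complex.I * y * v)) =
      1 / (Complex.I * y + (a : ℂ)) ^ 2 := by
  obtain ⟨s, hs⟩ : ∃ s : ℂ, s = Complex.I * y + (a : ℂ) := ⟨_, rfl⟩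
  have hre : s.re = a := by rw [hs]; simp
  have hs0 : s ≠ 0 := by
    intro h
    rw [h] at hre
    simp at hre
    exact ha.ne hre
  have e : ∀ v : ℝ, ((K a v : ℝ) : ℂ) * Complex.exp (-(Complex.I * y * v)) =
      v * Complex.exp (-(s * v)) := by
    intro v
    unfold K
    push_cast
    rw [mul_assoc, ← Complex.exp_add, hs]
    congr 2
    ring
  rw [← hs]
  simp_rw [e]
  have hn : ∀ v : ℝ, ‖Complex.exp (-(s * v))‖ = Real.exp (-(a * v)) := by
    intro v
    rw [Complex.norm_exp]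
    simp [hre]
  have hd : ∀ v ∈ Ici (0 : ℝ), HasDerivAt
      (fun v : ℝ => -((v : ℂ) / s + 1 / s ^ 2) * Complex.exp (-(s * v)))
      ((v : ℂ) * Complex.exp (-(s * v))) v := by
    intro v _
    have h1 : HasDerivAt (fun z : ℂ => -(z / s + 1 / s ^ 2) * Complex.exp (-(s * z)))
        (-(1 / s) * Complex.exp (-(s * (v : ℂ))) +
          -((v : ℂ) / s + 1 / s ^ 2) * (Complex.exp (-(s * (v : ℂ))) * (-(s * 1)))) (v : ℂ) := by
      have h2 : HasDerivAt (fun z : ℂ => -(z / s + 1 / s ^ 2)) (-(1 / s)) (v : ℂ) :=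
        (((hasDerivAt_id (v : ℂ)).div_const s).add_const (1 / s ^ 2)).neg
      have h3 : HasDerivAt (fun z : ℂ => Complex.exp (-(s * z)))
          (Complex.exp (-(s * (v : ℂ))) * (-(s * 1))) (v : ℂ) :=
        ((hasDerivAt_id (v : ℂ)).const_mul s).neg.cexp
      exact h2.mul h3
    have h4 := h1.comp_ofReal
    have e2 : -(1 / s) * Complex.exp (-(s * (v : ℂ))) +
          -((v : ℂ) / s + 1 / s ^ 2) * (Complex.exp (-(s * (v : ℂ))) * (-(s * 1))) =
        (v : ℂ) * Complex.exp (-(s * v)) := by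
      field_simp
      ring
    rw [e2] at h4
    exact h4
  have hint : IntegrableOn (fun v : ℝ => (v : ℂ) * Complex.exp (-(s * v))) (Ioi 0) := by
    refine (K_int ha).mono' (by
      refine Continuous.aestronglyMeasurable ?_
      fun_prop) ?_
    refine (ae_restrict_iff' measurableSet_Ioi).2 (Filter.Eventually.of_forall fun v hv => ?_)
    have hv' : (0 : ℝ) < v := hv
    rw [norm_mul, hn, Complex.norm_real, Real.norm_eq_abs, abs_of_pos hv']
    exact le_refl _
  have hlim : Tendsto (fun v : ℝ => -((v : ℂ) / s + 1 / s ^ 2) * Complex.exp (-(s * v))) atTop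
      (𝓝 0) := by
    have t1 : Tendsto (fun v : ℝ => v ^ (1 : ℝ) * Real.exp (-a * v)) atTop (𝓝 0) :=
      tendsto_rpow_mul_exp_neg_mul_atTop_nhds_zero 1 a ha
    have t2 : Tendsto (fun v : ℝ => v ^ (0 : ℝ) * Real.exp (-a * v)) atTop (𝓝 0) :=
      tendsto_rpow_mul_exp_neg_mul_atTop_nhds_zero 0 a ha
    have t3 : Tendsto (fun v : ℝ => (1 / ‖s‖) * (v ^ (1 : ℝ) * Real.exp (-a * v)) +
        (1 / ‖s‖ ^ 2) * (v ^ (0 : ℝ) * Real.exp (-a * v))) atTop (𝓝 0) := by
      have := (t1.const_mul (1 / ‖s‖)).add (t2.const_mul (1 / ‖s‖ ^ 2))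
      simpa using this
    refine squeeze_zero_norm' ?_ t3
    filter_upwards [eventually_ge_atTop (0 : ℝ)] with v hv
    rw [norm_mul, hn, norm_neg, Real.rpow_one, Real.rpow_zero, one_mul, neg_mul]
    have h5 : ‖(v : ℂ) / s + 1 / s ^ 2‖ ≤ v / ‖s‖ + 1 / ‖s‖ ^ 2 := by
      refine (norm_add_le _ _).trans (le_of_eq ?_)
      rw [norm_div, norm_div, norm_pow, norm_one, Complex.norm_real, Real.norm_eq_abs,
        abs_of_nonneg hv]
    calc ‖(v : ℂ) / s + 1 / s ^ 2‖ * Real.exp (-(a * v)) ≤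
          (v / ‖s‖ + 1 / ‖s‖ ^ 2) * Real.exp (-(a * v)) :=
          mul_le_mul_of_nonneg_right h5 (Real.exp_pos _).le
      _ = 1 / ‖s‖ * (v * Real.exp (-(a * v))) + 1 / ‖s‖ ^ 2 * Real.exp (-(a * v)) := by ring
  rw [integral_Ioi_of_hasDerivAt_of_tendsto' hd hint hlim]
  simp

theorem F_sub (j : ℕ) (t v y : ℝ) :
    F j (t - v) y = F j t y * Complex.exp (-(Complex.I * y * v)) := by
  have e : Complex.exp (Complex.I * y * ((t - v : ℝ) : ℂ)) =
      Complex.exp (Complex.I * y * t) * Complex.exp (-(Complex.I * y * v)) := by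
    rw [← Complex.exp_add]
    congr 1
    push_cast
    ring
  unfold F
  rw [e]
  ring

theorem norm_E' (y v : ℝ) : ‖Complex.exp (-(Complex.I * y * v))‖ = 1 := by
  rw [Complex.norm_exp]
  simp

theorem key (hALO : T_ALO) {a : ℝ} (ha : 0 < a) (j : ℕ) (t : ℝ) :
    ∫ v in Ioi (0 : ℝ), ((K a v : ℝ) : ℂ) * gC j (t - v) =
      (1 / (2 * Real.pi) : ℂ) * ∫ y : ℝ, F j t y * (1 / (Complex.I * y + (a : ℂ)) ^ 2) := by
  have e1 : ∀ v : ℝ, ((K a v : ℝ) : ℂ) * gC j (t - v) = (1 / (2 * Real.pi) : ℂ) *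
      ∫ y : ℝ, ((K a v : ℝ) : ℂ) * (F j t y * Complex.exp (-(Complex.I * y * v))) := by
    intro v
    rw [integral_const_mul]
    have : gC j (t - v) = (1 / (2 * Real.pi) : ℂ) * ∫ y : ℝ, F j (t - v) y := rfl
    rw [this, integral_congr_ae (Filter.Eventually.of_forall fun y => F_sub j t v y)]
    ring
  simp_rw [e1]
  rw [integral_const_mul]
  congr 1
  have hI : Integrable (Function.uncurry fun (v y : ℝ) =>
      ((K a v : ℝ) : ℂ) * (F j t y * Complex.exp (-(Complex.I * y * v))))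
      ((volume.restrict (Ioi (0 : ℝ))).prod volume) := by
    have h := (K_int' ha).mul_prod (F_int hALO j t)
    refine h.mono ?_ (Filter.Eventually.of_forall fun z => ?_)
    · refine Continuous.aestronglyMeasurable ?_
      have hK : Continuous fun z : ℝ × ℝ => ((K a z.1 : ℝ) : ℂ) := by
        unfold K
        fun_prop
      have hE : Continuous fun z : ℝ × ℝ => Complex.exp (-(Complex.I * z.2 * z.1)) := by
        fun_prop
      exact hK.mul (((F_cont hALO j t).comp continuous_snd).mul hE)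
    · simp only [Function.uncurry, norm_mul, norm_E', mul_one, le_refl]
  rw [integral_integral_swap hI]
  refine integral_congr_ae (Filter.Eventually.of_forall fun y => ?_)
  show ∫ v in Ioi (0 : ℝ), ((K a v : ℝ) : ℂ) *
    (F j t y * Complex.exp (-(Complex.I * y * v))) =
      F j t y * (1 / (Complex.I * y + (a : ℂ)) ^ 2)
  rw [← lap ha y, ← integral_const_mul]
  refine integral_congr_ae (Filter.Eventually.of_forall fun v => ?_)
  show ((K a v : ℝ) : ℂ) * (F j t y * Complex.exp (-(Complex.I * y * v))) =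
    F j t y * (((K a v : ℝ) : ℂ) * Complex.exp (-(Complex.I * y * v)))
  ring

theorem real_form (hGBS : T_GBS) (a : ℝ) (j : ℕ) (t : ℝ) :
    ((∫ v in Ioi (0 : ℝ), v * Real.exp (-(a * v)) * g j (t - v) : ℝ) : ℂ) =
      ∫ v in Ioi (0 : ℝ), ((K a v : ℝ) : ℂ) * gC j (t - v) := by
  rw [← integral_complex_ofReal]
  refine integral_congr_ae (Filter.Eventually.of_forall fun v => ?_)
  show ((v * Real.exp (-(a * v)) * g j (t - v) : ℝ) : ℂ) = ((K a v : ℝ) : ℂ) * gC j (t - v)
  rw [hGBS.1 j (t - v), K, Complex.ofReal_mul]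

theorem nbd {a : ℝ} (ha : 0 < a) (y : ℝ) :
    ‖(1 : ℂ) / (Complex.I * y + (a : ℂ)) ^ 2‖ ≤ 1 / a ^ 2 := by
  rw [norm_div, norm_pow, norm_one]
  have h : a ≤ ‖Complex.I * y + (a : ℂ)‖ := by
    have := Complex.re_le_norm (Complex.I * y + (a : ℂ))
    simpa using this
  exact one_div_le_one_div_of_le (pow_pos ha 2) (pow_le_pow_left₀ ha.le h 2)

theorem G_int (hALO : T_ALO) {a : ℝ} (ha : 0 < a) (j : ℕ) (t : ℝ) :
    Integrable fun y : ℝ => F j t y * (1 / (Complex.I * y + (a : ℂ)) ^ 2) := by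
  refine (((F_int hALO j t).norm.mul_const (1 / a ^ 2))).mono' ?_
    (Filter.Eventually.of_forall fun y => ?_)
  · refine Continuous.aestronglyMeasurable ((F_cont hALO j t).mul ?_)
    refine continuous_const.div (by fun_prop) fun y h => ?_
    have h1 : Complex.I * y + (a : ℂ) = 0 := pow_eq_zero_iff (two_ne_zero) |>.1 h
    have h2 := congrArg Complex.re h1
    simp at h2
    exact ha.ne' h2
  · rw [norm_mul]
    exact mul_le_mul_of_nonneg_left (nbd ha y) (norm_nonneg _)

end GI2_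

open GI2_ in
/-- target GI2 -/
theorem p_GI2 (hGPR : T_GPR) (hGBS : T_GBS) (hALO : T_ALO) : T_GI2 := by
  intro a ha j t
  have h1 : HasSum (fun k => ∫ y : ℝ, F j t y * (1 / (Complex.I * y + (a k : ℂ)) ^ 2))
      (∫ y : ℝ, ∑' k, F j t y * (1 / (Complex.I * y + (a k : ℂ)) ^ 2)) := by
    refine hasSum_integral_of_summable_integral_norm (fun k => G_int hALO (ha.pos k) j t) ?_
    refine Summable.of_nonneg_of_le (fun k => integral_nonneg fun y => norm_nonneg _)
      (fun k => ?_) (ha.summ.mul_left (∫ y : ℝ, ‖F j t y‖))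
    rw [← integral_mul_const]
    refine integral_mono (G_int hALO (ha.pos k) j t).norm
      ((F_int hALO j t).norm.mul_const _) fun y => ?_
    show ‖F j t y * (1 / (Complex.I * y + (a k : ℂ)) ^ 2)‖ ≤ ‖F j t y‖ * (1 / a k ^ 2)
    rw [norm_mul]
    exact mul_le_mul_of_nonneg_left (nbd (ha.pos k) y) (norm_nonneg _)
  have h2 : ∀ y : ℝ, ∑' k, F j t y * (1 / (Complex.I * y + (a k : ℂ)) ^ 2) = F j t y *
      ((Airy' (Complex.I * y) / Airy (Complex.I * y)) ^ 2 - Complex.I * y) := fun y =>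
    ((ha.ml (Complex.I * y) (airy_ne hALO y)).mul_left (F j t y)).tsum_eq
  simp_rw [h2] at h1
  have h3 := (h1.mul_left (2 * (1 / (2 * Real.pi) : ℂ)))
  rw [← Complex.hasSum_ofReal]
  have e1 : ((t ^ 2 * g j t + 2 * j * t * g (j - 1) t + j * (j - 1 : ℝ) * g (j - 2) t -
      g (j + 1) t : ℝ) : ℂ) = 2 * (1 / (2 * Real.pi) : ℂ) * ∫ y : ℝ, F j t y *
      ((Airy' (Complex.I * y) / Airy (Complex.I * y)) ^ 2 - Complex.I * y) := by
    rw [(hGPR a ha j t).2, mul_assoc (2 : ℂ), mul_left_comm (2 : ℂ), ← integral_const_mul (2 : ℂ)]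
    congr 1
    refine integral_congr_ae (Filter.Eventually.of_forall fun y => ?_)
    simp only [F]
    ring
  rw [e1]
  refine h3.congr_fun ?_
  intro k
  rw [Complex.ofReal_mul, real_form hGBS, key hALO (ha.pos k)]
  push_cast
  ring

end Pool.Agent.CHN
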