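import Pool.Agent.CHN.Targets

/-!
# Project CHN: GPR, multiplication by `t` (helper42)
-/

set_option autoImplicit false

open MeasureTheory ProbabilityTheory Filter Topology Set
open scoped NNReal

namespace Pool.Agent.CHN

open Pool.Agent.Freud (Airy Airy' Airy_hasDerivAt Airy'_hasDerivAt)

namespace GPR_

/-- `exp(-b |y|)` is integrable -/
theorem integrable_exp_abs {b : ℝ} (hb : 0 < b) :
    Integrable (fun y : ℝ => Real.exp (-(b * |y|))) := by
  refine Integrable.mono' (integrable_inv_one_add_sq.const_mul (2 / b ^ 2 * Real.exp b)) ?_ ?_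
  · exact Continuous.aestronglyMeasurable (by fun_prop)
  · refine Eventually.of_forall fun y => ?_
    rw [Real.norm_eq_abs, abs_of_pos (Real.exp_pos _), ← div_eq_mul_inv, le_div_iff₀ (by positivity)]
    have h1 := Real.pow_div_factorial_le_exp (x := b * (1 + |y|)) (by positivity) 2
    have h2 : Real.exp (b * (1 + |y|)) = Real.exp b * Real.exp (b * |y|) := by
      rw [← Real.exp_add]; congr 1; ring
    have h3 : Real.exp (-(b * |y|)) * Real.exp (b * |y|) = 1 := by
      rw [← Real.exp_add]; simp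
    have h4 : 1 + y ^ 2 ≤ (1 + |y|) ^ 2 := by
      have := abs_nonneg y
      nlinarith [sq_abs y]
    have h5 : (1 + |y|) ^ 2 ≤ 2 / b ^ 2 * (Real.exp b * Real.exp (b * |y|)) := by
      rw [h2] at h1
      have h6 : (b * (1 + |y|)) ^ 2 / (Nat.factorial 2 : ℝ) = b ^ 2 / 2 * (1 + |y|) ^ 2 := by
        simp [Nat.factorial]; ring
      rw [h6] at h1
      calc (1 + |y|) ^ 2 = 2 / b ^ 2 * (b ^ 2 / 2 * (1 + |y|) ^ 2) := by field_simp
        _ ≤ _ := by gcongr
    calc Real.exp (-(b * |y|)) * (1 + y ^ 2)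
        ≤ Real.exp (-(b * |y|)) * (2 / b ^ 2 * (Real.exp b * Real.exp (b * |y|))) := by
          gcongr
          exact h4.trans h5
      _ = 2 / b ^ 2 * Real.exp b * (Real.exp (-(b * |y|)) * Real.exp (b * |y|)) := by ring
      _ = _ := by rw [h3, mul_one]

/-- `|y|^(3/2) ≥ |y| - 1` -/
theorem abs_sub_one_le (y : ℝ) : |y| - 1 ≤ |y| ^ (3 / 2 : ℝ) := by
  rcases le_total |y| 1 with h | h
  · have : (0 : ℝ) ≤ |y| ^ (3 / 2 : ℝ) := Real.rpow_nonneg (abs_nonneg y) _
    linarith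
  · have : |y| ^ (1 : ℝ) ≤ |y| ^ (3 / 2 : ℝ) := Real.rpow_le_rpow_of_exponent_le h (by norm_num)
    rw [Real.rpow_one] at this
    linarith

/-- polynomial times the decay -/
theorem poly_bound {c : ℝ} (hc : 0 < c) (m : ℕ) : ∃ K : ℝ, 0 < K ∧ ∀ y : ℝ,
    (1 + |y|) ^ m * Real.exp (-(c * |y| ^ (3 / 2 : ℝ))) ≤ K * Real.exp (-(c / 2 * |y|)) := by
  refine ⟨(m.factorial : ℝ) * (2 / c) ^ m * Real.exp (c / 2) * Real.exp c, by positivity, ?_⟩
  intro y
  have h1 := Real.pow_div_factorial_le_exp (x := c / 2 * (1 + |y|)) (by positivity) m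
  have h2 : (1 + |y|) ^ m ≤ (m.factorial : ℝ) * (2 / c) ^ m * Real.exp (c / 2 * (1 + |y|)) := by
    rw [div_le_iff₀ (by positivity)] at h1
    calc (1 + |y|) ^ m = (2 / c) ^ m * (c / 2 * (1 + |y|)) ^ m := by
          rw [← mul_pow]; congr 1; field_simp
      _ ≤ (2 / c) ^ m * (Real.exp (c / 2 * (1 + |y|)) * (m.factorial : ℝ)) := by gcongr
      _ = _ := by ring
  have h3 : Real.exp (-(c * |y| ^ (3 / 2 : ℝ))) ≤ Real.exp c * Real.exp (-(c * |y|)) := by
    rw [← Real.exp_add]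
    apply Real.exp_le_exp.2
    have := mul_le_mul_of_nonneg_left (abs_sub_one_le y) hc.le
    linarith
  calc (1 + |y|) ^ m * Real.exp (-(c * |y| ^ (3 / 2 : ℝ)))
      ≤ ((m.factorial : ℝ) * (2 / c) ^ m * Real.exp (c / 2 * (1 + |y|))) *
        (Real.exp c * Real.exp (-(c * |y|))) := by gcongr
    _ = (m.factorial : ℝ) * (2 / c) ^ m * Real.exp (c / 2) * Real.exp c *
        Real.exp (-(c / 2 * |y|)) := by
      have : Real.exp (c / 2 * (1 + |y|)) * Real.exp (-(c * |y|)) =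
          Real.exp (c / 2) * Real.exp (-(c / 2 * |y|)) := by
        rw [← Real.exp_add, ← Real.exp_add]; congr 1; ring
      linear_combination ((m.factorial : ℝ) * (2 / c) ^ m * Real.exp c) * this

/-- the integrand for the multiplier `ψ` -/
noncomputable def F (j : ℕ) (t : ℝ) (ψ : ℝ → ℂ) (y : ℝ) : ℂ :=
  (Complex.I * y) ^ j * Complex.exp (Complex.I * y * t) * ψ y

theorem F_integrable {c : ℝ} (hc : 0 < c) (j m : ℕ) (t : ℝ) {ψ : ℝ → ℂ} (hψ : Continuous ψ) {K : ℝ}
    (hK : ∀ y, ‖ψ y‖ ≤ K * (1 + |y|) ^ m * Real.exp (-(c * |y| ^ (3 / 2 : ℝ)))) :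
    Integrable (F j t ψ) := by
  obtain ⟨K', hK', hb⟩ := poly_bound hc (j + m)
  refine Integrable.mono' ((integrable_exp_abs (half_pos hc)).const_mul (|K| * K')) ?_ ?_
  · exact Continuous.aestronglyMeasurable (by unfold F; fun_prop)
  · refine Eventually.of_forall fun y => ?_
    have h1 : ‖Complex.exp (Complex.I * y * t)‖ = 1 := by
      rw [show Complex.I * (y : ℂ) * (t : ℂ) = ((y * t : ℝ) : ℂ) * Complex.I by push_cast; ring]
      exact Complex.norm_exp_ofReal_mul_I _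
    have h2 : ‖(Complex.I * (y : ℂ)) ^ j‖ ≤ (1 + |y|) ^ j := by
      rw [norm_pow, norm_mul, Complex.norm_I, one_mul, Complex.norm_real, Real.norm_eq_abs]
      gcongr
      linarith
    unfold F
    rw [norm_mul, norm_mul, h1, mul_one]
    calc ‖(Complex.I * (y : ℂ)) ^ j‖ * ‖ψ y‖
        ≤ (1 + |y|) ^ j * (K * (1 + |y|) ^ m * Real.exp (-(c * |y| ^ (3 / 2 : ℝ)))) :=
          mul_le_mul h2 (hK y) (norm_nonneg _) (by positivity)
      _ ≤ |K| * ((1 + |y|) ^ (j + m) * Real.exp (-(c * |y| ^ (3 / 2 : ℝ)))) := by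
          rw [pow_add]
          have := le_abs_self K
          have h3 : 0 ≤ (1 + |y|) ^ j * (1 + |y|) ^ m * Real.exp (-(c * |y| ^ (3 / 2 : ℝ))) := by
            positivity
          nlinarith [mul_le_mul_of_nonneg_right this h3]
      _ ≤ |K| * (K' * Real.exp (-(c / 2 * |y|))) :=
          mul_le_mul_of_nonneg_left (hb y) (abs_nonneg K)
      _ = |K| * K' * Real.exp (-(c / 2 * |y|)) := by ring

/-- integration by parts -/
theorem ibp {c : ℝ} (hc : 0 < c) (j m : ℕ) (t : ℝ) {ψ ψ' : ℝ → ℂ} {K : ℝ}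
    (hψ' : Continuous ψ')
    (hd : ∀ y, HasDerivAt ψ (Complex.I * ψ' y) y)
    (hK : ∀ y, ‖ψ y‖ ≤ K * (1 + |y|) ^ m * Real.exp (-(c * |y| ^ (3 / 2 : ℝ))))
    (hK' : ∀ y, ‖ψ' y‖ ≤ K * (1 + |y|) ^ m * Real.exp (-(c * |y| ^ (3 / 2 : ℝ)))) :
    (t : ℂ) * (∫ y, F j t ψ y) + (j : ℂ) * (∫ y, F (j - 1) t ψ y) = -∫ y, F j t ψ' y := by
  have hψ : Continuous ψ := by
    rw [continuous_iff_continuousAt]
    exact fun y => (hd y).continuousAt
  have i1 := F_integrable hc j m t hψ hK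
  have i2 := F_integrable hc (j - 1) m t hψ hK
  have i3 := F_integrable hc j m t hψ' hK'
  have hder : ∀ y, HasDerivAt (F j t ψ) (Complex.I * ((j : ℂ) * F (j - 1) t ψ y +
      (t : ℂ) * F j t ψ y + F j t ψ' y)) y := by
    intro y
    have e1 : HasDerivAt (fun y : ℝ => Complex.I * (y : ℂ)) Complex.I y := by
      simpa using (Complex.ofRealCLM.hasDerivAt (x := y)).const_mul Complex.I
    have e2 := e1.pow j
    have e3 := (e1.mul_const (t : ℂ)).cexp
    have e4 := (e2.mul e3).mul (hd y)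
    refine e4.congr_deriv ?_
    unfold F
    simp only [Pi.mul_apply, Pi.pow_apply]
    ring
  have hint : Integrable (fun y => Complex.I * ((j : ℂ) * F (j - 1) t ψ y +
      (t : ℂ) * F j t ψ y + F j t ψ' y)) :=
    (((i2.const_mul _).add (i1.const_mul _)).add i3).const_mul _
  have h0 := integral_eq_zero_of_hasDerivAt_of_integrable hder hint i1
  have k2 : Integrable (fun y => (j : ℂ) * F (j - 1) t ψ y) := i2.const_mul _
  have k1 : Integrable (fun y => (t : ℂ) * F j t ψ y) := i1.const_mul _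
  have k3 : Integrable (fun y => (j : ℂ) * F (j - 1) t ψ y + (t : ℂ) * F j t ψ y) := k2.add k1
  rw [integral_const_mul, integral_add k3 i3, integral_add k2 k1, integral_const_mul,
    integral_const_mul] at h0
  have h1 := (mul_eq_zero.1 h0).resolve_left Complex.I_ne_zero
  linear_combination h1

end GPR_

open GPR_ in
theorem p_GPR (hALO : T_ALO) (hALD : T_ALD) (hGBS : T_GBS) : T_GPR := by
  intro a ha j t
  obtain ⟨c, hc, hlow⟩ := hALO
  obtain ⟨C, hC, hald⟩ := hALD a ha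
  obtain ⟨A, hA⟩ : ∃ A : ℝ → ℂ, A = fun y : ℝ => Airy (Complex.I * y) := ⟨_, rfl⟩
  obtain ⟨B, hB⟩ : ∃ B : ℝ → ℂ, B = fun y : ℝ => Airy' (Complex.I * y) := ⟨_, rfl⟩
  have hlow' : ∀ y, c * Real.exp (c * |y| ^ (3 / 2 : ℝ)) ≤ ‖A y‖ := by
    intro y; rw [hA]; exact hlow y
  have hApos : ∀ y, 0 < ‖A y‖ := fun y => lt_of_lt_of_le (by positivity) (hlow' y)
  have hA0 : ∀ y, A y ≠ 0 := fun y => norm_pos_iff.1 (hApos y)
  have e1 : ∀ y : ℝ, HasDerivAt (fun y : ℝ => Complex.I * (y : ℂ)) Complex.I y := by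
    intro y
    simpa using (Complex.ofRealCLM.hasDerivAt (x := y)).const_mul Complex.I
  have dA : ∀ y, HasDerivAt A (Complex.I * B y) y := by
    intro y
    rw [hA, hB]
    have := (Airy_hasDerivAt (Complex.I * (y : ℂ))).comp y (e1 y)
    rw [mul_comm] at this
    exact this
  have dB : ∀ y, HasDerivAt B (Complex.I * (Complex.I * y * A y)) y := by
    intro y
    rw [hA, hB]
    have := (Airy'_hasDerivAt (Complex.I * (y : ℂ))).comp y (e1 y)
    rw [mul_comm] at this
    exact this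
  have cA : Continuous A := continuous_iff_continuousAt.2 fun y => (dA y).continuousAt
  have cB : Continuous B := continuous_iff_continuousAt.2 fun y => (dB y).continuousAt
  have hBA : ∀ y, ‖B y‖ ≤ C * (1 + |y|) * ‖A y‖ := by
    intro y
    have h := hald (Complex.I * (y : ℂ)) (by simp)
    rw [norm_mul, Complex.norm_I, one_mul, Complex.norm_real, Real.norm_eq_abs] at h
    rw [hA, hB]
    exact h
  have hinv : ∀ y, 1 / ‖A y‖ ≤ 1 / c * Real.exp (-(c * |y| ^ (3 / 2 : ℝ))) := by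
    intro y
    rw [Real.exp_neg, div_mul_eq_mul_div, one_mul, inv_eq_one_div, div_div]
    apply one_div_le_one_div_of_le (by positivity)
    rw [mul_comm]
    exact hlow' y
  obtain ⟨K, hK⟩ : ∃ K : ℝ, K = (1 + C + 2 * C ^ 2) / c := ⟨_, rfl⟩
  have hB2 : ∀ y, ‖B y‖ / ‖A y‖ ≤ C * (1 + |y|) := fun y => (div_le_iff₀ (hApos y)).2 (hBA y)
  -- the general bound
  have gen : ∀ (y : ℝ) (ψ : ℂ), ‖ψ‖ ≤ (1 + C + 2 * C ^ 2) * (1 + |y|) ^ 2 * (1 / ‖A y‖) →
      ‖ψ‖ ≤ K * (1 + |y|) ^ 2 * Real.exp (-(c * |y| ^ (3 / 2 : ℝ))) := by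
    intro y ψ h
    refine h.trans ?_
    calc (1 + C + 2 * C ^ 2) * (1 + |y|) ^ 2 * (1 / ‖A y‖)
        ≤ (1 + C + 2 * C ^ 2) * (1 + |y|) ^ 2 *
          (1 / c * Real.exp (-(c * |y| ^ (3 / 2 : ℝ)))) := by
          gcongr
          exact hinv y
      _ = _ := by rw [hK]; ring
  have b0 : ∀ y : ℝ, ‖1 / A y‖ ≤ K * (1 + |y|) ^ 2 * Real.exp (-(c * |y| ^ (3 / 2 : ℝ))) := by
    intro y
    refine gen y _ ?_
    rw [norm_div, norm_one]
    have h1 : 1 ≤ (1 + C + 2 * C ^ 2) * (1 + |y|) ^ 2 := by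
      have := abs_nonneg y
      nlinarith [mul_nonneg hC.le (sq_nonneg (1 + |y|)), sq_nonneg C, sq_nonneg (1 + |y|),
        mul_nonneg (sq_nonneg C) (sq_nonneg (1 + |y|))]
    calc 1 / ‖A y‖ = 1 * (1 / ‖A y‖) := (one_mul _).symm
      _ ≤ _ := by gcongr
  have b1 : ∀ y : ℝ, ‖B y / A y / A y‖ ≤
      K * (1 + |y|) ^ 2 * Real.exp (-(c * |y| ^ (3 / 2 : ℝ))) := by
    intro y
    refine gen y _ ?_
    rw [norm_div, norm_div, div_eq_mul_one_div (‖B y‖ / ‖A y‖)]
    have h1 : C * (1 + |y|) ≤ (1 + C + 2 * C ^ 2) * (1 + |y|) ^ 2 := by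
      have := abs_nonneg y
      nlinarith [mul_nonneg hC.le (sq_nonneg (1 + |y|)), sq_nonneg C, sq_nonneg (1 + |y|),
        mul_nonneg (sq_nonneg C) (sq_nonneg (1 + |y|)), mul_nonneg hC.le this,
        mul_nonneg hC.le (sq_nonneg |y|)]
    gcongr
    exact (hB2 y).trans h1
  have b2 : ∀ y : ℝ, ‖Complex.I * y / A y - 2 * (B y / A y) ^ 2 / A y‖ ≤
      K * (1 + |y|) ^ 2 * Real.exp (-(c * |y| ^ (3 / 2 : ℝ))) := by
    intro y
    refine gen y _ ?_
    have h0 : Complex.I * y / A y - 2 * (B y / A y) ^ 2 / A y =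
        (Complex.I * y - 2 * (B y / A y) ^ 2) * (1 / A y) := by ring
    have h1 : ‖Complex.I * (y : ℂ) - 2 * (B y / A y) ^ 2‖ ≤ |y| + 2 * (C * (1 + |y|)) ^ 2 := by
      refine (norm_sub_le _ _).trans ?_
      rw [norm_mul, Complex.norm_I, one_mul, Complex.norm_real, Real.norm_eq_abs, norm_mul,
        norm_pow, norm_div]
      have := hB2 y
      have h2 : ‖(2 : ℂ)‖ = 2 := by simp
      rw [h2]
      gcongr
    have h2 : |y| + 2 * (C * (1 + |y|)) ^ 2 ≤ (1 + C + 2 * C ^ 2) * (1 + |y|) ^ 2 := by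
      have := abs_nonneg y
      nlinarith [mul_nonneg hC.le (sq_nonneg (1 + |y|)), sq_nonneg (1 + |y|), sq_nonneg |y|]
    rw [h0, norm_mul, norm_div, norm_one]
    gcongr
    exact h1.trans h2
  have d0 : ∀ y, HasDerivAt (fun y => 1 / A y) (Complex.I * (-(B y / A y / A y))) y := by
    intro y
    have := (hasDerivAt_const y (1 : ℂ)).div (dA y) (hA0 y)
    refine this.congr_deriv ?_
    have := hA0 y
    field_simp
    ring
  have d1 : ∀ y, HasDerivAt (fun y => B y / A y / A y)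
      (Complex.I * (Complex.I * y / A y - 2 * (B y / A y) ^ 2 / A y)) y := by
    intro y
    have := ((dB y).div (dA y) (hA0 y)).div (dA y) (hA0 y)
    refine this.congr_deriv ?_
    have := hA0 y
    simp only [Pi.div_apply]
    field_simp
    ring
  have c0 : Continuous fun y => -(B y / A y / A y) :=
    ((cB.div cA hA0).div cA hA0).neg
  have c2 : Continuous fun y : ℝ => Complex.I * y / A y - 2 * (B y / A y) ^ 2 / A y := by
    refine Continuous.sub (Continuous.div (by fun_prop) cA hA0) (Continuous.div ?_ cA hA0)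
    exact continuous_const.mul ((cB.div cA hA0).pow 2)
  -- first formula
  have f1 : ∀ i : ℕ, (t : ℂ) * (∫ y, F i t (fun y => 1 / A y) y) +
      (i : ℂ) * (∫ y, F (i - 1) t (fun y => 1 / A y) y) =
      ∫ y, F i t (fun y => B y / A y / A y) y := by
    intro i
    rw [ibp hc i 2 t c0 d0 b0 (fun y => by rw [norm_neg]; exact b1 y), ← integral_neg]
    congr 1
    funext y
    unfold F
    ring
  have f2 : ∀ i : ℕ, (t : ℂ) * (∫ y, F i t (fun y => B y / A y / A y) y) +
      (i : ℂ) * (∫ y, F (i - 1) t (fun y => B y / A y / A y) y) =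
      -∫ y, F i t (fun y : ℝ => Complex.I * y / A y - 2 * (B y / A y) ^ 2 / A y) y :=
    fun i => ibp hc i 2 t c2 d1 b1 b2
  have hg : ∀ i : ℕ, ((g i t : ℝ) : ℂ) = (1 / (2 * Real.pi) : ℂ) *
      ∫ y, F i t (fun y => 1 / A y) y := by
    intro i
    rw [← hGBS.1 i t]
    unfold gC F
    congr 2
    funext y
    rw [hA]
    ring
  constructor
  · have h1 : (fun y : ℝ => (Complex.I * y) ^ j * Complex.exp (Complex.I * y * t) *
        (Airy' (Complex.I * y) / Airy (Complex.I * y)) / Airy (Complex.I * y)) =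
        F j t (fun y => B y / A y / A y) := by
      funext y
      unfold F
      rw [hA, hB]
      ring
    rw [h1, ← f1 j]
    push_cast
    rw [hg, hg]
    ring
  · have h1 : (fun y : ℝ => (Complex.I * y) ^ j * Complex.exp (Complex.I * y * t) *
        (2 * ((Airy' (Complex.I * y) / Airy (Complex.I * y)) ^ 2 - Complex.I * y)) /
          Airy (Complex.I * y)) =
        fun y => -(F j t (fun y : ℝ => Complex.I * y / A y - 2 * (B y / A y) ^ 2 / A y) y) -
          F (j + 1) t (fun y => 1 / A y) y := by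
      funext y
      unfold F
      rw [hA, hB]
      ring
    have cφ : Continuous fun y => 1 / A y := continuous_const.div cA hA0
    have k1 : Integrable (fun y => -(F j t (fun y : ℝ => Complex.I * y / A y -
        2 * (B y / A y) ^ 2 / A y) y)) := (F_integrable hc j 2 t c2 b2).neg
    rw [h1, integral_sub k1 (F_integrable hc (j + 1) 2 t cφ b0), integral_neg, ← f2 j, ← f1 j]
    rcases j with _ | j
    · push_cast
      rw [hg, hg]
      simp only [Nat.cast_zero, zero_mul, mul_zero, add_zero, zero_add]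
      ring
    · have h2 := f1 j
      simp only [Nat.add_sub_cancel]
      rw [← h2]
      have h3 : j + 1 - 2 = j - 1 := by omega
      rw [h3]
      push_cast
      rw [hg, hg, hg, hg]
      ring

end Pool.Agent.CHN
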