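import Pool.Agent.CHN.Targets

/-!
# MP_0e7bd3_pr (project CHN): optional stopping on a grid (helper77)
-/

set_option autoImplicit false

open MeasureTheory ProbabilityTheory Filter Topology Set
open scoped NNReal

namespace Pool.Agent.CHN.GRDaux

theorem stp_of_not {S : ℕ → Set ℝ} {N : ℕ} {b : ℕ → ℝ} (h : ¬ ∃ j, j ≤ N ∧ b j ∈ S j) :
    stp S N b = N := by
  unfold stp
  rw [dif_neg h]

theorem stp_succ_of {S : ℕ → Set ℝ} {N : ℕ} {b : ℕ → ℝ} (h : ∃ j, j ≤ N ∧ b j ∈ S j) :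
    stp S (N + 1) b = stp S N b := by
  classical
  have h' : ∃ j, j ≤ N + 1 ∧ b j ∈ S j := by
    obtain ⟨j, h1, h2⟩ := h
    exact ⟨j, by omega, h2⟩
  unfold stp
  rw [dif_pos h, dif_pos h']
  rw [Nat.find_eq_iff]
  constructor
  · exact ⟨by have := (Nat.find_spec h).1; omega, (Nat.find_spec h).2⟩
  · intro n hn hc
    have h3 := (Nat.find_spec h).1
    exact Nat.find_min h hn ⟨by omega, hc.2⟩

theorem stp_succ_of_not {S : ℕ → Set ℝ} {N : ℕ} {b : ℕ → ℝ} (h : ¬ ∃ j, j ≤ N ∧ b j ∈ S j) :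
    stp S (N + 1) b = N + 1 := by
  classical
  by_cases h' : ∃ j, j ≤ N + 1 ∧ b j ∈ S j
  · unfold stp
    rw [dif_pos h']
    have h3 := Nat.find_spec h'
    by_contra hne
    exact h ⟨Nat.find h', by omega, h3.2⟩
  · exact stp_of_not h'

variable {Ω : Type*} [MeasurableSpace Ω] {P : Measure Ω} [IsProbabilityMeasure P]
  {B : ℝ≥0 → Ω → ℝ}

/-- `m s (B t)` is square integrable. -/
theorem memLp_m (hB : IsPreBrownianReal B P) {m : ℝ≥0 → ℝ → ℝ} (hm : ∀ s, Continuous (m s))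
    (hi : ∀ s v : ℝ≥0, Integrable (fun z => (m s z) ^ 2) (gaussianReal 0 v)) (s t : ℝ≥0) :
    MemLp (fun ω => m s (B t ω)) 2 P := by
  have h1 : AEStronglyMeasurable (fun ω => m s (B t ω)) P :=
    (hm s).comp_aestronglyMeasurable (hB.aemeasurable t).aestronglyMeasurable
  rw [memLp_two_iff_integrable_sq h1]
  have h2 := hi s t
  rw [← (hB.hasLaw_eval t).map_eq] at h2
  exact h2.comp_aemeasurable (hB.aemeasurable t)

/-- The past of the grid. -/
noncomputable def U (B : ℝ≥0 → Ω → ℝ) (h : ℝ≥0) (N : ℕ) (ω : Ω) : ℕ → ℝ :=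
  fun i => B (((min i N : ℕ) : ℝ≥0) * h) ω

theorem aem_U (hB : IsPreBrownianReal B P) (h : ℝ≥0) (N : ℕ) : AEMeasurable (U B h N) P :=
  aemeasurable_pi_lambda _ fun _ => hB.aemeasurable _

/-- The one-step lemma. -/
theorem one_step (hB : IsPreBrownianReal B P) {m : ℝ≥0 → ℝ → ℝ} (hm : ∀ s, Continuous (m s))
    (hmv : ∀ (s h : ℝ≥0) (z : ℝ), ∫ ζ, m (s + h) (z + ζ) ∂(gaussianReal 0 h) = m s z)
    (h : ℝ≥0) (N : ℕ) (φ : (ℕ → ℝ) → ℝ) (hφ : Measurable φ)
    (hint : Integrable (fun ω => φ (U B h N ω) *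
      m (((N + 1 : ℕ) : ℝ≥0) * h) (B (((N + 1 : ℕ) : ℝ≥0) * h) ω)) P) :
    ∫ ω, φ (U B h N ω) * m (((N + 1 : ℕ) : ℝ≥0) * h) (B (((N + 1 : ℕ) : ℝ≥0) * h) ω) ∂P =
      ∫ ω, φ (U B h N ω) * m ((N : ℝ≥0) * h) (B ((N : ℝ≥0) * h) ω) ∂P := by
  have hN : ((N + 1 : ℕ) : ℝ≥0) * h = (N : ℝ≥0) * h + h := by push_cast; ring
  rw [hN] at hint ⊢
  let ζ : Ω → ℝ := fun ω => B ((N : ℝ≥0) * h + h) ω - B ((N : ℝ≥0) * h) ω
  have hζ : HasLaw ζ (gaussianReal 0 h) P := (hB.shift ((N : ℝ≥0) * h)).hasLaw_eval h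
  have hU := aem_U hB h N
  have hind : IndepFun (U B h N) ζ P := by
    have h1 := (hB.indepFun_shift ((N : ℝ≥0) * h)).symm
    have h2 : ∀ i : ℕ, (((min i N : ℕ) : ℝ≥0) * h) ∈ Iic ((N : ℝ≥0) * h) := by
      intro i
      have : ((min i N : ℕ) : ℝ≥0) ≤ (N : ℝ≥0) := by exact_mod_cast min_le_right i N
      exact mul_le_mul_left this h
    exact h1.comp (φ := fun (y : Iic ((N : ℝ≥0) * h) → ℝ) (i : ℕ) => y ⟨_, h2 i⟩)
      (ψ := fun (x : ℝ≥0 → ℝ) => x h)
      (measurable_pi_lambda _ fun i => measurable_pi_apply _) (measurable_pi_apply _)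
  have hmap := (indepFun_iff_map_prod_eq_prod_map_map hU hζ.aemeasurable).1 hind
  rw [hζ.map_eq] at hmap
  let F : (ℕ → ℝ) × ℝ → ℝ := fun p => φ p.1 * m ((N : ℝ≥0) * h + h) (p.1 N + p.2)
  have hF : Measurable F := by
    have h3 : Measurable fun p : (ℕ → ℝ) × ℝ => m ((N : ℝ≥0) * h + h) (p.1 N + p.2) :=
      (hm _).measurable.comp (((measurable_pi_apply N).comp measurable_fst).add measurable_snd)
    exact (hφ.comp measurable_fst).mul h3
  have hUN : ∀ ω, U B h N ω N = B ((N : ℝ≥0) * h) ω := by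
    intro ω
    unfold U
    rw [min_self]
  have hFU : (fun ω => F (U B h N ω, ζ ω)) =
      fun ω => φ (U B h N ω) * m ((N : ℝ≥0) * h + h) (B ((N : ℝ≥0) * h + h) ω) := by
    funext ω
    show φ (U B h N ω) * m ((N : ℝ≥0) * h + h) (U B h N ω N + ζ ω) = _
    rw [hUN]
    congr 2
    show B ((N : ℝ≥0) * h) ω + (B ((N : ℝ≥0) * h + h) ω - B ((N : ℝ≥0) * h) ω) = _
    ring
  rw [← hFU] at hint ⊢
  have hpair : AEMeasurable (fun ω => (U B h N ω, ζ ω)) P := hU.prodMk hζ.aemeasurable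
  have hintm : Integrable F ((P.map (U B h N)).prod (gaussianReal 0 h)) := by
    rw [← hmap]
    exact (integrable_map_measure hF.aestronglyMeasurable hpair).2 hint
  have e1 : ∫ ω, F (U B h N ω, ζ ω) ∂P = ∫ p, F p ∂(P.map fun ω => (U B h N ω, ζ ω)) :=
    (integral_map hpair hF.aestronglyMeasurable).symm
  have : IsProbabilityMeasure (P.map (U B h N)) := Measure.isProbabilityMeasure_map hU
  rw [e1, hmap, integral_prod _ hintm]
  have e2 : ∀ u : ℕ → ℝ, ∫ z, F (u, z) ∂(gaussianReal 0 h) = φ u * m ((N : ℝ≥0) * h) (u N) := by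
    intro u
    show ∫ z, φ u * m ((N : ℝ≥0) * h + h) (u N + z) ∂(gaussianReal 0 h) = _
    rw [integral_const_mul, hmv]
  simp_rw [e2]
  have h4 : Measurable fun u : ℕ → ℝ => φ u * m ((N : ℝ≥0) * h) (u N) :=
    hφ.mul ((hm _).measurable.comp (measurable_pi_apply N))
  rw [integral_map hU h4.aestronglyMeasurable]
  simp_rw [hUN]

/-- The indicator of `no hit up to N`. -/
noncomputable def ind (S : ℕ → Set ℝ) (N : ℕ) : (ℕ → ℝ) → ℝ :=
  Set.indicator {u | ∀ i, i ≤ N → u i ∉ S i} 1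

theorem meas_set {S : ℕ → Set ℝ} (hS : ∀ j, MeasurableSet (S j)) (N : ℕ) :
    MeasurableSet {u : ℕ → ℝ | ∀ i, i ≤ N → u i ∉ S i} := by
  have : {u : ℕ → ℝ | ∀ i, i ≤ N → u i ∉ S i} =
      ⋂ i ∈ Set.Iic N, (fun u : ℕ → ℝ => u i) ⁻¹' (S i)ᶜ := by
    ext u
    simp
  rw [this]
  exact MeasurableSet.biInter (Set.to_countable _) fun i _ =>
    measurable_pi_apply i (hS i).compl

theorem meas_ind {S : ℕ → Set ℝ} (hS : ∀ j, MeasurableSet (S j)) (N : ℕ) :
    Measurable (ind S N) := measurable_one.indicator (meas_set hS N)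

theorem ind_cases (S : ℕ → Set ℝ) (N : ℕ) (u : ℕ → ℝ) :
    ((∀ i, i ≤ N → u i ∉ S i) ∧ ind S N u = 1) ∨
      ((∃ i, i ≤ N ∧ u i ∈ S i) ∧ ind S N u = 0) := by
  by_cases h : ∀ i, i ≤ N → u i ∉ S i
  · exact Or.inl ⟨h, Set.indicator_of_mem (show u ∈ {u | ∀ i, i ≤ N → u i ∉ S i} from h) _⟩
  · refine Or.inr ⟨?_, Set.indicator_of_notMem (show u ∉ {u | ∀ i, i ≤ N → u i ∉ S i} from h) _⟩
    push Not at h
    exact h

theorem U_of_le (B : ℝ≥0 → Ω → ℝ) (h : ℝ≥0) {N i : ℕ} (hi : i ≤ N) (ω : Ω) :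
    U B h N ω i = B ((i : ℝ≥0) * h) ω := by
  unfold U
  rw [min_eq_left hi]

theorem main (hB : IsPreBrownianReal B P) {m : ℝ≥0 → ℝ → ℝ} (hm : ∀ s, Continuous (m s))
    (hi : ∀ s v : ℝ≥0, Integrable (fun z => (m s z) ^ 2) (gaussianReal 0 v))
    (hmv : ∀ (s h : ℝ≥0) (z : ℝ), ∫ ζ, m (s + h) (z + ζ) ∂(gaussianReal 0 h) = m s z)
    (h : ℝ≥0) (S : ℕ → Set ℝ) (hS : ∀ j, MeasurableSet (S j)) (N : ℕ) :
    MemLp (fun ω => m (stp S N (fun j => B (j * h) ω) * h)
      (B (stp S N (fun j => B (j * h) ω) * h) ω)) 2 P ∧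
    ∫ ω, m (stp S N (fun j => B (j * h) ω) * h) (B (stp S N (fun j => B (j * h) ω) * h) ω) ∂P =
      m 0 0 ∧
    ∫ ω, (m (stp S N (fun j => B (j * h) ω) * h)
      (B (stp S N (fun j => B (j * h) ω) * h) ω)) ^ 2 ∂P ≤
      ∫ ω, (m (N * h) (B (N * h) ω)) ^ 2 ∂P := by
  induction N with
  | zero =>
    have h0 : ∀ ω, stp S 0 (fun j => B (j * h) ω) = 0 := by
      intro ω
      by_cases h1 : ∃ j, j ≤ 0 ∧ (fun j : ℕ => B (j * h) ω) j ∈ S j
      · classical
        have h2 := Nat.find_spec h1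
        unfold stp
        rw [dif_pos h1]
        exact Nat.le_zero.1 h2.1
      · exact stp_of_not h1
    simp_rw [h0]
    refine ⟨?_, ?_, le_rfl⟩
    · exact memLp_m hB hm hi _ _
    · have e : ∫ ω, m (((0 : ℕ) : ℝ≥0) * h) (B (((0 : ℕ) : ℝ≥0) * h) ω) ∂P = ∫ ω, m 0 0 ∂P := by
        refine integral_congr_ae ?_
        filter_upwards [hB.eval_zero_ae_eq_zero] with ω hω
        simp only [Nat.cast_zero, zero_mul]
        rw [hω]
      rw [e]
      simp
  | succ N ih =>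
    obtain ⟨ih1, ih2, ih3⟩ := ih
    set Y : Ω → ℝ := fun ω => m (((N + 1 : ℕ) : ℝ≥0) * h) (B (((N + 1 : ℕ) : ℝ≥0) * h) ω) with hY
    set X : Ω → ℝ := fun ω => m ((N : ℝ≥0) * h) (B ((N : ℝ≥0) * h) ω) with hX
    have hYm : MemLp Y 2 P := memLp_m hB hm hi _ _
    have hXm : MemLp X 2 P := memLp_m hB hm hi _ _
    let χ : Ω → ℝ := fun ω => ind S N (U B h N ω)
    have hχm : AEMeasurable χ P := (meas_ind hS N).comp_aemeasurable (aem_U hB h N)
    have hχc : ∀ ω, ((∀ i, i ≤ N → B ((i : ℝ≥0) * h) ω ∉ S i) ∧ χ ω = 1) ∨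
        ((∃ i, i ≤ N ∧ B ((i : ℝ≥0) * h) ω ∈ S i) ∧ χ ω = 0) := by
      intro ω
      rcases ind_cases S N (U B h N ω) with ⟨h1, h2⟩ | ⟨⟨i, h1, h3⟩, h2⟩
      · left
        refine ⟨fun i hi' => ?_, h2⟩
        have := h1 i hi'
        rwa [U_of_le B h hi'] at this
      · right
        refine ⟨⟨i, h1, ?_⟩, h2⟩
        rwa [U_of_le B h h1] at h3
    have hχb : ∀ ω, ‖χ ω‖ ≤ 1 := by
      intro ω
      rcases hχc ω with ⟨-, h1⟩ | ⟨-, h1⟩ <;> rw [h1] <;> norm_num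
    -- the stopped values
    set V : Ω → ℝ := fun ω => m (stp S N (fun j => B (j * h) ω) * h)
      (B (stp S N (fun j => B (j * h) ω) * h) ω) with hV
    have hstep : ∀ ω, m (stp S (N + 1) (fun j => B (j * h) ω) * h)
        (B (stp S (N + 1) (fun j => B (j * h) ω) * h) ω) = V ω + χ ω * (Y ω - X ω) := by
      intro ω
      rcases hχc ω with ⟨h1, h2⟩ | ⟨h1, h2⟩
      · have h3 : ¬ ∃ j, j ≤ N ∧ (fun j : ℕ => B (j * h) ω) j ∈ S j := by
          rintro ⟨j, h4, h5⟩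
          exact h1 j h4 h5
        rw [h2, hV]
        simp only
        rw [stp_succ_of_not h3, stp_of_not h3]
        show Y ω = X ω + 1 * (Y ω - X ω)
        ring
      · rw [h2, stp_succ_of h1, hV]
        ring
    have hχY : MemLp (fun ω => χ ω * Y ω) 2 P := by
      refine hYm.of_le (hχm.aestronglyMeasurable.mul hYm.1) (Eventually.of_forall fun ω => ?_)
      rw [norm_mul]
      exact mul_le_of_le_one_left (norm_nonneg _) (hχb ω)
    have hχX : MemLp (fun ω => χ ω * X ω) 2 P := by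
      refine hXm.of_le (hχm.aestronglyMeasurable.mul hXm.1) (Eventually.of_forall fun ω => ?_)
      rw [norm_mul]
      exact mul_le_of_le_one_left (norm_nonneg _) (hχb ω)
    have hVm : MemLp V 2 P := ih1
    have hmem : MemLp (fun ω => V ω + χ ω * (Y ω - X ω)) 2 P := by
      have := hVm.add (hχY.sub hχX)
      refine this.ae_eq (Eventually.of_forall fun ω => ?_)
      show V ω + (χ ω * Y ω - χ ω * X ω) = _
      ring
    have hOne : ∀ f : Ω → ℝ, MemLp f 2 P → Integrable f P := fun f hf =>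
      hf.integrable (by norm_num)
    -- first moments
    have k1 : ∫ ω, χ ω * Y ω ∂P = ∫ ω, χ ω * X ω ∂P :=
      one_step hB hm hmv h N (ind S N) (meas_ind hS N) (hOne _ hχY)
    -- mixed moments
    let ψ : (ℕ → ℝ) → ℝ := fun u => m ((N : ℝ≥0) * h) (u N)
    have hψ : Measurable ψ := (hm _).measurable.comp (measurable_pi_apply N)
    have hψU : ∀ ω, ψ (U B h N ω) = X ω := by
      intro ω
      show m ((N : ℝ≥0) * h) (U B h N ω N) = _
      rw [U_of_le B h le_rfl]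
    have hXY : Integrable (fun ω => X ω * Y ω) P := hXm.integrable_mul hYm
    have k2 : ∫ ω, X ω * Y ω ∂P = ∫ ω, X ω * X ω ∂P := by
      have := one_step hB hm hmv h N ψ hψ (by simp_rw [hψU]; exact hXY)
      simp_rw [hψU] at this
      exact this
    have hχXY : Integrable (fun ω => χ ω * X ω * Y ω) P := hχX.integrable_mul hYm
    have k3 : ∫ ω, χ ω * X ω * Y ω ∂P = ∫ ω, χ ω * X ω * X ω ∂P := by
      have := one_step hB hm hmv h N (fun u => ind S N u * ψ u) ((meas_ind hS N).mul hψ)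
        (by simp_rw [hψU]; exact hχXY)
      simp_rw [hψU] at this
      exact this
    simp_rw [hstep]
    refine ⟨hmem, ?_, ?_⟩
    · have e : (fun ω => V ω + χ ω * (Y ω - X ω)) = fun ω => V ω + (χ ω * Y ω - χ ω * X ω) := by
        funext ω; ring
      have i1 : Integrable (fun ω => χ ω * Y ω - χ ω * X ω) P := (hOne _ hχY).sub (hOne _ hχX)
      rw [e, integral_add (hOne _ hVm) i1,
        integral_sub (hOne _ hχY) (hOne _ hχX), k1, sub_self, add_zero]
      exact ih2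
    · -- the squares
      have hVX : ∀ ω, χ ω * V ω = χ ω * X ω := by
        intro ω
        rcases hχc ω with ⟨h1, h2⟩ | ⟨h1, h2⟩
        · have h3 : ¬ ∃ j, j ≤ N ∧ (fun j : ℕ => B (j * h) ω) j ∈ S j := by
            rintro ⟨j, h4, h5⟩
            exact h1 j h4 h5
          rw [hV]
          simp only
          rw [stp_of_not h3]
        · rw [h2]; ring
      have hχχ : ∀ ω, χ ω * χ ω = χ ω := by
        intro ω
        rcases hχc ω with ⟨-, h2⟩ | ⟨-, h2⟩ <;> rw [h2] <;> norm_num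
      have e1 : ∀ ω, (V ω + χ ω * (Y ω - X ω)) ^ 2 =
          V ω ^ 2 + (χ ω * Y ω * Y ω - χ ω * X ω * X ω) := by
        intro ω
        have h5 := hVX ω
        have h6 := hχχ ω
        linear_combination (2 * (Y ω - X ω)) * h5 + (Y ω - X ω) ^ 2 * h6
      have iV : Integrable (fun ω => V ω ^ 2) P := hVm.integrable_sq
      have iY : Integrable (fun ω => Y ω ^ 2) P := hYm.integrable_sq
      have iX : Integrable (fun ω => X ω ^ 2) P := hXm.integrable_sq
      have iχYY : Integrable (fun ω => χ ω * Y ω * Y ω) P := hχY.integrable_mul hYm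
      have iχXX : Integrable (fun ω => χ ω * X ω * X ω) P := hχX.integrable_mul hXm
      have iXX : Integrable (fun ω => X ω * X ω) P := hXm.integrable_mul hXm
      simp_rw [e1]
      have i1 : Integrable (fun ω => χ ω * Y ω * Y ω - χ ω * X ω * X ω) P := iχYY.sub iχXX
      rw [integral_add iV i1, integral_sub iχYY iχXX]
      -- positivity of the complementary part
      have hpos : 0 ≤ ∫ ω, (1 - χ ω) * (Y ω - X ω) ^ 2 ∂P := by
        refine integral_nonneg fun ω => mul_nonneg ?_ (sq_nonneg _)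
        have := hχb ω
        rw [Real.norm_eq_abs] at this
        have := le_abs_self (χ ω)
        linarith
      have e2 : ∀ ω, (1 - χ ω) * (Y ω - X ω) ^ 2 =
          ((Y ω ^ 2 - χ ω * Y ω * Y ω) - (X ω * Y ω - χ ω * X ω * Y ω) * 2) +
            (X ω * X ω - χ ω * X ω * X ω) := by
        intro ω
        ring
      simp_rw [e2] at hpos
      have i2 : Integrable (fun ω => Y ω ^ 2 - χ ω * Y ω * Y ω) P := iY.sub iχYY
      have i3 : Integrable (fun ω => X ω * Y ω - χ ω * X ω * Y ω) P := hXY.sub hχXY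
      have i4 : Integrable (fun ω => (X ω * Y ω - χ ω * X ω * Y ω) * 2) P := i3.mul_const 2
      have i5 : Integrable (fun ω => (Y ω ^ 2 - χ ω * Y ω * Y ω) -
        (X ω * Y ω - χ ω * X ω * Y ω) * 2) P := i2.sub i4
      have i6 : Integrable (fun ω => X ω * X ω - χ ω * X ω * X ω) P := iXX.sub iχXX
      rw [integral_add i5 i6,
        integral_sub i2 i4, integral_sub iY iχYY,
        integral_mul_const, integral_sub hXY hχXY, integral_sub iXX iχXX, k2, k3] at hpos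
      have e3 : ∫ ω, X ω * X ω ∂P = ∫ ω, X ω ^ 2 ∂P := by
        congr 1
        funext ω
        ring
      rw [e3] at hpos
      have ih3' : ∫ ω, V ω ^ 2 ∂P ≤ ∫ ω, X ω ^ 2 ∂P := ih3
      have goal : ∫ ω, V ω ^ 2 ∂P + (∫ ω, χ ω * Y ω * Y ω ∂P - ∫ ω, χ ω * X ω * X ω ∂P) ≤
          ∫ ω, Y ω ^ 2 ∂P := by linarith
      exact goal

end Pool.Agent.CHN.GRDaux

namespace Pool.Agent.CHN

theorem p_GRD.{u} : T_GRD.{u} := by
  intro Ω _ P _ B hB m hm hi hmv h N S hS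
  exact GRDaux.main hB hm hi hmv h S hS N

end Pool.Agent.CHN
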