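import Pool.Agent.CHN.Targets

/-! # CHN-HAD: Hadamard for order `3/2` (helper81) -/

set_option autoImplicit false

open Filter Topology

namespace Pool.Agent.CHN

namespace HAD_

/-- the second logarithmic derivative -/
noncomputable def L2 (h : ℂ → ℂ) (z : ℂ) : ℂ := deriv (deriv h) z / h z - (deriv h z / h z) ^ 2

theorem L2_hasDerivAt {h : ℂ → ℂ} (hd : Differentiable ℂ h) {z : ℂ} (hz : h z ≠ 0) :
    HasDerivAt (logDeriv h) (L2 h z) z := by
  have h1 : HasDerivAt h (deriv h z) z := (hd z).hasDerivAt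
  have h2 : HasDerivAt (deriv h) (deriv (deriv h) z) z := by
    have : Differentiable ℂ (deriv h) := by
      intro x
      exact ((hd.analyticAt x).deriv).differentiableAt
    exact (this z).hasDerivAt
  have h3 := h2.div h1 hz
  have h4 : (deriv (deriv h) z * h z - deriv h z * deriv h z) / h z ^ 2 = L2 h z := by
    unfold L2; field_simp
  rw [h4] at h3
  exact h3

theorem lim_bound (a b : ℝ) : Tendsto (fun n : ℕ => (a + b * (n : ℝ) ^ (3 / 2 : ℝ)) / (n : ℝ) ^ 2)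
    atTop (𝓝 0) := by
  have h1 : Tendsto (fun x : ℝ => a * x ^ (-(2 : ℝ)) + b * x ^ (-(1 / 2 : ℝ))) atTop (𝓝 0) := by
    have h2 := (tendsto_rpow_neg_atTop (y := 2) (by norm_num)).const_mul a
    have h3 := (tendsto_rpow_neg_atTop (y := 1 / 2) (by norm_num)).const_mul b
    simpa using h2.add h3
  have h4 := h1.comp (tendsto_natCast_atTop_atTop (R := ℝ))
  refine h4.congr' ?_
  filter_upwards [eventually_ge_atTop 1] with n hn
  have hn' : (0 : ℝ) < n := by exact_mod_cast hn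
  simp only [Function.comp]
  have e1 : (n : ℝ) ^ (-(2 : ℝ)) = 1 / (n : ℝ) ^ 2 := by
    rw [Real.rpow_neg hn'.le]; norm_num
  have e2 : (n : ℝ) ^ (-(1 / 2 : ℝ)) = (n : ℝ) ^ (3 / 2 : ℝ) / (n : ℝ) ^ 2 := by
    have : (n : ℝ) ^ 2 = (n : ℝ) ^ (2 : ℝ) := by norm_num
    rw [this, ← Real.rpow_sub hn']; norm_num
  rw [e1, e2]
  ring

/-- the logarithm derivative identity -/
theorem L2_identity {f F : ℂ → ℂ} (hf : Differentiable ℂ f) (hF : Differentiable ℂ F) {r : ℝ}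
    (hr : 0 < r) (S : Finset ℂ)
    (hS : ∀ w ∈ S, ‖w‖ < r ∧ f w = 0)
    (hid : ∀ z, F z * ∏ w ∈ S, ((r : ℂ) * (z - w)) =
      f z * ∏ w ∈ S, ((r : ℂ) ^ 2 - starRingEnd ℂ w * z)) {z : ℂ} (hz : f z ≠ 0) (hzr : ‖z‖ < r) :
    F z ≠ 0 ∧ L2 F z + ∑ w ∈ S, (-1 / (z - w) ^ 2) =
      L2 f z + ∑ w ∈ S, (-(starRingEnd ℂ w) ^ 2 / ((r : ℂ) ^ 2 - starRingEnd ℂ w * z) ^ 2) := by
  have hrC : (r : ℂ) ≠ 0 := by exact_mod_cast hr.ne'
  have hne : ∀ x : ℂ, ‖x‖ < r → ∀ w ∈ S, (r : ℂ) ^ 2 - starRingEnd ℂ w * x ≠ 0 := by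
    intro x hx w hw h0
    have h1 : (r : ℂ) ^ 2 = starRingEnd ℂ w * x := sub_eq_zero.1 h0
    have h2 := congrArg norm h1
    rw [norm_pow, norm_mul, Complex.norm_real, Real.norm_eq_abs, abs_of_pos hr,
      RCLike.norm_conj] at h2
    have h3 := (hS w hw).1
    nlinarith [norm_nonneg w, norm_nonneg x]
  -- near `z` everything is nonzero
  have hev : ∀ᶠ x in 𝓝 z, f x ≠ 0 ∧ ‖x‖ < r := by
    have h1 : ∀ᶠ x in 𝓝 z, f x ≠ 0 := (hf z).continuousAt.eventually_ne hz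
    have h2 : ∀ᶠ x in 𝓝 z, ‖x‖ < r := continuous_norm.continuousAt.eventually_lt continuousAt_const hzr
    exact h1.and h2
  have hFne : ∀ x, f x ≠ 0 → ‖x‖ < r → F x ≠ 0 := by
    intro x hx hxr h0
    have := hid x
    rw [h0, zero_mul] at this
    rcases mul_eq_zero.1 this.symm with h | h
    · exact hx h
    · obtain ⟨w, hw, h2⟩ := Finset.prod_eq_zero_iff.1 h
      exact hne x hxr w hw h2
  have hxw : ∀ x, f x ≠ 0 → ∀ w ∈ S, (r : ℂ) * (x - w) ≠ 0 := by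
    intro x hx w hw
    refine mul_ne_zero hrC (sub_ne_zero.2 ?_)
    rintro rfl
    exact hx (hS _ hw).2
  refine ⟨hFne z hz hzr, ?_⟩
  have hlog : ∀ᶠ x in 𝓝 z, logDeriv F x + ∑ w ∈ S, (1 / (x - w)) =
      logDeriv f x + ∑ w ∈ S, (-(starRingEnd ℂ w) / ((r : ℂ) ^ 2 - starRingEnd ℂ w * x)) := by
    filter_upwards [hev] with x hx
    have e1 : logDeriv (fun z => F z * ∏ w ∈ S, ((r : ℂ) * (z - w))) x =
        logDeriv F x + ∑ w ∈ S, (1 / (x - w)) := by
      rw [logDeriv_mul x (hFne x hx.1 hx.2) (Finset.prod_ne_zero_iff.2 (hxw x hx.1)) (hF x)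
        (by
          refine DifferentiableAt.fun_finsetProd fun w _ => ?_
          exact (differentiableAt_id.sub_const w).const_mul _)]
      congr 1
      rw [logDeriv_prod (hxw x hx.1)
        (fun w _ => (differentiableAt_id.sub_const w).const_mul _)]
      refine Finset.sum_congr rfl fun w hw => ?_
      rw [logDeriv_apply]
      have hd : HasDerivAt (fun z : ℂ => (r : ℂ) * (z - w)) ((r : ℂ) * 1) x :=
        ((hasDerivAt_id x).sub_const w).const_mul _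
      rw [hd.deriv]
      have h5 : x - w ≠ 0 := fun h => hxw x hx.1 w hw (by rw [h, mul_zero])
      field_simp
    have e2 : logDeriv (fun z => f z * ∏ w ∈ S, ((r : ℂ) ^ 2 - starRingEnd ℂ w * z)) x =
        logDeriv f x + ∑ w ∈ S, (-(starRingEnd ℂ w) / ((r : ℂ) ^ 2 - starRingEnd ℂ w * x)) := by
      rw [logDeriv_mul x hx.1 (Finset.prod_ne_zero_iff.2 (hne x hx.2)) (hf x)
        (by
          refine DifferentiableAt.fun_finsetProd fun w _ => ?_
          exact (differentiableAt_id.const_mul _).const_sub _)]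
      congr 1
      rw [logDeriv_prod (hne x hx.2)
        (fun w _ => (differentiableAt_id.const_mul _).const_sub _)]
      refine Finset.sum_congr rfl fun w hw => ?_
      rw [logDeriv_apply]
      have hd : HasDerivAt (fun z : ℂ => (r : ℂ) ^ 2 - starRingEnd ℂ w * z)
          (-(starRingEnd ℂ w * 1)) x :=
        ((hasDerivAt_id x).const_mul _).const_sub _
      rw [hd.deriv, mul_one]
    rw [← e1, ← e2]
    congr 1
    exact funext hid
  have hzw : ∀ w ∈ S, z - w ≠ 0 := fun w hw h => hxw z hz w hw (by rw [h, mul_zero])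
  have hd1 : HasDerivAt (fun x => logDeriv F x + ∑ w ∈ S, (1 / (x - w)))
      (L2 F z + ∑ w ∈ S, (-1 / (z - w) ^ 2)) z := by
    refine (L2_hasDerivAt hF (hFne z hz hzr)).add (HasDerivAt.fun_sum fun w hw => ?_)
    have h6 := ((hasDerivAt_id z).sub_const w).fun_inv (hzw w hw)
    simpa [one_div] using h6
  have hd2 : HasDerivAt (fun x => logDeriv f x +
      ∑ w ∈ S, (-(starRingEnd ℂ w) / ((r : ℂ) ^ 2 - starRingEnd ℂ w * x)))
      (L2 f z + ∑ w ∈ S, (-(starRingEnd ℂ w) ^ 2 / ((r : ℂ) ^ 2 - starRingEnd ℂ w * z) ^ 2)) z := by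
    refine (L2_hasDerivAt hf hz).add (HasDerivAt.fun_sum fun w hw => ?_)
    have h6 := (((hasDerivAt_id z).const_mul (starRingEnd ℂ w)).const_sub ((r : ℂ) ^ 2)).fun_inv
      (hne z hzr w hw)
    have h7 := h6.const_mul (-(starRingEnd ℂ w))
    have h8 : (fun y => -(starRingEnd ℂ w) * ((r : ℂ) ^ 2 - starRingEnd ℂ w * id y)⁻¹) =
        fun x => -(starRingEnd ℂ w) / ((r : ℂ) ^ 2 - starRingEnd ℂ w * x) := by
      funext y; simp [div_eq_mul_inv]
    rw [h8] at h7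
    refine h7.congr_deriv ?_
    simp only [id]
    ring
  exact hd1.unique (hd2.congr_of_eventuallyEq hlog)

/-- the function `F` of `T_BLQ` has no zero in the ball -/
theorem F_ne {f F : ℂ → ℂ} (hf : Differentiable ℂ f) (hF : Differentiable ℂ F) {r : ℝ}
    (hr : 0 < r) (S : Finset ℂ) (hS : ∀ w, w ∈ S ↔ ‖w‖ < r ∧ f w = 0)
    (hsim : ∀ w, f w = 0 → deriv f w ≠ 0)
    (hid : ∀ z, F z * ∏ w ∈ S, ((r : ℂ) * (z - w)) =
      f z * ∏ w ∈ S, ((r : ℂ) ^ 2 - starRingEnd ℂ w * z)) {x : ℂ} (hx : ‖x‖ < r) : F x ≠ 0 := by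
  have hne : ∏ w ∈ S, ((r : ℂ) ^ 2 - starRingEnd ℂ w * x) ≠ 0 := by
    refine Finset.prod_ne_zero_iff.2 fun w hw h0 => ?_
    have h1 : (r : ℂ) ^ 2 = starRingEnd ℂ w * x := sub_eq_zero.1 h0
    have h2 := congrArg norm h1
    rw [norm_pow, norm_mul, Complex.norm_real, Real.norm_eq_abs, abs_of_pos hr,
      RCLike.norm_conj] at h2
    have h3 := ((hS w).1 hw).1
    nlinarith [norm_nonneg w, norm_nonneg x]
  intro h0
  by_cases hfx : f x = 0
  · have hxS : x ∈ S := (hS x).2 ⟨hx, hfx⟩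
    have hP : ∏ w ∈ S, ((r : ℂ) * (x - w)) = 0 :=
      Finset.prod_eq_zero hxS (by rw [sub_self, mul_zero])
    have hPd : DifferentiableAt ℂ (fun z => ∏ w ∈ S, ((r : ℂ) * (z - w))) x :=
      DifferentiableAt.fun_finsetProd fun w _ => (differentiableAt_id.sub_const w).const_mul _
    have hGd : DifferentiableAt ℂ (fun z => ∏ w ∈ S, ((r : ℂ) ^ 2 - starRingEnd ℂ w * z)) x :=
      DifferentiableAt.fun_finsetProd fun w _ =>
        (differentiableAt_id.const_mul _).const_sub _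
    have h1 := (hF x).hasDerivAt.mul hPd.hasDerivAt
    have h2 := (hf x).hasDerivAt.mul hGd.hasDerivAt
    have h3 : (F * fun z => ∏ w ∈ S, ((r : ℂ) * (z - w))) =
        f * fun z => ∏ w ∈ S, ((r : ℂ) ^ 2 - starRingEnd ℂ w * z) := funext hid
    rw [h3] at h1
    have h4 := h1.unique h2
    simp only [h0, hP, hfx, zero_mul, mul_zero, add_zero] at h4
    exact mul_ne_zero (hsim x hfx) hne h4.symm
  · have := hid x
    rw [h0, zero_mul] at this
    rcases mul_eq_zero.1 this.symm with h | h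
    · exact hfx h
    · exact hne h

end HAD_

open HAD_ in
theorem p_HAD (hBLQ : T_BLQ) (hCNT : T_CNT) (hLG2 : T_LG2) : T_HAD := by
  intro f C hf hf0 hC hsim
  obtain ⟨⟨C', hC'⟩, hsum⟩ := hCNT f C hf hf0 hC
  refine ⟨hsum, fun z hz => ?_⟩
  obtain ⟨K, hK, hLG⟩ := hLG2
  have hCpos : 0 < C := by
    have h1 := hC 0
    have h2 : (0 : ℝ) ^ (3 / 2 : ℝ) = 0 := Real.zero_rpow (by norm_num)
    rw [norm_zero, h2, mul_zero, Real.exp_zero, mul_one] at h1
    exact lt_of_lt_of_le (norm_pos_iff.2 hf0) h1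
  have hpos : ∀ w : {w : ℂ // f w = 0}, 0 < ‖(w : ℂ)‖ := by
    intro w
    refine norm_pos_iff.2 fun h => ?_
    have := w.2
    rw [h] at this
    exact hf0 this
  -- finitely many zeros in every ball
  have hfin : ∀ r : ℝ, 0 < r → Set.Finite {w : {w : ℂ // f w = 0} | ‖(w : ℂ)‖ < r} := by
    intro r hr
    have h1 := hsum.tendsto_cofinite_zero
    have h2 : ∀ᶠ w : {w : ℂ // f w = 0} in cofinite, 1 / ‖(w : ℂ)‖ ^ 2 < 1 / r ^ 2 :=
      h1.eventually (gt_mem_nhds (by positivity))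
    refine Set.Finite.subset (Filter.eventually_cofinite.1 h2) fun w hw => ?_
    simp only [Set.mem_ofPred_eq, not_lt] at hw ⊢
    have h3 : ‖(w : ℂ)‖ ^ 2 ≤ r ^ 2 := by
      have := norm_nonneg (w : ℂ)
      nlinarith
    exact one_div_le_one_div_of_le (by have := hpos w; positivity) h3
  -- summability
  have hsumm : Summable fun w : {w : ℂ // f w = 0} => 1 / (z - (w : ℂ)) ^ 2 := by
    refine Summable.of_norm_bounded_eventually (hsum.mul_left 4) ?_
    have h1 : ∀ᶠ w : {w : ℂ // f w = 0} in cofinite, ¬ ‖(w : ℂ)‖ < 2 * ‖z‖ + 1 := by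
      rw [Filter.eventually_cofinite]
      simpa using hfin (2 * ‖z‖ + 1) (by positivity)
    filter_upwards [h1] with w hw
    have hw' : 2 * ‖z‖ + 1 ≤ ‖(w : ℂ)‖ := not_lt.1 hw
    have h2 : ‖(w : ℂ)‖ / 2 ≤ ‖z - w‖ := by
      have h3 : ‖(w : ℂ)‖ ≤ ‖z - w‖ + ‖z‖ := by
        have h4 : (w : ℂ) = z - (z - w) := by ring
        calc ‖(w : ℂ)‖ = ‖z - (z - w)‖ := by rw [← h4]
          _ ≤ ‖z‖ + ‖z - w‖ := norm_sub_le _ _
          _ = _ := by ring
      linarith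
    have h5 : 0 < ‖(w : ℂ)‖ := hpos w
    rw [norm_div, norm_one, norm_pow]
    have h6 : (‖(w : ℂ)‖ / 2) ^ 2 ≤ ‖z - w‖ ^ 2 := by gcongr
    calc 1 / ‖z - w‖ ^ 2 ≤ 1 / (‖(w : ℂ)‖ / 2) ^ 2 :=
          one_div_le_one_div_of_le (by positivity) h6
      _ = 4 * (1 / ‖(w : ℂ)‖ ^ 2) := by field_simp; norm_num
  -- exhaustion by balls
  let T : ℕ → Finset {w : ℂ // f w = 0} := fun n => (hfin ((n : ℝ) + 1) (by positivity)).toFinset
  have hT : Tendsto T atTop atTop := by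
    refine tendsto_atTop_finset_of_monotone ?_ ?_
    · intro m n hmn w hw
      simp only [T, Set.Finite.mem_toFinset, Set.mem_ofPred_eq] at hw ⊢
      have : (m : ℝ) ≤ n := by exact_mod_cast hmn
      linarith
    · intro w
      obtain ⟨n, hn⟩ := exists_nat_gt ‖(w : ℂ)‖
      refine ⟨n, ?_⟩
      simp only [T, Set.Finite.mem_toFinset, Set.mem_ofPred_eq]
      linarith
  have h1 : Tendsto (fun n => ∑ w ∈ T n, 1 / (z - (w : ℂ)) ^ 2) atTop
      (𝓝 (∑' w : {w : ℂ // f w = 0}, 1 / (z - (w : ℂ)) ^ 2)) := hsumm.hasSum.comp hT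
  -- the bound
  have h2 : Tendsto (fun n => ∑ w ∈ T n, 1 / (z - (w : ℂ)) ^ 2) atTop (𝓝 (-(L2 f z))) := by
    rw [tendsto_iff_norm_sub_tendsto_zero]
    have hlim := (lim_bound (K * (Real.log C - Real.log ‖f 0‖ + 1)) (K * C + 4 * C')).comp
      (tendsto_add_atTop_nat 1)
    refine squeeze_zero' (Eventually.of_forall fun n => norm_nonneg _) ?_ hlim
    obtain ⟨n₀, hn₀⟩ := exists_nat_gt (4 * ‖z‖)
    filter_upwards [eventually_ge_atTop n₀] with n hn
    set r : ℝ := (n : ℝ) + 1 with hr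
    have hr0 : 0 < r := by positivity
    have hr1 : 1 ≤ r := by rw [hr]; have : (0 : ℝ) ≤ n := n.cast_nonneg; linarith
    have hzr4 : ‖z‖ ≤ r / 4 := by
      have : (n₀ : ℝ) ≤ n := by exact_mod_cast hn
      rw [hr]; linarith
    have hzr : ‖z‖ < r := by linarith
    set S : Finset ℂ := (T n).map (Function.Embedding.subtype _) with hSdef
    have hS : ∀ w, w ∈ S ↔ ‖w‖ < r ∧ f w = 0 := by
      intro w
      simp only [hSdef, Finset.mem_map, T, Set.Finite.mem_toFinset, Set.mem_ofPred_eq,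
        Function.Embedding.coe_subtype]
      constructor
      · rintro ⟨v, hv, rfl⟩; exact ⟨hv, v.2⟩
      · rintro ⟨h3, h4⟩; exact ⟨⟨w, h4⟩, h3, rfl⟩
    set B : ℝ := Real.log C + C * r ^ (3 / 2 : ℝ) with hB
    have hexpB : Real.exp B = C * Real.exp (C * r ^ (3 / 2 : ℝ)) := by
      rw [hB, Real.exp_add, Real.exp_log hCpos]
    obtain ⟨F, hF, hFK, hid⟩ := hBLQ f r (Real.exp B) hf hr0 (by
      intro x hx
      rw [hexpB]
      refine (hC x).trans ?_
      have h5 : ‖x‖ ^ (3 / 2 : ℝ) ≤ r ^ (3 / 2 : ℝ) :=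
        Real.rpow_le_rpow (norm_nonneg _) hx (by norm_num)
      gcongr) S (fun w hw => (hS w).1 hw)
    have hFne : ∀ x, ‖x‖ < r → F x ≠ 0 := fun x hx => F_ne hf hF hr0 S hS hsim hid hx
    obtain ⟨-, hL⟩ := L2_identity hf hF hr0 S (fun w hw => (hS w).1 hw) hid hz hzr
    have hF0 : ‖f 0‖ ≤ ‖F 0‖ := by
      have h3 := congrArg norm (hid 0)
      simp only [zero_sub, mul_zero, sub_zero, norm_mul, norm_prod, norm_neg,
        norm_pow, Complex.norm_real, Real.norm_eq_abs, abs_of_pos hr0] at h3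
      have h4 : ∏ w ∈ S, (r * ‖w‖) ≤ ∏ w ∈ S, r ^ 2 := by
        refine Finset.prod_le_prod (fun w _ => by positivity) fun w hw => ?_
        have := ((hS w).1 hw).1
        nlinarith
      have h5 : 0 < ∏ w ∈ S, (r * ‖w‖) := by
        refine Finset.prod_pos fun w hw => ?_
        have := hpos ⟨w, ((hS w).1 hw).2⟩
        positivity
      have h6 : ‖f 0‖ * ∏ w ∈ S, (r * ‖w‖) ≤ ‖F 0‖ * ∏ w ∈ S, (r * ‖w‖) := by
        rw [h3]
        gcongr
      exact le_of_mul_le_mul_right h6 h5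
    have hf0n : 0 < ‖f 0‖ := norm_pos_iff.2 hf0
    have hLb : ‖L2 F z‖ ≤ K * (B - Real.log ‖f 0‖ + 1) / r ^ 2 := by
      have h3 := hLG F r B hF hr0 hFK hFne z hzr4
      refine h3.trans ?_
      have h4 : Real.log ‖f 0‖ ≤ Real.log ‖F 0‖ := Real.log_le_log hf0n hF0
      gcongr
    have hsumS : ∑ w ∈ T n, 1 / (z - (w : ℂ)) ^ 2 = ∑ w ∈ S, 1 / (z - w) ^ 2 := by
      rw [hSdef, Finset.sum_map]; rfl
    have hdiff : ∑ w ∈ T n, 1 / (z - (w : ℂ)) ^ 2 - -(L2 f z) =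
        L2 F z + ∑ w ∈ S, ((starRingEnd ℂ w) ^ 2 / ((r : ℂ) ^ 2 - starRingEnd ℂ w * z) ^ 2) := by
      rw [hsumS]
      have e1 : ∑ w ∈ S, (-1 / (z - w) ^ 2) = -∑ w ∈ S, 1 / (z - w) ^ 2 := by
        rw [← Finset.sum_neg_distrib]
        exact Finset.sum_congr rfl fun w _ => by rw [neg_div]
      have e2 : ∑ w ∈ S, (-(starRingEnd ℂ w) ^ 2 / ((r : ℂ) ^ 2 - starRingEnd ℂ w * z) ^ 2) =
          -∑ w ∈ S, ((starRingEnd ℂ w) ^ 2 / ((r : ℂ) ^ 2 - starRingEnd ℂ w * z) ^ 2) := by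
        rw [← Finset.sum_neg_distrib]
        exact Finset.sum_congr rfl fun w _ => by rw [neg_div]
      rw [e1, e2] at hL
      linear_combination -hL
    rw [hdiff]
    have hcard : (S.card : ℝ) ≤ C' * r ^ (3 / 2 : ℝ) :=
      hC' r hr1 S fun w hw => ⟨((hS w).1 hw).1.le, ((hS w).1 hw).2⟩
    have hterm : ∀ w ∈ S,
        ‖(starRingEnd ℂ w) ^ 2 / ((r : ℂ) ^ 2 - starRingEnd ℂ w * z) ^ 2‖ ≤ 4 / r ^ 2 := by
      intro w hw
      have hwr := ((hS w).1 hw).1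
      rw [norm_div, norm_pow, norm_pow, RCLike.norm_conj]
      have h3 : r ^ 2 / 2 ≤ ‖(r : ℂ) ^ 2 - starRingEnd ℂ w * z‖ := by
        have h4 : ‖(r : ℂ) ^ 2‖ ≤ ‖(r : ℂ) ^ 2 - starRingEnd ℂ w * z‖ + ‖starRingEnd ℂ w * z‖ := by
          have := norm_add_le ((r : ℂ) ^ 2 - starRingEnd ℂ w * z) (starRingEnd ℂ w * z)
          simpa using this
        rw [norm_pow, norm_mul, Complex.norm_real, Real.norm_eq_abs, abs_of_pos hr0,
          RCLike.norm_conj] at h4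
        have h5 : ‖w‖ * ‖z‖ ≤ r * (r / 4) := by gcongr
        nlinarith
      calc ‖w‖ ^ 2 / ‖(r : ℂ) ^ 2 - starRingEnd ℂ w * z‖ ^ 2 ≤ r ^ 2 / (r ^ 2 / 2) ^ 2 := by gcongr
        _ = 4 / r ^ 2 := by field_simp; norm_num
    have hr' : ((n + 1 : ℕ) : ℝ) = r := by rw [hr]; push_cast; ring
    calc ‖L2 F z + ∑ w ∈ S, ((starRingEnd ℂ w) ^ 2 / ((r : ℂ) ^ 2 - starRingEnd ℂ w * z) ^ 2)‖
        ≤ ‖L2 F z‖ + ∑ w ∈ S,
          ‖(starRingEnd ℂ w) ^ 2 / ((r : ℂ) ^ 2 - starRingEnd ℂ w * z) ^ 2‖ :=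
          (norm_add_le _ _).trans (by gcongr; exact norm_sum_le _ _)
      _ ≤ K * (B - Real.log ‖f 0‖ + 1) / r ^ 2 + ∑ w ∈ S, 4 / r ^ 2 :=
          add_le_add hLb (Finset.sum_le_sum hterm)
      _ = K * (B - Real.log ‖f 0‖ + 1) / r ^ 2 + S.card * (4 / r ^ 2) := by
          rw [Finset.sum_const, nsmul_eq_mul]
      _ ≤ K * (B - Real.log ‖f 0‖ + 1) / r ^ 2 + (C' * r ^ (3 / 2 : ℝ)) * (4 / r ^ 2) := by
          gcongr
      _ = _ := by
          simp only [Function.comp]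
          rw [hr', hB]
          ring
  have h3 := tendsto_nhds_unique h1 h2
  have h4 := hsumm.hasSum
  rw [h3] at h4
  have h5 : -(L2 f z) = (deriv f z / f z) ^ 2 - deriv (deriv f) z / f z := by
    unfold L2; ring
  rw [h5] at h4
  exact h4

end Pool.Agent.CHN
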