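import Pool.Agent.CHN.Targets

/-!
# CHN-HIT: the probability of staying below the parabola (helper12, for helper77)
-/

set_option autoImplicit false

open MeasureTheory ProbabilityTheory Filter Topology Set
open scoped NNReal

namespace Pool.Agent.CHN

namespace HIT_

theorem dyad (s : ℝ≥0) :
    Tendsto (fun n : ℕ => ((⌊(s : ℝ) * 2 ^ n⌋₊ : ℝ≥0) / 2 ^ n : ℝ≥0)) atTop (𝓝 s) := by
  rw [← NNReal.tendsto_coe]
  push_cast
  exact (tendsto_nat_floor_mul_div_atTop (R := ℝ) s.2).comp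
    (tendsto_pow_atTop_atTop_of_one_lt (by norm_num : (1 : ℝ) < 2))

theorem Q_zero (a : ℝ) : Q a 0 = 0 := by
  simp [Q]

theorem R_zero_pos (hRB0 : T_RB0) (hPOS : T_POS) (a : ℝ) : 0 < R a 0 := by
  unfold R
  rw [(hRB0 a).1]
  exact mul_pos (Real.exp_pos _) (hPOS a)

theorem Q_pos (hQPD : T_QPD) (hRB0 : T_RB0) (hPOS : T_POS) : ∃ x : ℝ, 0 < x ∧ 0 < Q 0 x := by
  have h := (hQPD.1 0 0)
  rw [hasDerivAt_iff_tendsto_slope] at h
  have h1 : Tendsto (slope (Q 0) 0) (𝓝[>] 0) (𝓝 (R 0 0)) :=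
    h.mono_left (nhdsWithin_mono _ (fun x hx => ne_of_gt hx))
  have h2 : ∀ᶠ x in 𝓝[>] (0 : ℝ), 0 < slope (Q 0) 0 x :=
    h1.eventually_const_lt (R_zero_pos hRB0 hPOS 0)
  obtain ⟨x, hx, hx0⟩ := (h2.and self_mem_nhdsWithin).exists
  have hx0' : (0 : ℝ) < x := hx0
  refine ⟨x, hx0', ?_⟩
  rw [slope_def_field, Q_zero, sub_zero, sub_zero] at hx
  exact (div_pos_iff_of_pos_right hx0').1 hx

end HIT_

open HIT_ in
theorem p_HIT.{u} (hTIN : T_TIN.{u}) (hQPD : T_QPD) (hRB0 : T_RB0) (hPOS : T_POS) :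
    T_HIT.{u} := by
  intro Ω _ P _ B hB C hC
  have hT := hTIN Ω P B hB C hC
  have hCpos : 0 < C := by
    obtain ⟨x, hx, hQ⟩ := Q_pos hQPD hRB0 hPOS
    rw [hT 0 x hx] at hQ
    by_contra hle
    have hle' : C ≤ 0 := not_lt.1 hle
    exact absurd hQ (not_lt.2 (mul_nonpos_of_nonpos_of_nonneg hle' measureReal_nonneg))
  refine ⟨hCpos, ?_⟩
  intro a x hx
  have hT' : ∀ y : ℝ, 0 < y → P.real {ω | ∀ n k : ℕ,
      √2 * B (k / 2 ^ n) ω < y + (k / 2 ^ n : ℝ) ^ 2 - 2 * a * (k / 2 ^ n : ℝ)} = Q a y / C := by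
    intro y hy
    rw [hT a y hy, mul_div_cancel_left₀ _ hCpos.ne']
  apply le_antisymm
  · have hlim : Tendsto (fun y => Q a y / C) (𝓝[>] x) (𝓝 (Q a x / C)) :=
      (((hQPD.1 a x).continuousAt.tendsto).mono_left nhdsWithin_le_nhds).div_const C
    refine ge_of_tendsto hlim ?_
    filter_upwards [self_mem_nhdsWithin] with y hy
    have hxy : x < y := hy
    rw [← hT' y (lt_of_le_of_lt hx hxy)]
    refine measureReal_mono ?_
    intro ω hω n k
    have h := hω ((k : ℝ≥0) / 2 ^ n)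
    push_cast at h
    linarith
  · rcases hx.eq_or_lt with h0 | h0
    · rw [← h0, Q_zero, zero_div]
      exact measureReal_nonneg
    · rw [← hT' x h0]
      refine ENNReal.toReal_mono (measure_ne_top _ _) (measure_mono_ae ?_)
      filter_upwards [hB.cont] with ω hcont hω
      intro s
      have hω' : ∀ n k : ℕ,
        √2 * B (k / 2 ^ n) ω < x + (k / 2 ^ n : ℝ) ^ 2 - 2 * a * (k / 2 ^ n : ℝ) := hω
      have hd := dyad s
      have hL : Tendsto (fun n : ℕ => √2 * B ((⌊(s : ℝ) * 2 ^ n⌋₊ : ℝ≥0) / 2 ^ n : ℝ≥0) ω) atTop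
          (𝓝 (√2 * B s ω)) :=
        ((hcont.tendsto s).comp hd).const_mul _
      have hR : Tendsto (fun n : ℕ =>
          x + (((⌊(s : ℝ) * 2 ^ n⌋₊ : ℝ≥0) / 2 ^ n : ℝ≥0) : ℝ) ^ 2 -
            2 * a * (((⌊(s : ℝ) * 2 ^ n⌋₊ : ℝ≥0) / 2 ^ n : ℝ≥0) : ℝ)) atTop
          (𝓝 (x + (s : ℝ) ^ 2 - 2 * a * s)) := by
        have hd' := (NNReal.tendsto_coe.2 hd)
        exact (tendsto_const_nhds.add (hd'.pow 2)).sub (hd'.const_mul _)
      refine le_of_tendsto_of_tendsto' hL hR ?_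
      intro n
      have h := (hω' n ⌊(s : ℝ) * 2 ^ n⌋₊).le
      push_cast
      exact h

end Pool.Agent.CHN
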