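import Pool.Agent.CHN.Targets

/-!
# CHN-INC: increments of two-sided Brownian motion (helper12, for helper77)
-/

set_option autoImplicit false

open MeasureTheory ProbabilityTheory Filter Topology Set
open scoped NNReal

namespace Pool.Agent.CHN

namespace INC_

variable {Ω : Type*} [MeasurableSpace Ω] {P : Measure Ω} {W : ℝ → Ω → ℝ}

omit [MeasurableSpace Ω] in
theorem toNN_nonneg {t : ℝ} (ht : 0 ≤ t) (ω : Ω) : W ((t.toNNReal : ℝ≥0) : ℝ) ω = W t ω := by
  rw [Real.coe_toNNReal t ht]

omit [MeasurableSpace Ω] in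
theorem toNN_neg {t : ℝ} (ht : t ≤ 0) (ω : Ω) : W (-(((-t).toNNReal : ℝ≥0) : ℝ)) ω = W t ω := by
  rw [Real.coe_toNNReal (-t) (by linarith), neg_neg]

/-- Two-sided Brownian motion is a Gaussian process. -/
theorem gauss (hW : IsTwoSidedBrownian W P) : IsGaussianProcess W P where
  hasGaussianLaw I := by
    classical
    let I₁ : Finset ℝ≥0 := I.image Real.toNNReal
    let I₂ : Finset ℝ≥0 := I.image (fun t => (-t).toNNReal)
    have h1 := hW.right.isGaussianProcess.hasGaussianLaw I₁
    have h2 := hW.left.isGaussianProcess.hasGaussianLaw I₂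
    have hind : IndepFun (fun ω => I₁.restrict (fun s : ℝ≥0 => W (s : ℝ) ω))
        (fun ω => I₂.restrict (fun s : ℝ≥0 => W (-(s : ℝ)) ω)) P :=
      hW.indep.comp (φ := I₁.restrict) (ψ := I₂.restrict) (Finset.measurable_restrict _)
        (Finset.measurable_restrict _)
    have h3 := hind.hasGaussianLaw h1 h2
    have m1 : ∀ t : I, (t : ℝ).toNNReal ∈ I₁ := fun t => Finset.mem_image_of_mem _ t.2
    have m2 : ∀ t : I, (-(t : ℝ)).toNNReal ∈ I₂ := fun t =>
      Finset.mem_image_of_mem (fun t : ℝ => (-t).toNNReal) t.2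
    let L : ((I₁ → ℝ) × (I₂ → ℝ)) →L[ℝ] (I → ℝ) :=
      ContinuousLinearMap.pi fun t : I =>
        if 0 ≤ (t : ℝ) then
          (ContinuousLinearMap.proj (R := ℝ) (φ := fun _ : I₁ => ℝ) ⟨(t : ℝ).toNNReal, m1 t⟩).comp
            (ContinuousLinearMap.fst ℝ (I₁ → ℝ) (I₂ → ℝ))
        else
          (ContinuousLinearMap.proj (R := ℝ) (φ := fun _ : I₂ => ℝ)
            ⟨(-(t : ℝ)).toNNReal, m2 t⟩).comp (ContinuousLinearMap.snd ℝ (I₁ → ℝ) (I₂ → ℝ))
    have hL : (fun ω => I.restrict (W · ω)) = L ∘ (fun ω =>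
        (I₁.restrict (fun s : ℝ≥0 => W (s : ℝ) ω), I₂.restrict (fun s : ℝ≥0 => W (-(s : ℝ)) ω))) := by
      funext ω
      funext t
      by_cases ht : 0 ≤ (t : ℝ)
      · simp only [Finset.restrict, Function.comp_apply, L, ContinuousLinearMap.pi_apply, if_pos ht]
        exact (toNN_nonneg ht ω).symm
      · simp only [Finset.restrict, Function.comp_apply, L, ContinuousLinearMap.pi_apply, if_neg ht]
        exact (toNN_neg (not_le.1 ht).le ω).symm
    rw [hL]
    exact h3.map L

theorem mean (hW : IsTwoSidedBrownian W P) (t : ℝ) : P[W t] = 0 := by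
  rcases le_total 0 t with ht | ht
  · have h := hW.right.integral_eval t.toNNReal
    rwa [Real.coe_toNNReal t ht] at h
  · have h := hW.left.integral_eval (-t).toNNReal
    rwa [Real.coe_toNNReal (-t) (by linarith), neg_neg] at h

theorem covW (hW : IsTwoSidedBrownian W P) (s t : ℝ) :
    cov[W s, W t; P] = (|s| + |t| - |s - t|) / 2 := by
  have hP := (gauss hW).isProbabilityMeasure
  have hmem : ∀ t, MemLp (W t) 2 P := fun t => ((gauss hW).hasGaussianLaw_eval t).memLp_two
  have hopp : ∀ s t : ℝ, 0 ≤ s → t ≤ 0 → cov[W s, W t; P] = 0 := by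
    intro s t hs ht
    have hind : IndepFun (W s) (W t) P := by
      have hm1 : Measurable (fun x : ℝ≥0 → ℝ => x s.toNNReal) := measurable_pi_apply _
      have hm2 : Measurable (fun x : ℝ≥0 → ℝ => x (-t).toNNReal) := measurable_pi_apply _
      have h := hW.indep.comp hm1 hm2
      have e1 : ((fun x : ℝ≥0 → ℝ => x s.toNNReal) ∘ fun ω (s : ℝ≥0) => W (s : ℝ) ω) = W s := by
        funext ω; exact toNN_nonneg hs ω
      have e2 : ((fun x : ℝ≥0 → ℝ => x (-t).toNNReal) ∘ fun ω (s : ℝ≥0) => W (-(s : ℝ)) ω) =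
          W t := by
        funext ω; exact toNN_neg ht ω
      rwa [e1, e2] at h
    exact hind.covariance_eq_zero (hmem s) (hmem t)
  rcases le_total 0 s with hs | hs <;> rcases le_total 0 t with ht | ht
  · have h := hW.right.covariance_eval s.toNNReal t.toNNReal
    rw [Real.coe_toNNReal s hs, Real.coe_toNNReal t ht] at h
    rw [h, NNReal.coe_min, Real.coe_toNNReal s hs, Real.coe_toNNReal t ht, abs_of_nonneg hs,
      abs_of_nonneg ht]
    rcases le_total s t with h | h
    · rw [min_eq_left h, abs_of_nonpos (by linarith)]; ring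
    · rw [min_eq_right h, abs_of_nonneg (by linarith)]; ring
  · rw [hopp s t hs ht, abs_of_nonneg hs, abs_of_nonpos ht, abs_of_nonneg (by linarith)]; ring
  · rw [covariance_comm, hopp t s ht hs, abs_of_nonneg ht, abs_of_nonpos hs,
      abs_of_nonpos (by linarith)]; ring
  · have h := hW.left.covariance_eval (-s).toNNReal (-t).toNNReal
    rw [Real.coe_toNNReal (-s) (by linarith), Real.coe_toNNReal (-t) (by linarith), neg_neg,
      neg_neg] at h
    rw [h, NNReal.coe_min, Real.coe_toNNReal (-s) (by linarith),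
      Real.coe_toNNReal (-t) (by linarith), abs_of_nonpos hs, abs_of_nonpos ht]
    rcases le_total s t with h | h
    · rw [min_eq_right (by linarith), abs_of_nonpos (by linarith)]; ring
    · rw [min_eq_left (by linarith), abs_of_nonneg (by linarith)]; ring

/-- Covariance of increments. -/
theorem covInc (hW : IsTwoSidedBrownian W P) (a b c d : ℝ) :
    cov[fun ω => W a ω - W b ω, fun ω => W c ω - W d ω; P] =
      (|b - c| + |a - d| - |a - c| - |b - d|) / 2 := by
  have hP := (gauss hW).isProbabilityMeasure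
  have hmem : ∀ t, MemLp (fun ω => W t ω) 2 P := fun t =>
    ((gauss hW).hasGaussianLaw_eval t).memLp_two
  have hcov : ∀ s t, cov[fun ω => W s ω, fun ω => W t ω; P] = (|s| + |t| - |s - t|) / 2 :=
    covW hW
  have hmem2 : MemLp (fun ω => W c ω - W d ω) 2 P := (hmem c).sub (hmem d)
  rw [covariance_fun_sub_left (hmem a) (hmem b) hmem2,
    covariance_fun_sub_right (hmem a) (hmem c) (hmem d),
    covariance_fun_sub_right (hmem b) (hmem c) (hmem d), hcov, hcov, hcov, hcov]
  ring

theorem cont (hW : IsTwoSidedBrownian W P) : ∀ᵐ ω ∂P, Continuous (W · ω) := by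
  filter_upwards [hW.right.cont, hW.left.cont] with ω h1 h2
  have e : (fun t => W t ω) = fun t : ℝ =>
      if 0 ≤ t then W ((t.toNNReal : ℝ≥0) : ℝ) ω else W (-(((-t).toNNReal : ℝ≥0) : ℝ)) ω := by
    funext t
    by_cases ht : 0 ≤ t
    · rw [if_pos ht, toNN_nonneg (W := W) ht ω]
    · rw [if_neg ht, toNN_neg (W := W) (not_le.1 ht).le ω]
  rw [e]
  refine Continuous.if_le ?_ ?_ continuous_const continuous_id ?_
  · exact h1.comp continuous_real_toNNReal
  · exact h2.comp (continuous_real_toNNReal.comp continuous_neg)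
  · intro t ht
    rw [← ht]
    simp

/-- Increments along an affine reparametrisation of time, `c = 1` or `c = -1`. -/
theorem brown (hW : IsTwoSidedBrownian W P) (w c : ℝ) (hc : |c| = 1) :
    IsBrownianReal (fun (s : ℝ≥0) ω => W (w + c * s) ω - W w ω) P := by
  classical
  have hP := (gauss hW).isProbabilityMeasure
  have hG : IsGaussianProcess (fun (s : ℝ≥0) ω => W (w + c * s) ω - W w ω) P := by
    refine (gauss hW).of_isGaussianProcess fun s => ⟨{w + c * s, w},
      { toFun := fun x => x ⟨w + c * s, by simp⟩ - x ⟨w, by simp⟩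
        map_add' := fun x y => by simp; abel
        map_smul' := fun r x => by simp; ring }, fun ω => by simp⟩
  refine ⟨hG.isPreBrownianReal_of_covariance ?_ ?_, ?_⟩
  · intro t
    rw [integral_sub, mean hW, mean hW, sub_zero]
    all_goals exact ((gauss hW).hasGaussianLaw_eval _).integrable
  · intro s t hst
    have hst' : (s : ℝ) ≤ t := hst
    rw [covInc hW]
    have e1 : w - (w + c * t) = -(c * t) := by ring
    have e2 : w + c * (s : ℝ) - w = c * s := by ring
    have e3 : w + c * (s : ℝ) - (w + c * t) = -(c * (t - s)) := by ring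
    rw [e1, e2, e3, sub_self, abs_neg, abs_neg, abs_mul, abs_mul, abs_mul, hc, abs_zero,
      abs_of_nonneg s.coe_nonneg, abs_of_nonneg t.coe_nonneg, abs_of_nonneg (sub_nonneg.2 hst')]
    ring
  · filter_upwards [cont hW] with ω h
    fun_prop

end INC_

open INC_ in
theorem p_INC.{u} : T_INC.{u} := by
  intro Ω _ P _ W hW w
  have hP := (gauss hW).isProbabilityMeasure
  have hB1 : IsBrownianReal (fun (s : ℝ≥0) ω => W (w + s) ω - W w ω) P := by
    have h := brown hW w 1 (by norm_num)
    simpa using h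
  have hB2 : IsBrownianReal (fun (s : ℝ≥0) ω => W (w - s) ω - W w ω) P := by
    have h := brown hW w (-1) (by norm_num)
    simpa [sub_eq_add_neg] using h
  refine ⟨hB1, hB2, ?_⟩
  have mX : ∀ s : ℝ≥0, AEMeasurable (fun ω => W (w + s) ω - W w ω) P := hB1.aemeasurable
  have mY : ∀ s : ℝ≥0, AEMeasurable (fun ω => W (w - s) ω - W w ω) P := hB2.aemeasurable
  refine IsGaussianProcess.indepFun_of_covariance_eq_zero
    (X := fun (s : ℝ≥0) ω => W (w + s) ω - W w ω) (Y := fun (s : ℝ≥0) ω => W (w - s) ω - W w ω)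
    ?_ mX mY ?_
  · classical
    apply (gauss hW).of_isGaussianProcess
    rintro (s | s)
    · exact ⟨{w + s, w},
        { toFun := fun x => x ⟨w + s, by simp⟩ - x ⟨w, by simp⟩
          map_add' := fun x y => by simp; abel
          map_smul' := fun r x => by simp; ring }, fun ω => by simp⟩
    · exact ⟨{w - s, w},
        { toFun := fun x => x ⟨w - s, by simp⟩ - x ⟨w, by simp⟩
          map_add' := fun x y => by simp; abel
          map_smul' := fun r x => by simp; ring }, fun ω => by simp⟩
  · intro s t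
    rw [covInc hW]
    have e1 : w - (w - (t : ℝ)) = t := by ring
    have e2 : w + (s : ℝ) - w = s := by ring
    have e3 : w + (s : ℝ) - (w - t) = s + t := by ring
    rw [e1, e2, e3, sub_self, abs_zero, abs_of_nonneg s.coe_nonneg, abs_of_nonneg t.coe_nonneg,
      abs_of_nonneg (add_nonneg s.coe_nonneg t.coe_nonneg)]
    ring

end Pool.Agent.CHN
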