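import Pool.Agent.CHN.Targets

/-!
# CHN-LAW: the distribution function of the argmax (helper27)
-/

set_option autoImplicit false

open MeasureTheory ProbabilityTheory Filter Topology Set
open scoped NNReal ENNReal

namespace Pool.Agent.CHN.LAW_

universe u

variable {Ω : Type u} [MeasurableSpace Ω] {P : Measure Ω}

/-- the supremum functional -/
noncomputable def S (a : ℝ) (b : ℝ≥0 → ℝ) : EReal :=
  ⨆ n : ℕ, ((√2 * b (TopologicalSpace.denseSeq ℝ≥0 n) -
    (TopologicalSpace.denseSeq ℝ≥0 n : ℝ) ^ 2 +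
    2 * a * (TopologicalSpace.denseSeq ℝ≥0 n : ℝ) : ℝ) : EReal)

lemma S_meas (a : ℝ) : Measurable (S a) := by
  unfold S
  refine Measurable.iSup fun n => ?_
  refine Measurable.coe_real_ereal ?_
  fun_prop

lemma S_le_iff {a : ℝ} {b : ℝ≥0 → ℝ} (hb : Continuous b) (y : ℝ) :
    S a b ≤ (y : EReal) ↔ ∀ s : ℝ≥0, √2 * b s ≤ y + (s : ℝ) ^ 2 - 2 * a * s := by
  unfold S
  rw [iSup_le_iff]
  constructor
  · intro h s
    have hcl : IsClosed {s : ℝ≥0 | √2 * b s ≤ y + (s : ℝ) ^ 2 - 2 * a * s} :=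
      isClosed_le (by fun_prop) (by fun_prop)
    have hd := TopologicalSpace.denseRange_denseSeq ℝ≥0
    have : closure (range (TopologicalSpace.denseSeq ℝ≥0)) ⊆
        {s : ℝ≥0 | √2 * b s ≤ y + (s : ℝ) ^ 2 - 2 * a * s} := by
      refine closure_minimal ?_ hcl
      rintro _ ⟨n, rfl⟩
      have := h n
      rw [EReal.coe_le_coe_iff] at this
      simp only [mem_ofPred_eq]
      linarith
    exact this (by rw [hd.closure_range]; trivial)
  · intro h n
    rw [EReal.coe_le_coe_iff]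
    have := h (TopologicalSpace.denseSeq ℝ≥0 n)
    linarith

/-- the real valued supremum -/
noncomputable def U (a : ℝ) (B : ℝ≥0 → Ω → ℝ) (ω : Ω) : ℝ := (S a (fun s => B s ω)).toReal

lemma aemeas_S {B : ℝ≥0 → Ω → ℝ} (hB : IsBrownianReal B P) (a : ℝ) :
    AEMeasurable (fun ω => S a (fun s => B s ω)) P := by
  unfold S
  refine AEMeasurable.iSup fun n => ?_
  have h1 : AEMeasurable (B (TopologicalSpace.denseSeq ℝ≥0 n)) P :=
    hB.toIsPreBrownianReal.aemeasurable _
  exact (((h1.const_mul _).sub_const _).add_const _).coe_real_ereal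

lemma aemeas_U {B : ℝ≥0 → Ω → ℝ} (hB : IsBrownianReal B P) (a : ℝ) :
    AEMeasurable (U a B) P := (aemeas_S hB a).ereal_toReal

lemma cont_ae {B : ℝ≥0 → Ω → ℝ} (hB : IsBrownianReal B P) :
    ∀ᵐ ω ∂P, Continuous (fun s => B s ω) ∧ B 0 ω = 0 := by
  filter_upwards [hB.cont, hB.toIsPreBrownianReal.eval_zero_ae_eq_zero] with ω h1 h2
  exact ⟨h1, h2⟩

/-- measure of the sublevel sets of `S` -/
lemma S_law [IsProbabilityMeasure P] {B : ℝ≥0 → Ω → ℝ} (hB : IsBrownianReal B P) {C : ℝ}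
    (hHIT : T_HIT.{u}) (hC : ∀ a : ℝ, Tendsto (Q a) atTop (𝓝 C)) (a : ℝ) {y : ℝ} (hy : 0 ≤ y) :
    P.real {ω | S a (fun s => B s ω) ≤ (y : EReal)} = Q a y / C := by
  rw [← (hHIT Ω P B hB C hC).2 a y hy]
  refine measureReal_congr ?_
  filter_upwards [cont_ae hB] with ω hω
  exact propext (S_le_iff hω.1 y)

lemma S_ae [IsProbabilityMeasure P] {B : ℝ≥0 → Ω → ℝ} (hB : IsBrownianReal B P) {C : ℝ}
    (hHIT : T_HIT.{u}) (hC : ∀ a : ℝ, Tendsto (Q a) atTop (𝓝 C)) (a : ℝ) :
    ∀ᵐ ω ∂P, Continuous (fun s => B s ω) ∧ 0 ≤ U a B ω ∧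
      S a (fun s => B s ω) = (U a B ω : EReal) := by
  have hC0 : 0 < C := (hHIT Ω P B hB C hC).1
  -- finiteness
  have hfin : ∀ᵐ ω ∂P, S a (fun s => B s ω) ≠ ⊤ := by
    have hle : ∀ n : ℕ, P.real {ω | S a (fun s => B s ω) = ⊤} ≤ 1 - Q a n / C := by
      intro n
      have h1 := S_law hB hHIT hC a (Nat.cast_nonneg n : (0 : ℝ) ≤ n)
      have hns : NullMeasurableSet {ω | S a (fun s => B s ω) ≤ ((n : ℝ) : EReal)} P :=
        (aemeas_S hB a).nullMeasurableSet_preimage measurableSet_Iic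
      have h2 : P.real ({ω | S a (fun s => B s ω) ≤ ((n : ℝ) : EReal)}ᶜ) = 1 - Q a n / C := by
        rw [probReal_compl_eq_one_sub₀ hns, h1]
      rw [← h2]
      refine measureReal_mono (fun ω hω => ?_)
      simp only [mem_ofPred_eq] at hω
      simp only [mem_compl_iff, mem_ofPred_eq, hω, top_le_iff]
      exact EReal.coe_ne_top _
    have hlim : Tendsto (fun n : ℕ => 1 - Q a n / C) atTop (𝓝 (1 - C / C)) := by
      refine Tendsto.const_sub _ (Tendsto.div_const ?_ _)
      exact (hC a).comp tendsto_natCast_atTop_atTop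
    have h0 : P.real {ω | S a (fun s => B s ω) = ⊤} ≤ 0 := by
      have := ge_of_tendsto' hlim hle
      rwa [div_self hC0.ne', sub_self] at this
    have h00 : P.real {ω | S a (fun s => B s ω) = ⊤} = 0 := le_antisymm h0 measureReal_nonneg
    rw [measureReal_eq_zero_iff] at h00
    rw [ae_iff]
    simpa using h00
  filter_upwards [cont_ae hB, hfin] with ω hω hf
  have hnn : (0 : EReal) ≤ S a (fun s => B s ω) := by
    by_contra hcon
    push Not at hcon
    obtain ⟨y, hy1, hy2⟩ := EReal.lt_iff_exists_real_btwn.1 hcon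
    have := (S_le_iff (a := a) hω.1 y).1 hy1.le 0
    rw [hω.2] at this
    have hy0 : y < 0 := by exact_mod_cast hy2
    simp at this
    linarith
  have hb : S a (fun s => B s ω) ≠ ⊥ := by
    intro h
    rw [h] at hnn
    simp at hnn
  refine ⟨hω.1, ?_, ?_⟩
  · exact EReal.toReal_nonneg hnn
  · exact (EReal.coe_toReal hf hb).symm

lemma U_iff [IsProbabilityMeasure P] {B : ℝ≥0 → Ω → ℝ} (hB : IsBrownianReal B P) {C : ℝ}
    (hHIT : T_HIT.{u}) (hC : ∀ a : ℝ, Tendsto (Q a) atTop (𝓝 C)) (a : ℝ) :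
    ∀ᵐ ω ∂P, 0 ≤ U a B ω ∧
      ∀ y : ℝ, U a B ω ≤ y ↔ ∀ s : ℝ≥0, √2 * B s ω ≤ y + (s : ℝ) ^ 2 - 2 * a * s := by
  filter_upwards [S_ae hB hHIT hC a] with ω hω
  refine ⟨hω.2.1, fun y => ?_⟩
  rw [← S_le_iff (a := a) hω.1 y, hω.2.2, EReal.coe_le_coe_iff]

/-- `R a` is nonnegative on `(0,∞)` -/
lemma R_nonneg [IsProbabilityMeasure P] {B : ℝ≥0 → Ω → ℝ} (hB : IsBrownianReal B P) {C : ℝ}
    (hHIT : T_HIT.{u}) (hC : ∀ a : ℝ, Tendsto (Q a) atTop (𝓝 C)) (hQPD : T_QPD) (a : ℝ) {y : ℝ}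
    (hy : 0 < y) : 0 ≤ R a y := by
  have hC0 : 0 < C := (hHIT Ω P B hB C hC).1
  have hmono : MonotoneOn (Q a) (Ici 0) := by
    intro x hx x' hx' hxx
    have h1 := S_law hB hHIT hC a hx
    have h2 := S_law hB hHIT hC a hx'
    have h3 : P.real {ω | S a (fun s => B s ω) ≤ (x : EReal)} ≤
        P.real {ω | S a (fun s => B s ω) ≤ (x' : EReal)} := by
      refine measureReal_mono (fun ω hω => ?_)
      have hω' : S a (fun s => B s ω) ≤ (x : EReal) := hω
      have hxx' : (x : EReal) ≤ (x' : EReal) := by exact_mod_cast hxx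
      exact hω'.trans hxx'
    rw [h1, h2] at h3
    exact (div_le_div_iff_of_pos_right hC0).1 h3
  have hd := hQPD.1 a y
  have h4 : R a y = deriv (Q a) y := hd.deriv.symm
  rw [h4, ← derivWithin_of_mem_nhds (Ici_mem_nhds hy)]
  exact hmono.derivWithin_nonneg

/-- the law of `U` -/
lemma map_U [IsProbabilityMeasure P] {B : ℝ≥0 → Ω → ℝ} (hB : IsBrownianReal B P) {C : ℝ}
    (hHIT : T_HIT.{u}) (hC : ∀ a : ℝ, Tendsto (Q a) atTop (𝓝 C)) (hQPD : T_QPD) (a : ℝ) :
    (∀ y : ℝ, P.map (U a B) (Iic y) = if 0 ≤ y then ENNReal.ofReal (Q a y / C) else 0) ∧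
    P.map (U a B) = (volume.restrict (Ioi 0)).withDensity
      (fun y => ENNReal.ofReal (R a y / C)) := by
  have hC0 : 0 < C := (hHIT Ω P B hB C hC).1
  have hae := aemeas_U hB a
  have h1 : ∀ y : ℝ, P.map (U a B) (Iic y) =
      if 0 ≤ y then ENNReal.ofReal (Q a y / C) else 0 := by
    intro y
    rw [Measure.map_apply_of_aemeasurable hae measurableSet_Iic]
    split_ifs with hy
    · rw [← S_law hB hHIT hC a hy, ofReal_measureReal]
      refine measure_congr ?_
      filter_upwards [S_ae hB hHIT hC a] with ω hω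
      apply propext
      show U a B ω ≤ y ↔ S a (fun s => B s ω) ≤ (y : EReal)
      rw [hω.2.2, EReal.coe_le_coe_iff]
    · have : P {ω | 0 ≤ U a B ω}ᶜ = 0 := by
        have := U_iff hB hHIT hC a
        rw [← mem_ae_iff]
        filter_upwards [this] with ω hω
        exact hω.1
      refine measure_mono_null (fun ω hω => ?_) this
      simp only [mem_preimage, mem_Iic] at hω
      simp only [mem_compl_iff, mem_ofPred_eq, not_le]
      push Not at hy
      linarith
  refine ⟨h1, ?_⟩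
  have hpm : IsProbabilityMeasure (P.map (U a B)) := Measure.isProbabilityMeasure_map hae
  have hRc : Continuous (R a) := by
    have := hQPD.2.2.2.2.2.2.1
    exact this.comp (Continuous.prodMk continuous_const continuous_id)
  refine Measure.ext_of_Iic _ _ fun y => ?_
  rw [h1 y, withDensity_apply _ measurableSet_Iic, Measure.restrict_restrict measurableSet_Iic]
  split_ifs with hy
  · have hset : Iic y ∩ Ioi 0 = Ioc 0 y := by
      ext z
      simp only [mem_inter_iff, mem_Iic, mem_Ioi, mem_Ioc]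
      tauto
    rw [hset]
    have hint : IntegrableOn (fun z => R a z / C) (Ioc 0 y) :=
      ((hRc.div_const C).intervalIntegrable 0 y).1
    have hnn : 0 ≤ᵐ[volume.restrict (Ioc 0 y)] fun z => R a z / C := by
      filter_upwards [ae_restrict_mem measurableSet_Ioc] with z hz
      exact div_nonneg (R_nonneg hB hHIT hC hQPD a hz.1) hC0.le
    rw [← ofReal_integral_eq_lintegral_ofReal hint hnn]
    congr 1
    rw [integral_div, ← intervalIntegral.integral_of_le hy]
    rfl
  · have hset : Iic y ∩ Ioi 0 = ∅ := by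
      ext z
      simp only [mem_inter_iff, mem_Iic, mem_Ioi, mem_empty_iff_false, iff_false, not_and, not_lt]
      intro hz
      push Not at hy
      linarith
    rw [hset]
    simp

/-- the two suprema at the time `w` -/
lemma two [IsProbabilityMeasure P] {W : ℝ → Ω → ℝ} (hW : IsTwoSidedBrownian W P) {C : ℝ}
    (hHIT : T_HIT.{u}) (hINC : T_INC.{u}) (hC : ∀ a : ℝ, Tendsto (Q a) atTop (𝓝 C))
    (hQPD : T_QPD) (w : ℝ) :
    ∃ U₁ U₂ : Ω → ℝ, AEMeasurable U₁ P ∧ AEMeasurable U₂ P ∧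
      (∀ᵐ ω ∂P, ∀ y : ℝ, U₁ ω ≤ y ↔ ∀ s : ℝ, w ≤ s →
        √2 * W s ω - s ^ 2 ≤ √2 * W w ω - w ^ 2 + y) ∧
      (∀ᵐ ω ∂P, ∀ y : ℝ, U₂ ω ≤ y ↔ ∀ s : ℝ, s ≤ w →
        √2 * W s ω - s ^ 2 ≤ √2 * W w ω - w ^ 2 + y) ∧
      P.real {ω | U₁ ω ≤ U₂ ω} = (∫ y in Ioi (0 : ℝ), Q (-w) y * R w y) / C ^ 2 ∧
      P {ω | U₁ ω = U₂ ω} = 0 := by
  have hC0 : 0 < C := by
    exact (hHIT Ω P _ (hINC Ω P W hW w).1 C hC).1
  obtain ⟨h1, h2, h3⟩ := hINC Ω P W hW w
  set B₁ : ℝ≥0 → Ω → ℝ := fun (s : ℝ≥0) ω => W (w + s) ω - W w ω with hB₁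
  set B₂ : ℝ≥0 → Ω → ℝ := fun (s : ℝ≥0) ω => W (w - s) ω - W w ω with hB₂
  have hm1 := map_U h1 hHIT hC hQPD (-w)
  have hm2 := map_U h2 hHIT hC hQPD w
  have ha1 : AEMeasurable (U (-w) B₁) P := aemeas_U h1 (-w)
  have ha2 : AEMeasurable (U w B₂) P := aemeas_U h2 w
  have hind : IndepFun (U (-w) B₁) (U w B₂) P :=
    h3.comp (φ := fun b => (S (-w) b).toReal) (ψ := fun b => (S w b).toReal)
      (S_meas (-w)).ereal_toReal (S_meas w).ereal_toReal
  have hprod : P.map (fun ω => (U (-w) B₁ ω, U w B₂ ω)) =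
      (P.map (U (-w) B₁)).prod (P.map (U w B₂)) :=
    (indepFun_iff_map_prod_eq_prod_map_map ha1 ha2).1 hind
  have hp1 : IsProbabilityMeasure (P.map (U (-w) B₁)) := Measure.isProbabilityMeasure_map ha1
  have hp2 : IsProbabilityMeasure (P.map (U w B₂)) := Measure.isProbabilityMeasure_map ha2
  refine ⟨U (-w) B₁, U w B₂, ha1, ha2, ?_, ?_, ?_, ?_⟩
  · filter_upwards [U_iff h1 hHIT hC (-w)] with ω hω y
    rw [hω.2 y]
    constructor
    · intro h s hs
      have := h (s - w).toNNReal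
      simp only [hB₁] at this
      rw [Real.coe_toNNReal _ (by linarith : (0 : ℝ) ≤ s - w),
        show w + (s - w) = s by ring] at this
      nlinarith [this]
    · intro h s
      have := h (w + s) (by have := s.2; simp)
      simp only [hB₁]
      nlinarith [this]
  · filter_upwards [U_iff h2 hHIT hC w] with ω hω y
    rw [hω.2 y]
    constructor
    · intro h s hs
      have := h (w - s).toNNReal
      simp only [hB₂] at this
      rw [Real.coe_toNNReal _ (by linarith : (0 : ℝ) ≤ w - s),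
        show w - (w - s) = s by ring] at this
      nlinarith [this]
    · intro h s
      have := h (w - s) (by have := s.2; simp)
      simp only [hB₂]
      nlinarith [this]
  · have hmeas : MeasurableSet {p : ℝ × ℝ | p.1 ≤ p.2} :=
      measurableSet_le measurable_fst measurable_snd
    have e1 : P {ω | U (-w) B₁ ω ≤ U w B₂ ω} =
        ∫⁻ y, P.map (U (-w) B₁) (Iic y) ∂(P.map (U w B₂)) := by
      have : P {ω | U (-w) B₁ ω ≤ U w B₂ ω} =
          P.map (fun ω => (U (-w) B₁ ω, U w B₂ ω)) {p : ℝ × ℝ | p.1 ≤ p.2} := by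
        rw [Measure.map_apply_of_aemeasurable (ha1.prodMk ha2) hmeas]
        rfl
      rw [this, hprod, Measure.prod_apply_symm hmeas]
      rfl
    have hQc : Continuous (Q (-w)) := by
      have := hQPD.2.2.2.2.2.1
      exact this.comp (Continuous.prodMk continuous_const continuous_id)
    have hRc : Continuous (R w) := by
      have := hQPD.2.2.2.2.2.2.1
      exact this.comp (Continuous.prodMk continuous_const continuous_id)
    have hQnn : ∀ y : ℝ, 0 ≤ y → 0 ≤ Q (-w) y := by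
      intro y hy
      have := S_law h1 hHIT hC (-w) hy
      have h5 : 0 ≤ Q (-w) y / C := by rw [← this]; exact measureReal_nonneg
      rcases (div_nonneg_iff.1 h5) with h | h
      · exact h.1
      · linarith [h.2]
    have e2 : P {ω | U (-w) B₁ ω ≤ U w B₂ ω} =
        ∫⁻ y in Ioi (0 : ℝ), ENNReal.ofReal (Q (-w) y * R w y / C ^ 2) := by
      rw [e1, hm2.2, lintegral_withDensity_eq_lintegral_mul₀']
      · refine setLIntegral_congr_fun measurableSet_Ioi fun y hy => ?_
        have hy' : (0 : ℝ) < y := hy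
        simp only [Pi.mul_apply]
        rw [hm1.1 y, if_pos hy'.le, ← ENNReal.ofReal_mul
          (div_nonneg (R_nonneg h2 hHIT hC hQPD w hy') hC0.le)]
        congr 1
        field_simp
      · exact ((hRc.div_const C).measurable.ennreal_ofReal).aemeasurable
      · have : (fun y : ℝ => P.map (U (-w) B₁) (Iic y)) =
            fun y => if 0 ≤ y then ENNReal.ofReal (Q (-w) y / C) else 0 := by
          funext y
          exact hm1.1 y
        rw [this]
        exact (Measurable.ite measurableSet_Ici ((hQc.div_const C).measurable.ennreal_ofReal)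
          measurable_const).aemeasurable
    rw [measureReal_def, e2, ← integral_div]
    rw [integral_eq_lintegral_of_nonneg_ae]
    · filter_upwards [ae_restrict_mem measurableSet_Ioi] with y hy
      have hy' : (0 : ℝ) < y := hy
      exact div_nonneg (mul_nonneg (hQnn y hy'.le) (R_nonneg h2 hHIT hC hQPD w hy'))
        (sq_nonneg C)
    · exact (((hQc.mul hRc).div_const _).measurable).aestronglyMeasurable
  · have hmeas : MeasurableSet {p : ℝ × ℝ | p.1 = p.2} :=
      measurableSet_eq_fun measurable_fst measurable_snd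
    have : P {ω | U (-w) B₁ ω = U w B₂ ω} =
        P.map (fun ω => (U (-w) B₁ ω, U w B₂ ω)) {p : ℝ × ℝ | p.1 = p.2} := by
      rw [Measure.map_apply_of_aemeasurable (ha1.prodMk ha2) hmeas]
      rfl
    rw [this, hprod, Measure.prod_apply_symm hmeas]
    rw [lintegral_eq_zero_iff' (measurable_measure_prodMk_right hmeas).aemeasurable]
    refine Eventually.of_forall fun y => ?_
    have hs : (fun x => (x, y)) ⁻¹' {p : ℝ × ℝ | p.1 = p.2} = {y} := by
      ext x
      simp
    show (P.map (U (-w) B₁)) ((fun x => (x, y)) ⁻¹' {p : ℝ × ℝ | p.1 = p.2}) = 0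
    rw [hs, hm1.2]
    have hac : ((volume.restrict (Ioi (0 : ℝ))).withDensity
      (fun y => ENNReal.ofReal (R (-w) y / C))) ≪ volume.restrict (Ioi (0 : ℝ)) :=
      withDensity_absolutelyContinuous _ _
    exact hac (by simp)

end Pool.Agent.CHN.LAW_

namespace Pool.Agent.CHN

theorem p_LAW.{u} (hHIT : T_HIT.{u}) (hINC : T_INC.{u}) (hQPD : T_QPD) : T_LAW.{u} := by
  intro Ω _ P _ W hW Z hZ hmax C hC w
  obtain ⟨U₁, U₂, ha1, ha2, h1, h2, h3, h4⟩ := LAW_.two hW hHIT hINC hC hQPD w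
  rw [← h3]
  apply measureReal_congr
  have hne : ∀ᵐ ω ∂P, U₁ ω ≠ U₂ ω := by
    rw [ae_iff]
    simpa using h4
  filter_upwards [hmax, h1, h2, hne] with ω hm g1 g2 hn
  apply propext
  show Z ω ≤ w ↔ U₁ ω ≤ U₂ ω
  have k1 : Z ω ≤ w → U₁ ω ≤ U₂ ω := by
    intro hz
    rw [g1 (U₂ ω)]
    intro s hs
    have := (g2 (U₂ ω)).1 le_rfl (Z ω) hz
    linarith [hm s]
  have k2 : w ≤ Z ω → U₂ ω ≤ U₁ ω := by
    intro hz
    rw [g2 (U₁ ω)]
    intro s hs
    have := (g1 (U₁ ω)).1 le_rfl (Z ω) hz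
    linarith [hm s]
  constructor
  · exact k1
  · intro hle
    by_contra hcon
    push Not at hcon
    exact hn (le_antisymm hle (k2 hcon.le))

end Pool.Agent.CHN
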