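import Pool.Agent.CHN.Targets
import Mathlib.Analysis.Complex.BorelCaratheodory
import Mathlib.Analysis.Complex.HasPrimitives
import Mathlib.Analysis.Complex.Liouville

/-!
# CHN-LG2: the second logarithmic derivative of a function without zeros
-/

set_option autoImplicit false

open Filter Topology Set Metric

namespace Pool.Agent.CHN

namespace LG2_

/-- The logarithm: a primitive of the logarithmic derivative. -/
theorem exists_log (F : ℂ → ℂ) (r : ℝ) (hF : Differentiable ℂ F) (hr : 0 < r)
    (hz : ∀ z, ‖z‖ < r → F z ≠ 0) :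
    ∃ L : ℂ → ℂ, L 0 = 0 ∧ (∀ z ∈ ball (0 : ℂ) r, HasDerivAt L (deriv F z / F z) z) ∧
      ∀ z ∈ ball (0 : ℂ) r, F z = F 0 * Complex.exp (L z) := by
  have hd : DifferentiableOn ℂ (fun z => deriv F z / F z) (ball 0 r) := by
    intro z hzz
    have h1 : DifferentiableAt ℂ (deriv F) z := (hF.contDiff.differentiable_deriv_two).differentiableAt
    exact (h1.div hF.differentiableAt (hz z (by simpa using hzz))).differentiableWithinAt
  obtain ⟨L, hL0, hL⟩ := (hd.isExactOn_ball).with_val_at 0 0
  refine ⟨L, hL0, hL, ?_⟩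
  have hG : ∀ z ∈ ball (0 : ℂ) r, HasDerivAt (fun z => F z * Complex.exp (-L z)) 0 z := by
    intro z hzz
    have h1 := (hF z).hasDerivAt
    have h2 := (hL z hzz).neg.cexp
    have h3 := h1.mul h2
    have hne := hz z (by simpa using hzz)
    have h4 : deriv F z * Complex.exp (-L z) +
        F z * (Complex.exp (-L z) * -(deriv F z / F z)) = 0 := by
      rw [mul_neg, mul_neg, mul_left_comm, mul_div_cancel₀ _ hne]
      ring
    rw [← h4]
    exact h3
  intro z hzz
  have hconst : F z * Complex.exp (-L z) = F 0 * Complex.exp (-L 0) := by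
    have hconv : Convex ℝ (ball (0 : ℂ) r) := convex_ball 0 r
    have := hconv.is_const_of_fderivWithin_eq_zero (𝕜 := ℂ)
      (f := fun z => F z * Complex.exp (-L z))
      (fun w hw => (hG w hw).differentiableAt.differentiableWithinAt)
      (fun w hw => by
        rw [fderivWithin_of_isOpen isOpen_ball hw]
        have := (hG w hw).hasFDerivAt.fderiv
        rw [this]
        ext
        simp) hzz (mem_ball_self hr)
    exact this
  rw [hL0, neg_zero, Complex.exp_zero, mul_one] at hconst
  rw [← hconst, mul_assoc, ← Complex.exp_add, neg_add_cancel, Complex.exp_zero, mul_one]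

end LG2_

open LG2_ in
/-- CHN-LG2. -/
theorem p_LG2 : T_LG2 := by
  refine ⟨64, by norm_num, ?_⟩
  intro F r B hF hr hB hz z hzr
  obtain ⟨L, hL0, hL, hLF⟩ := exists_log F r hF hr hz
  have hF0 : F 0 ≠ 0 := hz 0 (by simpa using hr)
  have hF0' : 0 < ‖F 0‖ := norm_pos_iff.2 hF0
  set A : ℝ := B - Real.log ‖F 0‖ with hA
  have hre : ∀ w ∈ ball (0 : ℂ) r, (L w).re ≤ A := by
    intro w hw
    have h1 : ‖F w‖ ≤ Real.exp B := hB w (le_of_lt (by simpa using hw))
    rw [hLF w hw, norm_mul, Complex.norm_exp] at h1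
    have h2 : Real.log (‖F 0‖ * Real.exp (L w).re) ≤ B := by
      rw [Real.log_le_iff_le_exp (by positivity)]
      exact h1
    rw [Real.log_mul hF0'.ne' (Real.exp_pos _).ne', Real.log_exp] at h2
    linarith
  have hA0 : 0 ≤ A := by
    have := hre 0 (mem_ball_self hr)
    rwa [hL0, Complex.zero_re] at this
  have hM : 0 < A + 1 := by linarith
  have hLd : DifferentiableOn ℂ L (ball 0 r) := fun w hw =>
    (hL w hw).differentiableAt.differentiableWithinAt
  have hbc : ∀ w : ℂ, ‖w‖ ≤ r / 2 → ‖L w‖ ≤ 2 * (A + 1) := by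
    intro w hw
    have hw' : w ∈ ball (0 : ℂ) r := by
      rw [mem_ball_zero_iff]
      linarith
    have h1 := Complex.borelCaratheodory_zero hM hLd
      (fun x hx => by
        show (L x).re ≤ A + 1
        linarith [hre x hx]) hr hw' hL0
    refine h1.trans ?_
    rw [div_le_iff₀ (by linarith)]
    have : ‖w‖ ≤ r - ‖w‖ := by linarith
    nlinarith
  have hsub : closedBall z (r / 4) ⊆ ball (0 : ℂ) r := by
    intro w hw
    rw [mem_closedBall, dist_eq_norm] at hw
    rw [mem_ball_zero_iff]
    have : ‖w‖ ≤ ‖w - z‖ + ‖z‖ := by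
      simpa using norm_add_le (w - z) z
    linarith
  have hdc : DiffContOnCl ℂ L (ball z (r / 4)) := by
    apply DifferentiableOn.diffContOnCl
    refine hLd.mono ?_
    exact (closure_ball_subset_closedBall).trans hsub
  have hc := Complex.norm_iteratedDeriv_le_of_forall_mem_sphere_norm_le (n := 2) (c := z)
    (R := r / 4) (C := 2 * (A + 1)) (by positivity) hdc (by
      intro w hw
      apply hbc
      have h1 : ‖w - z‖ = r / 4 := by simpa [dist_eq_norm] using hw
      have : ‖w‖ ≤ ‖w - z‖ + ‖z‖ := by
        simpa using norm_add_le (w - z) z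
      linarith)
  have hzb : z ∈ ball (0 : ℂ) r := by
    rw [mem_ball_zero_iff]
    linarith
  have hit : iteratedDeriv 2 L z = deriv (deriv F) z / F z - (deriv F z / F z) ^ 2 := by
    rw [iteratedDeriv_succ, iteratedDeriv_one]
    have h1 : deriv L =ᶠ[𝓝 z] fun w => deriv F w / F w := by
      filter_upwards [isOpen_ball.mem_nhds hzb] with w hw
      exact (hL w hw).deriv
    rw [h1.deriv_eq]
    have h2 : DifferentiableAt ℂ (deriv F) z := (hF.contDiff.differentiable_deriv_two).differentiableAt
    have hne : F z ≠ 0 := hz z (by simpa using hzb)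
    have h3 := (h2.hasDerivAt.div (hF z).hasDerivAt hne).deriv
    have h4 : deriv (fun w => deriv F w / F w) z
        = (deriv (deriv F) z * F z - deriv F z * deriv F z) / F z ^ 2 := h3
    rw [h4]
    field_simp
  rw [hit] at hc
  refine hc.trans (le_of_eq ?_)
  have : (Nat.factorial 2 : ℝ) = 2 := by norm_num [Nat.factorial]
  rw [this]
  field_simp
  ring

end Pool.Agent.CHN
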