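import Pool.Agent.CHN.Targets
import Mathlib.Analysis.Calculus.FDeriv.Partial

/-!
# CHN, target MVP: the mean value property of the martingale function
-/

set_option autoImplicit false

open MeasureTheory ProbabilityTheory Filter Topology Set
open scoped NNReal

namespace Pool.Agent.CHN

private theorem MVP_chain (F Fa Fx : ℝ → ℝ → ℝ)
    (hFa : ∀ a x, HasDerivAt (fun a => F a x) (Fa a x) a)
    (hFx : ∀ a x, HasDerivAt (F a) (Fx a x) x)
    (hca : Continuous fun p : ℝ × ℝ => Fa p.1 p.2) (hcx : Continuous fun p : ℝ × ℝ => Fx p.1 p.2)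
    (α ξ : ℝ → ℝ) (α' ξ' s : ℝ) (hα : HasDerivAt α α' s) (hξ : HasDerivAt ξ ξ' s) :
    HasDerivAt (fun s => F (α s) (ξ s)) (Fa (α s) (ξ s) * α' + Fx (α s) (ξ s) * ξ') s := by
  have hst := hasStrictFDerivAt_uncurry_coprod (𝕜 := ℝ) (u := (α s, ξ s)) (f := F)
    (f₁ := fun a x => (Fa a x) • ContinuousLinearMap.id ℝ ℝ)
    (f₂ := fun a x => (Fx a x) • ContinuousLinearMap.id ℝ ℝ)
    (Filter.Eventually.of_forall fun v => (hFa v.1 v.2).hasFDerivAt.congr_fderiv (by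
      ext; simp [Function.HasUncurry.uncurry]))
    (Filter.Eventually.of_forall fun v => (hFx v.1 v.2).hasFDerivAt.congr_fderiv (by
      ext; simp [Function.HasUncurry.uncurry]))
    (by
      have : Continuous fun p : ℝ × ℝ => (Fa p.1 p.2) • ContinuousLinearMap.id ℝ ℝ := by
        fun_prop
      exact this.continuousAt)
    (by
      have : Continuous fun p : ℝ × ℝ => (Fx p.1 p.2) • ContinuousLinearMap.id ℝ ℝ := by
        fun_prop
      exact this.continuousAt)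
  have h2 : HasDerivAt (fun s => (α s, ξ s)) (α', ξ') s := hα.prodMk hξ
  have h3 := hst.hasFDerivAt.comp_hasDerivAt s h2
  refine h3.congr_deriv ?_
  simp [Function.HasUncurry.uncurry, mul_comm]

private theorem MVP_bdR (hRBD : T_RBD) (K ε : ℝ) (hε : 0 < ε) :
    ∃ C : ℝ, 0 ≤ C ∧ ∀ A X : ℝ, |A| ≤ K → |R A X| ≤ C * Real.exp (ε * X ^ 2) ∧
      |R1 A X| ≤ C * Real.exp (ε * X ^ 2) := by
  obtain ⟨C0, hC0⟩ := hRBD (ε / 2) 0 (by positivity)
  have hC0' : 0 ≤ C0 := by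
    have h := (abs_nonneg _).trans (hC0 0 0 0)
    simpa using h
  by_cases hK : 0 ≤ K
  swap
  · exact ⟨0, le_rfl, fun A X hA => absurd ((abs_nonneg A).trans hA) hK⟩
  set D : ℝ := Real.exp (K ^ 2 / (2 * ε) + K ^ 3 / 3) with hD
  have hD0 : 0 < D := Real.exp_pos _
  refine ⟨D * C0 * (K + 1), by positivity, fun A X hA => ?_⟩
  have hexp : Real.exp (A * X - A ^ 3 / 3) ≤ D * Real.exp (ε / 2 * X ^ 2) := by
    rw [hD, ← Real.exp_add]
    refine Real.exp_le_exp.2 ?_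
    have h1 : A * X ≤ K * |X| := by
      calc A * X ≤ |A * X| := le_abs_self _
        _ = |A| * |X| := abs_mul _ _
        _ ≤ K * |X| := mul_le_mul_of_nonneg_right hA (abs_nonneg _)
    have h2 : K * |X| ≤ ε / 2 * X ^ 2 + K ^ 2 / (2 * ε) := by
      have h3 : 0 ≤ (ε * |X| - K) ^ 2 / (2 * ε) := by positivity
      have h4 : (ε * |X| - K) ^ 2 / (2 * ε) = ε / 2 * X ^ 2 + K ^ 2 / (2 * ε) - K * |X| := by
        rw [← sq_abs X]
        field_simp
        ring
      linarith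
    have h5 : -(A ^ 3 / 3) ≤ K ^ 3 / 3 := by
      have h6 : |A ^ 3| ≤ K ^ 3 := by
        rw [abs_pow]
        exact pow_le_pow_left₀ (abs_nonneg _) hA 3
      have h7 := (abs_le.1 h6).1
      linarith
    linarith
  have he2 : Real.exp (ε / 2 * X ^ 2) * Real.exp (ε / 2 * X ^ 2) = Real.exp (ε * X ^ 2) := by
    rw [← Real.exp_add]; congr 1; ring
  have hr0 := hC0 0 A X
  have hr1 := hC0 1 A X
  have hE0 : 0 ≤ Real.exp (ε / 2 * X ^ 2) := (Real.exp_pos _).le
  constructor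
  · unfold R
    rw [abs_mul, abs_of_pos (Real.exp_pos _)]
    calc Real.exp (A * X - A ^ 3 / 3) * |r 0 0 A X|
        ≤ (D * Real.exp (ε / 2 * X ^ 2)) * (C0 * Real.exp (ε / 2 * X ^ 2)) :=
          mul_le_mul hexp hr0 (abs_nonneg _) (by positivity)
      _ = D * C0 * 1 * (Real.exp (ε / 2 * X ^ 2) * Real.exp (ε / 2 * X ^ 2)) := by ring
      _ = D * C0 * 1 * Real.exp (ε * X ^ 2) := by rw [he2]
      _ ≤ D * C0 * (K + 1) * Real.exp (ε * X ^ 2) := by
          refine mul_le_mul_of_nonneg_right ?_ (Real.exp_pos _).le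
          refine mul_le_mul_of_nonneg_left (by linarith) (by positivity)
  · unfold R1
    rw [abs_mul, abs_of_pos (Real.exp_pos _)]
    have h8 : |A * r 0 0 A X + r 1 0 A X| ≤ (K + 1) * (C0 * Real.exp (ε / 2 * X ^ 2)) := by
      calc |A * r 0 0 A X + r 1 0 A X| ≤ |A * r 0 0 A X| + |r 1 0 A X| := abs_add_le _ _
        _ = |A| * |r 0 0 A X| + |r 1 0 A X| := by rw [abs_mul]
        _ ≤ K * (C0 * Real.exp (ε / 2 * X ^ 2)) + C0 * Real.exp (ε / 2 * X ^ 2) :=
            add_le_add (mul_le_mul hA hr0 (abs_nonneg _) hK) hr1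
        _ = _ := by ring
    calc Real.exp (A * X - A ^ 3 / 3) * |A * r 0 0 A X + r 1 0 A X|
        ≤ (D * Real.exp (ε / 2 * X ^ 2)) * ((K + 1) * (C0 * Real.exp (ε / 2 * X ^ 2))) :=
          mul_le_mul hexp h8 (abs_nonneg _) (by positivity)
      _ = D * C0 * (K + 1) * (Real.exp (ε / 2 * X ^ 2) * Real.exp (ε / 2 * X ^ 2)) := by ring
      _ = D * C0 * (K + 1) * Real.exp (ε * X ^ 2) := by rw [he2]

private theorem MVP_bdQ (hRBD : T_RBD) (K ε : ℝ) (hε : 0 < ε) :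
    ∃ C : ℝ, 0 ≤ C ∧ ∀ A X : ℝ, |A| ≤ K → |Q A X| ≤ C * Real.exp (ε * X ^ 2) := by
  obtain ⟨C, hC, hb⟩ := MVP_bdR hRBD K (ε / 2) (by positivity)
  refine ⟨C * (1 + 2 / ε), by positivity, fun A X hA => ?_⟩
  have h1 : ‖∫ z in (0 : ℝ)..X, R A z‖ ≤ (C * Real.exp (ε / 2 * X ^ 2)) * |X - 0| := by
    refine intervalIntegral.norm_integral_le_of_norm_le_const fun z hz => ?_
    refine ((hb A z hA).1).trans ?_
    refine mul_le_mul_of_nonneg_left (Real.exp_le_exp.2 ?_) hC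
    have h2 : z ^ 2 ≤ X ^ 2 := by
      rw [sq_le_sq]
      rcases le_total 0 X with hX | hX
      · rw [uIoc_of_le hX] at hz
        rw [abs_of_pos hz.1, abs_of_nonneg hX]
        exact hz.2
      · rw [uIoc_of_ge hX] at hz
        rw [abs_of_nonpos hz.2, abs_of_nonpos hX]
        linarith [hz.1]
    have : 0 < ε / 2 := by positivity
    nlinarith
  have h3 : |X| ≤ (1 + 2 / ε) * Real.exp (ε / 2 * X ^ 2) := by
    have h4 : ε / 2 * X ^ 2 + 1 ≤ Real.exp (ε / 2 * X ^ 2) := Real.add_one_le_exp _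
    have h5 : |X| ≤ (1 + 2 / ε) * (ε / 2 * X ^ 2 + 1) := by
      have h6 : (1 + 2 / ε) * (ε / 2 * X ^ 2 + 1) = 1 + X ^ 2 + ε / 2 * X ^ 2 + 2 / ε := by
        field_simp
        ring
      rw [h6]
      have h7 : |X| ≤ 1 + X ^ 2 := by
        rw [← sq_abs X]
        nlinarith [sq_nonneg (|X| - 1), abs_nonneg X]
      have h8 : 0 ≤ ε / 2 * X ^ 2 := by positivity
      have h9 : 0 ≤ 2 / ε := by positivity
      linarith
    exact h5.trans (mul_le_mul_of_nonneg_left h4 (by positivity))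
  have h10 : |Q A X| ≤ (C * Real.exp (ε / 2 * X ^ 2)) * |X| := by
    have h11 := h1
    rw [sub_zero, Real.norm_eq_abs] at h11
    exact h11
  calc |Q A X| ≤ (C * Real.exp (ε / 2 * X ^ 2)) * |X| := h10
    _ ≤ (C * Real.exp (ε / 2 * X ^ 2)) * ((1 + 2 / ε) * Real.exp (ε / 2 * X ^ 2)) :=
        mul_le_mul_of_nonneg_left h3 (by positivity)
    _ = C * (1 + 2 / ε) * (Real.exp (ε / 2 * X ^ 2) * Real.exp (ε / 2 * X ^ 2)) := by ring
    _ = C * (1 + 2 / ε) * Real.exp (ε * X ^ 2) := by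
        rw [← Real.exp_add]; congr 2; ring

private theorem MVP_growth (hRBD : T_RBD) (a x s0 K ε : ℝ) (hε : 0 < ε) :
    ∃ C : ℝ, 0 ≤ C ∧ ∀ s z : ℝ, |s| ≤ K →
      |Q (a - (s0 + s)) (x + (s0 + s) ^ 2 - 2 * a * (s0 + s) - √2 * z)| ≤
        C * Real.exp (ε * z ^ 2) ∧
      |R (a - (s0 + s)) (x + (s0 + s) ^ 2 - 2 * a * (s0 + s) - √2 * z)| ≤
        C * Real.exp (ε * z ^ 2) ∧
      |R1 (a - (s0 + s)) (x + (s0 + s) ^ 2 - 2 * a * (s0 + s) - √2 * z)| ≤
        C * Real.exp (ε * z ^ 2) := by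
  have hε4 : 0 < ε / 4 := by positivity
  set KA : ℝ := |a| + |s0| + |K| with hKA
  obtain ⟨C1, hC1, h1⟩ := MVP_bdR hRBD KA (ε / 4) hε4
  obtain ⟨C2, hC2, h2⟩ := MVP_bdQ hRBD KA (ε / 4) hε4
  set c0 : ℝ := |x| + (|s0| + |K|) ^ 2 + 2 * |a| * (|s0| + |K|) with hc0
  set E : ℝ := Real.exp (ε / 4 * (2 * c0 ^ 2)) with hE
  have hE0 : 0 < E := Real.exp_pos _
  refine ⟨(C1 + C2) * E, by positivity, fun s z hs => ?_⟩
  have hsK : |s| ≤ |K| := hs.trans (le_abs_self K)
  have hss : |s0 + s| ≤ |s0| + |K| := (abs_add_le _ _).trans (by linarith)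
  have hA : |a - (s0 + s)| ≤ KA := by
    calc |a - (s0 + s)| ≤ |a| + |s0 + s| := abs_sub _ _
      _ ≤ |a| + (|s0| + |K|) := by linarith
      _ = KA := by rw [hKA]; ring
  set X : ℝ := x + (s0 + s) ^ 2 - 2 * a * (s0 + s) - √2 * z with hX
  have hc : |x + (s0 + s) ^ 2 - 2 * a * (s0 + s)| ≤ c0 := by
    calc |x + (s0 + s) ^ 2 - 2 * a * (s0 + s)|
        ≤ |x + (s0 + s) ^ 2| + |2 * a * (s0 + s)| := abs_sub _ _
      _ ≤ |x| + |(s0 + s) ^ 2| + |2 * a * (s0 + s)| := by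
          have := abs_add_le x ((s0 + s) ^ 2)
          linarith
      _ = |x| + |s0 + s| ^ 2 + 2 * |a| * |s0 + s| := by
          rw [abs_pow, abs_mul, abs_mul, abs_of_pos (two_pos : (0 : ℝ) < 2)]
      _ ≤ |x| + (|s0| + |K|) ^ 2 + 2 * |a| * (|s0| + |K|) := by
          have h3 : |s0 + s| ^ 2 ≤ (|s0| + |K|) ^ 2 := pow_le_pow_left₀ (abs_nonneg _) hss 2
          have h4 : 2 * |a| * |s0 + s| ≤ 2 * |a| * (|s0| + |K|) :=
            mul_le_mul_of_nonneg_left hss (by positivity)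
          linarith
  have hX2 : X ^ 2 ≤ 2 * c0 ^ 2 + 4 * z ^ 2 := by
    set y : ℝ := x + (s0 + s) ^ 2 - 2 * a * (s0 + s) with hy
    have h5 : y ^ 2 ≤ c0 ^ 2 := by
      rw [← sq_abs y]
      exact pow_le_pow_left₀ (abs_nonneg _) hc 2
    have h6 : X = y - √2 * z := by rw [hX]
    have h7 : (√2 : ℝ) ^ 2 = 2 := Real.sq_sqrt (by norm_num)
    have h8 : X ^ 2 + (y + √2 * z) ^ 2 = 2 * y ^ 2 + 4 * z ^ 2 := by
      rw [h6]
      linear_combination 2 * z ^ 2 * h7
    nlinarith [sq_nonneg (y + √2 * z)]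
  have hexp : Real.exp (ε / 4 * X ^ 2) ≤ E * Real.exp (ε * z ^ 2) := by
    rw [hE, ← Real.exp_add]
    refine Real.exp_le_exp.2 ?_
    have := mul_le_mul_of_nonneg_left hX2 hε4.le
    linarith
  obtain ⟨hR, hR1⟩ := h1 _ X hA
  have hQ := h2 _ X hA
  have hEz : 0 ≤ E * Real.exp (ε * z ^ 2) := by positivity
  refine ⟨hQ.trans ?_, hR.trans ?_, hR1.trans ?_⟩
  · calc C2 * Real.exp (ε / 4 * X ^ 2) ≤ C2 * (E * Real.exp (ε * z ^ 2)) :=
          mul_le_mul_of_nonneg_left hexp hC2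
      _ ≤ (C1 + C2) * (E * Real.exp (ε * z ^ 2)) :=
          mul_le_mul_of_nonneg_right (by linarith) hEz
      _ = _ := by ring
  · calc C1 * Real.exp (ε / 4 * X ^ 2) ≤ C1 * (E * Real.exp (ε * z ^ 2)) :=
          mul_le_mul_of_nonneg_left hexp hC1
      _ ≤ (C1 + C2) * (E * Real.exp (ε * z ^ 2)) :=
          mul_le_mul_of_nonneg_right (by linarith) hEz
      _ = _ := by ring
  · calc C1 * Real.exp (ε / 4 * X ^ 2) ≤ C1 * (E * Real.exp (ε * z ^ 2)) :=
          mul_le_mul_of_nonneg_left hexp hC1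
      _ ≤ (C1 + C2) * (E * Real.exp (ε * z ^ 2)) :=
          mul_le_mul_of_nonneg_right (by linarith) hEz
      _ = _ := by ring

private theorem MVP_gauss (v : ℝ≥0) (hv : v ≠ 0) :
    Integrable (fun z : ℝ => Real.exp (z ^ 2 / (4 * v))) (gaussianReal 0 v) := by
  have hv' : (0 : ℝ) < v := by
    exact_mod_cast pos_iff_ne_zero.2 hv
  rw [gaussianReal_of_var_ne_zero 0 hv]
  rw [integrable_withDensity_iff_integrable_smul' (measurable_gaussianPDF 0 v)
    (Filter.Eventually.of_forall fun z => gaussianPDF_lt_top)]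
  have h1 : (fun z : ℝ => (gaussianPDF 0 v z).toReal • Real.exp (z ^ 2 / (4 * v))) =
      fun z : ℝ => (√(2 * Real.pi * v))⁻¹ * Real.exp (-(1 / (4 * v)) * z ^ 2) := by
    funext z
    rw [toReal_gaussianPDF, gaussianPDFReal, smul_eq_mul, mul_assoc, ← Real.exp_add]
    congr 2
    field_simp
    ring
  rw [h1]
  exact (integrable_exp_neg_mul_sq (by positivity)).const_mul _

private theorem MVP_cont (hQc : Continuous fun p : ℝ × ℝ => Q p.1 p.2) (a x : ℝ) :
    Continuous fun p : ℝ≥0 × ℝ => M a x p.1 p.2 := by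
  unfold M
  have h1 : Continuous fun p : ℝ≥0 × ℝ =>
      ((a - (p.1 : ℝ), x + (p.1 : ℝ) ^ 2 - 2 * a * (p.1 : ℝ) - √2 * p.2) : ℝ × ℝ) := by
    fun_prop
  exact hQc.comp h1

private theorem MVP_int (hQc : Continuous fun p : ℝ × ℝ => Q p.1 p.2) (hRBD : T_RBD)
    (a x : ℝ) (s v : ℝ≥0) : Integrable (fun z => (M a x s z) ^ 2) (gaussianReal 0 v) := by
  have hMc : Continuous fun z : ℝ => M a x s z := by
    have h1 : Continuous fun z : ℝ =>
        ((a - (s : ℝ), x + (s : ℝ) ^ 2 - 2 * a * (s : ℝ) - √2 * z) : ℝ × ℝ) := by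
      fun_prop
    unfold M
    exact hQc.comp h1
  by_cases hv : v = 0
  · subst hv
    rw [gaussianReal_zero_var]
    exact integrable_dirac (by simp)
  · have hv' : (0 : ℝ) < v := by
      exact_mod_cast pos_iff_ne_zero.2 hv
    obtain ⟨C, hC, hb⟩ := MVP_growth hRBD a x s 0 (1 / (8 * v)) (by positivity)
    refine ((MVP_gauss v hv).const_mul (C ^ 2)).mono' (hMc.pow 2).aestronglyMeasurable ?_
    refine Filter.Eventually.of_forall fun z => ?_
    obtain ⟨h1, -, -⟩ := hb 0 z (by simp)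
    rw [add_zero] at h1
    rw [norm_pow, Real.norm_eq_abs]
    calc |M a x s z| ^ 2 ≤ (C * Real.exp (1 / (8 * v) * z ^ 2)) ^ 2 :=
          pow_le_pow_left₀ (abs_nonneg _) h1 2
      _ = C ^ 2 * (Real.exp (1 / (8 * v) * z ^ 2) * Real.exp (1 / (8 * v) * z ^ 2)) := by ring
      _ = C ^ 2 * Real.exp (z ^ 2 / (4 * v)) := by
          rw [← Real.exp_add]
          congr 2
          field_simp
          ring

theorem p_MVP (hDYN : T_DYN) (hQPD : T_QPD) (hRBD : T_RBD) : T_MVP := by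
  obtain ⟨hQx, hRx, _, _, hQa, hQc, hRc, hR1c, _⟩ := hQPD
  intro a x
  refine ⟨?_, ?_, MVP_cont hQc a x⟩
  · intro s h z
    set Hf : ℝ → ℝ → ℝ := fun s' z =>
      Q (a - ((s : ℝ) + s')) (x + ((s : ℝ) + s') ^ 2 - 2 * a * ((s : ℝ) + s') - √2 * z) with hHf
    set Rf : ℝ → ℝ → ℝ := fun s' z =>
      R (a - ((s : ℝ) + s')) (x + ((s : ℝ) + s') ^ 2 - 2 * a * ((s : ℝ) + s') - √2 * z) with hRf
    set R1f : ℝ → ℝ → ℝ := fun s' z =>
      R1 (a - ((s : ℝ) + s')) (x + ((s : ℝ) + s') ^ 2 - 2 * a * ((s : ℝ) + s') - √2 * z) with hR1f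
    have hmap : Continuous fun p : ℝ × ℝ =>
        ((a - ((s : ℝ) + p.1), x + ((s : ℝ) + p.1) ^ 2 - 2 * a * ((s : ℝ) + p.1) - √2 * p.2) :
          ℝ × ℝ) := by
      fun_prop
    have hX : ∀ s' z : ℝ, HasDerivAt
        (fun z => x + ((s : ℝ) + s') ^ 2 - 2 * a * ((s : ℝ) + s') - √2 * z) (-√2) z := by
      intro s' z
      have h1 := ((hasDerivAt_id z).const_mul (√2)).const_sub
        (x + ((s : ℝ) + s') ^ 2 - 2 * a * ((s : ℝ) + s'))
      simpa using h1
    have key := hDYN Hf (fun s' z => -R1f s' z) (fun s' z => -√2 * Rf s' z)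
      (fun s' z => 2 * R1f s' z) ?_ ?_ ?_ (hQc.comp hmap) (hR1c.comp hmap).neg
      ((hRc.comp hmap).const_mul (-√2)) ((hR1c.comp hmap).const_mul 2) ?_ ?_ h z
    · have h1 : (fun ζ => M a x ((s + h : ℝ≥0) : ℝ) (z + ζ)) = fun ζ => Hf h (z + ζ) := by
        funext ζ
        simp only [M, hHf, NNReal.coe_add]
      rw [h1, key]
      simp only [M, hHf, add_zero]
    · intro s' z
      have hα : HasDerivAt (fun s' : ℝ => a - ((s : ℝ) + s')) (-1) s' := by
        have h1 := ((hasDerivAt_id s').const_add (s : ℝ)).const_sub a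
        simpa using h1
      have hξ : HasDerivAt (fun s' : ℝ => x + ((s : ℝ) + s') ^ 2 - 2 * a * ((s : ℝ) + s') - √2 * z)
          (2 * ((s : ℝ) + s') - 2 * a) s' := by
        have h1 : HasDerivAt (fun s' : ℝ => (s : ℝ) + s') 1 s' := by
          simpa using (hasDerivAt_id s').const_add (s : ℝ)
        have h2 := (((h1.pow 2).const_add x).sub (h1.const_mul (2 * a))).sub_const (√2 * z)
        refine h2.congr_deriv ?_
        push_cast
        ring
      have h1 := MVP_chain Q (fun a x => R1 a x - 2 * a * R a x) R hQa hQx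
        (hR1c.sub ((continuous_const.mul continuous_fst).mul hRc)) hRc _ _ _ _ s' hα hξ
      refine h1.congr_deriv ?_
      simp only [hR1f]
      ring
    · intro s' z
      have h1 := (hQx (a - ((s : ℝ) + s'))
        (x + ((s : ℝ) + s') ^ 2 - 2 * a * ((s : ℝ) + s') - √2 * z)).comp z (hX s' z)
      refine h1.congr_deriv ?_
      simp only [hRf]
      ring
    · intro s' z
      have h1 := ((hRx (a - ((s : ℝ) + s'))
        (x + ((s : ℝ) + s') ^ 2 - 2 * a * ((s : ℝ) + s') - √2 * z)).comp z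
          (hX s' z)).const_mul (-√2)
      refine h1.congr_deriv ?_
      have h2 : (√2 : ℝ) * √2 = 2 := Real.mul_self_sqrt (by norm_num)
      simp only [hR1f]
      linear_combination (R1 (a - ((s : ℝ) + s'))
        (x + ((s : ℝ) + s') ^ 2 - 2 * a * ((s : ℝ) + s') - √2 * z)) * h2
    · intro s' z
      ring
    · intro K ε hε
      obtain ⟨C, hC, hb⟩ := MVP_growth hRBD a x s K ε hε
      refine ⟨2 * C, fun s' z hs => ?_⟩
      obtain ⟨h1, h2, h3⟩ := hb s' z hs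
      have hp : 0 ≤ C * Real.exp (ε * z ^ 2) := by positivity
      have hs2 : (√2 : ℝ) ≤ 2 := by
        rw [Real.sqrt_le_left (by norm_num)]
        norm_num
      refine ⟨?_, ?_, ?_, ?_⟩
      · calc |Hf s' z| ≤ C * Real.exp (ε * z ^ 2) := h1
          _ ≤ 2 * C * Real.exp (ε * z ^ 2) := by linarith
      · rw [abs_neg]
        calc |R1f s' z| ≤ C * Real.exp (ε * z ^ 2) := h3
          _ ≤ 2 * C * Real.exp (ε * z ^ 2) := by linarith
      · rw [abs_mul, abs_neg, abs_of_nonneg (Real.sqrt_nonneg 2)]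
        calc √2 * |Rf s' z| ≤ 2 * (C * Real.exp (ε * z ^ 2)) :=
              mul_le_mul hs2 h2 (abs_nonneg _) (by norm_num)
          _ = 2 * C * Real.exp (ε * z ^ 2) := by ring
      · rw [abs_mul, abs_of_pos (two_pos : (0 : ℝ) < 2)]
        calc 2 * |R1f s' z| ≤ 2 * (C * Real.exp (ε * z ^ 2)) :=
              mul_le_mul_of_nonneg_left h3 (by norm_num)
          _ = 2 * C * Real.exp (ε * z ^ 2) := by ring
  · intro s v
    exact MVP_int hQc hRBD a x s v

end Pool.Agent.CHN
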