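import Pool.Agent.CHN.Targets

/-!
# MP_0e7bd3_pr (project CHN): the approximants, target `T_PAP` (helper89)
-/

set_option autoImplicit false

open MeasureTheory ProbabilityTheory Filter Topology Set
open scoped NNReal

namespace Pool.Agent.CHN

namespace PAP_

/-- the integrand of the approximants -/
noncomputable def it (a : ℕ → ℝ) (ε β : ℝ) (n j : ℕ) (x y : ℝ) : ℂ :=
  (Complex.I * y) ^ j * Complex.exp (Complex.I * y * (x + β)) *
    Complex.exp (-(ε * y ^ 2 / 2)) / ∏ k ∈ Finset.range n, (1 + Complex.I * y / (a k : ℂ))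

theorem one_le_fac (c y : ℝ) : 1 ≤ ‖(1 : ℂ) + Complex.I * y / (c : ℂ)‖ := by
  have h1 : ((1 : ℂ) + Complex.I * y / (c : ℂ)).re = 1 := by
    have h2 : Complex.I * y / (c : ℂ) = ((y / c : ℝ) : ℂ) * Complex.I := by
      push_cast
      ring
    rw [h2]
    simp
  have h3 := Complex.abs_re_le_norm ((1 : ℂ) + Complex.I * y / (c : ℂ))
  rw [h1, abs_one] at h3
  exact h3

theorem fac_ne (c y : ℝ) : (1 : ℂ) + Complex.I * y / (c : ℂ) ≠ 0 := by
  intro h
  have h1 := one_le_fac c y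
  rw [h, norm_zero] at h1
  linarith

theorem one_le_den (a : ℕ → ℝ) (n : ℕ) (y : ℝ) :
    1 ≤ ‖∏ k ∈ Finset.range n, ((1 : ℂ) + Complex.I * y / (a k : ℂ))‖ := by
  induction n with
  | zero => simp
  | succ n ih =>
    rw [Finset.prod_range_succ, norm_mul]
    nlinarith [one_le_fac (a n) y]

theorem den_ne (a : ℕ → ℝ) (n : ℕ) (y : ℝ) :
    ∏ k ∈ Finset.range n, ((1 : ℂ) + Complex.I * y / (a k : ℂ)) ≠ 0 :=
  Finset.prod_ne_zero_iff.2 fun k _ => fac_ne (a k) y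

theorem norm_it_le (a : ℕ → ℝ) (ε β : ℝ) (n j : ℕ) (x y : ℝ) :
    ‖it a ε β n j x y‖ ≤ ‖y ^ j * Real.exp (-(ε / 2) * y ^ 2)‖ := by
  have h1 : ‖Complex.exp (Complex.I * y * (x + β))‖ = 1 := by
    rw [Complex.norm_exp]
    have : (Complex.I * y * ((x : ℂ) + β)).re = 0 := by
      have h2 : Complex.I * y * ((x : ℂ) + β) = ((y * (x + β) : ℝ) : ℂ) * Complex.I := by
        push_cast
        ring
      rw [h2]
      simp
    rw [this, Real.exp_zero]
  have h2 : ‖Complex.exp (-(ε * (y : ℂ) ^ 2 / 2))‖ = Real.exp (-(ε / 2) * y ^ 2) := by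
    rw [Complex.norm_exp]
    congr 1
    have h3 : (-((ε : ℂ) * (y : ℂ) ^ 2 / 2)) = ((-(ε / 2) * y ^ 2 : ℝ) : ℂ) := by
      push_cast
      ring
    rw [h3, Complex.ofReal_re]
  have h4 : ‖(Complex.I * (y : ℂ)) ^ j‖ = |y| ^ j := by
    rw [norm_pow, norm_mul, Complex.norm_I, one_mul, Complex.norm_real, Real.norm_eq_abs]
  unfold it
  rw [norm_div, norm_mul, norm_mul, h1, h2, h4, norm_mul, norm_pow, Real.norm_eq_abs,
    Real.norm_eq_abs, Real.abs_exp, mul_one]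
  exact div_le_self (by positivity) (one_le_den a n y)

theorem cont_it (a : ℕ → ℝ) (ε β : ℝ) (n j : ℕ) (x : ℝ) : Continuous (it a ε β n j x) := by
  unfold it
  refine Continuous.div (by fun_prop) ?_ (fun y => den_ne a n y)
  exact continuous_finsetProd _ fun k _ => by fun_prop

theorem int_bd {ε : ℝ} (hε : 0 < ε) (j : ℕ) :
    Integrable (fun y : ℝ => y ^ j * Real.exp (-(ε / 2) * y ^ 2)) := by
  have h := integrable_rpow_mul_exp_neg_mul_sq (b := ε / 2) (by linarith) (s := (j : ℝ))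
    (by have : (0 : ℝ) ≤ j := Nat.cast_nonneg j
        linarith)
  simpa only [Real.rpow_natCast] using h

theorem int_it (a : ℕ → ℝ) {ε : ℝ} (hε : 0 < ε) (β : ℝ) (n j : ℕ) (x : ℝ) :
    Integrable (it a ε β n j x) :=
  (int_bd hε j).mono (cont_it a ε β n j x).aestronglyMeasurable
    (Eventually.of_forall fun y => norm_it_le a ε β n j x y)

theorem deriv_it (a : ℕ → ℝ) (ε β : ℝ) (n j : ℕ) (x y : ℝ) :
    HasDerivAt (fun x => it a ε β n j x y) (it a ε β n (j + 1) x y) x := by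
  have h0 : HasDerivAt (fun x : ℝ => Complex.I * (y : ℂ) * ((x : ℂ) + β)) (Complex.I * y) x := by
    have h := ((Complex.ofRealCLM.hasDerivAt (x := x)).add_const (β : ℂ)).const_mul
      (Complex.I * (y : ℂ))
    simpa using h
  have h1 := h0.cexp
  have h2 := (((h1.const_mul ((Complex.I * (y : ℂ)) ^ j)).mul_const
    (Complex.exp (-(ε * (y : ℂ) ^ 2 / 2)))).div_const
    (∏ k ∈ Finset.range n, ((1 : ℂ) + Complex.I * y / (a k : ℂ))))
  unfold it
  refine h2.congr_deriv ?_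
  rw [pow_succ]
  ring

/-- the complex approximants without the factor -/
noncomputable def apC (a : ℕ → ℝ) (ε β : ℝ) (n j : ℕ) (x : ℝ) : ℂ := ∫ y : ℝ, it a ε β n j x y

theorem ap_eq (a : ℕ → ℝ) (ε β : ℝ) (n j : ℕ) (x : ℝ) :
    ap a ε β n j x = ((1 / (2 * Real.pi) : ℂ) * apC a ε β n j x).re := rfl

theorem deriv_apC (a : ℕ → ℝ) {ε : ℝ} (hε : 0 < ε) (β : ℝ) (n j : ℕ) (x : ℝ) :
    HasDerivAt (fun x => apC a ε β n j x) (apC a ε β n (j + 1) x) x := by
  have h := hasDerivAt_integral_of_dominated_loc_of_deriv_le (μ := volume) (𝕜 := ℝ)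
    (F := fun x y => it a ε β n j x y) (F' := fun x y => it a ε β n (j + 1) x y) (x₀ := x)
    (s := Set.univ) (bound := fun y => ‖y ^ (j + 1) * Real.exp (-(ε / 2) * y ^ 2)‖) univ_mem
    (Eventually.of_forall fun x => (cont_it a ε β n j x).aestronglyMeasurable)
    (int_it a hε β n j x) (cont_it a ε β n (j + 1) x).aestronglyMeasurable
    (Eventually.of_forall fun y x _ => norm_it_le a ε β n (j + 1) x y)
    (int_bd hε (j + 1)).norm
    (Eventually.of_forall fun y x _ => deriv_it a ε β n j x y)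
  exact h.2

theorem deriv_ap (a : ℕ → ℝ) {ε : ℝ} (hε : 0 < ε) (β : ℝ) (n j : ℕ) (x : ℝ) :
    HasDerivAt (ap a ε β n j) (ap a ε β n (j + 1) x) x := by
  have h := (deriv_apC a hε β n j x).const_mul (1 / (2 * Real.pi) : ℂ)
  exact Complex.reCLM.hasFDerivAt.comp_hasDerivAt x h

theorem it_succ {a : ℕ → ℝ} (ha : ∀ k, 0 < a k) (ε β : ℝ) (n j : ℕ) (x y : ℝ) :
    it a ε β (n + 1) (j + 1) x y =
      (a n : ℂ) * (it a ε β n j x y - it a ε β (n + 1) j x y) := by
  have h1 : (a n : ℂ) ≠ 0 := Complex.ofReal_ne_zero.2 (ha n).ne'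
  have h2 := fac_ne (a n) y
  have h3 := den_ne a n y
  have h4 : (a n : ℂ) * ((1 : ℂ) + Complex.I * y / (a n : ℂ)) = a n + Complex.I * y := by
    field_simp
  unfold it
  rw [Finset.prod_range_succ]
  generalize (∏ k ∈ Finset.range n, ((1 : ℂ) + Complex.I * y / (a k : ℂ))) = D at *
  generalize Complex.exp (Complex.I * y * (x + β)) = E1 at *
  generalize Complex.exp (-(ε * (y : ℂ) ^ 2 / 2)) = E2 at *
  generalize (1 : ℂ) + Complex.I * y / (a n : ℂ) = L at *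
  have h5 : Complex.I * (y : ℂ) = a n * L - a n := by rw [h4]; ring
  rw [pow_succ]
  field_simp
  rw [h5]
  ring

theorem apC_succ {a : ℕ → ℝ} (ha : ∀ k, 0 < a k) {ε : ℝ} (hε : 0 < ε) (β : ℝ) (n j : ℕ)
    (x : ℝ) : apC a ε β (n + 1) (j + 1) x =
      (a n : ℂ) * (apC a ε β n j x - apC a ε β (n + 1) j x) := by
  unfold apC
  rw [← integral_sub (int_it a hε β n j x) (int_it a hε β (n + 1) j x), ← integral_const_mul]
  exact integral_congr_ae (Eventually.of_forall fun y => it_succ ha ε β n j x y)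

theorem ap_succ {a : ℕ → ℝ} (ha : ∀ k, 0 < a k) {ε : ℝ} (hε : 0 < ε) (β : ℝ) (n j : ℕ)
    (x : ℝ) : ap a ε β (n + 1) (j + 1) x = a n * (ap a ε β n j x - ap a ε β (n + 1) j x) := by
  rw [ap_eq, ap_eq, ap_eq, apC_succ ha hε β n j x]
  have : (1 / (2 * Real.pi) : ℂ) * ((a n : ℂ) * (apC a ε β n j x - apC a ε β (n + 1) j x)) =
      (a n : ℂ) * ((1 / (2 * Real.pi) : ℂ) * apC a ε β n j x -
        (1 / (2 * Real.pi) : ℂ) * apC a ε β (n + 1) j x) := by ring
  rw [this, Complex.re_ofReal_mul, Complex.sub_re]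

theorem bdd_ap (a : ℕ → ℝ) {ε : ℝ} (hε : 0 < ε) (β : ℝ) (n j : ℕ) :
    ∃ C : ℝ, ∀ x, |ap a ε β n j x| ≤ C := by
  refine ⟨‖(1 / (2 * Real.pi) : ℂ)‖ * ∫ y : ℝ, ‖y ^ j * Real.exp (-(ε / 2) * y ^ 2)‖,
    fun x => ?_⟩
  rw [ap_eq]
  refine (Complex.abs_re_le_norm _).trans ?_
  rw [norm_mul]
  refine mul_le_mul_of_nonneg_left ?_ (norm_nonneg _)
  exact norm_integral_le_of_norm_le (int_bd hε j).norm
    (Eventually.of_forall fun y => norm_it_le a ε β n j x y)

end PAP_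

open PAP_ in
theorem p_PAP (hPEE : T_PEE) (hPBA : T_PBA) : T_PAP := by
  intro a ha ε β n hε
  induction n with
  | zero =>
    exact ⟨fun c₀ c₁ c₂ c₃ h => (hPBA a ε β c₀ c₁ c₂ c₃ hε h).1,
      fun x => ((hPBA a ε β 0 0 0 1 hε one_pos).2 x).le⟩
  | succ n ih =>
    refine ⟨fun c₀ c₁ c₂ c₃ h3 hpat => ?_, fun x => ?_⟩
    · have hF : ∀ x, HasDerivAt (fun x => c₀ * ap a ε β (n + 1) 0 x + c₁ * ap a ε β (n + 1) 1 x +
          c₂ * ap a ε β (n + 1) 2 x + c₃ * ap a ε β (n + 1) 3 x)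
          (a n * ((c₀ * ap a ε β n 0 x + c₁ * ap a ε β n 1 x + c₂ * ap a ε β n 2 x +
            c₃ * ap a ε β n 3 x) - (c₀ * ap a ε β (n + 1) 0 x + c₁ * ap a ε β (n + 1) 1 x +
            c₂ * ap a ε β (n + 1) 2 x + c₃ * ap a ε β (n + 1) 3 x))) x := by
        intro x
        have h := ((((deriv_ap a hε β (n + 1) 0 x).const_mul c₀).add
          ((deriv_ap a hε β (n + 1) 1 x).const_mul c₁)).add
          ((deriv_ap a hε β (n + 1) 2 x).const_mul c₂)).add
          ((deriv_ap a hε β (n + 1) 3 x).const_mul c₃)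
        have e0 : ap a ε β (n + 1) 1 x = a n * (ap a ε β n 0 x - ap a ε β (n + 1) 0 x) :=
          ap_succ ha hε β n 0 x
        have e1 : ap a ε β (n + 1) 2 x = a n * (ap a ε β n 1 x - ap a ε β (n + 1) 1 x) :=
          ap_succ ha hε β n 1 x
        have e2 : ap a ε β (n + 1) 3 x = a n * (ap a ε β n 2 x - ap a ε β (n + 1) 2 x) :=
          ap_succ ha hε β n 2 x
        have e3 : ap a ε β (n + 1) 4 x = a n * (ap a ε β n 3 x - ap a ε β (n + 1) 3 x) :=
          ap_succ ha hε β n 3 x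
        refine h.congr_deriv ?_
        change c₀ * ap a ε β (n + 1) 1 x + c₁ * ap a ε β (n + 1) 2 x +
          c₂ * ap a ε β (n + 1) 3 x + c₃ * ap a ε β (n + 1) 4 x = _
        linear_combination c₀ * e0 + c₁ * e1 + c₂ * e2 + c₃ * e3
      obtain ⟨C0, h0⟩ := bdd_ap a hε β (n + 1) 0
      obtain ⟨C1, h1⟩ := bdd_ap a hε β (n + 1) 1
      obtain ⟨C2, h2⟩ := bdd_ap a hε β (n + 1) 2
      obtain ⟨C3, h4⟩ := bdd_ap a hε β (n + 1) 3
      have hb : ∃ C : ℝ, ∀ x, |c₀ * ap a ε β (n + 1) 0 x + c₁ * ap a ε β (n + 1) 1 x +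
          c₂ * ap a ε β (n + 1) 2 x + c₃ * ap a ε β (n + 1) 3 x| ≤ C := by
        refine ⟨|c₀| * C0 + |c₁| * C1 + |c₂| * C2 + |c₃| * C3, fun x => ?_⟩
        refine (abs_add_le _ _).trans (add_le_add ((abs_add_le _ _).trans
          (add_le_add ((abs_add_le _ _).trans (add_le_add ?_ ?_)) ?_)) ?_)
        · rw [abs_mul]
          exact mul_le_mul_of_nonneg_left (h0 x) (abs_nonneg _)
        · rw [abs_mul]
          exact mul_le_mul_of_nonneg_left (h1 x) (abs_nonneg _)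
        · rw [abs_mul]
          exact mul_le_mul_of_nonneg_left (h2 x) (abs_nonneg _)
        · rw [abs_mul]
          exact mul_le_mul_of_nonneg_left (h4 x) (abs_nonneg _)
      exact ih.1 c₀ c₁ c₂ c₃ h3 ((hPEE (a n) _ (fun x => c₀ * ap a ε β n 0 x +
        c₁ * ap a ε β n 1 x + c₂ * ap a ε β n 2 x + c₃ * ap a ε β n 3 x) (ha n) hF hb).1 hpat)
    · by_contra h
      push Not at h
      obtain ⟨x', hx'⟩ := (hPEE (a n) (ap a ε β (n + 1) 0) (ap a ε β n 0) (ha n)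
        (fun x => (deriv_ap a hε β (n + 1) 0 x).congr_deriv (ap_succ ha hε β n 0 x))
        (bdd_ap a hε β (n + 1) 0)).2 ⟨x, h⟩
      exact absurd (ih.2 x') (not_le.2 hx')

end Pool.Agent.CHN
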