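import Pool.Agent.CHN.Targets

/-!
# MP_0e7bd3_pr (project CHN): the excluded pattern (helper13)
-/

set_option autoImplicit false

open MeasureTheory ProbabilityTheory Filter Topology Set
open scoped NNReal

namespace Pool.Agent.CHN

open Pool.Agent.Freud (Airy Airy')

namespace PAT_

theorem pat_of_tendsto {ι : Type*} {l : Filter ι} {F : ℝ → ℝ} {G : ι → ℝ → ℝ}
    (h : ∀ x, Tendsto (fun i => G i x) l (𝓝 (F x))) (hF : Pat F) : ∀ᶠ i in l, Pat (G i) := by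
  obtain ⟨x₁, x₂, x₃, x₄, h12, h23, h34, h1, h2, h3, h4⟩ := hF
  filter_upwards [(h x₁).eventually_lt_const h1, (h x₂).eventually_const_lt h2,
    (h x₃).eventually_lt_const h3, (h x₄).eventually_const_lt h4] with i k1 k2 k3 k4
  exact ⟨x₁, x₂, x₃, x₄, h12, h23, h34, k1, k2, k3, k4⟩

theorem pat_mul {F : ℝ → ℝ} {c : ℝ} (hc : 0 < c) (hF : Pat F) : Pat (fun x => c * F x) := by
  obtain ⟨x₁, x₂, x₃, x₄, h12, h23, h34, h1, h2, h3, h4⟩ := hF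
  exact ⟨x₁, x₂, x₃, x₄, h12, h23, h34, mul_neg_of_pos_of_neg hc h1, mul_pos hc h2,
    mul_neg_of_pos_of_neg hc h3, mul_pos hc h4⟩

theorem airy_pos (hARE : T_ARE) : 0 < (Airy 0).re := by
  obtain ⟨c, C, hc, _, h⟩ := hARE
  obtain ⟨_, h1, _⟩ := h 0 le_rfl
  have h2 : 0 < c * Real.exp (-(2 / 3 * (0 : ℝ) ^ (3 / 2 : ℝ))) / (1 + 0) := by positivity
  have h3 := lt_of_lt_of_le h2 h1
  simpa using h3

end PAT_

open PAT_ in
theorem p_PAT (hPAP : T_PAP) (hPLM : T_PLM) (hAEN : T_AEN) (hARE : T_ARE) : T_PAT := by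
  obtain ⟨a, ha⟩ := hAEN
  obtain ⟨L, hL1, hL2⟩ := hPLM a ha
  have hA := airy_pos hARE
  have hpos : ∀ᶠ ε : ℝ in 𝓝[>] 0, 0 < ε := self_mem_nhdsWithin
  refine ⟨?_, ?_⟩
  · intro c₀ c₁ c₂ c₃ hc hP
    have h1 := pat_mul hA hP
    have h2 : ∀ x : ℝ, Tendsto (fun ε => c₀ * L ε 0 x + c₁ * L ε 1 x + c₂ * L ε 2 x + c₃ * L ε 3 x)
        (𝓝[>] 0) (𝓝 ((Airy 0).re * (c₀ * g 0 x + c₁ * g 1 x + c₂ * g 2 x + c₃ * g 3 x))) := by
      intro x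
      have := ((((hL2 0 x).const_mul c₀).add ((hL2 1 x).const_mul c₁)).add
        ((hL2 2 x).const_mul c₂)).add ((hL2 3 x).const_mul c₃)
      have e : (Airy 0).re * (c₀ * g 0 x + c₁ * g 1 x + c₂ * g 2 x + c₃ * g 3 x) =
          c₀ * ((Airy 0).re * g 0 x) + c₁ * ((Airy 0).re * g 1 x) +
            c₂ * ((Airy 0).re * g 2 x) + c₃ * ((Airy 0).re * g 3 x) := by ring
      rw [e]
      exact this
    obtain ⟨ε, hε, hε0⟩ := ((pat_of_tendsto h2 h1).and hpos).exists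
    have h3 : ∀ x : ℝ, Tendsto (fun n : ℕ =>
        c₀ * ap a ε (∑ k ∈ Finset.range n, 1 / a k - u0) n 0 x +
        c₁ * ap a ε (∑ k ∈ Finset.range n, 1 / a k - u0) n 1 x +
        c₂ * ap a ε (∑ k ∈ Finset.range n, 1 / a k - u0) n 2 x +
        c₃ * ap a ε (∑ k ∈ Finset.range n, 1 / a k - u0) n 3 x) atTop
        (𝓝 (c₀ * L ε 0 x + c₁ * L ε 1 x + c₂ * L ε 2 x + c₃ * L ε 3 x)) := fun x =>
      ((((hL1 ε 0 x hε0).const_mul c₀).add ((hL1 ε 1 x hε0).const_mul c₁)).add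
        ((hL1 ε 2 x hε0).const_mul c₂)).add ((hL1 ε 3 x hε0).const_mul c₃)
    obtain ⟨n, hn⟩ := (pat_of_tendsto h3 hε).exists
    exact (hPAP a ha.pos ε _ n hε0).1 c₀ c₁ c₂ c₃ hc hn
  · intro x
    have h1 : ∀ ε : ℝ, 0 < ε → 0 ≤ L ε 0 x := fun ε hε =>
      ge_of_tendsto' (hL1 ε 0 x hε) fun n => (hPAP a ha.pos ε _ n hε).2 x
    have h2 : 0 ≤ (Airy 0).re * g 0 x := ge_of_tendsto (hL2 0 x) (hpos.mono h1)
    exact nonneg_of_mul_nonneg_right h2 hA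

end Pool.Agent.CHN
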