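import Pool.Agent.CHN.Targets

set_option autoImplicit false

open MeasureTheory ProbabilityTheory Filter Topology Set

namespace Pool.Agent.CHN

namespace PBA_

/-- the integrand -/
noncomputable def G (ε : ℝ) (j : ℕ) (z : ℝ) (y : ℝ) : ℂ :=
  (Complex.I * y) ^ j * Complex.exp (Complex.I * y * z) * Complex.exp (-(ε * y ^ 2 / 2))

theorem G_cont (ε : ℝ) (j : ℕ) (z : ℝ) : Continuous (G ε j z) := by
  unfold G; fun_prop

theorem G_norm (ε : ℝ) (j : ℕ) (z y : ℝ) :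
    ‖G ε j z y‖ = ‖y ^ j * Real.exp (-(ε / 2) * y ^ 2)‖ := by
  unfold G
  rw [norm_mul, norm_mul, norm_mul, norm_pow, norm_pow, norm_mul, Complex.norm_I, one_mul]
  have h1 : ‖Complex.exp (Complex.I * y * z)‖ = 1 := by
    have : Complex.I * y * z = ((y * z : ℝ) : ℂ) * Complex.I := by push_cast; ring
    rw [this, Complex.norm_exp_ofReal_mul_I]
  have h2 : Complex.exp (-(ε * y ^ 2 / 2)) = ((Real.exp (-(ε / 2) * y ^ 2) : ℝ) : ℂ) := by
    push_cast
    congr 1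
    ring
  rw [h1, h2, mul_one, Complex.norm_real, Complex.norm_real]

theorem G_int {ε : ℝ} (hε : 0 < ε) (j : ℕ) (z : ℝ) : Integrable (G ε j z) := by
  have h1 : Integrable fun y : ℝ => y ^ (j : ℝ) * Real.exp (-(ε / 2) * y ^ 2) :=
    integrable_rpow_mul_exp_neg_mul_sq (by linarith)
      (lt_of_lt_of_le (by norm_num) (Nat.cast_nonneg j))
  refine h1.norm.mono' (G_cont ε j z).aestronglyMeasurable (Eventually.of_forall fun y => ?_)
  rw [G_norm, Real.rpow_natCast]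

theorem G_deriv (ε : ℝ) (j : ℕ) (z y : ℝ) :
    HasDerivAt (G ε j z)
      (Complex.I * (j * G ε (j - 1) z y + z * G ε j z y + ε * G ε (j + 1) z y)) y := by
  have h1 : HasDerivAt (fun y : ℂ => (Complex.I * y) ^ j)
      (j * (Complex.I * y) ^ (j - 1) * (Complex.I * 1)) (y : ℂ) :=
    ((hasDerivAt_id (y : ℂ)).const_mul Complex.I).pow j
  have h2 : HasDerivAt (fun y : ℂ => Complex.exp (Complex.I * y * z))
      (Complex.exp (Complex.I * y * z) * (Complex.I * 1 * z)) (y : ℂ) :=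
    (((hasDerivAt_id (y : ℂ)).const_mul Complex.I).mul_const (z : ℂ)).cexp
  have h3 : HasDerivAt (fun y : ℂ => Complex.exp (-(ε * y ^ 2 / 2)))
      (Complex.exp (-(ε * y ^ 2 / 2)) * (-(ε * (2 * y) / 2))) (y : ℂ) := by
    have := (((hasDerivAt_pow 2 (y : ℂ)).const_mul (ε : ℂ)).div_const 2).neg.cexp
    simpa using this
  have h4 := ((h1.mul h2).mul h3).comp_ofReal
  refine h4.congr_deriv ?_
  unfold G
  simp only [Pi.mul_apply]
  have hI : (ε : ℂ) * (y : ℂ) = -(Complex.I * (ε * (Complex.I * y))) := by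
    have := Complex.I_mul_I
    linear_combination ((ε : ℂ) * y) * this
  rw [pow_succ (Complex.I * (y : ℂ)) j]
  linear_combination (-(Complex.I * (y : ℂ)) ^ j * Complex.exp (Complex.I * y * z) *
    Complex.exp (-(ε * y ^ 2 / 2))) * hI

/-- the normalised integrals -/
noncomputable def J (ε : ℝ) (j : ℕ) (z : ℝ) : ℂ := ∫ y : ℝ, G ε j z y

theorem J_rec {ε : ℝ} (hε : 0 < ε) (j : ℕ) (z : ℝ) :
    j * J ε (j - 1) z + z * J ε j z + ε * J ε (j + 1) z = 0 := by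
  have i1 := (G_int hε (j - 1) z).const_mul (j : ℂ)
  have i2 := (G_int hε j z).const_mul (z : ℂ)
  have i3 := (G_int hε (j + 1) z).const_mul (ε : ℂ)
  have h1 := integral_eq_zero_of_hasDerivAt_of_integrable (G_deriv ε j z)
    (((i1.add i2).add i3).const_mul Complex.I) (G_int hε j z)
  have i12 : Integrable (fun y => (j : ℂ) * G ε (j - 1) z y + (z : ℂ) * G ε j z y) := i1.add i2
  rw [integral_const_mul, integral_add i12 i3, integral_add i1 i2,
    integral_const_mul, integral_const_mul, integral_const_mul] at h1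
  exact (mul_eq_zero.1 h1).resolve_left Complex.I_ne_zero

theorem J_zero {ε : ℝ} (hε : 0 < ε) (z : ℝ) :
    ∃ r : ℝ, 0 < r ∧ J ε 0 z = (r : ℂ) := by
  refine ⟨(Real.pi / (ε / 2)) ^ (1 / 2 : ℝ) * Real.exp (-z ^ 2 / (4 * (ε / 2))), ?_, ?_⟩
  · have := Real.pi_pos
    positivity
  · have h1 := fourierIntegral_gaussian (b := ((ε / 2 : ℝ) : ℂ))
      (by rw [Complex.ofReal_re]; linarith) (z : ℂ)
    unfold J G
    have h2 : (fun y : ℝ => (Complex.I * (y : ℂ)) ^ 0 * Complex.exp (Complex.I * y * z) *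
        Complex.exp (-(ε * y ^ 2 / 2))) = fun x : ℝ => Complex.exp (Complex.I * (z : ℂ) * x) *
          Complex.exp (-((ε / 2 : ℝ) : ℂ) * x ^ 2) := by
      funext y
      rw [pow_zero, one_mul]
      congr 2
      · ring
      · push_cast; ring
    rw [h2, h1]
    push_cast
    rw [Complex.ofReal_cpow (by have := Real.pi_pos; positivity)]
    push_cast
    rfl

/-- divided differences -/
theorem cubic (A B C k z1 z2 z3 z4 : ℝ) (hk : 0 < k) (h12 : z1 < z2) (h23 : z2 < z3)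
    (h34 : z3 < z4) (p : ℝ → ℝ) (hp : ∀ z, p z = A + B * z + C * z ^ 2 - k * z ^ 3)
    (h1 : p z1 < 0) (h2 : 0 < p z2) (h3 : p z3 < 0) (h4 : 0 < p z4) : False := by
  have a12 := sub_pos.2 h12
  have a23 := sub_pos.2 h23
  have a34 := sub_pos.2 h34
  have a13 := sub_pos.2 (h12.trans h23)
  have a24 := sub_pos.2 (h23.trans h34)
  have a14 := sub_pos.2 ((h12.trans h23).trans h34)
  have e : -(p z1) * ((z3 - z2) * (z4 - z2) * (z4 - z3)) +
      p z2 * ((z3 - z1) * (z4 - z1) * (z4 - z3)) +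
      -(p z3) * ((z2 - z1) * (z4 - z1) * (z4 - z2)) +
      p z4 * ((z2 - z1) * (z3 - z1) * (z3 - z2)) =
      -(k * ((z2 - z1) * (z3 - z1) * (z4 - z1) * (z3 - z2) * (z4 - z2) * (z4 - z3))) := by
    rw [hp, hp, hp, hp]
    ring
  have b1 : 0 < -(p z1) * ((z3 - z2) * (z4 - z2) * (z4 - z3)) :=
    mul_pos (neg_pos.2 h1) (by positivity)
  have b2 : 0 < p z2 * ((z3 - z1) * (z4 - z1) * (z4 - z3)) := mul_pos h2 (by positivity)
  have b3 : 0 < -(p z3) * ((z2 - z1) * (z4 - z1) * (z4 - z2)) :=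
    mul_pos (neg_pos.2 h3) (by positivity)
  have b4 : 0 < p z4 * ((z2 - z1) * (z3 - z1) * (z3 - z2)) := mul_pos h4 (by positivity)
  have b5 : 0 < k * ((z2 - z1) * (z3 - z1) * (z4 - z1) * (z3 - z2) * (z4 - z2) * (z4 - z3)) := by
    positivity
  linarith

theorem ap_eq (a : ℕ → ℝ) (ε β : ℝ) (j : ℕ) (x : ℝ) :
    ap a ε β 0 j x = ((1 / (2 * Real.pi) : ℂ) * J ε j (x + β)).re := by
  unfold ap J G
  simp only [Finset.range_zero, Finset.prod_empty, div_one]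
  push_cast
  rfl

/-- values of the approximants -/
theorem ap_val {ε : ℝ} (hε : 0 < ε) (z : ℝ) : ∃ r : ℝ, 0 < r ∧
    ((1 / (2 * Real.pi) : ℂ) * J ε 0 z).re = r ∧
    ((1 / (2 * Real.pi) : ℂ) * J ε 1 z).re = -(z / ε) * r ∧
    ((1 / (2 * Real.pi) : ℂ) * J ε 2 z).re = (z ^ 2 / ε ^ 2 - 1 / ε) * r ∧
    ((1 / (2 * Real.pi) : ℂ) * J ε 3 z).re = (-(z ^ 3 / ε ^ 3) + 3 * z / ε ^ 2) * r := by
  obtain ⟨r, hr, h0⟩ := J_zero hε z
  have hε' : (ε : ℂ) ≠ 0 := Complex.ofReal_ne_zero.2 hε.ne'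
  have r0 := J_rec hε 0 z
  have r1 := J_rec hε 1 z
  have r2 := J_rec hε 2 z
  norm_num at r0 r1 r2
  have h1 : J ε 1 z = ((-(z / ε) * r : ℝ) : ℂ) := by
    push_cast
    rw [h0] at r0
    field_simp
    linear_combination r0
  have h2 : J ε 2 z = (((z ^ 2 / ε ^ 2 - 1 / ε) * r : ℝ) : ℂ) := by
    rw [h0, h1] at r1
    push_cast at r1 ⊢
    field_simp at r1 ⊢
    linear_combination r1
  have h3 : J ε 3 z = (((-(z ^ 3 / ε ^ 3) + 3 * z / ε ^ 2) * r : ℝ) : ℂ) := by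
    rw [h1, h2] at r2
    push_cast at r2 ⊢
    field_simp at r2 ⊢
    linear_combination r2
  have hpi : (1 / (2 * Real.pi) : ℂ) = ((1 / (2 * Real.pi) : ℝ) : ℂ) := by push_cast; rfl
  refine ⟨1 / (2 * Real.pi) * r, by have := Real.pi_pos; positivity, ?_, ?_, ?_, ?_⟩
  · rw [h0, hpi, ← Complex.ofReal_mul, Complex.ofReal_re]
  · rw [h1, hpi, ← Complex.ofReal_mul, Complex.ofReal_re]; ring
  · rw [h2, hpi, ← Complex.ofReal_mul, Complex.ofReal_re]; ring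
  · rw [h3, hpi, ← Complex.ofReal_mul, Complex.ofReal_re]; ring

end PBA_

open PBA_ in
theorem p_PBA : T_PBA := by
  intro a ε β c₀ c₁ c₂ c₃ hε hc₃
  constructor
  · rintro ⟨x₁, x₂, x₃, x₄, h12, h23, h34, H1, H2, H3, H4⟩
    simp only [ap_eq] at H1 H2 H3 H4
    have key : ∀ x, ∃ r : ℝ, 0 < r ∧ c₀ * ((1 / (2 * Real.pi) : ℂ) * J ε 0 (x + β)).re +
        c₁ * ((1 / (2 * Real.pi) : ℂ) * J ε 1 (x + β)).re +
        c₂ * ((1 / (2 * Real.pi) : ℂ) * J ε 2 (x + β)).re +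
        c₃ * ((1 / (2 * Real.pi) : ℂ) * J ε 3 (x + β)).re =
        ((c₀ - c₂ / ε) + (-(c₁ / ε) + 3 * c₃ / ε ^ 2) * (x + β) + (c₂ / ε ^ 2) * (x + β) ^ 2 -
          (c₃ / ε ^ 3) * (x + β) ^ 3) * r := by
      intro x
      obtain ⟨r, hr, e0, e1, e2, e3⟩ := ap_val hε (x + β)
      refine ⟨r, hr, ?_⟩
      rw [e0, e1, e2, e3]
      ring
    obtain ⟨r1, p1, q1⟩ := key x₁
    obtain ⟨r2, p2, q2⟩ := key x₂
    obtain ⟨r3, p3, q3⟩ := key x₃
    obtain ⟨r4, p4, q4⟩ := key x₄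
    rw [q1] at H1
    rw [q2] at H2
    rw [q3] at H3
    rw [q4] at H4
    refine cubic (c₀ - c₂ / ε) (-(c₁ / ε) + 3 * c₃ / ε ^ 2) (c₂ / ε ^ 2) (c₃ / ε ^ 3)
      (x₁ + β) (x₂ + β) (x₃ + β) (x₄ + β) (by positivity) (by linarith) (by linarith)
      (by linarith) (fun z => (c₀ - c₂ / ε) + (-(c₁ / ε) + 3 * c₃ / ε ^ 2) * z +
        (c₂ / ε ^ 2) * z ^ 2 - (c₃ / ε ^ 3) * z ^ 3) (fun z => rfl) ?_ ?_ ?_ ?_
    · exact neg_of_mul_neg_left H1 p1.le
    · exact (mul_pos_iff_of_pos_right p2).1 H2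
    · exact neg_of_mul_neg_left H3 p3.le
    · exact (mul_pos_iff_of_pos_right p4).1 H4
  · intro x
    rw [ap_eq]
    obtain ⟨r, hr, e0, -⟩ := ap_val hε (x + β)
    rw [e0]
    exact hr

end Pool.Agent.CHN
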