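import Pool.Agent.CHN.Targets

/-!
# MP_0e7bd3_pr (project CHN): peeling off one exponential variable (`T_PEE`) (helper48)
-/

set_option autoImplicit false

open MeasureTheory ProbabilityTheory Filter Topology Set

namespace Pool.Agent.CHN

namespace PEE_

variable {b : ℝ} {F G : ℝ → ℝ}

/-- the derivative of `exp (b x) F x` -/
theorem deriv_H (hF : ∀ x, HasDerivAt F (b * (G x - F x)) x) (x : ℝ) :
    HasDerivAt (fun x => Real.exp (b * x) * F x) (b * Real.exp (b * x) * G x) x := by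
  have h1 : HasDerivAt (fun x : ℝ => Real.exp (b * x)) (Real.exp (b * x) * (b * 1)) x :=
    ((hasDerivAt_id x).const_mul b).exp
  have h2 := h1.mul (hF x)
  refine h2.congr_deriv ?_
  ring

theorem tendsto_H (hb : 0 < b) (hC : ∃ C : ℝ, ∀ x, |F x| ≤ C) :
    Tendsto (fun x => Real.exp (b * x) * F x) atBot (𝓝 0) := by
  obtain ⟨C, hC⟩ := hC
  have h1 : Tendsto (fun x : ℝ => Real.exp (b * x)) atBot (𝓝 0) :=
    Real.tendsto_exp_atBot.comp (tendsto_id.const_mul_atBot hb)
  have h2 := h1.mul_const C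
  rw [zero_mul] at h2
  refine squeeze_zero_norm (fun x => ?_) h2
  rw [norm_mul, Real.norm_eq_abs, Real.abs_exp, Real.norm_eq_abs]
  exact mul_le_mul_of_nonneg_left (hC x) (Real.exp_pos _).le

/-- below a place where `F` is negative there is one where `G` is negative -/
theorem neg_left (hb : 0 < b) (hF : ∀ x, HasDerivAt F (b * (G x - F x)) x)
    (hC : ∃ C : ℝ, ∀ x, |F x| ≤ C) {x : ℝ} (hx : F x < 0) : ∃ y, y < x ∧ G y < 0 := by
  by_contra hcon
  push Not at hcon
  have hmono : MonotoneOn (fun x => Real.exp (b * x) * F x) (Iic x) := by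
    refine monotoneOn_of_hasDerivWithinAt_nonneg (f' := fun x => b * Real.exp (b * x) * G x)
      (convex_Iic x) (fun y _ => (deriv_H hF y).continuousAt.continuousWithinAt)
      (fun y _ => (deriv_H hF y).hasDerivWithinAt) (fun y hy => ?_)
    rw [interior_Iic] at hy
    exact mul_nonneg (mul_nonneg hb.le (Real.exp_pos _).le) (hcon y hy)
  have hlt : Real.exp (b * x) * F x < 0 := mul_neg_of_pos_of_neg (Real.exp_pos _) hx
  have h1 := (tendsto_H hb hC).eventually (eventually_gt_nhds hlt)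
  obtain ⟨y, hy1, hy2⟩ := (h1.and (eventually_le_atBot x)).exists
  exact absurd (hmono (mem_Iic.2 hy2) (mem_Iic.2 le_rfl) hy2) (not_le.2 hy1)

theorem mvt (hF : ∀ x, HasDerivAt F (b * (G x - F x)) x) {x y : ℝ} (hxy : x < y) :
    ∃ z, x < z ∧ z < y ∧ b * Real.exp (b * z) * G z =
      (Real.exp (b * y) * F y - Real.exp (b * x) * F x) / (y - x) := by
  obtain ⟨z, hz, h⟩ := exists_hasDerivAt_eq_slope (fun x => Real.exp (b * x) * F x)
    (fun x => b * Real.exp (b * x) * G x) hxy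
    (fun y _ => (deriv_H hF y).continuousAt.continuousWithinAt) (fun y _ => deriv_H hF y)
  exact ⟨z, hz.1, hz.2, h⟩

theorem pos_between (hb : 0 < b) (hF : ∀ x, HasDerivAt F (b * (G x - F x)) x) {x y : ℝ}
    (hxy : x < y) (hx : F x < 0) (hy : 0 < F y) : ∃ z, x < z ∧ z < y ∧ 0 < G z := by
  obtain ⟨z, h1, h2, h3⟩ := mvt hF hxy
  refine ⟨z, h1, h2, ?_⟩
  have h4 : 0 < (Real.exp (b * y) * F y - Real.exp (b * x) * F x) / (y - x) := by
    have := mul_pos (Real.exp_pos (b * y)) hy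
    have := mul_neg_of_pos_of_neg (Real.exp_pos (b * x)) hx
    exact div_pos (by linarith) (by linarith)
  rw [← h3] at h4
  exact pos_of_mul_pos_right h4 (mul_pos hb (Real.exp_pos _)).le

theorem neg_between (hb : 0 < b) (hF : ∀ x, HasDerivAt F (b * (G x - F x)) x) {x y : ℝ}
    (hxy : x < y) (hx : 0 < F x) (hy : F y < 0) : ∃ z, x < z ∧ z < y ∧ G z < 0 := by
  obtain ⟨z, h1, h2, h3⟩ := mvt hF hxy
  refine ⟨z, h1, h2, ?_⟩
  have h4 : (Real.exp (b * y) * F y - Real.exp (b * x) * F x) / (y - x) < 0 := by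
    have := mul_pos (Real.exp_pos (b * x)) hx
    have := mul_neg_of_pos_of_neg (Real.exp_pos (b * y)) hy
    exact div_neg_of_neg_of_pos (by linarith) (by linarith)
  rw [← h3] at h4
  by_contra h5
  exact absurd h4 (not_lt.2 (mul_nonneg (mul_pos hb (Real.exp_pos _)).le (not_lt.1 h5)))

end PEE_

open PEE_ in
theorem p_PEE : T_PEE := by
  intro b F G hb hF hC
  constructor
  · rintro ⟨x₁, x₂, x₃, x₄, h12, h23, h34, h1, h2, h3, h4⟩
    obtain ⟨y₁, hy1, hG1⟩ := neg_left hb hF hC h1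
    obtain ⟨y₂, hy2, hy2', hG2⟩ := pos_between hb hF h12 h1 h2
    obtain ⟨y₃, hy3, hy3', hG3⟩ := neg_between hb hF h23 h2 h3
    obtain ⟨y₄, hy4, hy4', hG4⟩ := pos_between hb hF h34 h3 h4
    exact ⟨y₁, y₂, y₃, y₄, by linarith, by linarith, by linarith, hG1, hG2, hG3, hG4⟩
  · rintro ⟨x, hx⟩
    obtain ⟨y, _, hy⟩ := neg_left hb hF hC hx
    exact ⟨y, hy⟩

end Pool.Agent.CHN
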