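import Pool.Agent.CHN.Targets

set_option autoImplicit false

open MeasureTheory ProbabilityTheory Filter Topology Set
open scoped NNReal

namespace Pool.Agent.CHN

open Pool.Agent.Freud (Airy Airy')

namespace PLM_

theorem int_even {f : ℝ → ℝ} (he : ∀ x, f (-x) = f x) (h : IntegrableOn f (Ioi 0)) :
    Integrable f := by
  rw [← integrableOn_univ, ← Iio_union_Ici (a := (0 : ℝ)), integrableOn_union,
    integrableOn_Ici_iff_integrableOn_Ioi]
  refine ⟨?_, h⟩
  rw [← (Measure.measurePreserving_neg (volume : Measure ℝ)).integrableOn_comp_preimage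
      (Homeomorph.neg ℝ).measurableEmbedding]
  have h1 : (f ∘ Neg.neg) = f := by
    funext x
    exact he x
  rw [h1]
  simpa using h

theorem int1 (j : ℕ) {c : ℝ} (hc : 0 < c) :
    Integrable fun y : ℝ => |y| ^ j * Real.exp (-(c * |y| ^ (3 / 2 : ℝ))) := by
  refine int_even (fun x => by simp only [abs_neg]) ?_
  have h1 := integrableOn_rpow_mul_exp_neg_mul_rpow (p := 3 / 2) (s := (j : ℝ)) (b := c)
    (by
      have : (0 : ℝ) ≤ j := Nat.cast_nonneg j
      linarith) (by norm_num) hc
  refine h1.congr_fun (fun x hx => ?_) measurableSet_Ioi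
  have hx' : (0 : ℝ) < x := hx
  simp only [abs_of_pos hx', Real.rpow_natCast, neg_mul]

theorem int2 (j : ℕ) {c : ℝ} (hc : 0 < c) :
    Integrable fun y : ℝ => |y| ^ j * Real.exp (-(c * y ^ 2)) := by
  have h1 := (integrable_rpow_mul_exp_neg_mul_sq (b := c) hc (s := (j : ℝ)) (by
      have : (0 : ℝ) ≤ j := Nat.cast_nonneg j
      linarith)).norm
  refine h1.congr (Eventually.of_forall fun x => ?_)
  simp only [Real.rpow_natCast, norm_mul, norm_pow, Real.norm_eq_abs, Real.abs_exp, neg_mul]

theorem norm_expI (t : ℝ) : ‖Complex.exp (Complex.I * t)‖ = 1 := by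
  rw [mul_comm]
  exact Complex.norm_exp_ofReal_mul_I t

theorem norm_pw (j : ℕ) (y : ℝ) : ‖(Complex.I * y : ℂ) ^ j‖ = |y| ^ j := by
  rw [norm_pow, norm_mul, Complex.norm_I, one_mul, Complex.norm_real, Real.norm_eq_abs]

theorem norm_gauss (ε y : ℝ) :
    ‖Complex.exp (-((ε : ℂ) * (y : ℂ) ^ 2 / 2))‖ = Real.exp (-(ε / 2 * y ^ 2)) := by
  have h1 : (-((ε : ℂ) * (y : ℂ) ^ 2 / 2)) = ((-(ε / 2 * y ^ 2) : ℝ) : ℂ) := by
    push_cast
    ring
  rw [h1, Complex.norm_exp_ofReal]

theorem one_le_fac (y b : ℝ) : 1 ≤ ‖1 + Complex.I * y / (b : ℂ)‖ := by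
  have h1 : (1 + Complex.I * y / (b : ℂ)).re = 1 := by
    have h2 : Complex.I * y / (b : ℂ) = ((y / b : ℝ) : ℂ) * Complex.I := by
      push_cast
      ring
    rw [h2]
    simp
  calc (1 : ℝ) = |(1 + Complex.I * y / (b : ℂ)).re| := by rw [h1, abs_one]
    _ ≤ _ := Complex.abs_re_le_norm _

theorem one_le_prod (a : ℕ → ℝ) (n : ℕ) (y : ℝ) :
    1 ≤ ‖∏ k ∈ Finset.range n, (1 + Complex.I * y / (a k : ℂ))‖ := by
  induction n with
  | zero => simp
  | succ n ih =>
    rw [Finset.prod_range_succ, norm_mul]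
    exact one_le_mul_of_one_le_of_one_le ih (one_le_fac y (a n))

end PLM_

open PLM_ in
theorem p_PLM (hPRD : T_PRD) (hALO : T_ALO) : T_PLM := by
  intro a ha
  obtain ⟨c, hc, hlow⟩ := hALO
  have hAc : Continuous Airy :=
    continuous_iff_continuousAt.2 fun ζ => (Freud.Airy_hasDerivAt ζ).continuousAt
  have hA0 : ∀ y : ℝ, Airy (Complex.I * y) ≠ 0 := by
    intro y h
    have h1 := hlow y
    rw [h, norm_zero] at h1
    have h2 := mul_pos hc (Real.exp_pos (c * |y| ^ (3 / 2 : ℝ)))
    linarith
  let G : ℝ → ℕ → ℝ → ℝ → ℂ := fun ε j x y => (Complex.I * y) ^ j *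
    Complex.exp (Complex.I * y * x) * Complex.exp (-(ε * y ^ 2 / 2)) *
    (Airy 0 / Airy (Complex.I * y))
  have hGc : ∀ ε j x, Continuous (G ε j x) := by
    intro ε j x
    have h1 : Continuous fun y : ℝ => Airy (Complex.I * y) := hAc.comp (by fun_prop)
    refine Continuous.mul (by fun_prop) (Continuous.div continuous_const h1 hA0)
  refine ⟨fun ε j x => ((1 / (2 * Real.pi) : ℂ) * ∫ y : ℝ, G ε j x y).re, ?_, ?_⟩
  · intro ε j x hε
    unfold ap
    refine (Complex.continuous_re.tendsto _).comp (Tendsto.const_mul _ ?_)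
    refine tendsto_integral_of_dominated_convergence
      (fun y : ℝ => |y| ^ j * Real.exp (-(ε / 2 * y ^ 2))) ?_ (int2 j (by positivity)) ?_ ?_
    · intro n
      refine Continuous.aestronglyMeasurable ?_
      refine Continuous.div (by fun_prop) (by fun_prop) ?_
      intro y h
      have h1 := one_le_prod a n y
      rw [h, norm_zero] at h1
      linarith
    · intro n
      refine Eventually.of_forall fun y => ?_
      have h1 := one_le_prod a n y
      rw [norm_div, norm_mul, norm_mul, norm_pw, norm_gauss]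
      have h2 : Complex.I * (y : ℂ) * ((x : ℂ) + ((∑ k ∈ Finset.range n, 1 / a k - u0 : ℝ) : ℂ)) =
          Complex.I * ((y * (x + (∑ k ∈ Finset.range n, 1 / a k - u0)) : ℝ) : ℂ) := by
        push_cast
        ring
      rw [h2, norm_expI, mul_one]
      exact div_le_self (by positivity) h1
    · refine Eventually.of_forall fun y => ?_
      have h1 := (hPRD a ha y).const_mul ((Complex.I * y) ^ j * Complex.exp (Complex.I * y * x) *
        Complex.exp (-(ε * y ^ 2 / 2)))
      refine h1.congr fun n => ?_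
      have h2 : Complex.exp (Complex.I * (y : ℂ) *
          ((x : ℂ) + ((∑ k ∈ Finset.range n, 1 / a k - u0 : ℝ) : ℂ))) =
          Complex.exp (Complex.I * y * x) *
          Complex.exp (Complex.I * y * ((∑ k ∈ Finset.range n, 1 / a k - u0 : ℝ) : ℂ)) := by
        rw [← Complex.exp_add]
        ring_nf
      rw [h2]
      ring
  · intro j x
    have hre : (Airy 0).re * g j x = ((1 / (2 * Real.pi) : ℂ) * ∫ y : ℝ, G 0 j x y).re := by
      have h1 : (∫ y : ℝ, G 0 j x y) = Airy 0 * ∫ y : ℝ, (Complex.I * y) ^ j *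
          Complex.exp (Complex.I * y * x) / Airy (Complex.I * y) := by
        rw [← integral_const_mul]
        refine integral_congr_ae (Eventually.of_forall fun y => ?_)
        simp only [G, Complex.ofReal_zero, zero_mul, zero_div, neg_zero, Complex.exp_zero, mul_one]
        ring
      have h2 : (Airy 0).im = 0 := by
        have h3 := Freud.Airy_conj 0
        rw [map_zero] at h3
        have h4 := congrArg Complex.im h3
        rw [Complex.conj_im] at h4
        linarith
      have h3 : Airy 0 = (((Airy 0).re : ℝ) : ℂ) := by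
        apply Complex.ext
        · simp
        · simp [h2]
      rw [h1]
      unfold g gC
      rw [← mul_assoc, mul_comm (1 / (2 * Real.pi) : ℂ) (Airy 0), mul_assoc]
      conv_rhs => rw [h3]
      rw [Complex.re_ofReal_mul]
    rw [hre]
    refine (Complex.continuous_re.tendsto _).comp (Tendsto.const_mul _ ?_)
    refine tendsto_integral_filter_of_dominated_convergence
      (fun y : ℝ => (‖Airy 0‖ / c) * (|y| ^ j * Real.exp (-(c * |y| ^ (3 / 2 : ℝ))))) ?_ ?_
      ((int1 j hc).const_mul _) ?_
    · exact Eventually.of_forall fun ε => (hGc ε j x).aestronglyMeasurable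
    · filter_upwards [self_mem_nhdsWithin] with ε hε
      have hε' : 0 < ε := hε
      refine Eventually.of_forall fun y => ?_
      simp only [G]
      rw [norm_mul, norm_mul, norm_mul, norm_pw, norm_gauss, norm_div]
      have h2 : Complex.I * (y : ℂ) * (x : ℂ) = Complex.I * ((y * x : ℝ) : ℂ) := by
        push_cast
        ring
      rw [h2, norm_expI, mul_one]
      have h3 : Real.exp (-(ε / 2 * y ^ 2)) ≤ 1 := by
        rw [Real.exp_le_one_iff]
        have : 0 ≤ ε / 2 * y ^ 2 := by positivity
        linarith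
      have h4 : ‖Airy 0‖ / ‖Airy (Complex.I * y)‖ ≤
          ‖Airy 0‖ / c * Real.exp (-(c * |y| ^ (3 / 2 : ℝ))) := by
        have h5 : 0 < c * Real.exp (c * |y| ^ (3 / 2 : ℝ)) := by positivity
        calc ‖Airy 0‖ / ‖Airy (Complex.I * y)‖ ≤ ‖Airy 0‖ / (c * Real.exp (c * |y| ^ (3 / 2 : ℝ))) :=
              div_le_div_of_nonneg_left (norm_nonneg _) h5 (hlow y)
          _ = _ := by
              rw [Real.exp_neg]
              field_simp
      calc |y| ^ j * Real.exp (-(ε / 2 * y ^ 2)) * (‖Airy 0‖ / ‖Airy (Complex.I * y)‖)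
          ≤ |y| ^ j * 1 * (‖Airy 0‖ / c * Real.exp (-(c * |y| ^ (3 / 2 : ℝ)))) := by
            refine mul_le_mul (mul_le_mul_of_nonneg_left h3 (by positivity)) h4 (by positivity)
              (by positivity)
        _ = _ := by ring
    · refine Eventually.of_forall fun y => ?_
      have hcont : Continuous fun ε : ℝ => G ε j x y := by
        simp only [G]
        fun_prop
      exact (hcont.tendsto 0).mono_left nhdsWithin_le_nhds

end Pool.Agent.CHN
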