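import Pool.Agent.CHN.Targets

/-! # CHN-POS: positivity of `g` -/

set_option autoImplicit false

open MeasureTheory ProbabilityTheory Filter Topology Set
open scoped NNReal FourierTransform

namespace Pool.Agent.CHN

open Pool.Agent.Freud (Airy Airy')

namespace POS_

theorem lower (c : ℝ) (hc : 0 < c) :
    ∃ δ : ℝ, 0 < δ ∧ ∀ y : ℝ, δ * (1 + y ^ 2) ≤ Real.exp (c * |y| ^ (3 / 2 : ℝ)) := by
  refine ⟨min (c ^ 2 / 2) (1 / 2), by positivity, fun y => ?_⟩
  set δ := min (c ^ 2 / 2) (1 / 2) with hδ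
  have h0 : 0 < δ := by positivity
  have h1 : δ ≤ c ^ 2 / 2 := min_le_left _ _
  have h2 : δ ≤ 1 / 2 := min_le_right _ _
  have h3 : 0 ≤ c * |y| ^ (3 / 2 : ℝ) := by positivity
  have h4 := Real.quadratic_le_exp_of_nonneg h3
  have h5 : (|y| ^ (3 / 2 : ℝ)) ^ 2 = |y| ^ 3 := by
    rw [← Real.rpow_natCast, ← Real.rpow_mul (abs_nonneg y), ← Real.rpow_natCast |y| 3]
    norm_num
  have h6 : y ^ 2 - 1 ≤ |y| ^ 3 := by
    rw [← sq_abs]
    have h7 := abs_nonneg y
    rcases le_total |y| 1 with h8 | h8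
    · nlinarith [pow_nonneg h7 3]
    · nlinarith [mul_nonneg (sq_nonneg |y|) (sub_nonneg.2 h8)]
  have h9 : (c * |y| ^ (3 / 2 : ℝ)) ^ 2 / 2 = c ^ 2 / 2 * |y| ^ 3 := by
    rw [mul_pow, h5]
    ring
  rw [h9] at h4
  have h10 : δ * |y| ^ 3 ≤ c ^ 2 / 2 * |y| ^ 3 :=
    mul_le_mul_of_nonneg_right h1 (by positivity)
  nlinarith

theorem mexp_int (a : ℝ) (ha : 0 < a) :
    IntegrableOn (fun v : ℝ => v * Real.exp (-(a * v))) (Ioi 0) := by
  have h := integrableOn_rpow_mul_exp_neg_mul_rpow (s := 1) (p := 1) (b := a) (by norm_num)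
    (by norm_num) ha
  simp only [Real.rpow_one] at h
  refine h.congr_fun (fun v _ => ?_) measurableSet_Ioi
  show v * Real.exp (-a * v) = v * Real.exp (-(a * v))
  rw [neg_mul]

end POS_

open POS_ in
theorem p_POS (hPAT : T_PAT) (hAEN : T_AEN) (hGI2 : T_GI2) (hGBS : T_GBS) (hALO : T_ALO) :
    T_POS := by
  obtain ⟨a, hZ⟩ := hAEN
  obtain ⟨hreal, hder, hbd⟩ := hGBS
  have hnn : ∀ x, 0 ≤ g 0 x := hPAT.2
  have hcont : Continuous (g 0) := continuous_iff_continuousAt.2 fun t => (hder 0 t).continuousAt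
  obtain ⟨C, hC⟩ := hbd 0
  intro t₀
  by_contra hcon
  have h0 : g 0 t₀ = 0 := le_antisymm (not_lt.1 hcon) (hnn t₀)
  -- the terms
  have hterm : ∀ (k : ℕ) (t : ℝ),
      0 ≤ 2 * ∫ v in Ioi (0 : ℝ), v * Real.exp (-(a k * v)) * g 0 (t - v) := by
    intro k t
    refine mul_nonneg (by norm_num) (setIntegral_nonneg measurableSet_Ioi fun v hv => ?_)
    exact mul_nonneg (mul_nonneg (le_of_lt hv) (Real.exp_pos _).le) (hnn _)
  have hsum : ∀ t : ℝ, HasSum
      (fun k => 2 * ∫ v in Ioi (0 : ℝ), v * Real.exp (-(a k * v)) * g 0 (t - v))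
      (t ^ 2 * g 0 t - g 1 t) := by
    intro t
    have := hGI2 a hZ 0 t
    simpa using this
  have hineq : ∀ t : ℝ, 0 ≤ t ^ 2 * g 0 t - g 1 t :=
    fun t => (hsum t).nonneg fun k => hterm k t
  -- step 1
  have hanti : Antitone fun t : ℝ => Real.exp (-(t ^ 3 / 3)) * g 0 t := by
    have hd : ∀ t : ℝ, HasDerivAt (fun t : ℝ => Real.exp (-(t ^ 3 / 3)) * g 0 t)
        (Real.exp (-(t ^ 3 / 3)) * (-(3 * t ^ 2 / 3)) * g 0 t +
          Real.exp (-(t ^ 3 / 3)) * g (0 + 1) t) t := by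
      intro t
      have h1 : HasDerivAt (fun t : ℝ => -(t ^ 3 / 3)) (-(3 * t ^ 2 / 3)) t := by
        have h2 : HasDerivAt (fun t : ℝ => t ^ 3 / 3) (3 * t ^ 2 / 3) t := by
          have := (hasDerivAt_pow 3 t).div_const 3
          simpa using this
        exact h2.fun_neg
      exact h1.exp.mul (hder 0 t)
    refine antitone_of_deriv_nonpos (fun t => (hd t).differentiableAt) fun t => ?_
    rw [(hd t).deriv]
    have h1 := hineq t
    have h2 := Real.exp_pos (-(t ^ 3 / 3))
    have e : Real.exp (-(t ^ 3 / 3)) * (-(3 * t ^ 2 / 3)) * g 0 t +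
          Real.exp (-(t ^ 3 / 3)) * g (0 + 1) t =
        -(Real.exp (-(t ^ 3 / 3)) * (t ^ 2 * g 0 t - g 1 t)) := by
      rw [zero_add]
      ring
    rw [e]
    have := mul_nonneg h2.le h1
    linarith
  have hz1 : ∀ t, t₀ ≤ t → g 0 t = 0 := by
    intro t ht
    have h1 := hanti ht
    simp only [h0, mul_zero] at h1
    have h2 := Real.exp_pos (-(t ^ 3 / 3))
    have h3 := hnn t
    have h4 : Real.exp (-(t ^ 3 / 3)) * g 0 t = 0 := le_antisymm h1 (mul_nonneg h2.le h3)
    exact (mul_eq_zero.1 h4).resolve_left h2.ne'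
  -- step 2
  have hz2 : ∀ t, t₀ < t → ∀ v, 0 < v → g 0 (t - v) = 0 := by
    intro t ht v hv
    have hg1 : g 1 t = 0 := by
      have h1 : g 0 =ᶠ[𝓝 t] fun _ => (0 : ℝ) := by
        filter_upwards [Ioi_mem_nhds ht] with s hs
        exact hz1 s (le_of_lt hs)
      have h2 : HasDerivAt (g 0) 0 t := (hasDerivAt_const t (0 : ℝ)).congr_of_eventuallyEq h1
      exact (hder 0 t).unique h2
    have h1 := hsum t
    rw [hz1 t ht.le, hg1, mul_zero, sub_zero, hasSum_zero_iff_of_nonneg (fun k => hterm k t)]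
      at h1
    have h2 : ∫ v in Ioi (0 : ℝ), v * Real.exp (-(a 0 * v)) * g 0 (t - v) = 0 := by
      have := congrFun h1 0
      simp only [Pi.zero_apply] at this
      linarith
    have hcF : Continuous fun v : ℝ => v * Real.exp (-(a 0 * v)) * g 0 (t - v) := by
      have := hcont.comp (continuous_const.sub continuous_id : Continuous fun v : ℝ => t - v)
      exact (by fun_prop : Continuous fun v : ℝ => v * Real.exp (-(a 0 * v))).mul this
    have hint : IntegrableOn (fun v : ℝ => v * Real.exp (-(a 0 * v)) * g 0 (t - v)) (Ioi 0) := by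
      refine Integrable.mono' ((mexp_int (a 0) (hZ.pos 0)).mul_const C)
        hcF.aestronglyMeasurable ?_
      refine (ae_restrict_iff' measurableSet_Ioi).2 (Eventually.of_forall fun v hv => ?_)
      have h3 : 0 ≤ v * Real.exp (-(a 0 * v)) := mul_nonneg (le_of_lt hv) (Real.exp_pos _).le
      rw [norm_mul, Real.norm_of_nonneg h3]
      exact mul_le_mul_of_nonneg_left (hC _) h3
    rw [setIntegral_eq_zero_iff_of_nonneg_ae
      ((ae_restrict_iff' measurableSet_Ioi).2 (Eventually.of_forall fun v hv =>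
        mul_nonneg (mul_nonneg (le_of_lt hv) (Real.exp_pos _).le) (hnn _))) hint] at h2
    have h3 := Measure.eqOn_open_of_ae_eq h2 isOpen_Ioi hcF.continuousOn
      continuousOn_const hv
    have h4 : v * Real.exp (-(a 0 * v)) * g 0 (t - v) = 0 := h3
    exact (mul_eq_zero.1 h4).resolve_left (mul_pos hv (Real.exp_pos _)).ne'
  have hz : ∀ s, g 0 s = 0 := by
    intro s
    have h1 := hz2 (max t₀ s + 1) (by linarith [le_max_left t₀ s]) (max t₀ s + 1 - s)
      (by linarith [le_max_right t₀ s])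
    rwa [sub_sub_cancel] at h1
  -- step 3
  obtain ⟨c, hc, hlow⟩ := hALO
  obtain ⟨δ, hδ, hexp⟩ := lower c hc
  have hlow' : ∀ y : ℝ, c * (δ * (1 + y ^ 2)) ≤ ‖Airy (Complex.I * y)‖ := fun y =>
    (mul_le_mul_of_nonneg_left (hexp y) hc.le).trans (hlow y)
  have hpos : ∀ y : ℝ, 0 < ‖Airy (Complex.I * y)‖ := fun y =>
    lt_of_lt_of_le (by positivity) (hlow' y)
  have hne : ∀ y : ℝ, Airy (Complex.I * y) ≠ 0 := fun y => norm_pos_iff.1 (hpos y)
  have hAc : Continuous Airy :=
    continuous_iff_continuousAt.2 fun z => (Freud.Airy_hasDerivAt z).continuousAt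
  set f : ℝ → ℂ := fun y => 1 / Airy (Complex.I * y) with hf
  have hfc : Continuous f := by
    refine continuous_const.div (hAc.comp (by fun_prop)) hne
  have hfi : Integrable f := by
    refine Integrable.mono' (integrable_inv_one_add_sq.const_mul (1 / (c * δ)))
      hfc.aestronglyMeasurable (Eventually.of_forall fun y => ?_)
    rw [hf]
    simp only [norm_div, norm_one]
    rw [div_mul_eq_mul_div, one_mul, ← one_div, div_div, ]
    refine one_div_le_one_div_of_le (by positivity) ?_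
    have := hlow' y
    linarith
  have hF : 𝓕 f = fun _ => (0 : ℂ) := by
    funext w
    have h1 : gC 0 (-(2 * Real.pi * w)) = 0 := by
      rw [hreal, hz, Complex.ofReal_zero]
    unfold gC at h1
    rcases mul_eq_zero.1 h1 with h2 | h2
    · exfalso
      have hpi : (Real.pi : ℂ) ≠ 0 := Complex.ofReal_ne_zero.2 Real.pi_ne_zero
      exact (by simp [hpi] : (1 / (2 * Real.pi) : ℂ) ≠ 0) h2
    · rw [Real.fourier_real_eq_integral_exp_smul, ← h2]
      refine integral_congr_ae (Eventually.of_forall fun v => ?_)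
      simp only [hf, pow_zero, one_mul, smul_eq_mul]
      rw [mul_one_div]
      congr 2
      push_cast
      ring
  have h1 := hfi.fourierInv_fourier_eq (by rw [hF]; exact integrable_zero _ _ _)
    (v := 0) hfc.continuousAt
  rw [hF] at h1
  have h2 : f 0 ≠ 0 := one_div_ne_zero (hne 0)
  apply h2
  rw [← h1]
  simp [Real.fourierInv_eq]

end Pool.Agent.CHN
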