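import Pool.Agent.CHN.Targets

set_option autoImplicit false

open MeasureTheory ProbabilityTheory Filter Topology Set
open scoped NNReal

namespace Pool.Agent.CHN

open Pool.Agent.Freud (Airy Airy')

namespace PRD_

/-- the approximants along the segment -/
noncomputable def E (a : ℕ → ℝ) (y : ℝ) (n : ℕ) (t : ℝ) : ℂ :=
  Airy (Complex.I * y * t) *
    Complex.exp (Complex.I * y * t * ((∑ k ∈ Finset.range n, 1 / a k - u0 : ℝ) : ℂ)) /
    ∏ k ∈ Finset.range n, (1 + Complex.I * y * t / (a k : ℂ))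

/-- the logarithmic derivative -/
noncomputable def tau (a : ℕ → ℝ) (n : ℕ) (z : ℂ) : ℂ :=
  Airy' z / Airy z - (u0 : ℂ) - ∑ k ∈ Finset.range n, (1 / (z + (a k : ℂ)) - 1 / (a k : ℂ))

theorem re_z (y t : ℝ) : (Complex.I * y * t : ℂ).re = 0 := by simp

theorem ne_airy (hAZR : T_AZR) (y t : ℝ) : Airy (Complex.I * y * t) ≠ 0 := by
  intro h
  have := (hAZR _ h).2
  rw [re_z] at this
  exact lt_irrefl _ this

theorem ne_add (b : ℝ) (hb : 0 < b) (y t : ℝ) : Complex.I * y * t + (b : ℂ) ≠ 0 := by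
  intro h
  have h1 := congrArg Complex.re h
  rw [Complex.add_re, re_z, Complex.ofReal_re, Complex.zero_re] at h1
  linarith

theorem ne_fac (b : ℝ) (hb : 0 < b) (y t : ℝ) : 1 + Complex.I * y * t / (b : ℂ) ≠ 0 := by
  have hbc : (b : ℂ) ≠ 0 := by exact_mod_cast hb.ne'
  intro h
  apply ne_add b hb y t
  field_simp at h
  linear_combination h

theorem deriv_z (y t : ℝ) : HasDerivAt (fun t : ℝ => (Complex.I * y * t : ℂ)) (Complex.I * y) t := by
  simpa using (Complex.ofRealCLM.hasDerivAt (x := t)).const_mul (Complex.I * y)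

theorem E_succ (a : ℕ → ℝ) (y : ℝ) (n : ℕ) (t : ℝ) :
    E a y (n + 1) t = E a y n t *
      (Complex.exp (Complex.I * y * t * (1 / (a n : ℂ))) / (1 + Complex.I * y * t / (a n : ℂ))) := by
  unfold E
  rw [Finset.sum_range_succ, Finset.prod_range_succ]
  have h : Complex.I * y * t * ((∑ k ∈ Finset.range n, 1 / a k + 1 / a n - u0 : ℝ) : ℂ) =
      Complex.I * y * t * ((∑ k ∈ Finset.range n, 1 / a k - u0 : ℝ) : ℂ) +
        Complex.I * y * t * (1 / (a n : ℂ)) := by
    push_cast; ring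
  rw [h, Complex.exp_add]
  generalize ∏ k ∈ Finset.range n, (1 + Complex.I * y * t / (a k : ℂ)) = P
  generalize 1 + Complex.I * y * t / (a n : ℂ) = q
  rw [div_mul_div_comm]
  congr 1
  ring

theorem E_deriv (hAZR : T_AZR) (a : ℕ → ℝ) (ha : ∀ k, 0 < a k) (y : ℝ) (n : ℕ) (t : ℝ) :
    HasDerivAt (E a y n)
      (E a y n t * (Complex.I * y * tau a n (Complex.I * y * t))) t := by
  induction n with
  | zero =>
    have h0 : E a y 0 = fun t : ℝ => Airy (Complex.I * y * t) *
        Complex.exp (Complex.I * y * t * (-u0 : ℂ)) := by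
      funext t
      simp [E]
    have h1 : HasDerivAt (fun t : ℝ => Airy (Complex.I * y * t))
        (Airy' (Complex.I * y * t) * (Complex.I * y)) t := by
      have := (Pool.Agent.Freud.Airy_hasDerivAt (Complex.I * y * t)).comp t (deriv_z y t)
      exact this
    have h2 := ((deriv_z y t).mul_const (-u0 : ℂ)).cexp
    have h3 := h1.mul h2
    have hne := ne_airy hAZR y t
    rw [h0]
    refine h3.congr_deriv ?_
    simp only [tau, Finset.range_zero, Finset.sum_empty, sub_zero]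
    field_simp
    ring
  | succ n ih =>
    have hE : E a y (n + 1) = fun t : ℝ => E a y n t *
      (Complex.exp (Complex.I * y * t * (1 / (a n : ℂ))) / (1 + Complex.I * y * t / (a n : ℂ))) := by
      funext t; exact E_succ a y n t
    have hbc : (a n : ℂ) ≠ 0 := by exact_mod_cast (ha n).ne'
    have h1 := ((deriv_z y t).mul_const (1 / (a n : ℂ))).cexp
    have h2 : HasDerivAt (fun t : ℝ => 1 + Complex.I * y * t / (a n : ℂ))
        (Complex.I * y / (a n : ℂ)) t := by
      simpa using ((deriv_z y t).div_const (a n : ℂ)).const_add 1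
    have h3 := ih.mul (h1.div h2 (ne_fac (a n) (ha n) y t))
    rw [hE]
    refine h3.congr_deriv ?_
    have hn1 := ne_fac (a n) (ha n) y t
    have hn2 := ne_add (a n) (ha n) y t
    have ht : tau a (n + 1) (Complex.I * y * t) = tau a n (Complex.I * y * t) -
        (1 / (Complex.I * y * t + (a n : ℂ)) - 1 / (a n : ℂ)) := by
      unfold tau
      rw [Finset.sum_range_succ]
      ring
    have hn3 : 1 + Complex.I * y * t / (a n : ℂ) = (Complex.I * y * t + (a n : ℂ)) / (a n : ℂ) := by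
      field_simp
      ring
    simp only [Pi.div_apply]
    rw [ht, hn3]
    generalize Complex.exp (Complex.I * y * t * (1 / (a n : ℂ))) = e
    generalize tau a n (Complex.I * y * t) = T
    generalize E a y n t = G
    field_simp
    ring

theorem tau_le (hULG : T_ULG) (a : ℕ → ℝ) (hZ : ZS a) (n : ℕ) (y t : ℝ) :
    ‖tau a n (Complex.I * y * t)‖ ≤ |y| * |t| * ∑' k, 1 / a (k + n) ^ 2 := by
  set z : ℂ := Complex.I * y * t with hz
  have hzre : z.re = 0 := re_z y t
  have hzn : ‖z‖ = |y| * |t| := by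
    rw [hz, norm_mul, norm_mul, Complex.norm_I, one_mul, Complex.norm_real, Complex.norm_real]
    rfl
  have hs := hULG a hZ z (by rw [hzre])
  have h1 : tau a n z = ∑' k, (1 / (z + (a (k + n) : ℂ)) - 1 / (a (k + n) : ℂ)) := by
    have h2 := hs.summable.sum_add_tsum_nat_add n
    rw [hs.tsum_eq] at h2
    unfold tau
    rw [← h2]
    ring
  rw [h1]
  have h3 : Summable fun k => 1 / a (k + n) ^ 2 := (summable_nat_add_iff n).2 hZ.summ
  refine tsum_of_norm_bounded (h3.hasSum.mul_left (|y| * |t|)) fun k => ?_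
  have hb : 0 < a (k + n) := hZ.pos _
  have hbc : (a (k + n) : ℂ) ≠ 0 := by exact_mod_cast hb.ne'
  have hn2 : z + (a (k + n) : ℂ) ≠ 0 := ne_add _ hb y t
  have h4 : 1 / (z + (a (k + n) : ℂ)) - 1 / (a (k + n) : ℂ) =
      -z / ((z + (a (k + n) : ℂ)) * (a (k + n) : ℂ)) := by
    field_simp
    ring
  have h5 : a (k + n) ≤ ‖z + (a (k + n) : ℂ)‖ := by
    have := Complex.abs_re_le_norm (z + (a (k + n) : ℂ))
    rw [Complex.add_re, hzre, Complex.ofReal_re, zero_add, abs_of_pos hb] at this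
    exact this
  rw [h4, norm_div, norm_neg, hzn, norm_mul, Complex.norm_real, Real.norm_eq_abs, abs_of_pos hb,
    mul_one_div]
  have : a (k + n) ^ 2 ≤ ‖z + (a (k + n) : ℂ)‖ * a (k + n) := by
    rw [sq]; gcongr
  gcongr

theorem E_zero (a : ℕ → ℝ) (y : ℝ) (n : ℕ) : E a y n 0 = Airy 0 := by
  simp [E]

theorem E_bound (hULG : T_ULG) (hAZR : T_AZR) (a : ℕ → ℝ) (hZ : ZS a) (y : ℝ) (n : ℕ) (K : ℝ)
    (hK : 0 < K) (h : |y| * (|y| * ∑' k, 1 / a (k + n) ^ 2) ≤ K) :
    ‖E a y n 1 - Airy 0‖ ≤ ‖Airy 0‖ * (Real.exp K - 1) := by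
  have key := norm_le_gronwallBound_of_norm_deriv_right_le (f := fun t => E a y n t - Airy 0)
    (f' := fun t => E a y n t * (Complex.I * y * tau a n (Complex.I * y * t)))
    (δ := 0) (K := K) (ε := K * ‖Airy 0‖) (a := 0) (b := 1) ?_ ?_ ?_ ?_ 1 ⟨zero_le_one, le_rfl⟩
  · rw [gronwallBound_of_K_ne_0 hK.ne'] at key
    refine key.trans (le_of_eq ?_)
    field_simp
    ring_nf
  · intro t _
    exact ((E_deriv hAZR a hZ.pos y n t).continuousAt.sub continuousAt_const).continuousWithinAt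
  · intro t _
    exact ((E_deriv hAZR a hZ.pos y n t).sub_const _).hasDerivWithinAt
  · simp [E_zero]
  · intro t ht
    have ht1 : |t| ≤ 1 := by rw [abs_of_nonneg ht.1]; exact ht.2.le
    have hR : 0 ≤ ∑' k, 1 / a (k + n) ^ 2 := tsum_nonneg fun k => by positivity
    have h1 := tau_le hULG a hZ n y t
    have h2 : ‖Complex.I * y * tau a n (Complex.I * y * t)‖ ≤ K := by
      rw [norm_mul, norm_mul, Complex.norm_I, one_mul, Complex.norm_real, Real.norm_eq_abs]
      refine le_trans ?_ h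
      have h3 : |y| * |t| * ∑' k, 1 / a (k + n) ^ 2 ≤ |y| * 1 * ∑' k, 1 / a (k + n) ^ 2 := by
        gcongr
      rw [mul_one] at h3
      gcongr
      exact h1.trans h3
    rw [norm_mul]
    have h4 : ‖E a y n t‖ ≤ ‖E a y n t - Airy 0‖ + ‖Airy 0‖ := by
      have := norm_add_le (E a y n t - Airy 0) (Airy 0)
      simpa using this
    calc ‖E a y n t‖ * ‖Complex.I * y * tau a n (Complex.I * y * t)‖
        ≤ (‖E a y n t - Airy 0‖ + ‖Airy 0‖) * K := by gcongr
      _ = _ := by ring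

theorem E_tendsto (hULG : T_ULG) (hAZR : T_AZR) (a : ℕ → ℝ) (hZ : ZS a) (y : ℝ) :
    Tendsto (fun n => E a y n 1) atTop (𝓝 (Airy 0)) := by
  rw [tendsto_iff_norm_sub_tendsto_zero]
  have hR : Tendsto (fun n => ∑' k, 1 / a (k + n) ^ 2) atTop (𝓝 0) :=
    tendsto_sum_nat_add fun k => 1 / a k ^ 2
  have hK : Tendsto (fun n : ℕ => |y| * (|y| * ∑' k, 1 / a (k + n) ^ 2) + 1 / ((n : ℝ) + 1))
      atTop (𝓝 0) := by
    have := ((hR.const_mul |y|).const_mul |y|).add tendsto_one_div_add_atTop_nhds_zero_nat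
    simpa using this
  have hU : Tendsto (fun n : ℕ => ‖Airy 0‖ *
      (Real.exp (|y| * (|y| * ∑' k, 1 / a (k + n) ^ 2) + 1 / ((n : ℝ) + 1)) - 1)) atTop (𝓝 0) := by
    have h1 := ((Real.continuous_exp.tendsto 0).comp hK).sub_const 1
    have h2 := h1.const_mul ‖Airy 0‖
    simpa using h2
  refine squeeze_zero (fun n => norm_nonneg _) (fun n => ?_) hU
  have hRn : 0 ≤ ∑' k, 1 / a (k + n) ^ 2 := tsum_nonneg fun k => by positivity
  have hpos : (0 : ℝ) < 1 / ((n : ℝ) + 1) := by positivity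
  refine E_bound hULG hAZR a hZ y n _ (by positivity) (by linarith)

end PRD_

open PRD_

theorem p_PRD (hULG : T_ULG) (hAZR : T_AZR) : T_PRD := by
  intro a hZ y
  have h := E_tendsto hULG hAZR a hZ y
  have hne : Airy (Complex.I * y) ≠ 0 := by
    have := ne_airy hAZR y 1
    simpa using this
  have h2 := h.div_const (Airy (Complex.I * y))
  refine h2.congr fun n => ?_
  unfold E
  simp only [Complex.ofReal_one, mul_one]
  rw [mul_div_assoc, mul_div_cancel_left₀ _ hne]

end Pool.Agent.CHN
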