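import Pool.Agent.CHN.Targets

/-!
# MP_0e7bd3_pr (project CHN): the limit of `Q` (helper49)
-/

set_option autoImplicit false

open MeasureTheory ProbabilityTheory Filter Topology Set
open scoped NNReal

namespace Pool.Agent.CHN

namespace QLI_

/-- bounds for `R` and `R1` on bounded sets of `a` -/
theorem bounds (hRDE : T_RDE) (K : ℝ) (hK : 0 ≤ K) : ∃ D : ℝ, 0 ≤ D ∧ ∀ a x : ℝ, |a| ≤ K → 0 ≤ x →
    |R a x| ≤ D * Real.exp (-x) ∧ |R1 a x| ≤ D * Real.exp (-x) := by
  obtain ⟨C0, hC0⟩ := hRDE (K + 1) 0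
  have hC0' : 0 ≤ C0 := by
    have := (abs_nonneg _).trans (hC0 0 0 0 le_rfl)
    simpa using this
  refine ⟨(K + 1) * C0 * Real.exp (K ^ 3 / 3), by positivity, fun a x ha hx => ?_⟩
  obtain ⟨ha1, ha2⟩ := abs_le.1 ha
  have hexp : Real.exp (a * x - a ^ 3 / 3) ≤ Real.exp (K ^ 3 / 3) * Real.exp (K * x) := by
    rw [← Real.exp_add]
    apply Real.exp_le_exp.2
    have h1 : a * x ≤ K * x := mul_le_mul_of_nonneg_right ha2 hx
    have h2 : -a ^ 3 ≤ K ^ 3 := by
      have h3 : |a| ^ 3 ≤ K ^ 3 := pow_le_pow_left₀ (abs_nonneg a) ha 3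
      have h4 : -a ^ 3 ≤ |a| ^ 3 := by
        rw [← abs_pow]
        exact neg_le_abs _
      exact h4.trans h3
    linarith
  have he : Real.exp (K * x) * Real.exp (-((K + 1) * x)) = Real.exp (-x) := by
    rw [← Real.exp_add]
    congr 1
    ring
  have h00 := hC0 0 a x hx
  have h10 := hC0 1 a x hx
  have hE : 0 < Real.exp (a * x - a ^ 3 / 3) := Real.exp_pos _
  constructor
  · rw [R, abs_mul, abs_of_pos hE]
    calc Real.exp (a * x - a ^ 3 / 3) * |r 0 0 a x|
        ≤ (Real.exp (K ^ 3 / 3) * Real.exp (K * x)) * (C0 * Real.exp (-((K + 1) * x))) :=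
          mul_le_mul hexp h00 (abs_nonneg _) (by positivity)
      _ = C0 * Real.exp (K ^ 3 / 3) * Real.exp (-x) := by rw [← he]; ring
      _ ≤ (K + 1) * C0 * Real.exp (K ^ 3 / 3) * Real.exp (-x) := by
          have : C0 ≤ (K + 1) * C0 := by nlinarith
          gcongr
  · rw [R1, abs_mul, abs_of_pos hE]
    have hsum : |a * r 0 0 a x + r 1 0 a x| ≤ (K + 1) * (C0 * Real.exp (-((K + 1) * x))) := by
      calc |a * r 0 0 a x + r 1 0 a x| ≤ |a * r 0 0 a x| + |r 1 0 a x| := abs_add_le _ _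
        _ = |a| * |r 0 0 a x| + |r 1 0 a x| := by rw [abs_mul]
        _ ≤ K * (C0 * Real.exp (-((K + 1) * x))) + C0 * Real.exp (-((K + 1) * x)) := by
            gcongr
        _ = (K + 1) * (C0 * Real.exp (-((K + 1) * x))) := by ring
    calc Real.exp (a * x - a ^ 3 / 3) * |a * r 0 0 a x + r 1 0 a x|
        ≤ (Real.exp (K ^ 3 / 3) * Real.exp (K * x)) *
            ((K + 1) * (C0 * Real.exp (-((K + 1) * x)))) :=
          mul_le_mul hexp hsum (abs_nonneg _) (by positivity)
      _ = (K + 1) * C0 * Real.exp (K ^ 3 / 3) * Real.exp (-x) := by rw [← he]; ring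

end QLI_

theorem p_QLI (hQPD : T_QPD) (hRDE : T_RDE) : T_QLI := by
  obtain ⟨hQx, _, _, _, hQa, _, hRc, _, _⟩ := hQPD
  have hRcont : ∀ a, Continuous (R a) := fun a =>
    hRc.comp (Continuous.prodMk continuous_const continuous_id)
  have hlim : ∀ a : ℝ, Tendsto (Q a) atTop (𝓝 (∫ z in Ioi (0 : ℝ), R a z)) := by
    intro a
    obtain ⟨D, hD, hb⟩ := QLI_.bounds hRDE |a| (abs_nonneg a)
    have hint : IntegrableOn (R a) (Ioi 0) := by
      refine Integrable.mono' (g := fun x => D * Real.exp (-x))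
        ((integrableOn_exp_neg_Ioi 0).const_mul D) (hRcont a).aestronglyMeasurable ?_
      refine (ae_restrict_iff' measurableSet_Ioi).2 (Eventually.of_forall fun x hx => ?_)
      rw [Real.norm_eq_abs]
      exact (hb a x le_rfl (le_of_lt hx)).1
    exact intervalIntegral_tendsto_integral_Ioi 0 hint tendsto_id
  refine ⟨∫ z in Ioi (0 : ℝ), R 0 z, fun a => ?_⟩
  have hdiff : Tendsto (fun x => Q a x - Q 0 x) atTop (𝓝 0) := by
    obtain ⟨D, hD, hb⟩ := QLI_.bounds hRDE |a| (abs_nonneg a)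
    have hbound : ∀ x, 0 ≤ x → |Q a x - Q 0 x| ≤ (D + 2 * |a| * D) * Real.exp (-x) * |a| := by
      intro x hx
      have hmv := Convex.norm_image_sub_le_of_norm_hasDerivWithin_le
        (f := fun a => Q a x) (f' := fun a => R1 a x - 2 * a * R a x)
        (s := Icc (-|a|) |a|) (x := 0) (y := a) (C := (D + 2 * |a| * D) * Real.exp (-x))
        (fun b _ => (hQa b x).hasDerivWithinAt) (fun b hbm => by
          have hbK : |b| ≤ |a| := abs_le.2 hbm
          obtain ⟨h1, h2⟩ := hb b x hbK hx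
          rw [Real.norm_eq_abs]
          calc |R1 b x - 2 * b * R b x| ≤ |R1 b x| + |2 * b * R b x| := abs_sub _ _
            _ = |R1 b x| + 2 * |b| * |R b x| := by
                rw [abs_mul, abs_mul, abs_of_pos (by norm_num : (0 : ℝ) < 2)]
            _ ≤ D * Real.exp (-x) + 2 * |a| * (D * Real.exp (-x)) := by
                gcongr
            _ = (D + 2 * |a| * D) * Real.exp (-x) := by ring)
        (convex_Icc _ _) ⟨by simp, abs_nonneg a⟩ ⟨neg_abs_le a, le_abs_self a⟩
      simpa [Real.norm_eq_abs] using hmv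
    rw [tendsto_zero_iff_norm_tendsto_zero]
    have hexp0 : Tendsto (fun x : ℝ => (D + 2 * |a| * D) * Real.exp (-x) * |a|) atTop (𝓝 0) := by
      have h := (Real.tendsto_exp_neg_atTop_nhds_zero.const_mul (D + 2 * |a| * D)).mul_const |a|
      simpa using h
    refine squeeze_zero' (Eventually.of_forall fun x => norm_nonneg _) ?_ hexp0
    filter_upwards [eventually_ge_atTop 0] with x hx
    rw [Real.norm_eq_abs]
    exact hbound x hx
  have h1 := hdiff.add (hlim 0)
  simpa using h1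

end Pool.Agent.CHN
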