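import Pool.Agent.CHN.Targets

/-!
# MP_0e7bd3_pr (project CHN): the parabolic equation, target QPD (helper8)
-/

set_option autoImplicit false

open MeasureTheory Filter Topology Set

namespace Pool.Agent.CHN

namespace QPD_

/-- the exponential factor -/
noncomputable def ex (a x : ℝ) : ℝ := Real.exp (a * x - a ^ 3 / 3)

theorem ex_x (a x : ℝ) : HasDerivAt (fun x => ex a x) (ex a x * a) x := by
  have h1 : HasDerivAt (fun x : ℝ => a * x - a ^ 3 / 3) a x := by
    simpa using ((hasDerivAt_id x).const_mul a).sub_const (a ^ 3 / 3)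
  exact h1.exp

theorem ex_a (a x : ℝ) : HasDerivAt (fun a => ex a x) (ex a x * (x - a ^ 2)) a := by
  have h1 : HasDerivAt (fun a : ℝ => a * x - a ^ 3 / 3) (x - a ^ 2) a := by
    have h2 := ((hasDerivAt_id' a).mul_const x).sub ((hasDerivAt_pow 3 a).div_const 3)
    have e : x - a ^ 2 = 1 * x - ((3 : ℕ) : ℝ) * a ^ (3 - 1) / 3 := by
      push_cast
      ring
    rw [e]
    exact h2
  exact h1.exp

theorem ex_c : Continuous fun p : ℝ × ℝ => ex p.1 p.2 := by
  unfold ex
  fun_prop

theorem R_eq (a x : ℝ) : R a x = ex a x * r 0 0 a x := rfl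

theorem R1_eq (a x : ℝ) : R1 a x = ex a x * (a * r 0 0 a x + r 1 0 a x) := rfl

theorem R2_eq (a x : ℝ) : R2 a x =
    ex a x * (a ^ 2 * r 0 0 a x + 2 * a * r 1 0 a x + (x * r 0 0 a x + r 0 1 a x)) := rfl

end QPD_

open QPD_

theorem p_QPD (hRHO : T_RHO) (hRB0 : T_RB0) : T_QPD := by
  obtain ⟨-, hA, hX0, hX1, hC⟩ := hRHO
  have cR : Continuous fun p : ℝ × ℝ => R p.1 p.2 := ex_c.mul (hC 0 0)
  have cR1 : Continuous fun p : ℝ × ℝ => R1 p.1 p.2 :=
    ex_c.mul ((continuous_fst.mul (hC 0 0)).add (hC 1 0))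
  have cR2 : Continuous fun p : ℝ × ℝ => R2 p.1 p.2 :=
    ex_c.mul ((((continuous_fst.pow 2).mul (hC 0 0)).add
      ((continuous_const.mul continuous_fst).mul (hC 1 0))).add
      ((continuous_snd.mul (hC 0 0)).add (hC 0 1)))
  have dRx : ∀ a x, HasDerivAt (R a) (R1 a x) x := by
    intro a x
    have h := (ex_x a x).mul (hX0 0 a x)
    have he : R1 a x = ex a x * a * r 0 0 a x + ex a x * r 1 0 a x := by
      rw [R1_eq]
      ring
    rw [he]
    exact h
  have dR1x : ∀ a x, HasDerivAt (R1 a) (R2 a x) x := by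
    intro a x
    have h := (ex_x a x).mul (((hX0 0 a x).const_mul a).add (hX1 0 a x))
    have he : R2 a x = ex a x * a * (a * r 0 0 a x + r 1 0 a x) +
        ex a x * (a * r 1 0 a x + (x * r 0 0 a x + r 0 (0 + 1) a x)) := by
      rw [R2_eq]
      ring
    rw [he]
    exact h
  have dRa : ∀ a x, HasDerivAt (fun a => R a x) (R2 a x - 2 * a * R1 a x) a := by
    intro a x
    have h := (ex_a a x).mul (hA 0 0 a x)
    have he : R2 a x - 2 * a * R1 a x = ex a x * (x - a ^ 2) * r 0 0 a x +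
        ex a x * r 0 (0 + 1) a x := by
      rw [R2_eq, R1_eq]
      ring
    rw [he]
    exact h
  have cRa : ∀ a, Continuous (R a) := fun a => cR.comp (Continuous.prodMk_right a)
  have cR1a : ∀ a, Continuous (R1 a) := fun a => cR1.comp (Continuous.prodMk_right a)
  have cR2a : ∀ a, Continuous (R2 a) := fun a => cR2.comp (Continuous.prodMk_right a)
  have cF : Continuous fun p : ℝ × ℝ => R2 p.1 p.2 - 2 * p.1 * R1 p.1 p.2 :=
    cR2.sub ((continuous_const.mul continuous_fst).mul cR1)
  have dQx : ∀ a x, HasDerivAt (Q a) (R a x) x := by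
    intro a x
    exact intervalIntegral.integral_hasDerivAt_right ((cRa a).intervalIntegrable _ _)
      ((cRa a).stronglyMeasurableAtFilter _ _) (cRa a).continuousAt
  have b0 : ∀ a, R1 a 0 - 2 * a * R a 0 = 0 := by
    intro a
    rw [R1_eq, R_eq, (hRB0 a).1, (hRB0 a).2]
    ring
  have ftc : ∀ a x, ∫ z in (0 : ℝ)..x, (R2 a z - 2 * a * R1 a z) = R1 a x - 2 * a * R a x := by
    intro a x
    have h := intervalIntegral.integral_eq_sub_of_hasDerivAt
      (f := fun z => R1 a z - 2 * a * R a z) (f' := fun z => R2 a z - 2 * a * R1 a z)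
      (a := 0) (b := x) (fun z _ => (dR1x a z).sub ((dRx a z).const_mul (2 * a)))
      (((cR2a a).sub (continuous_const.mul (cR1a a))).intervalIntegrable _ _)
    rw [h, b0, sub_zero]
  have dQa : ∀ a x, HasDerivAt (fun a => Q a x) (R1 a x - 2 * a * R a x) a := by
    intro a x
    rw [← ftc a x]
    obtain ⟨C, hCb⟩ : ∃ C : ℝ, ∀ p ∈ Metric.closedBall a 1 ×ˢ uIcc (0 : ℝ) x,
        ‖R2 p.1 p.2 - 2 * p.1 * R1 p.1 p.2‖ ≤ C :=
      ((isCompact_closedBall a 1).prod isCompact_uIcc).exists_bound_of_continuousOn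
        cF.continuousOn
    refine (intervalIntegral.hasDerivAt_integral_of_dominated_loc_of_deriv_le
      (F := fun a z => R a z) (F' := fun a z => R2 a z - 2 * a * R1 a z)
      (s := Metric.closedBall a 1) (bound := fun _ => C)
      (Metric.closedBall_mem_nhds a one_pos) ?_ ?_ ?_ ?_ ?_ ?_).2
    · exact Eventually.of_forall fun a => (cRa a).aestronglyMeasurable
    · exact (cRa a).intervalIntegrable _ _
    · exact ((cR2a a).sub (continuous_const.mul (cR1a a))).aestronglyMeasurable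
    · refine ae_of_all _ fun z hz b hb => hCb (b, z) ⟨hb, uIoc_subset_uIcc hz⟩
    · exact intervalIntegrable_const
    · exact ae_of_all _ fun z _ b _ => dRa b z
  have cQ : Continuous fun p : ℝ × ℝ => Q p.1 p.2 := by
    have h : Continuous (fun (p : ℝ × ℝ) (z : ℝ) => R p.1 z).uncurry := by
      have h2 : (fun (p : ℝ × ℝ) (z : ℝ) => R p.1 z).uncurry =
          (fun q : ℝ × ℝ => R q.1 q.2) ∘ fun w : (ℝ × ℝ) × ℝ => (w.1.1, w.2) := rfl
      rw [h2]
      exact cR.comp (by fun_prop)
    exact intervalIntegral.continuous_parametric_intervalIntegral_of_continuous h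
      continuous_snd
  exact ⟨dQx, dRx, dR1x, dRa, dQa, cQ, cR, cR1, cR2⟩

end Pool.Agent.CHN
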