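import Pool.Agent.CHN.Targets

set_option autoImplicit false

open MeasureTheory ProbabilityTheory Filter Topology Set

namespace Pool.Agent.CHN

open Pool.Agent.Freud (Airy Airy')

namespace RB0_

lemma cancel (u z : ℂ) : u * z / z ^ 2 = u / z := by
  by_cases hz : z = 0
  · simp [hz]
  · field_simp

end RB0_

theorem p_RB0 (hAEN : T_AEN) (hGPR : T_GPR) : T_RB0 := by
  intro a
  obtain ⟨b, hb⟩ := hAEN
  constructor
  · have h : rC 0 0 a 0 = gC 0 a := by
      unfold rC gC
      congr 1
      refine integral_congr_ae (Filter.Eventually.of_forall fun y => ?_)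
      have e : Ak 0 (((0 : ℝ) : ℂ) + Complex.I * y) = Airy (Complex.I * y) := by
        simp [Ak]
      show (Complex.I * (y : ℂ)) ^ 0 * Complex.exp (Complex.I * y * a) *
        Ak 0 (((0 : ℝ) : ℂ) + Complex.I * y) / Airy (Complex.I * y) ^ 2 =
        (Complex.I * (y : ℂ)) ^ 0 * Complex.exp (Complex.I * y * a) / Airy (Complex.I * y)
      rw [e, RB0_.cancel]
    unfold r g
    rw [h]
  · have h2 := (hGPR b hb 0 a).1
    have h : rC 1 0 a 0 = ((a * g 0 a + ((0 : ℕ) : ℝ) * g (0 - 1) a : ℝ) : ℂ) := by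
      rw [h2]
      unfold rC
      congr 1
      refine integral_congr_ae (Filter.Eventually.of_forall fun y => ?_)
      have e : Ak 1 (((0 : ℝ) : ℂ) + Complex.I * y) = Airy' (Complex.I * y) := by
        simp [Ak]
      show (Complex.I * (y : ℂ)) ^ 0 * Complex.exp (Complex.I * y * a) *
        Ak 1 (((0 : ℝ) : ℂ) + Complex.I * y) / Airy (Complex.I * y) ^ 2 =
        (Complex.I * (y : ℂ)) ^ 0 * Complex.exp (Complex.I * y * a) *
          (Airy' (Complex.I * y) / Airy (Complex.I * y)) / Airy (Complex.I * y)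
      rw [e, pow_two]
      simp only [div_eq_mul_inv, mul_inv]
      ring
    unfold r
    rw [h, Complex.ofReal_re]
    simp

end Pool.Agent.CHN
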