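import Pool.Agent.CHN.Targets

/-!
# MP_0e7bd3_pr (project CHN): T_RBD, Gaussian growth (helper50)
-/

set_option autoImplicit false

open MeasureTheory ProbabilityTheory Filter Topology Set
open scoped NNReal Nat

namespace Pool.Agent.CHN

open Pool.Agent.Freud (Airy Airy')

namespace RBD_

/-- the exponent in `y` is bounded -/
theorem lin {c A : ℝ} (hc : 0 < c) (hA : 0 ≤ A) {Y : ℝ} (hY : 0 ≤ Y) :
    A * Y - c * Y ^ (3 / 2 : ℝ) ≤ A * (A / c) ^ 2 := by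
  have h1 : Y ^ (3 / 2 : ℝ) = Y * √Y := by
    rw [show (3 / 2 : ℝ) = 1 + 1 / 2 by norm_num, Real.rpow_add' hY (by norm_num), Real.rpow_one,
      Real.sqrt_eq_rpow]
  have hs := Real.sqrt_nonneg Y
  have hss : √Y ^ 2 = Y := Real.sq_sqrt hY
  have hAc : 0 ≤ A / c := div_nonneg hA hc.le
  rw [h1]
  rcases le_total (√Y) (A / c) with h | h
  · have h2 : Y ≤ (A / c) ^ 2 := by
      rw [← hss]
      exact pow_le_pow_left₀ hs h 2
    have h3 : 0 ≤ c * (Y * √Y) := by positivity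
    have h4 : A * Y ≤ A * (A / c) ^ 2 := mul_le_mul_of_nonneg_left h2 hA
    linarith
  · have h2 : A ≤ c * √Y := by
      rw [div_le_iff₀ hc] at h
      linarith
    have h3 : A * Y ≤ c * √Y * Y := mul_le_mul_of_nonneg_right h2 hY
    have h4 : 0 ≤ A * (A / c) ^ 2 := by positivity
    linarith [show c * √Y * Y = c * (Y * √Y) by ring]

/-- the function of `y` is dominated by an integrable function -/
theorem key1 {c : ℝ} (hc : 0 < c) (d : ℝ) (hd : 0 ≤ d) (j : ℕ) (y : ℝ) :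
    |y| ^ j * (1 + |y|) ^ 2 * Real.exp (d * |y|) / Real.exp (c * |y| ^ (3 / 2 : ℝ)) ≤
      ((j + 4)! : ℝ) * Real.exp (1 + (d + 1) * ((d + 1) / c) ^ 2) * (1 + y ^ 2)⁻¹ := by
  have hY : 0 ≤ |y| := abs_nonneg y
  have hy2 : y ^ 2 = |y| ^ 2 := (sq_abs y).symm
  rw [hy2, ← div_eq_mul_inv, le_div_iff₀ (by positivity)]
  generalize |y| = Y at hY
  have h1 : Y ^ j * (1 + Y) ^ 2 * (1 + Y ^ 2) ≤ (1 + Y) ^ (j + 4) := by
    have a1 : Y ^ j ≤ (1 + Y) ^ j := pow_le_pow_left₀ hY (by linarith) j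
    have a2 : 1 + Y ^ 2 ≤ (1 + Y) ^ 2 := by nlinarith
    calc Y ^ j * (1 + Y) ^ 2 * (1 + Y ^ 2) ≤ (1 + Y) ^ j * (1 + Y) ^ 2 * (1 + Y) ^ 2 := by
          gcongr
      _ = (1 + Y) ^ (j + 4) := by ring
  have h2 : (1 + Y) ^ (j + 4) ≤ ((j + 4)! : ℝ) * Real.exp (1 + Y) := by
    have := Real.pow_div_factorial_le_exp (1 + Y) (by linarith) (j + 4)
    rwa [div_le_iff₀' (by positivity)] at this
  have h3 : Real.exp (1 + Y) * (Real.exp (d * Y) / Real.exp (c * Y ^ (3 / 2 : ℝ))) ≤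
      Real.exp (1 + (d + 1) * ((d + 1) / c) ^ 2) := by
    rw [← Real.exp_sub, ← Real.exp_add]
    refine Real.exp_le_exp.2 ?_
    have := lin hc (by linarith : 0 ≤ d + 1) hY
    linarith [show (d + 1) * Y = d * Y + Y by ring]
  have h4 : 0 ≤ Real.exp (d * Y) / Real.exp (c * Y ^ (3 / 2 : ℝ)) := by positivity
  calc Y ^ j * (1 + Y) ^ 2 * Real.exp (d * Y) / Real.exp (c * Y ^ (3 / 2 : ℝ)) * (1 + Y ^ 2)
      = Y ^ j * (1 + Y) ^ 2 * (1 + Y ^ 2) * (Real.exp (d * Y) / Real.exp (c * Y ^ (3 / 2 : ℝ))) := by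
        ring
    _ ≤ ((j + 4)! : ℝ) * Real.exp (1 + Y) *
        (Real.exp (d * Y) / Real.exp (c * Y ^ (3 / 2 : ℝ))) :=
        mul_le_mul_of_nonneg_right (h1.trans h2) h4
    _ = ((j + 4)! : ℝ) * (Real.exp (1 + Y) *
        (Real.exp (d * Y) / Real.exp (c * Y ^ (3 / 2 : ℝ)))) := by ring
    _ ≤ _ := mul_le_mul_of_nonneg_left h3 (by positivity)

/-- the factor depending on `x` -/
theorem key2 {ε : ℝ} (hε : 0 < ε) {X Y : ℝ} (hX : 0 ≤ X) (hY : 0 ≤ Y) :
    (1 + X) * Real.exp (X * √(X + Y + 1)) ≤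
      Real.exp (1 / (2 * ε) + (1 + 1 / (2 * ε)) ^ 2 / (2 * ε)) * Real.exp (ε * X ^ 2) *
        Real.exp (1 / (2 * ε) * Y) := by
  have h1 : 1 + X ≤ Real.exp X := by linarith [Real.add_one_le_exp X]
  have hs : √(X + Y + 1) ^ 2 = X + Y + 1 := Real.sq_sqrt (by linarith)
  have key : ∀ u v : ℝ, u * v ≤ ε / 2 * u ^ 2 + v ^ 2 / (2 * ε) := by
    intro u v
    have h2 : 0 ≤ (ε * u - v) ^ 2 / (2 * ε) := by positivity
    have h3 : (ε * u - v) ^ 2 / (2 * ε) = ε / 2 * u ^ 2 + v ^ 2 / (2 * ε) - u * v := by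
      field_simp
      ring
    linarith
  have h2 := key X (√(X + Y + 1))
  have h3 := key X (1 + 1 / (2 * ε))
  rw [hs] at h2
  calc (1 + X) * Real.exp (X * √(X + Y + 1)) ≤ Real.exp X * Real.exp (X * √(X + Y + 1)) :=
        mul_le_mul_of_nonneg_right h1 (Real.exp_pos _).le
    _ = Real.exp (X + X * √(X + Y + 1)) := (Real.exp_add _ _).symm
    _ ≤ Real.exp (1 / (2 * ε) + (1 + 1 / (2 * ε)) ^ 2 / (2 * ε) + ε * X ^ 2 +
          1 / (2 * ε) * Y) := by
        refine Real.exp_le_exp.2 ?_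
        have h4 : (X + Y + 1) / (2 * ε) = 1 / (2 * ε) * X + 1 / (2 * ε) * Y + 1 / (2 * ε) := by
          ring
        rw [h4] at h2
        linarith [show X * (1 + 1 / (2 * ε)) = X + 1 / (2 * ε) * X by ring]
    _ = _ := by rw [Real.exp_add, Real.exp_add]

end RBD_

open RBD_ in
theorem p_RBD (hAEN : T_AEN) (hALO : T_ALO) (hALX : T_ALX) : T_RBD := by
  obtain ⟨a0, ha0⟩ := hAEN
  obtain ⟨c, hc, hlo⟩ := hALO
  obtain ⟨C, hC, hx⟩ := hALX a0 ha0
  intro ε j hε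
  set d : ℝ := 1 / (2 * ε) with hd
  have hd0 : 0 ≤ d := by positivity
  set K : ℝ := Real.exp (1 / (2 * ε) + (1 + 1 / (2 * ε)) ^ 2 / (2 * ε)) with hK
  set L : ℝ := ((j + 4)! : ℝ) * Real.exp (1 + (d + 1) * ((d + 1) / c) ^ 2) with hL
  refine ⟨1 / (2 * Real.pi) * (C / c * K * L * ∫ y : ℝ, (1 + y ^ 2)⁻¹), fun i a x => ?_⟩
  have hpt : ∀ y : ℝ, ‖(Complex.I * y) ^ j * Complex.exp (Complex.I * y * a) *
      Ak i (x + Complex.I * y) / Airy (Complex.I * y) ^ 2‖ ≤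
      C / c * K * L * Real.exp (ε * x ^ 2) * (1 + y ^ 2)⁻¹ := by
    intro y
    have hl := hlo y
    have hlpos : 0 < c * Real.exp (c * |y| ^ (3 / 2 : ℝ)) := by positivity
    have hA : 0 < ‖Airy (Complex.I * y)‖ := hlpos.trans_le hl
    have e1 : ‖(Complex.I * y) ^ j‖ = |y| ^ j := by
      rw [norm_pow, norm_mul, Complex.norm_I, one_mul, Complex.norm_real, Real.norm_eq_abs]
    have e2 : ‖Complex.exp (Complex.I * y * a)‖ = 1 := by
      rw [Complex.norm_exp]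
      simp
    rw [norm_div, norm_mul, norm_mul, e1, e2, mul_one, norm_pow]
    have h1 := hx i x y
    have h2 := key2 hε (abs_nonneg x) (abs_nonneg y)
    have h3 := key1 hc d hd0 j y
    rw [sq_abs] at h2
    calc |y| ^ j * ‖Ak i (x + Complex.I * y)‖ / ‖Airy (Complex.I * y)‖ ^ 2
        ≤ |y| ^ j * (C * (1 + |x|) * (1 + |y|) ^ 2 * Real.exp (|x| * √(|x| + |y| + 1)) *
          ‖Airy (Complex.I * y)‖) / ‖Airy (Complex.I * y)‖ ^ 2 := by gcongr
      _ = C * (|y| ^ j * (1 + |y|) ^ 2) * ((1 + |x|) * Real.exp (|x| * √(|x| + |y| + 1))) /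
          ‖Airy (Complex.I * y)‖ := by
          field_simp
      _ ≤ C * (|y| ^ j * (1 + |y|) ^ 2) * (K * Real.exp (ε * x ^ 2) * Real.exp (d * |y|)) /
          (c * Real.exp (c * |y| ^ (3 / 2 : ℝ))) := by gcongr
      _ = C / c * K * Real.exp (ε * x ^ 2) * (|y| ^ j * (1 + |y|) ^ 2 * Real.exp (d * |y|) /
          Real.exp (c * |y| ^ (3 / 2 : ℝ))) := by
          field_simp
      _ ≤ C / c * K * Real.exp (ε * x ^ 2) * (L * (1 + y ^ 2)⁻¹) := by
          refine mul_le_mul_of_nonneg_left h3 (by positivity)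
      _ = _ := by ring
  have hint : ∫ y : ℝ, ‖(Complex.I * y) ^ j * Complex.exp (Complex.I * y * a) *
      Ak i (x + Complex.I * y) / Airy (Complex.I * y) ^ 2‖ ≤
      ∫ y : ℝ, C / c * K * L * Real.exp (ε * x ^ 2) * (1 + y ^ 2)⁻¹ :=
    integral_mono_of_nonneg (Eventually.of_forall fun _ => norm_nonneg _)
      (integrable_inv_one_add_sq.const_mul _) (Eventually.of_forall hpt)
  have hn : ‖(1 / (2 * Real.pi) : ℂ)‖ = 1 / (2 * Real.pi) := by
    rw [norm_div, norm_one, norm_mul, Complex.norm_real, Real.norm_eq_abs,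
      abs_of_pos Real.pi_pos]
    simp
  calc |r i j a x| ≤ ‖rC i j a x‖ := Complex.abs_re_le_norm _
    _ = 1 / (2 * Real.pi) * ‖∫ y : ℝ, (Complex.I * y) ^ j * Complex.exp (Complex.I * y * a) *
        Ak i (x + Complex.I * y) / Airy (Complex.I * y) ^ 2‖ := by
        unfold rC
        rw [norm_mul, hn]
    _ ≤ 1 / (2 * Real.pi) * ∫ y : ℝ, C / c * K * L * Real.exp (ε * x ^ 2) * (1 + y ^ 2)⁻¹ := by
        have hpi := Real.pi_pos
        refine mul_le_mul_of_nonneg_left ((norm_integral_le_integral_norm _).trans hint)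
          (by positivity)
    _ = _ := by
        rw [integral_const_mul]
        ring

end Pool.Agent.CHN
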