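import Pool.Agent.CHN.Targets

/-! # CHN: T_RDE, decay (helper9) -/

set_option autoImplicit false

open MeasureTheory ProbabilityTheory Filter Topology Set
open scoped NNReal

namespace Pool.Agent.CHN

open Pool.Agent.Freud (Airy Airy')

namespace RDE_

theorem rpow_three_halves {x : ℝ} (hx : 0 ≤ x) : x ^ (3 / 2 : ℝ) = √x ^ 3 := by
  rw [Real.sqrt_eq_rpow, ← Real.rpow_natCast, ← Real.rpow_mul hx]
  norm_num

/-- `A x ≤ c x^(3/2) + D` -/
theorem lin_le {c : ℝ} (hc : 0 < c) (A : ℝ) : ∃ D : ℝ, ∀ x : ℝ, 0 ≤ x →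
    A * x ≤ c * x ^ (3 / 2 : ℝ) + D := by
  let B : ℝ := |A| / c
  have hB : 0 ≤ B := by positivity
  refine ⟨c * B ^ 3, fun x hx => ?_⟩
  rw [rpow_three_halves hx]
  have hs : 0 ≤ √x := Real.sqrt_nonneg x
  have hx2 : x = √x ^ 2 := (Real.sq_sqrt hx).symm
  have h1 : A * x ≤ c * (B * √x ^ 2) := by
    have h2 : c * B = |A| := by
      simp only [B]
      field_simp
    calc A * x ≤ |A| * x := by gcongr; exact le_abs_self A
      _ = c * (B * √x ^ 2) := by rw [← hx2, ← h2]; ring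
  have h3 : B * √x ^ 2 ≤ √x ^ 3 + B ^ 3 := by
    rcases le_total B (√x) with h | h
    · nlinarith [pow_nonneg hB 3, mul_le_mul_of_nonneg_right h (sq_nonneg (√x))]
    · have h4 : √x ^ 2 ≤ B ^ 2 := by gcongr
      nlinarith [pow_nonneg hs 3, mul_le_mul_of_nonneg_left h4 hB]
  calc A * x ≤ c * (B * √x ^ 2) := h1
    _ ≤ c * (√x ^ 3 + B ^ 3) := by gcongr
    _ = _ := by ring

theorem integrable_aux (j : ℕ) {c : ℝ} (hc : 0 < c) :
    Integrable fun y : ℝ => |y| ^ j * (1 + |y|) * Real.exp (-(c * |y| ^ (3 / 2 : ℝ))) := by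
  obtain ⟨D, hD⟩ := lin_le hc 3
  refine Integrable.mono' (integrable_inv_one_add_sq.const_mul (2 * j.factorial * Real.exp D))
    ?_ (Eventually.of_forall fun y => ?_)
  · refine Continuous.aestronglyMeasurable ?_
    have : Continuous fun y : ℝ => |y| ^ (3 / 2 : ℝ) :=
      continuous_abs.rpow_const fun _ => Or.inr (by norm_num)
    fun_prop
  · have hy := abs_nonneg y
    have h0 : 0 ≤ |y| ^ j * (1 + |y|) * Real.exp (-(c * |y| ^ (3 / 2 : ℝ))) := by positivity
    rw [Real.norm_of_nonneg h0]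
    have h1 : |y| ^ j ≤ j.factorial * Real.exp |y| := by
      have := Real.pow_div_factorial_le_exp |y| hy j
      rw [div_le_iff₀ (by positivity)] at this
      linarith
    have h2 : 1 + |y| ≤ Real.exp |y| := by linarith [Real.add_one_le_exp |y|]
    have h3 : 1 + y ^ 2 ≤ 2 * Real.exp |y| := by
      have := Real.quadratic_le_exp_of_nonneg hy
      have h5 : |y| ^ 2 = y ^ 2 := sq_abs y
      nlinarith
    have h4 := hD |y| hy
    rw [← div_eq_mul_inv, le_div_iff₀ (by positivity)]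
    calc |y| ^ j * (1 + |y|) * Real.exp (-(c * |y| ^ (3 / 2 : ℝ))) * (1 + y ^ 2)
        ≤ (j.factorial * Real.exp |y|) * Real.exp |y| * Real.exp (-(c * |y| ^ (3 / 2 : ℝ))) *
          (2 * Real.exp |y|) := by gcongr
      _ = 2 * j.factorial * Real.exp (3 * |y| - c * |y| ^ (3 / 2 : ℝ)) := by
          rw [show 3 * |y| - c * |y| ^ (3 / 2 : ℝ) = |y| + |y| + |y| + -(c * |y| ^ (3 / 2 : ℝ)) by ring,
            Real.exp_add, Real.exp_add, Real.exp_add]
          ring
      _ ≤ 2 * j.factorial * Real.exp D := by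
          gcongr
          linarith

end RDE_

open RDE_ in
theorem p_RDE (hAEN : T_AEN) (hALO : T_ALO) (hACM : T_ACM) (hALD : T_ALD) (hARE : T_ARE) :
    T_RDE := by
  obtain ⟨a, ha⟩ := hAEN
  obtain ⟨c, hc, hlo⟩ := hALO
  obtain ⟨K, hK, hld⟩ := hALD a ha
  obtain ⟨c1, C1, hc1, hC1, hre⟩ := hARE
  intro lam j
  have hA0 : 0 < ‖Airy (0 : ℂ)‖ := by
    have := hlo 0
    simp only [Complex.ofReal_zero, mul_zero] at this
    refine lt_of_lt_of_le ?_ this
    positivity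
  obtain ⟨D, hD⟩ := lin_le (c := 2 / 3) (by norm_num) (|lam| + 1)
  let I0 : ℝ := ∫ y : ℝ, |y| ^ j * (1 + |y|) * Real.exp (-(c * |y| ^ (3 / 2 : ℝ)))
  have hI0 : 0 ≤ I0 := integral_nonneg fun y => by positivity
  let M : ℝ := (K + 1) / (‖Airy (0 : ℂ)‖ * c)
  have hM : 0 ≤ M := by positivity
  refine ⟨M * (C1 * Real.exp D) * I0, fun i b x hx => ?_⟩
  have hnorm : ‖Airy (x : ℂ)‖ ≤ C1 * Real.exp (-(2 / 3 * x ^ (3 / 2 : ℝ))) := by
    obtain ⟨h1, h2, h3⟩ := hre x hx
    have h4 : Airy (x : ℂ) = ((Airy (x : ℂ)).re : ℂ) := by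
      apply Complex.ext
      · simp
      · simpa using h1
    rw [h4, Complex.norm_real, Real.norm_eq_abs, abs_of_nonneg]
    · exact h3
    · refine le_trans ?_ h2
      positivity
  have hxD : (1 + x) * ‖Airy (x : ℂ)‖ ≤ C1 * Real.exp D * Real.exp (-(lam * x)) := by
    have h1 : 1 + x ≤ Real.exp x := by linarith [Real.add_one_le_exp x]
    have h2 := hD x hx
    have h3 : lam * x ≤ |lam| * x := by gcongr; exact le_abs_self lam
    calc (1 + x) * ‖Airy (x : ℂ)‖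
        ≤ Real.exp x * (C1 * Real.exp (-(2 / 3 * x ^ (3 / 2 : ℝ)))) := by gcongr
      _ = C1 * Real.exp (x + -(2 / 3 * x ^ (3 / 2 : ℝ))) := by rw [Real.exp_add]; ring
      _ ≤ C1 * Real.exp (D + -(lam * x)) :=
          mul_le_mul_of_nonneg_left (Real.exp_le_exp.2 (by nlinarith)) hC1.le
      _ = _ := by rw [Real.exp_add]; ring
  have hAk : ∀ y : ℝ, ‖Ak i (x + Complex.I * y)‖ ≤
      (K + 1) * ((1 + x) * (1 + |y|)) * ‖Airy (x + Complex.I * y)‖ := by
    intro y
    have hz : (0 : ℝ) ≤ ((x : ℂ) + Complex.I * y).re := by simpa using hx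
    have hn : ‖(x : ℂ) + Complex.I * y‖ ≤ x + |y| := by
      refine (norm_add_le _ _).trans ?_
      rw [norm_mul, Complex.norm_I, one_mul, Complex.norm_real, Complex.norm_real,
        Real.norm_eq_abs, Real.norm_eq_abs, abs_of_nonneg hx]
    have hy := abs_nonneg y
    have h1 : 1 + ‖(x : ℂ) + Complex.I * y‖ ≤ (1 + x) * (1 + |y|) := by nlinarith
    have h2 : 1 ≤ (1 + x) * (1 + |y|) := by nlinarith
    unfold Ak
    split_ifs with hi
    · calc ‖Airy (x + Complex.I * y)‖ = 1 * 1 * ‖Airy (x + Complex.I * y)‖ := by ring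
        _ ≤ (K + 1) * ((1 + x) * (1 + |y|)) * ‖Airy (x + Complex.I * y)‖ := by
          gcongr
          linarith
    · refine (hld _ hz).trans ?_
      gcongr
      linarith
  have hx' : ∀ y : ℝ, ‖Airy (x + Complex.I * y)‖ * ‖Airy (0 : ℂ)‖ ≤
      ‖Airy (x : ℂ)‖ * ‖Airy (Complex.I * y)‖ := by
    intro y
    have := hACM a ha 0 x y le_rfl hx
    simpa using this
  have hbd : ∀ y : ℝ, ‖(Complex.I * y) ^ j * Complex.exp (Complex.I * y * b) *
      Ak i (x + Complex.I * y) / Airy (Complex.I * y) ^ 2‖ ≤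
      (M * ((1 + x) * ‖Airy (x : ℂ)‖)) *
        (|y| ^ j * (1 + |y|) * Real.exp (-(c * |y| ^ (3 / 2 : ℝ)))) := by
    intro y
    have hpos : 0 < ‖Airy (Complex.I * y)‖ := lt_of_lt_of_le (by positivity) (hlo y)
    have e1 : ‖Complex.exp (Complex.I * y * b)‖ = 1 := by
      rw [Complex.norm_exp]
      simp
    have e2 : ‖(Complex.I * (y : ℂ)) ^ j‖ = |y| ^ j := by
      rw [norm_pow, norm_mul, Complex.norm_I, one_mul, Complex.norm_real, Real.norm_eq_abs]
    rw [norm_div, norm_mul, norm_mul, e1, e2, norm_pow, mul_one, div_le_iff₀ (by positivity)]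
    have h1 : ‖Airy (x + Complex.I * y)‖ ≤
        ‖Airy (x : ℂ)‖ * ‖Airy (Complex.I * y)‖ / ‖Airy (0 : ℂ)‖ := by
      rw [le_div_iff₀ hA0]
      exact hx' y
    have h2 : 1 ≤ 1 / c * Real.exp (-(c * |y| ^ (3 / 2 : ℝ))) * ‖Airy (Complex.I * y)‖ := by
      calc (1 : ℝ) = 1 / c * Real.exp (-(c * |y| ^ (3 / 2 : ℝ))) *
            (c * Real.exp (c * |y| ^ (3 / 2 : ℝ))) := by
            rw [Real.exp_neg]
            field_simp
        _ ≤ _ := by
            gcongr
            exact hlo y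
    have hy := abs_nonneg y
    calc |y| ^ j * ‖Ak i (x + Complex.I * y)‖
        ≤ |y| ^ j * ((K + 1) * ((1 + x) * (1 + |y|)) *
          (‖Airy (x : ℂ)‖ * ‖Airy (Complex.I * y)‖ / ‖Airy (0 : ℂ)‖)) := by
          gcongr
          exact (hAk y).trans (by gcongr)
      _ = |y| ^ j * ((K + 1) * ((1 + x) * (1 + |y|)) *
          (‖Airy (x : ℂ)‖ * ‖Airy (Complex.I * y)‖ / ‖Airy (0 : ℂ)‖)) * 1 := by ring
      _ ≤ |y| ^ j * ((K + 1) * ((1 + x) * (1 + |y|)) *
          (‖Airy (x : ℂ)‖ * ‖Airy (Complex.I * y)‖ / ‖Airy (0 : ℂ)‖)) *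
          (1 / c * Real.exp (-(c * |y| ^ (3 / 2 : ℝ))) * ‖Airy (Complex.I * y)‖) := by
          gcongr
      _ = _ := by
          simp only [M]
          field_simp
  have hint := (integrable_aux j hc).const_mul (M * ((1 + x) * ‖Airy (x : ℂ)‖))
  have hI := norm_integral_le_of_norm_le hint (Eventually.of_forall hbd)
  rw [integral_const_mul] at hI
  have h2pi : ‖(1 / (2 * Real.pi) : ℂ)‖ ≤ 1 := by
    rw [norm_div, norm_one, norm_mul, Complex.norm_real, Real.norm_of_nonneg Real.pi_pos.le,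
      Complex.norm_ofNat, div_le_one (by positivity)]
    nlinarith [Real.pi_gt_three]
  calc |r i j b x| ≤ ‖rC i j b x‖ := Complex.abs_re_le_norm _
    _ = ‖(1 / (2 * Real.pi) : ℂ)‖ * ‖∫ y : ℝ, (Complex.I * y) ^ j * Complex.exp (Complex.I * y * b) *
      Ak i (x + Complex.I * y) / Airy (Complex.I * y) ^ 2‖ := by rw [rC, norm_mul]
    _ ≤ 1 * (M * ((1 + x) * ‖Airy (x : ℂ)‖) * I0) := by gcongr
    _ = M * I0 * ((1 + x) * ‖Airy (x : ℂ)‖) := by ring
    _ ≤ M * I0 * (C1 * Real.exp D * Real.exp (-(lam * x))) := by gcongr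
    _ = _ := by ring

end Pool.Agent.CHN
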