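import Pool.Agent.CHN.Targets

/-!
# MP_0e7bd3_pr (project CHN): basic properties of `rC` and `r` (helper49)
-/

set_option autoImplicit false

open MeasureTheory ProbabilityTheory Filter Topology Set
open scoped NNReal

namespace Pool.Agent.CHN

open Pool.Agent.Freud (Airy Airy' Airy_hasDerivAt Airy'_hasDerivAt Airy_conj Airy'_conj)

namespace RHO_

/-- the integrand of `rC` -/
noncomputable def F (i : Fin 2) (j : ℕ) (a x y : ℝ) : ℂ :=
  (Complex.I * y) ^ j * Complex.exp (Complex.I * y * a) *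
    Ak i (x + Complex.I * y) / Airy (Complex.I * y) ^ 2

theorem rC_eq (i : Fin 2) (j : ℕ) (a x : ℝ) :
    rC i j a x = (1 / (2 * Real.pi) : ℂ) * ∫ y : ℝ, F i j a x y := rfl

theorem Ak_zero (z : ℂ) : Ak 0 z = Airy z := by simp [Ak]

theorem Ak_one (z : ℂ) : Ak 1 z = Airy' z := by simp [Ak]

theorem Airy_cont : Continuous Airy :=
  continuous_iff_continuousAt.2 fun z => (Airy_hasDerivAt z).continuousAt

theorem Airy'_cont : Continuous Airy' :=
  continuous_iff_continuousAt.2 fun z => (Airy'_hasDerivAt z).continuousAt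

theorem Ak_cont (i : Fin 2) : Continuous (Ak i) := by
  fin_cases i
  · have : Ak 0 = Airy := by funext z; exact Ak_zero z
    change Continuous (Ak 0)
    rw [this]
    exact Airy_cont
  · have : Ak 1 = Airy' := by funext z; exact Ak_one z
    change Continuous (Ak 1)
    rw [this]
    exact Airy'_cont

theorem Ak_conj (i : Fin 2) (z : ℂ) : Ak i (starRingEnd ℂ z) = starRingEnd ℂ (Ak i z) := by
  fin_cases i
  · change Ak 0 _ = starRingEnd ℂ (Ak 0 _)
    rw [Ak_zero, Ak_zero, Airy_conj]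
  · change Ak 1 _ = starRingEnd ℂ (Ak 1 _)
    rw [Ak_one, Ak_one, Airy'_conj]

theorem Airy_ne (hALO : T_ALO) (y : ℝ) : Airy (Complex.I * y) ≠ 0 := by
  obtain ⟨c, hc, h⟩ := hALO
  intro h0
  have := h y
  rw [h0, norm_zero] at this
  have h2 : 0 < c * Real.exp (c * |y| ^ (3 / 2 : ℝ)) := by positivity
  linarith

theorem F_cont (hALO : T_ALO) (i : Fin 2) (j : ℕ) (a x : ℝ) : Continuous (F i j a x) := by
  unfold F
  refine Continuous.div ?_ ?_ fun y => pow_ne_zero 2 (Airy_ne hALO y)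
  · refine Continuous.mul (by fun_prop) ((Ak_cont i).comp (by fun_prop))
  · exact (Airy_cont.comp (by fun_prop)).pow 2

theorem F_cont_p (hALO : T_ALO) (i : Fin 2) (j : ℕ) (y : ℝ) :
    Continuous fun p : ℝ × ℝ => F i j p.1 p.2 y := by
  unfold F
  refine Continuous.div ?_ continuous_const fun _ => pow_ne_zero 2 (Airy_ne hALO y)
  exact Continuous.mul (by fun_prop) ((Ak_cont i).comp (by fun_prop))

theorem exp_bound {c X t : ℝ} (hc : 0 < c) (hX : 0 ≤ X) (ht : 0 ≤ t) :
    (X + 2) * t - c * t ^ (3 / 2 : ℝ) ≤ (X + 2) ^ 3 / c ^ 2 := by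
  obtain ⟨s, hs, rfl⟩ : ∃ s : ℝ, 0 ≤ s ∧ t = s ^ 2 :=
    ⟨√t, Real.sqrt_nonneg t, (Real.sq_sqrt ht).symm⟩
  have h1 : (s ^ 2) ^ (3 / 2 : ℝ) = s ^ 3 := by
    rw [← Real.rpow_natCast s 2, ← Real.rpow_mul hs]
    norm_num
  rw [h1]
  rcases le_or_gt (c * s) (X + 2) with h | h
  · have h2 : s ≤ (X + 2) / c := by rw [le_div_iff₀ hc]; linarith
    have h3 : s ^ 2 ≤ ((X + 2) / c) ^ 2 := pow_le_pow_left₀ hs h2 2
    calc (X + 2) * s ^ 2 - c * s ^ 3 ≤ (X + 2) * s ^ 2 := by
          have : 0 ≤ c * s ^ 3 := by positivity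
          linarith
      _ ≤ (X + 2) * ((X + 2) / c) ^ 2 := by gcongr
      _ = (X + 2) ^ 3 / c ^ 2 := by rw [div_pow]; ring
  · have h2 : (X + 2) * s ^ 2 ≤ c * s * s ^ 2 := by gcongr
    have h3 : 0 ≤ (X + 2) ^ 3 / c ^ 2 := by positivity
    nlinarith [h2, h3]

theorem pow_bound (n : ℕ) {t : ℝ} (ht : 0 ≤ t) : (1 + t) ^ n ≤ n.factorial * Real.exp (1 + t) := by
  have h := Real.pow_div_factorial_le_exp (1 + t) (by linarith) n
  have h2 : (0 : ℝ) < n.factorial := by exact_mod_cast n.factorial_pos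
  rw [div_le_iff₀ h2] at h
  linarith

/-- the domination of the integrands, locally uniform in `x`, uniform in `a` -/
theorem F_bound (hAEN : T_AEN) (hALO : T_ALO) (hALX : T_ALX) (j : ℕ) (X : ℝ) (hX : 0 ≤ X) :
    ∃ D : ℝ, ∀ (i : Fin 2) (a x y : ℝ), |x| ≤ X → ‖F i j a x y‖ ≤ D * Real.exp (-|y|) := by
  obtain ⟨z, hz⟩ := hAEN
  obtain ⟨C, hC, hb⟩ := hALX z hz
  obtain ⟨c, hc, hlo⟩ := hALO
  refine ⟨(1 / c) * (C * (1 + X)) * ((j + 2).factorial : ℝ) *
    Real.exp (1 + X * (X + 1) + (X + 2) ^ 3 / c ^ 2), fun i a x y hx => ?_⟩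
  set t := |y| with ht
  have ht0 : 0 ≤ t := abs_nonneg y
  have hA : 0 < ‖Airy (Complex.I * y)‖ :=
    lt_of_lt_of_le (by positivity) (hlo y)
  have e1 : ‖F i j a x y‖ = t ^ j * ‖Ak i (x + Complex.I * y)‖ / ‖Airy (Complex.I * y)‖ ^ 2 := by
    unfold F
    rw [norm_div, norm_mul, norm_mul, norm_pow, norm_pow, norm_mul, Complex.norm_I, one_mul,
      Complex.norm_real, Real.norm_eq_abs, Complex.norm_exp]
    have : (Complex.I * (y : ℂ) * (a : ℂ)).re = 0 := by simp
    rw [this, Real.exp_zero, mul_one]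
  rw [e1]
  have e2 := hb i x y
  have hxa : 0 ≤ |x| := abs_nonneg x
  -- the norm of Ak / Airy^2
  have e3 : t ^ j * ‖Ak i (x + Complex.I * y)‖ / ‖Airy (Complex.I * y)‖ ^ 2 ≤
      t ^ j * (C * (1 + |x|) * (1 + t) ^ 2 * Real.exp (|x| * √(|x| + t + 1))) /
        ‖Airy (Complex.I * y)‖ := by
    rw [div_le_div_iff₀ (by positivity) hA]
    calc t ^ j * ‖Ak i (x + Complex.I * y)‖ * ‖Airy (Complex.I * y)‖
        ≤ t ^ j * (C * (1 + |x|) * (1 + t) ^ 2 * Real.exp (|x| * √(|x| + t + 1)) *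
            ‖Airy (Complex.I * y)‖) * ‖Airy (Complex.I * y)‖ := by gcongr
      _ = _ := by ring
  refine e3.trans ?_
  have e4 : 1 / ‖Airy (Complex.I * y)‖ ≤ (1 / c) * Real.exp (-(c * t ^ (3 / 2 : ℝ))) := by
    rw [Real.exp_neg, ← one_div, one_div_mul_one_div]
    exact one_div_le_one_div_of_le (by positivity) (hlo y)
  have e5 : √(|x| + t + 1) ≤ X + t + 1 := by
    rw [Real.sqrt_le_left (by positivity)]
    nlinarith
  have e6 : |x| * √(|x| + t + 1) ≤ X * (X + t + 1) := by
    have := Real.sqrt_nonneg (|x| + t + 1)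
    gcongr
  have e7 : t ^ j * (1 + t) ^ 2 ≤ ((j + 2).factorial : ℝ) * Real.exp (1 + t) := by
    calc t ^ j * (1 + t) ^ 2 ≤ (1 + t) ^ j * (1 + t) ^ 2 := by gcongr; linarith
      _ = (1 + t) ^ (j + 2) := by rw [pow_add]
      _ ≤ _ := pow_bound (j + 2) ht0
  calc t ^ j * (C * (1 + |x|) * (1 + t) ^ 2 * Real.exp (|x| * √(|x| + t + 1))) /
        ‖Airy (Complex.I * y)‖
      = (t ^ j * (1 + t) ^ 2) * (C * (1 + |x|)) * Real.exp (|x| * √(|x| + t + 1)) *
          (1 / ‖Airy (Complex.I * y)‖) := by ring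
    _ ≤ (((j + 2).factorial : ℝ) * Real.exp (1 + t)) * (C * (1 + X)) * Real.exp (X * (X + t + 1)) *
          ((1 / c) * Real.exp (-(c * t ^ (3 / 2 : ℝ)))) := by gcongr
    _ = (1 / c) * (C * (1 + X)) * ((j + 2).factorial : ℝ) *
          Real.exp ((1 + t) + X * (X + t + 1) + (-(c * t ^ (3 / 2 : ℝ)))) := by
        rw [Real.exp_add ((1 + t) + X * (X + t + 1)), Real.exp_add (1 + t)]; ring
    _ ≤ (1 / c) * (C * (1 + X)) * ((j + 2).factorial : ℝ) *
          Real.exp (1 + X * (X + 1) + (X + 2) ^ 3 / c ^ 2 + (-t)) := by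
        refine mul_le_mul_of_nonneg_left (Real.exp_le_exp.2 ?_) (by positivity)
        have h1 := exp_bound hc hX ht0
        have h2 : (X + 2) * t = X * t + 2 * t := by ring
        have h3 : X * (X + t + 1) = X * (X + 1) + X * t := by ring
        linarith
    _ = _ := by rw [Real.exp_add _ (-t)]; ring

theorem int_exp (D : ℝ) : Integrable fun y : ℝ => D * Real.exp (-|y|) := by
  refine Integrable.const_mul ?_ D
  rw [← integrableOn_univ, ← Iic_union_Ioi (a := (0 : ℝ)), integrableOn_union]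
  constructor
  · refine (integrableOn_exp_Iic 0).congr_fun (fun y hy => ?_) measurableSet_Iic
    have : y ≤ 0 := hy
    simp [abs_of_nonpos this]
  · refine (integrableOn_exp_neg_Ioi 0).congr_fun (fun y hy => ?_) measurableSet_Ioi
    have : 0 < y := hy
    simp [abs_of_pos this]

theorem F_int (hAEN : T_AEN) (hALO : T_ALO) (hALX : T_ALX) (i : Fin 2) (j : ℕ) (a x : ℝ) :
    Integrable (F i j a x) := by
  obtain ⟨D, hD⟩ := F_bound hAEN hALO hALX j |x| (abs_nonneg x)
  exact (int_exp D).mono' (F_cont hALO i j a x).aestronglyMeasurable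
    (Eventually.of_forall fun y => hD i a x y le_rfl)

theorem F_conj (i : Fin 2) (j : ℕ) (a x y : ℝ) :
    starRingEnd ℂ (F i j a x y) = F i j a x (-y) := by
  have h1 : starRingEnd ℂ (Complex.I * (y : ℂ)) = Complex.I * ((-y : ℝ) : ℂ) := by
    rw [map_mul, Complex.conj_I, Complex.conj_ofReal]
    push_cast
    ring
  have h2 : starRingEnd ℂ ((x : ℂ) + Complex.I * (y : ℂ)) = (x : ℂ) + Complex.I * ((-y : ℝ) : ℂ) := by
    rw [map_add, h1, Complex.conj_ofReal]
  unfold F
  rw [map_div₀, map_mul, map_mul, map_pow, map_pow, h1, ← Complex.exp_conj, map_mul, h1,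
    Complex.conj_ofReal, ← Ak_conj, h2, ← Airy_conj, h1]

theorem rC_real (i : Fin 2) (j : ℕ) (a x : ℝ) : rC i j a x = (r i j a x : ℂ) := by
  have h : starRingEnd ℂ (rC i j a x) = rC i j a x := by
    rw [rC_eq, map_mul, ← integral_conj]
    have h1 : starRingEnd ℂ (1 / (2 * (Real.pi : ℂ))) = 1 / (2 * (Real.pi : ℂ)) := by
      rw [map_div₀, map_mul, map_one, Complex.conj_ofReal]
      congr 2
      exact Complex.conj_ofNat 2
    rw [h1]
    congr 1
    simp_rw [F_conj]
    exact integral_neg_eq_self (F i j a x) volume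
  exact (Complex.conj_eq_iff_real.1 h).elim fun t ht => by
    rw [r, ht, Complex.ofReal_re]

theorem hasDerivAt_re {f : ℝ → ℂ} {f' : ℂ} {x : ℝ} (h : HasDerivAt f f' x) :
    HasDerivAt (fun x => (f x).re) f'.re x := by
  exact (Complex.reCLM.hasFDerivAt (x := f x)).comp_hasDerivAt x h

theorem deriv_a (hAEN : T_AEN) (hALO : T_ALO) (hALX : T_ALX) (i : Fin 2) (j : ℕ) (a x : ℝ) :
    HasDerivAt (fun a => rC i j a x) (rC i (j + 1) a x) a := by
  obtain ⟨D, hD⟩ := F_bound hAEN hALO hALX (j + 1) |x| (abs_nonneg x)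
  have h := hasDerivAt_integral_of_dominated_loc_of_deriv_le (μ := (volume : Measure ℝ))
    (F := fun a y => F i j a x y) (F' := fun a y => F i (j + 1) a x y) (x₀ := a)
    (bound := fun y => D * Real.exp (-|y|)) (s := univ) univ_mem
    (Eventually.of_forall fun b => (F_cont hALO i j b x).aestronglyMeasurable)
    (F_int hAEN hALO hALX i j a x) (F_cont hALO i (j + 1) a x).aestronglyMeasurable
    (Eventually.of_forall fun y b _ => hD i b x y le_rfl) (int_exp D)
    (Eventually.of_forall fun y b _ => by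
      have h1 : HasDerivAt (fun b : ℝ => Complex.exp (Complex.I * y * b))
          (Complex.exp (Complex.I * y * b) * (Complex.I * y)) b := by
        have h2 : HasDerivAt (fun b : ℝ => Complex.I * (y : ℂ) * (b : ℂ)) (Complex.I * y) b := by
          have := (Complex.ofRealCLM.hasDerivAt (x := b)).const_mul (Complex.I * (y : ℂ))
          simpa using this
        exact h2.cexp
      have h3 := ((h1.const_mul ((Complex.I * (y : ℂ)) ^ j)).mul_const
        (Ak i (x + Complex.I * y))).div_const (Airy (Complex.I * y) ^ 2)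
      refine h3.congr_deriv ?_
      unfold F
      rw [pow_succ]
      ring)
  have h4 := h.2.const_mul (1 / (2 * (Real.pi : ℂ)))
  exact h4

theorem line_deriv {f : ℂ → ℂ} {f' : ℂ} {x y : ℝ} (h : HasDerivAt f f' (x + Complex.I * y)) :
    HasDerivAt (fun x : ℝ => f (x + Complex.I * y)) f' x := by
  have h2 : HasDerivAt (fun b : ℝ => (b : ℂ) + Complex.I * (y : ℂ)) 1 x := by
    have := (Complex.ofRealCLM.hasDerivAt (x := x)).add_const (Complex.I * (y : ℂ))
    simpa using this
  have := h.comp x h2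
  simpa [Function.comp_def] using this

theorem deriv_x0 (hAEN : T_AEN) (hALO : T_ALO) (hALX : T_ALX) (j : ℕ) (a x : ℝ) :
    HasDerivAt (fun x => rC 0 j a x) (rC 1 j a x) x := by
  obtain ⟨D, hD⟩ := F_bound hAEN hALO hALX j (|x| + 1) (by positivity)
  have h := hasDerivAt_integral_of_dominated_loc_of_deriv_le (μ := (volume : Measure ℝ))
    (F := fun x y => F 0 j a x y) (F' := fun x y => F 1 j a x y) (x₀ := x)
    (bound := fun y => D * Real.exp (-|y|)) (s := Metric.ball x 1)
    (Metric.ball_mem_nhds x one_pos)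
    (Eventually.of_forall fun b => (F_cont hALO 0 j a b).aestronglyMeasurable)
    (F_int hAEN hALO hALX 0 j a x) (F_cont hALO 1 j a x).aestronglyMeasurable
    (Eventually.of_forall fun y b hb => hD 1 a b y (by
      rw [Metric.mem_ball, Real.dist_eq] at hb
      have := abs_sub_abs_le_abs_sub b x
      linarith)) (int_exp D)
    (Eventually.of_forall fun y b _ => by
      have h1 : HasDerivAt (fun b : ℝ => Ak 0 (b + Complex.I * y)) (Ak 1 (b + Complex.I * y)) b := by
        have := line_deriv (Airy_hasDerivAt ((b : ℂ) + Complex.I * y))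
        simpa only [Ak_zero, Ak_one] using this
      exact (h1.const_mul ((Complex.I * (y : ℂ)) ^ j * Complex.exp (Complex.I * y * a))).div_const
        (Airy (Complex.I * y) ^ 2))
  exact h.2.const_mul (1 / (2 * (Real.pi : ℂ)))

theorem deriv_x1 (hAEN : T_AEN) (hALO : T_ALO) (hALX : T_ALX) (j : ℕ) (a x : ℝ) :
    HasDerivAt (fun x => rC 1 j a x) (x * rC 0 j a x + rC 0 (j + 1) a x) x := by
  obtain ⟨D, hD⟩ := F_bound hAEN hALO hALX j (|x| + 1) (by positivity)
  obtain ⟨D', hD'⟩ := F_bound hAEN hALO hALX (j + 1) (|x| + 1) (by positivity)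
  have hD0 : ∀ y : ℝ, 0 ≤ D * Real.exp (-|y|) := fun y =>
    (norm_nonneg _).trans (hD 0 a x y (by linarith))
  have h := hasDerivAt_integral_of_dominated_loc_of_deriv_le (μ := (volume : Measure ℝ))
    (F := fun x y => F 1 j a x y) (F' := fun x y => x * F 0 j a x y + F 0 (j + 1) a x y) (x₀ := x)
    (bound := fun y => ((|x| + 1) * D + D') * Real.exp (-|y|)) (s := Metric.ball x 1)
    (Metric.ball_mem_nhds x one_pos)
    (Eventually.of_forall fun b => (F_cont hALO 1 j a b).aestronglyMeasurable)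
    (F_int hAEN hALO hALX 1 j a x)
    ((continuous_const.mul (F_cont hALO 0 j a x)).add
      (F_cont hALO 0 (j + 1) a x)).aestronglyMeasurable
    (Eventually.of_forall fun y b hb => by
      have hb' : |b| ≤ |x| + 1 := by
        rw [Metric.mem_ball, Real.dist_eq] at hb
        have := abs_sub_abs_le_abs_sub b x
        linarith
      calc ‖(b : ℂ) * F 0 j a b y + F 0 (j + 1) a b y‖
          ≤ ‖(b : ℂ) * F 0 j a b y‖ + ‖F 0 (j + 1) a b y‖ := norm_add_le _ _
        _ = |b| * ‖F 0 j a b y‖ + ‖F 0 (j + 1) a b y‖ := by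
            rw [norm_mul, Complex.norm_real, Real.norm_eq_abs]
        _ ≤ (|x| + 1) * (D * Real.exp (-|y|)) + D' * Real.exp (-|y|) :=
            add_le_add (mul_le_mul hb' (hD 0 a b y hb') (norm_nonneg _) (by positivity))
              (hD' 0 a b y hb')
        _ = _ := by ring) (int_exp _)
    (Eventually.of_forall fun y b _ => by
      have h1 : HasDerivAt (fun b : ℝ => Ak 1 (b + Complex.I * y))
          ((b + Complex.I * y) * Ak 0 (b + Complex.I * y)) b := by
        have := line_deriv (Airy'_hasDerivAt ((b : ℂ) + Complex.I * y))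
        simpa only [Ak_zero, Ak_one] using this
      refine ((h1.const_mul ((Complex.I * (y : ℂ)) ^ j *
        Complex.exp (Complex.I * y * a))).div_const (Airy (Complex.I * y) ^ 2)).congr_deriv ?_
      unfold F
      rw [pow_succ (Complex.I * (y : ℂ)) j]
      ring)
  refine (h.2.const_mul (1 / (2 * (Real.pi : ℂ)))).congr_deriv ?_
  rw [integral_add ((F_int hAEN hALO hALX 0 j a x).const_mul _)
    (F_int hAEN hALO hALX 0 (j + 1) a x), integral_const_mul, rC_eq, rC_eq]
  ring

theorem cont_p (hAEN : T_AEN) (hALO : T_ALO) (hALX : T_ALX) (i : Fin 2) (j : ℕ) :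
    Continuous fun p : ℝ × ℝ => rC i j p.1 p.2 := by
  rw [continuous_iff_continuousAt]
  intro p
  obtain ⟨D, hD⟩ := F_bound hAEN hALO hALX j (|p.2| + 1) (by positivity)
  have h : ContinuousAt (fun q : ℝ × ℝ => ∫ y : ℝ, F i j q.1 q.2 y) p := by
    refine continuousAt_of_dominated (bound := fun y => D * Real.exp (-|y|))
      (Eventually.of_forall fun q => (F_cont hALO i j q.1 q.2).aestronglyMeasurable) ?_
      (int_exp D) (Eventually.of_forall fun y => (F_cont_p hALO i j y).continuousAt)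
    filter_upwards [Metric.ball_mem_nhds p one_pos] with q hq
    refine Eventually.of_forall fun y => hD i q.1 q.2 y ?_
    rw [Metric.mem_ball, Prod.dist_eq, max_lt_iff, Real.dist_eq, Real.dist_eq] at hq
    have := abs_sub_abs_le_abs_sub q.2 p.2
    linarith [hq.2]
  exact (continuousAt_const.mul h)

end RHO_

open RHO_ in
theorem p_RHO (hAEN : T_AEN) (hALO : T_ALO) (hALX : T_ALX) : T_RHO := by
  refine ⟨rC_real, fun i j a x => ?_, fun j a x => ?_, fun j a x => ?_, fun i j => ?_⟩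
  · exact hasDerivAt_re (deriv_a hAEN hALO hALX i j a x)
  · exact hasDerivAt_re (deriv_x0 hAEN hALO hALX j a x)
  · refine (hasDerivAt_re (deriv_x1 hAEN hALO hALX j a x)).congr_deriv ?_
    rw [Complex.add_re, Complex.re_ofReal_mul]
    rfl
  · exact Complex.continuous_re.comp (cont_p hAEN hALO hALX i j)

end Pool.Agent.CHN
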