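import Pool.Agent.CHN.Targets

/-!
# CHN-RSH: the shifted contour
-/

set_option autoImplicit false

open MeasureTheory Filter Topology Set

namespace Pool.Agent.CHN

open Pool.Agent.Freud (Airy Airy' Airy_hasDerivAt)

namespace RSH_

theorem kern_int {L : ℝ} (hL : 0 < L) : Integrable fun y : ℝ => (1 + (y / L) ^ 2)⁻¹ :=
  integrable_inv_one_add_sq.comp_div hL.ne'

theorem kern_val {L : ℝ} (hL : 0 < L) : ∫ y : ℝ, (1 + (y / L) ^ 2)⁻¹ = L * Real.pi := by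
  have h := Measure.integral_comp_div (fun y : ℝ => (1 + y ^ 2)⁻¹) L
  rw [h, integral_univ_inv_one_add_sq, abs_of_pos hL, smul_eq_mul]

theorem line_int (f : ℂ → ℂ) (b L M : ℝ) (hL : 0 < L)
    (hd : ∀ s : ℂ, 0 ≤ s.re → s.re ≤ b → DifferentiableAt ℂ f s)
    (hB : ∀ c y : ℝ, 0 ≤ c → c ≤ b → ‖f (c + Complex.I * y)‖ ≤ M * (1 + (y / L) ^ 2)⁻¹)
    (c : ℝ) (hc : 0 ≤ c) (hcb : c ≤ b) : Integrable fun y : ℝ => f (c + Complex.I * y) := by
  have hcont : Continuous fun y : ℝ => f (c + Complex.I * y) := by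
    rw [continuous_iff_continuousAt]
    intro y
    have h1 : ContinuousAt f (c + Complex.I * y) := by
      refine (hd _ ?_ ?_).continuousAt
      · simpa using hc
      · simpa using hcb
    have h2 : ContinuousAt (fun y : ℝ => (c : ℂ) + Complex.I * y) y := by fun_prop
    exact ContinuousAt.comp (f := fun y : ℝ => (c : ℂ) + Complex.I * y) h1 h2
  refine Integrable.mono' ((kern_int hL).const_mul M) hcont.aestronglyMeasurable ?_
  filter_upwards with y using hB c y hc hcb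

/-- Shift of the contour. -/
theorem shift (f : ℂ → ℂ) (b L M : ℝ) (hb : 0 ≤ b) (hL : 0 < L)
    (hd : ∀ s : ℂ, 0 ≤ s.re → s.re ≤ b → DifferentiableAt ℂ f s)
    (hB : ∀ c y : ℝ, 0 ≤ c → c ≤ b → ‖f (c + Complex.I * y)‖ ≤ M * (1 + (y / L) ^ 2)⁻¹) :
    ∫ y : ℝ, f (Complex.I * y) = ∫ y : ℝ, f (b + Complex.I * y) := by
  have hi := line_int f b L M hL hd hB
  have i0 := hi 0 le_rfl hb
  have ib := hi b hb le_rfl
  have e0 : (fun y : ℝ => f ((0 : ℝ) + Complex.I * y)) = fun y : ℝ => f (Complex.I * y) := by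
    funext y
    simp
  rw [e0] at i0
  have t0 := intervalIntegral_tendsto_integral i0 tendsto_neg_atTop_atBot tendsto_id
  have tb := intervalIntegral_tendsto_integral ib tendsto_neg_atTop_atBot tendsto_id
  have hdiff := (tb.sub t0).norm
  have hz : Tendsto (fun T : ℝ => 2 * (M * (1 + (T / L) ^ 2)⁻¹ * b)) atTop (𝓝 0) := by
    have h1 : Tendsto (fun T : ℝ => (1 + (T / L) ^ 2)⁻¹) atTop (𝓝 0) := by
      refine tendsto_inv_atTop_zero.comp ?_
      refine tendsto_atTop_add_const_left _ _ ?_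
      exact (tendsto_pow_atTop two_ne_zero).comp (tendsto_id.atTop_div_const hL)
    have h2 := ((h1.const_mul M).mul_const b).const_mul 2
    simpa using h2
  have hle : ∀ᶠ T : ℝ in atTop,
      ‖(∫ y in (-T)..(id T), f (b + Complex.I * y)) - ∫ y in (-T)..(id T), f (Complex.I * y)‖
        ≤ 2 * (M * (1 + (T / L) ^ 2)⁻¹ * b) := by
    filter_upwards [eventually_ge_atTop (0 : ℝ)] with T hT
    have hrect := Complex.integral_boundary_rect_eq_zero_of_differentiableOn f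
      (⟨0, -T⟩ : ℂ) (⟨b, T⟩ : ℂ) (by
        intro s hs
        rw [Complex.mem_reProdIm] at hs
        simp only at hs
        rw [Set.uIcc_of_le hb] at hs
        exact (hd s hs.1.1 hs.1.2).differentiableWithinAt)
    simp only [smul_eq_mul] at hrect
    have c1 : (∫ y : ℝ in (-T)..T, f ((b : ℂ) + y * Complex.I)) =
        ∫ y : ℝ in (-T)..T, f (b + Complex.I * y) := by
      refine intervalIntegral.integral_congr fun y _ => ?_
      simp only [mul_comm]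
    have c2 : (∫ y : ℝ in (-T)..T, f (((0 : ℝ) : ℂ) + y * Complex.I)) =
        ∫ y : ℝ in (-T)..T, f (Complex.I * y) := by
      refine intervalIntegral.integral_congr fun y _ => ?_
      simp only [mul_comm, Complex.ofReal_zero, zero_add]
    rw [c1, c2] at hrect
    have hI : Complex.I * ((∫ y : ℝ in (-T)..T, f (b + Complex.I * y)) -
        ∫ y : ℝ in (-T)..T, f (Complex.I * y)) =
        (∫ x : ℝ in (0 : ℝ)..b, f (x + (T : ℝ) * Complex.I)) -
          ∫ x : ℝ in (0 : ℝ)..b, f (x + ((-T : ℝ) : ℂ) * Complex.I) := by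
      linear_combination hrect
    have hn : ‖(∫ y : ℝ in (-T)..T, f (b + Complex.I * y)) -
        ∫ y : ℝ in (-T)..T, f (Complex.I * y)‖ =
        ‖(∫ x : ℝ in (0 : ℝ)..b, f (x + (T : ℝ) * Complex.I)) -
          ∫ x : ℝ in (0 : ℝ)..b, f (x + ((-T : ℝ) : ℂ) * Complex.I)‖ := by
      rw [← hI, norm_mul, Complex.norm_I, one_mul]
    simp only [id]
    rw [hn]
    have b1 : ∀ S : ℝ, S ^ 2 = T ^ 2 → ‖∫ x : ℝ in (0 : ℝ)..b, f (x + (S : ℂ) * Complex.I)‖ ≤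
        (M * (1 + (T / L) ^ 2)⁻¹) * |b - 0| := by
      intro S hS
      refine intervalIntegral.norm_integral_le_of_norm_le_const fun x hx => ?_
      rw [Set.uIoc_of_le hb] at hx
      have h := hB x S hx.1.le hx.2
      rw [div_pow, hS, ← div_pow] at h
      rwa [mul_comm (S : ℂ) Complex.I]
    have h1 := b1 T rfl
    have h2 := b1 (-T) (by ring)
    rw [sub_zero, abs_of_nonneg hb] at h1 h2
    refine (norm_sub_le _ _).trans ?_
    linarith
  have hfin : ‖(∫ y : ℝ, f (b + Complex.I * y)) - ∫ y : ℝ, f (Complex.I * y)‖ ≤ 0 :=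
    le_of_tendsto_of_tendsto hdiff hz hle
  have h3 := norm_le_zero_iff.1 hfin
  exact (sub_eq_zero.1 h3).symm

theorem pw {A1 A2 A3 A4 K : ℝ} (_h1 : 0 ≤ A1) (h2 : 0 < A2) (h3 : 0 ≤ A3) (h4 : 0 < A4)
    (hK : 1 ≤ K) (hm : A1 * A2 ≤ A3 * A4) (hl : K ^ 3 * A2 ≤ A4) :
    A1 / A4 ^ 2 ≤ A3 / A2 ^ 2 * K⁻¹ := by
  have hK0 : 0 < K := by linarith
  have hK3 : K ≤ K ^ 3 := by nlinarith [mul_pos hK0 hK0]
  have hl' : K * A2 ≤ A4 := (mul_le_mul_of_nonneg_right hK3 h2.le).trans hl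
  rw [← div_eq_mul_inv, div_div, div_le_div_iff₀ (by positivity) (by positivity)]
  calc A1 * (A2 ^ 2 * K) = (A1 * A2) * (K * A2) := by ring
    _ ≤ (A3 * A4) * A4 := mul_le_mul hm hl' (by positivity) (by positivity)
    _ = A3 * A4 ^ 2 := by ring

theorem cube {A x : ℝ} (hA : 0 ≤ A) (hx : 0 ≤ x) :
    A ^ 3 + 3 / 2 * A * x ≤ (A ^ 2 + x) ^ (3 / 2 : ℝ) := by
  set t := Real.sqrt (A ^ 2 + x) with ht
  have h0 : 0 ≤ A ^ 2 + x := by positivity
  have ht2 : t ^ 2 = A ^ 2 + x := Real.sq_sqrt h0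
  have ht0 : 0 ≤ t := Real.sqrt_nonneg _
  have hAt : A ≤ t := by
    rw [ht]
    exact Real.le_sqrt_of_sq_le (by linarith)
  have h3 : (A ^ 2 + x) ^ (3 / 2 : ℝ) = t ^ 3 := by
    rw [← ht2, ← Real.rpow_natCast t 2, ← Real.rpow_mul ht0, ← Real.rpow_natCast t 3]
    norm_num
  rw [h3]
  have hx' : x = t ^ 2 - A ^ 2 := by linarith
  rw [hx']
  have : 0 ≤ (t - A) ^ 2 * (t + A / 2) := by positivity
  nlinarith [this]

theorem sqp {A : ℝ} (hA : 0 ≤ A) : (A ^ 2) ^ (3 / 2 : ℝ) = A ^ 3 := by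
  rw [← Real.rpow_natCast A 2, ← Real.rpow_mul hA, ← Real.rpow_natCast A 3]
  norm_num

end RSH_

open RSH_ in
theorem p_RSH (hAEN : T_AEN) (hAZR : T_AZR) (hACM : T_ACM) (hACL : T_ACL) (hARE : T_ARE) :
    T_RSH := by
  obtain ⟨z, hz⟩ := hAEN
  obtain ⟨b₀, hb₀, hcl⟩ := hACL z hz
  obtain ⟨c₀, C₀, hc₀, hC₀, hre⟩ := hARE
  have hne : ∀ s : ℂ, 0 ≤ s.re → Airy s ≠ 0 := by
    intro s hs h
    exact absurd (hAZR s h).2 (not_lt.2 hs)
  have hup : ∀ x : ℝ, 0 ≤ x → ‖Airy (x : ℂ)‖ ≤ C₀ * Real.exp (-(2 / 3 * x ^ (3 / 2 : ℝ))) := by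
    intro x hx
    obtain ⟨h1, h2, h3⟩ := hre x hx
    have h4 : ‖Airy (x : ℂ)‖ = |(Airy (x : ℂ)).re| := by
      have : Airy (x : ℂ) = (((Airy (x : ℂ)).re : ℝ) : ℂ) := Complex.ext rfl (by simpa using h1)
      rw [this, Complex.norm_real, Real.norm_eq_abs, Complex.ofReal_re]
    have h5 : 0 ≤ (Airy (x : ℂ)).re := le_trans (by positivity) h2
    rw [h4, abs_of_nonneg h5]
    exact h3
  have hlo : ∀ x : ℝ, 0 ≤ x → c₀ * Real.exp (-(2 / 3 * x ^ (3 / 2 : ℝ))) / (1 + x) ≤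
      ‖Airy (x : ℂ)‖ := by
    intro x hx
    obtain ⟨h1, h2, h3⟩ := hre x hx
    exact h2.trans (Complex.re_le_norm _)
  refine ⟨C₀ / c₀ ^ 2 * (1 + b₀) / 2, 3, fun a x ha hx => ?_⟩
  set b : ℝ := a ^ 2 with hb
  have hb0 : 0 ≤ b := sq_nonneg a
  have hL : 0 < b + b₀ := by linarith
  let f : ℂ → ℂ := fun s => Complex.exp (a * s) * Airy (x + s) / Airy s ^ 2
  have hd : ∀ s : ℂ, 0 ≤ s.re → s.re ≤ b → DifferentiableAt ℂ f s := by
    intro s hs _
    have d1 : DifferentiableAt ℂ (fun s : ℂ => Complex.exp (a * s)) s := by fun_prop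
    have d2 : DifferentiableAt ℂ (fun s : ℂ => Airy (x + s)) s := by
      have := (Airy_hasDerivAt (x + s)).comp_const_add (x : ℂ) s
      exact this.differentiableAt
    have d3 : DifferentiableAt ℂ (fun s : ℂ => Airy s ^ 2) s :=
      ((Airy_hasDerivAt s).differentiableAt).pow 2
    exact (d1.mul d2).div d3 (pow_ne_zero 2 (hne s hs))
  -- pointwise bound
  have hpt : ∀ c y : ℝ, 0 ≤ c → ‖f (c + Complex.I * y)‖ ≤
      Real.exp (a * c) * (‖Airy ((c + x : ℝ) : ℂ)‖ / ‖Airy (c : ℂ)‖ ^ 2) *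
        (1 + (y / (c + b₀)) ^ 2)⁻¹ := by
    intro c y hc
    have e1 : (x : ℂ) + (c + Complex.I * y) = ((c + x : ℝ) : ℂ) + Complex.I * y := by
      push_cast
      ring
    have e2 : ‖Complex.exp (a * (c + Complex.I * y))‖ = Real.exp (a * c) := by
      rw [Complex.norm_exp]
      simp
    simp only [f, norm_div, norm_mul, norm_pow, e1, e2]
    rw [mul_div_assoc, mul_assoc]
    refine mul_le_mul_of_nonneg_left ?_ (Real.exp_pos _).le
    have n1 : 0 < ‖Airy (c : ℂ)‖ := norm_pos_iff.2 (hne _ (by simpa using hc))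
    have n2 : 0 < ‖Airy ((c : ℂ) + Complex.I * y)‖ := norm_pos_iff.2 (hne _ (by simpa using hc))
    exact pw (norm_nonneg _) n1 (norm_nonneg _) n2 (by nlinarith [sq_nonneg (y / (c + b₀))])
      (hACM z hz c x y hc hx) (hcl c y hc)
  set m : ℝ := c₀ * Real.exp (-(2 / 3 * b ^ (3 / 2 : ℝ))) / (1 + b) with hm
  have hm0 : 0 < m := by positivity
  have hB : ∀ c y : ℝ, 0 ≤ c → c ≤ b → ‖f (c + Complex.I * y)‖ ≤
      (C₀ / m ^ 2) * (1 + (y / (b + b₀)) ^ 2)⁻¹ := by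
    intro c y hc hcb
    refine (hpt c y hc).trans ?_
    have k1 : Real.exp (a * c) ≤ 1 := by
      rw [Real.exp_le_one_iff]
      nlinarith
    have k2 : ‖Airy ((c + x : ℝ) : ℂ)‖ ≤ C₀ := by
      refine (hup (c + x) (by linarith)).trans ?_
      have : Real.exp (-(2 / 3 * (c + x) ^ (3 / 2 : ℝ))) ≤ 1 := by
        rw [Real.exp_le_one_iff]
        have : 0 ≤ (c + x) ^ (3 / 2 : ℝ) := Real.rpow_nonneg (by linarith) _
        linarith
      nlinarith
    have k3 : m ≤ ‖Airy (c : ℂ)‖ := by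
      refine le_trans ?_ (hlo c hc)
      rw [hm]
      have r1 : c ^ (3 / 2 : ℝ) ≤ b ^ (3 / 2 : ℝ) := Real.rpow_le_rpow hc hcb (by norm_num)
      have r2 : Real.exp (-(2 / 3 * b ^ (3 / 2 : ℝ))) ≤ Real.exp (-(2 / 3 * c ^ (3 / 2 : ℝ))) :=
        Real.exp_le_exp.2 (by linarith)
      exact div_le_div₀ (by positivity) (mul_le_mul_of_nonneg_left r2 hc₀.le) (by linarith)
        (by linarith)
    have k4 : (1 + (y / (c + b₀)) ^ 2)⁻¹ ≤ (1 + (y / (b + b₀)) ^ 2)⁻¹ := by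
      refine inv_anti₀ (by positivity) ?_
      have : (y / (b + b₀)) ^ 2 ≤ (y / (c + b₀)) ^ 2 := by
        rw [div_pow, div_pow]
        exact div_le_div_of_nonneg_left (sq_nonneg y) (by positivity)
          (pow_le_pow_left₀ (by linarith) (by linarith) 2)
      linarith
    have k5 : ‖Airy ((c + x : ℝ) : ℂ)‖ / ‖Airy (c : ℂ)‖ ^ 2 ≤ C₀ / m ^ 2 :=
      div_le_div₀ hC₀.le k2 (by positivity) (pow_le_pow_left₀ hm0.le k3 2)
    have k6 : Real.exp (a * c) * (‖Airy ((c + x : ℝ) : ℂ)‖ / ‖Airy (c : ℂ)‖ ^ 2) ≤ C₀ / m ^ 2 := by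
      calc _ ≤ 1 * (C₀ / m ^ 2) := mul_le_mul k1 k5 (by positivity) (by norm_num)
        _ = _ := one_mul _
    exact mul_le_mul k6 k4 (by positivity) (by positivity)
  have hsh := shift f b (b + b₀) (C₀ / m ^ 2) hb0 hL hd hB
  have hrC : rC 0 0 a x = (1 / (2 * Real.pi) : ℂ) * ∫ y : ℝ, f (b + Complex.I * y) := by
    rw [← hsh]
    unfold rC
    congr 1
    refine integral_congr_ae ?_
    filter_upwards with y
    simp only [f, Ak, pow_zero, one_mul, if_true]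
    rw [mul_comm (a : ℂ) (Complex.I * y)]
  set Mb : ℝ := Real.exp (a * b) * (‖Airy ((b + x : ℝ) : ℂ)‖ / ‖Airy (b : ℂ)‖ ^ 2) with hMb
  have hMb0 : 0 ≤ Mb := by positivity
  have hnorm : ‖∫ y : ℝ, f (b + Complex.I * y)‖ ≤ Mb * ((b + b₀) * Real.pi) := by
    calc ‖∫ y : ℝ, f (b + Complex.I * y)‖ ≤ ∫ y : ℝ, Mb * (1 + (y / (b + b₀)) ^ 2)⁻¹ := by
          refine norm_integral_le_of_norm_le ((kern_int hL).const_mul Mb) ?_
          filter_upwards with y using hpt b y hb0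
      _ = Mb * ((b + b₀) * Real.pi) := by
          rw [integral_const_mul, kern_val hL]
  have hr : |r 0 0 a x| ≤ Mb * (b + b₀) / 2 := by
    have h1 : |r 0 0 a x| ≤ ‖rC 0 0 a x‖ := Complex.abs_re_le_norm _
    refine h1.trans ?_
    rw [hrC, norm_mul]
    have h2 : ‖(1 / (2 * Real.pi) : ℂ)‖ = 1 / (2 * Real.pi) := by
      have : (1 / (2 * Real.pi) : ℂ) = ((1 / (2 * Real.pi) : ℝ) : ℂ) := by push_cast; rfl
      rw [this, Complex.norm_real, Real.norm_eq_abs, abs_of_pos (by positivity)]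
    rw [h2]
    calc 1 / (2 * Real.pi) * ‖∫ y : ℝ, f (b + Complex.I * y)‖
        ≤ 1 / (2 * Real.pi) * (Mb * ((b + b₀) * Real.pi)) :=
          mul_le_mul_of_nonneg_left hnorm (by positivity)
      _ = Mb * (b + b₀) / 2 := by
          field_simp
  -- final estimate
  have hA : 0 ≤ -a := by linarith
  have hA3 : b ^ (3 / 2 : ℝ) = (-a) ^ 3 := by
    rw [hb, ← neg_sq a]
    exact sqp hA
  have hcu : (-a) ^ 3 + 3 / 2 * (-a) * x ≤ (b + x) ^ (3 / 2 : ℝ) := by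
    have := cube hA hx
    rwa [neg_sq, ← hb] at this
  have hratio : ‖Airy ((b + x : ℝ) : ℂ)‖ / ‖Airy (b : ℂ)‖ ^ 2 ≤
      C₀ / c₀ ^ 2 * (1 + b) ^ 2 *
        Real.exp (4 / 3 * (-a) ^ 3 - 2 / 3 * (b + x) ^ (3 / 2 : ℝ)) := by
    have h1 := hup (b + x) (by linarith)
    have h2 : m ^ 2 ≤ ‖Airy (b : ℂ)‖ ^ 2 := pow_le_pow_left₀ hm0.le (hlo b hb0) 2
    calc ‖Airy ((b + x : ℝ) : ℂ)‖ / ‖Airy (b : ℂ)‖ ^ 2
        ≤ (C₀ * Real.exp (-(2 / 3 * (b + x) ^ (3 / 2 : ℝ)))) / m ^ 2 :=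
          div_le_div₀ (by positivity) h1 (by positivity) h2
      _ = C₀ / c₀ ^ 2 * (1 + b) ^ 2 *
        Real.exp (4 / 3 * (-a) ^ 3 - 2 / 3 * (b + x) ^ (3 / 2 : ℝ)) := by
          rw [hm, hA3]
          have e1 : Real.exp (4 / 3 * (-a) ^ 3 - 2 / 3 * (b + x) ^ (3 / 2 : ℝ)) =
              Real.exp (-(2 / 3 * (b + x) ^ (3 / 2 : ℝ))) /
                Real.exp (-(2 / 3 * (-a) ^ 3)) ^ 2 := by
            rw [← Real.exp_nat_mul, ← Real.exp_sub]
            congr 1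
            push_cast
            ring
          rw [e1]
          field_simp
  have hR : |R a x| ≤ Real.exp (a * x - a ^ 3 / 3) * (Mb * (b + b₀) / 2) := by
    unfold R
    rw [abs_mul, abs_of_pos (Real.exp_pos _)]
    exact mul_le_mul_of_nonneg_left hr (Real.exp_pos _).le
  refine hR.trans ?_
  have hMb2 : Mb ≤ Real.exp (a * b) * (C₀ / c₀ ^ 2 * (1 + b) ^ 2 *
        Real.exp (4 / 3 * (-a) ^ 3 - 2 / 3 * (b + x) ^ (3 / 2 : ℝ))) :=
    mul_le_mul_of_nonneg_left hratio (Real.exp_pos _).le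
  have hexp : Real.exp (a * x - a ^ 3 / 3) * (Real.exp (a * b) *
      Real.exp (4 / 3 * (-a) ^ 3 - 2 / 3 * (b + x) ^ (3 / 2 : ℝ))) ≤ Real.exp (2 * a * x) := by
    rw [← Real.exp_add, ← Real.exp_add]
    refine Real.exp_le_exp.2 ?_
    have : a * b = a ^ 3 := by rw [hb]; ring
    rw [this]
    nlinarith [hcu]
  have hbb : b + b₀ ≤ (1 + b₀) * (1 + b) := by nlinarith [mul_nonneg hb0 hb₀.le]
  calc Real.exp (a * x - a ^ 3 / 3) * (Mb * (b + b₀) / 2)
      ≤ Real.exp (a * x - a ^ 3 / 3) * ((Real.exp (a * b) * (C₀ / c₀ ^ 2 * (1 + b) ^ 2 *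
        Real.exp (4 / 3 * (-a) ^ 3 - 2 / 3 * (b + x) ^ (3 / 2 : ℝ)))) *
          ((1 + b₀) * (1 + b)) / 2) := by
        refine mul_le_mul_of_nonneg_left ?_ (Real.exp_pos _).le
        refine div_le_div_of_nonneg_right ?_ (by norm_num)
        exact mul_le_mul hMb2 hbb hL.le (by positivity)
    _ = (C₀ / c₀ ^ 2 * (1 + b₀) / 2 * (1 + b) ^ 3) * (Real.exp (a * x - a ^ 3 / 3) *
        (Real.exp (a * b) * Real.exp (4 / 3 * (-a) ^ 3 - 2 / 3 * (b + x) ^ (3 / 2 : ℝ)))) := by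
        ring
    _ ≤ (C₀ / c₀ ^ 2 * (1 + b₀) / 2 * (1 + b) ^ 3) * Real.exp (2 * a * x) :=
        mul_le_mul_of_nonneg_left hexp (by positivity)

end Pool.Agent.CHN
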