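import Pool.Agent.CHN.Targets

/-!
# CHN: scaling of the two-sided Brownian motion (`T_SCA`), helper14
-/

set_option autoImplicit false

open MeasureTheory ProbabilityTheory Filter Topology Set
open scoped NNReal

namespace Pool.Agent.CHN

universe u

theorem SCA_.e1 (c s : ℝ≥0) : (c : ℝ) * (s : ℝ) = ((c * s : ℝ≥0) : ℝ) := by push_cast; rfl

theorem SCA_.e2 (c s : ℝ≥0) : (c : ℝ) * (-(s : ℝ)) = -((c * s : ℝ≥0) : ℝ) := by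
  push_cast; ring

theorem p_SCA : T_SCA.{u} := by
  intro Ω _ P W hW c hc
  refine ⟨?_, ?_, ?_⟩
  · have h := hW.right.smul hc
    have e : (fun (t : ℝ≥0) ω => (√(c : ℝ))⁻¹ * (fun s : ℝ≥0 => W (s : ℝ)) (c * t) ω) =
        fun s : ℝ≥0 => (fun (s : ℝ) ω => (√(c : ℝ))⁻¹ * W (c * s) ω) (s : ℝ) := by
      funext t ω
      change _ = (√(c : ℝ))⁻¹ * W ((c : ℝ) * (t : ℝ)) ω
      rw [SCA_.e1]
    rw [← e]
    exact h
  · have h := hW.left.smul hc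
    have e : (fun (t : ℝ≥0) ω => (√(c : ℝ))⁻¹ * (fun s : ℝ≥0 => W (-(s : ℝ))) (c * t) ω) =
        fun s : ℝ≥0 => (fun (s : ℝ) ω => (√(c : ℝ))⁻¹ * W (c * s) ω) (-(s : ℝ)) := by
      funext t ω
      change _ = (√(c : ℝ))⁻¹ * W ((c : ℝ) * (-(t : ℝ))) ω
      rw [SCA_.e2]
    rw [← e]
    exact h
  · have hm : Measurable fun (x : ℝ≥0 → ℝ) (s : ℝ≥0) => (√(c : ℝ))⁻¹ * x (c * s) :=
      measurable_pi_lambda _ fun s => (measurable_pi_apply (c * s)).const_mul _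
    have h := hW.indep.comp hm hm
    have e1 : (fun (x : ℝ≥0 → ℝ) (s : ℝ≥0) => (√(c : ℝ))⁻¹ * x (c * s)) ∘
        (fun ω (s : ℝ≥0) => W (s : ℝ) ω) =
        fun ω (s : ℝ≥0) => (fun (s : ℝ) ω => (√(c : ℝ))⁻¹ * W (c * s) ω) (s : ℝ) ω := by
      funext ω s
      change (√(c : ℝ))⁻¹ * W ((c * s : ℝ≥0) : ℝ) ω = (√(c : ℝ))⁻¹ * W ((c : ℝ) * (s : ℝ)) ω
      rw [SCA_.e1]
    have e2 : (fun (x : ℝ≥0 → ℝ) (s : ℝ≥0) => (√(c : ℝ))⁻¹ * x (c * s)) ∘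
        (fun ω (s : ℝ≥0) => W (-(s : ℝ)) ω) =
        fun ω (s : ℝ≥0) => (fun (s : ℝ) ω => (√(c : ℝ))⁻¹ * W (c * s) ω) (-(s : ℝ)) ω := by
      funext ω s
      change (√(c : ℝ))⁻¹ * W (-((c * s : ℝ≥0) : ℝ)) ω =
        (√(c : ℝ))⁻¹ * W ((c : ℝ) * (-(s : ℝ))) ω
      rw [SCA_.e2]
    rw [e1, e2] at h
    exact h

end Pool.Agent.CHN
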