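import Pool.Agent.CHN.Targets

/-!
# CHN: SGN, the sign argument (helper62)
-/

set_option autoImplicit false

open MeasureTheory Filter Topology Set

namespace Pool.Agent.CHN

namespace SGN_

theorem int_exp {b : ℝ} (hb : 0 < b) :
    IntegrableOn (fun v : ℝ => Real.exp (-(b * v))) (Ioi 0) := by
  have h := exp_neg_integrableOn_Ioi 0 hb
  simpa [neg_mul] using h

theorem int1 {b : ℝ} (hb : 0 < b) {f : ℝ → ℝ} (hf : Continuous f) {C : ℝ}
    (hC : ∀ v, |f v| ≤ C) :
    IntegrableOn (fun v : ℝ => Real.exp (-(b * v)) * f v) (Ioi 0) := by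
  have hc : Continuous (fun v : ℝ => Real.exp (-(b * v)) * f v) := by fun_prop
  refine Integrable.mono' ((int_exp hb).mul_const C) hc.aestronglyMeasurable
    (ae_of_all _ fun v => ?_)
  rw [Real.norm_eq_abs, abs_mul, abs_of_pos (Real.exp_pos _)]
  exact mul_le_mul_of_nonneg_left (hC v) (Real.exp_pos _).le

theorem int2 {b : ℝ} (hb : 0 < b) {f : ℝ → ℝ} (hf : Continuous f) {C : ℝ}
    (hC : ∀ v, |f v| ≤ C) :
    IntegrableOn (fun v : ℝ => v * Real.exp (-(b * v)) * f v) (Ioi 0) := by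
  have hc : Continuous (fun v : ℝ => v * Real.exp (-(b * v)) * f v) := by fun_prop
  have hb2 : 0 < b / 2 := by linarith
  refine Integrable.mono' (((int_exp hb2).mul_const C).const_mul (2 / b))
    hc.aestronglyMeasurable ?_
  refine ae_restrict_of_forall_mem measurableSet_Ioi fun v hv => ?_
  have hv0 : 0 < v := hv
  rw [Real.norm_eq_abs, abs_mul, abs_mul, abs_of_pos hv0, abs_of_pos (Real.exp_pos _)]
  have h1 : v ≤ 2 / b * Real.exp (b / 2 * v) := by
    have h2 := Real.add_one_le_exp (b / 2 * v)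
    have h3 : v = 2 / b * (b / 2 * v) := by field_simp
    calc v = 2 / b * (b / 2 * v) := h3
      _ ≤ 2 / b * Real.exp (b / 2 * v) := by
          apply mul_le_mul_of_nonneg_left _ (by positivity)
          linarith
  have h4 : v * Real.exp (-(b * v)) ≤ 2 / b * Real.exp (-(b / 2 * v)) := by
    calc v * Real.exp (-(b * v)) ≤ 2 / b * Real.exp (b / 2 * v) * Real.exp (-(b * v)) :=
          mul_le_mul_of_nonneg_right h1 (Real.exp_pos _).le
      _ = 2 / b * Real.exp (-(b / 2 * v)) := by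
          rw [mul_assoc, ← Real.exp_add]
          congr 2
          ring
  have hC0 : 0 ≤ C := (abs_nonneg _).trans (hC 0)
  calc v * Real.exp (-(b * v)) * |f v| ≤ 2 / b * Real.exp (-(b / 2 * v)) * C :=
        mul_le_mul h4 (hC v) (abs_nonneg _) (by positivity)
    _ = 2 / b * (Real.exp (-(b / 2 * v)) * C) := by ring

theorem comb4 {f0 f1 f2 f3 : ℝ → ℝ} {s : Set ℝ} (h0 : IntegrableOn f0 s)
    (h1 : IntegrableOn f1 s) (h2 : IntegrableOn f2 s) (h3 : IntegrableOn f3 s)
    (c0 c1 c2 c3 : ℝ) :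
    (∫ v in s, (c0 * f0 v + c1 * f1 v + c2 * f2 v + c3 * f3 v)) =
      c0 * (∫ v in s, f0 v) + c1 * (∫ v in s, f1 v) + c2 * (∫ v in s, f2 v) +
        c3 * (∫ v in s, f3 v) := by
  have i0 : Integrable (fun v => c0 * f0 v) (volume.restrict s) := h0.const_mul c0
  have i1 : Integrable (fun v => c1 * f1 v) (volume.restrict s) := h1.const_mul c1
  have i2 : Integrable (fun v => c2 * f2 v) (volume.restrict s) := h2.const_mul c2
  have i3 : Integrable (fun v => c3 * f3 v) (volume.restrict s) := h3.const_mul c3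
  have i01 : Integrable (fun v => c0 * f0 v + c1 * f1 v) (volume.restrict s) := i0.add i1
  have i012 : Integrable (fun v => c0 * f0 v + c1 * f1 v + c2 * f2 v) (volume.restrict s) :=
    i01.add i2
  rw [integral_add i012 i3, integral_add i01 i2, integral_add i0 i1, integral_const_mul,
    integral_const_mul, integral_const_mul, integral_const_mul]

/-- signs near a zero with negative derivative -/
theorem signs {L : ℝ → ℝ} {D : ℝ} (h0 : L 0 = 0) (hd : HasDerivAt L (-D) 0) (hD : 0 < D) :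
    ∃ δ > 0, (∀ v, -δ < v → v < 0 → 0 < L v) ∧ ∀ v, 0 < v → v < δ → L v < 0 := by
  have h1 := hasDerivAt_iff_tendsto_slope.1 hd
  have h2 : ∀ᶠ v in 𝓝[≠] (0 : ℝ), slope L 0 v < 0 :=
    h1.eventually (gt_mem_nhds (by linarith))
  rw [eventually_nhdsWithin_iff, Metric.eventually_nhds_iff] at h2
  obtain ⟨δ, hδ, h3⟩ := h2
  refine ⟨δ, hδ, ?_, ?_⟩
  · intro v hv1 hv2
    have h4 := h3 (y := v) (by rw [Real.dist_eq, sub_zero, abs_lt]; constructor <;> linarith)
      hv2.ne
    rw [slope_def_field, h0, sub_zero, sub_zero] at h4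
    by_contra hn
    push Not at hn
    have := div_nonneg_of_nonpos hn hv2.le
    linarith
  · intro v hv1 hv2
    have h4 := h3 (y := v) (by rw [Real.dist_eq, sub_zero, abs_lt]; constructor <;> linarith)
      hv1.ne'
    rw [slope_def_field, h0, sub_zero, sub_zero] at h4
    by_contra hn
    push Not at hn
    have := div_nonneg hn hv1.le
    linarith

/-- the abstract sign argument -/
theorem core {L : ℝ → ℝ} {D C : ℝ} {a : ℕ → ℝ} (ha : ∀ k, 0 < a k) (hL : Continuous L)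
    (hC : ∀ v, |L v| ≤ C) (h0 : L 0 = 0) (hd : HasDerivAt L (-D) 0) (hD : 0 < D)
    (hpat : ∀ v₁ v₂ v₃ v₄ : ℝ, v₁ < v₂ → v₂ < v₃ → v₃ < v₄ → 0 < L v₁ → L v₂ < 0 → 0 < L v₃ →
      ¬ L v₄ < 0)
    (hs1 : HasSum (fun k => ∫ v in Ioi (0 : ℝ), Real.exp (-(a k * v)) * L v) 0)
    (hs2 : HasSum (fun k => 2 * ∫ v in Ioi (0 : ℝ), v * Real.exp (-(a k * v)) * L v) (-D)) :
    False := by
  obtain ⟨δ, hδ, hneg, hpos⟩ := signs h0 hd hD
  have hB : ∀ v₃ v₄ : ℝ, 0 < v₃ → v₃ < v₄ → 0 < L v₃ → ¬ L v₄ < 0 := by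
    intro v₃ v₄ h3 h34 hL3
    have hm : 0 < min δ v₃ := lt_min hδ h3
    refine hpat (-(δ / 2)) (min δ v₃ / 2) v₃ v₄ (by linarith) ?_ h34
      (hneg _ (by linarith) (by linarith)) (hpos _ (by linarith) ?_) hL3
    · have := min_le_right δ v₃
      linarith
    · have := min_le_left δ v₃
      linarith
  by_cases hcase : ∀ v, 0 < v → L v ≤ 0
  · -- all integrals in `hs1` are nonpositive
    have hle : ∀ k, (∫ v in Ioi (0 : ℝ), Real.exp (-(a k * v)) * L v) ≤ 0 := by
      intro k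
      apply setIntegral_nonpos measurableSet_Ioi
      intro v hv
      exact mul_nonpos_of_nonneg_of_nonpos (Real.exp_pos _).le (hcase v hv)
    have hs1' : HasSum (fun k => -∫ v in Ioi (0 : ℝ), Real.exp (-(a k * v)) * L v) 0 := by
      simpa using hs1.neg
    have hz := (hasSum_zero_iff_of_nonneg (fun k => by
      have := hle k
      linarith)).1 hs1'
    have hz0 : (∫ v in Ioi (0 : ℝ), Real.exp (-(a 0 * v)) * L v) = 0 := by
      have := congrFun hz 0
      simpa using this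
    -- the function is negative on `(0, δ)`
    have hint := int1 (ha 0) hL hC
    have hnn : 0 ≤ᵐ[volume.restrict (Ioi (0 : ℝ))]
        fun v => -(Real.exp (-(a 0 * v)) * L v) := by
      refine ae_restrict_of_forall_mem measurableSet_Ioi fun v hv => ?_
      have := mul_nonpos_of_nonneg_of_nonpos (Real.exp_pos (-(a 0 * v))).le (hcase v hv)
      simp only [Pi.zero_apply]
      linarith
    have hz1 : (∫ v in Ioi (0 : ℝ), -(Real.exp (-(a 0 * v)) * L v)) = 0 := by
      rw [integral_neg, hz0, neg_zero]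
    have hae := (integral_eq_zero_iff_of_nonneg_ae hnn hint.neg).1 hz1
    have hae2 : ∀ᵐ v ∂(volume.restrict (Ioo (0 : ℝ) δ)), -(Real.exp (-(a 0 * v)) * L v) = 0 := by
      have hsub : Ioo (0 : ℝ) δ ⊆ Ioi 0 := fun v hv => hv.1
      exact ae_restrict_of_ae_restrict_of_subset hsub hae
    have hfalse : ∀ᵐ v ∂(volume.restrict (Ioo (0 : ℝ) δ)), False := by
      filter_upwards [hae2, ae_restrict_mem measurableSet_Ioo] with v hv hm
      have h1 := hpos v hm.1 hm.2
      have h2 := mul_neg_of_pos_of_neg (Real.exp_pos (-(a 0 * v))) h1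
      linarith
    rw [ae_iff] at hfalse
    simp only [not_false_eq_true, ofPred_true, Measure.restrict_apply_univ, Real.volume_Ioo,
      sub_zero, ENNReal.ofReal_eq_zero] at hfalse
    linarith
  · push Not at hcase
    obtain ⟨w, hw0, hwL⟩ := hcase
    set S : Set ℝ := {v | 0 < v ∧ 0 < L v} with hS
    have hne : S.Nonempty := ⟨w, hw0, hwL⟩
    have hbdd : BddBelow S := ⟨0, fun v hv => hv.1.le⟩
    set v₀ : ℝ := sInf S with hv0
    have hlow : ∀ v, 0 < v → v < v₀ → L v ≤ 0 := by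
      intro v h1 h2
      by_contra hn
      push Not at hn
      have := csInf_le hbdd (show v ∈ S from ⟨h1, hn⟩)
      linarith
    have hupp : ∀ v, v₀ < v → 0 ≤ L v := by
      intro v h1
      obtain ⟨v', hv', hlt⟩ := exists_lt_of_csInf_lt hne h1
      by_contra hn
      push Not at hn
      exact hB v' v hv'.1 hlt hv'.2 hn
    have hterm : ∀ k, 0 ≤ (∫ v in Ioi (0 : ℝ), v * Real.exp (-(a k * v)) * L v) -
        v₀ * ∫ v in Ioi (0 : ℝ), Real.exp (-(a k * v)) * L v := by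
      intro k
      rw [← integral_const_mul, ← integral_sub (int2 (ha k) hL hC)
        ((int1 (ha k) hL hC).const_mul v₀)]
      apply setIntegral_nonneg measurableSet_Ioi
      intro v hv
      have hv' : 0 < v := hv
      have he := (Real.exp_pos (-(a k * v))).le
      have key : 0 ≤ (v - v₀) * L v := by
        rcases lt_trichotomy v v₀ with h | h | h
        · exact mul_nonneg_of_nonpos_of_nonpos (by linarith) (hlow v hv' h)
        · rw [h]; simp
        · exact mul_nonneg (by linarith) (hupp v h)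
      calc 0 ≤ Real.exp (-(a k * v)) * ((v - v₀) * L v) := mul_nonneg he key
        _ = v * Real.exp (-(a k * v)) * L v - v₀ * (Real.exp (-(a k * v)) * L v) := by ring
    have hsum := (hs2.mul_left (1 / 2 : ℝ)).sub (hs1.mul_left v₀)
    have h5 := hsum.nonneg (fun k => by
      have := hterm k
      linarith)
    linarith

theorem hs_congr {f g : ℕ → ℝ} {s : ℝ} (hg : HasSum g s) (h : ∀ k, f k = g k) :
    HasSum f s := by
  have : f = g := funext h
  rw [this]
  exact hg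

end SGN_

open SGN_ in
theorem p_SGN : T_SGN := by
  intro G a u hd hb hG0 ha h1 h2 hpat t
  by_contra hcon
  push Not at hcon
  set D : ℝ := G 4 t / G 0 t - 4 * (G 1 t / G 0 t) * (G 3 t / G 0 t) -
    3 * (G 2 t / G 0 t) ^ 2 + 12 * (G 1 t / G 0 t) ^ 2 * (G 2 t / G 0 t) -
    6 * (G 1 t / G 0 t) ^ 4 with hDdef
  have hg0 : G 0 t ≠ 0 := (hG0 t).ne'
  set c₃ : ℝ := 1 / G 0 t with hc3
  set c₂ : ℝ := -3 * (G 1 t / G 0 t) / G 0 t with hc2
  set c₁ : ℝ := 3 * (2 * (G 1 t / G 0 t) ^ 2 - G 2 t / G 0 t) / G 0 t with hc1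
  set c₀ : ℝ := (-(G 3 t / G 0 t) + 6 * (G 1 t / G 0 t) * (G 2 t / G 0 t) -
    6 * (G 1 t / G 0 t) ^ 3) / G 0 t with hc0
  have e0 : c₀ * G 0 t + c₁ * G 1 t + c₂ * G 2 t + c₃ * G 3 t = 0 := by
    rw [hc0, hc1, hc2, hc3]
    field_simp
    ring
  have e1 : c₁ * G 0 t + 2 * c₂ * G 1 t + 3 * c₃ * G 2 t = 0 := by
    rw [hc1, hc2, hc3]
    field_simp
    ring
  have e2 : 2 * c₂ * G 0 t + 6 * c₃ * G 1 t = 0 := by
    rw [hc2, hc3]
    field_simp
    ring
  have e3 : c₀ * G 1 t + c₁ * G 2 t + c₂ * G 3 t + c₃ * G 4 t = D := by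
    rw [hc0, hc1, hc2, hc3, hDdef]
    field_simp
    ring
  have hcont : ∀ j, Continuous (G j) := fun j =>
    continuous_iff_continuousAt.2 fun x => (hd j x).continuousAt
  choose C hC using hb
  have hct : ∀ j, Continuous fun v => G j (t - v) := fun j =>
    (hcont j).comp (continuous_const.sub continuous_id)
  have hCt : ∀ j v, |G j (t - v)| ≤ C j := fun j v => hC j (t - v)
  set L : ℝ → ℝ := fun v => c₀ * G 0 (t - v) + c₁ * G 1 (t - v) + c₂ * G 2 (t - v) +
    c₃ * G 3 (t - v) with hLdef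
  refine core (L := L) (D := D) (C := |c₀| * C 0 + |c₁| * C 1 + |c₂| * C 2 + |c₃| * C 3) ha
    ?_ ?_ ?_ ?_ hcon ?_ ?_ ?_
  · exact ((((hct 0).const_mul c₀).add ((hct 1).const_mul c₁)).add ((hct 2).const_mul c₂)).add
      ((hct 3).const_mul c₃)
  · intro v
    have hj : ∀ (c : ℝ) (j : ℕ), |c * G j (t - v)| ≤ |c| * C j := by
      intro c j
      rw [abs_mul]
      exact mul_le_mul_of_nonneg_left (hCt j v) (abs_nonneg c)
    calc |L v| ≤ |c₀ * G 0 (t - v)| + |c₁ * G 1 (t - v)| + |c₂ * G 2 (t - v)| +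
          |c₃ * G 3 (t - v)| := by
            refine (abs_add_le _ _).trans ?_
            gcongr
            refine (abs_add_le _ _).trans ?_
            gcongr
            exact abs_add_le _ _
      _ ≤ _ := by
            gcongr <;> apply hj
  · simp only [hLdef, sub_zero]
    exact e0
  · have hdj : ∀ j, HasDerivAt (fun v : ℝ => G j (t - v)) (-(G (j + 1) t)) 0 := by
      intro j
      have hh : HasDerivAt (G j) (G (j + 1) (t - 0)) (t - 0) := hd j (t - 0)
      have hi : HasDerivAt (fun v : ℝ => t - v) (-1) 0 := by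
        simpa using (hasDerivAt_id (0 : ℝ)).const_sub t
      have := hh.comp (0 : ℝ) hi
      simpa [Function.comp_def] using this
    have hsumd := ((((hdj 0).const_mul c₀).add ((hdj 1).const_mul c₁)).add
      ((hdj 2).const_mul c₂)).add ((hdj 3).const_mul c₃)
    have he : c₀ * -G (0 + 1) t + c₁ * -G (1 + 1) t + c₂ * -G (2 + 1) t + c₃ * -G (3 + 1) t =
        -D := by
      rw [← e3]
      ring
    rw [he] at hsumd
    exact hsumd
  · intro v₁ v₂ v₃ v₄ h12 h23 h34 p1 p2 p3 p4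
    exact hpat c₀ c₁ c₂ c₃ (by rw [hc3]; exact div_pos one_pos (hG0 t))
      ⟨t - v₄, t - v₃, t - v₂, t - v₁, by linarith, by linarith, by linarith, p4, p3, p2, p1⟩
  · have hs := ((((h1 0 t).mul_left c₀).add ((h1 1 t).mul_left c₁)).add
      ((h1 2 t).mul_left c₂)).add ((h1 3 t).mul_left c₃)
    have hval : c₀ * ((t - u) * G 0 t + ((0 : ℕ) : ℝ) * G (0 - 1) t) +
        c₁ * ((t - u) * G 1 t + ((1 : ℕ) : ℝ) * G (1 - 1) t) +
        c₂ * ((t - u) * G 2 t + ((2 : ℕ) : ℝ) * G (2 - 1) t) +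
        c₃ * ((t - u) * G 3 t + ((3 : ℕ) : ℝ) * G (3 - 1) t) = 0 := by
      simp only [Nat.sub_self, Nat.reduceSub]
      push_cast
      linear_combination (t - u) * e0 + e1
    rw [hval] at hs
    refine hs_congr hs fun k => ?_
    have hI := comb4 (int1 (ha k) (hct 0) (hCt 0)) (int1 (ha k) (hct 1) (hCt 1))
      (int1 (ha k) (hct 2) (hCt 2)) (int1 (ha k) (hct 3) (hCt 3)) c₀ c₁ c₂ c₃
    have hL2 : (∫ v in Ioi (0 : ℝ), Real.exp (-(a k * v)) * L v) =
        ∫ v in Ioi (0 : ℝ), (c₀ * (Real.exp (-(a k * v)) * G 0 (t - v)) +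
          c₁ * (Real.exp (-(a k * v)) * G 1 (t - v)) +
          c₂ * (Real.exp (-(a k * v)) * G 2 (t - v)) +
          c₃ * (Real.exp (-(a k * v)) * G 3 (t - v))) := by
      congr 1
      funext v
      rw [hLdef]
      ring
    rw [hL2, hI]
    have hz : (c₀ * G 0 t + c₁ * G 1 t + c₂ * G 2 t + c₃ * G 3 t) / a k = 0 := by
      rw [e0, zero_div]
    linear_combination hz
  · have hs := ((((h2 0 t).mul_left c₀).add ((h2 1 t).mul_left c₁)).add
      ((h2 2 t).mul_left c₂)).add ((h2 3 t).mul_left c₃)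
    have hval : c₀ * (t ^ 2 * G 0 t + 2 * ((0 : ℕ) : ℝ) * t * G (0 - 1) t +
          ((0 : ℕ) : ℝ) * (((0 : ℕ) : ℝ) - 1) * G (0 - 2) t - G (0 + 1) t) +
        c₁ * (t ^ 2 * G 1 t + 2 * ((1 : ℕ) : ℝ) * t * G (1 - 1) t +
          ((1 : ℕ) : ℝ) * (((1 : ℕ) : ℝ) - 1) * G (1 - 2) t - G (1 + 1) t) +
        c₂ * (t ^ 2 * G 2 t + 2 * ((2 : ℕ) : ℝ) * t * G (2 - 1) t +
          ((2 : ℕ) : ℝ) * (((2 : ℕ) : ℝ) - 1) * G (2 - 2) t - G (2 + 1) t) +
        c₃ * (t ^ 2 * G 3 t + 2 * ((3 : ℕ) : ℝ) * t * G (3 - 1) t +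
          ((3 : ℕ) : ℝ) * (((3 : ℕ) : ℝ) - 1) * G (3 - 2) t - G (3 + 1) t) = -D := by
      simp only [Nat.sub_self, Nat.reduceSub, Nat.reduceAdd, zero_add]
      push_cast
      linear_combination t ^ 2 * e0 + 2 * t * e1 + e2 - e3
    rw [hval] at hs
    refine hs_congr hs fun k => ?_
    have hI := comb4 (int2 (ha k) (hct 0) (hCt 0)) (int2 (ha k) (hct 1) (hCt 1))
      (int2 (ha k) (hct 2) (hCt 2)) (int2 (ha k) (hct 3) (hCt 3)) c₀ c₁ c₂ c₃
    have hL2 : (∫ v in Ioi (0 : ℝ), v * Real.exp (-(a k * v)) * L v) =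
        ∫ v in Ioi (0 : ℝ), (c₀ * (v * Real.exp (-(a k * v)) * G 0 (t - v)) +
          c₁ * (v * Real.exp (-(a k * v)) * G 1 (t - v)) +
          c₂ * (v * Real.exp (-(a k * v)) * G 2 (t - v)) +
          c₃ * (v * Real.exp (-(a k * v)) * G 3 (t - v))) := by
      congr 1
      funext v
      rw [hLdef]
      ring
    rw [hL2, hI]
    ring

end Pool.Agent.CHN
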