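import Pool.Agent.CHN.Targets

/-!
# CHN-STP: optional stopping at a curve
-/

set_option autoImplicit false

open MeasureTheory ProbabilityTheory Filter Topology Set
open scoped NNReal

namespace Pool.Agent.CHN

namespace STP_

/-- convergence in mean from almost sure convergence and bounded second moments -/
theorem mean_of_ae {Ω : Type*} [MeasurableSpace Ω] (P : Measure Ω) [IsProbabilityMeasure P]
    (X : ℕ → Ω → ℝ) (Z : Ω → ℝ) (c : ℝ) (hX : ∀ n, MemLp (X n) 2 P) (hZ : MemLp Z 2 P)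
    (hc : ∀ n, ∫ ω, X n ω ^ 2 ∂P ≤ c) (hcz : ∫ ω, Z ω ^ 2 ∂P ≤ c)
    (hlim : ∀ᵐ ω ∂P, Tendsto (fun n => X n ω) atTop (𝓝 (Z ω))) :
    Tendsto (fun n => ∫ ω, X n ω ∂P) atTop (𝓝 (∫ ω, Z ω ∂P)) := by
  have hXi : ∀ n, Integrable (X n) P := fun n => (hX n).integrable (by norm_num)
  have hZi : Integrable Z P := hZ.integrable (by norm_num)
  have hYi : ∀ n, Integrable (fun ω => X n ω - Z ω) P := fun n => (hXi n).sub hZi
  have hY2 : ∀ n, Integrable (fun ω => (X n ω - Z ω) ^ 2) P := fun n =>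
    ((hX n).sub hZ).integrable_sq
  have hb : ∀ n, ∫ ω, (X n ω - Z ω) ^ 2 ∂P ≤ 4 * c := by
    intro n
    have h1 : ∫ ω, (X n ω - Z ω) ^ 2 ∂P ≤ ∫ ω, (2 * X n ω ^ 2 + 2 * Z ω ^ 2) ∂P := by
      refine integral_mono (hY2 n) ?_ ?_
      · exact ((hX n).integrable_sq.const_mul 2).add (hZ.integrable_sq.const_mul 2)
      · intro ω
        show (X n ω - Z ω) ^ 2 ≤ 2 * X n ω ^ 2 + 2 * Z ω ^ 2
        nlinarith [sq_nonneg (X n ω + Z ω)]
    have h2 : ∫ ω, (2 * X n ω ^ 2 + 2 * Z ω ^ 2) ∂P =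
        2 * ∫ ω, X n ω ^ 2 ∂P + 2 * ∫ ω, Z ω ^ 2 ∂P := by
      rw [integral_add ((hX n).integrable_sq.const_mul 2) (hZ.integrable_sq.const_mul 2),
        integral_const_mul, integral_const_mul]
    have h3 := hc n
    linarith
  rw [Metric.tendsto_atTop]
  intro ε hε
  have hc0 : 0 ≤ c := by
    refine le_trans ?_ hcz
    exact integral_nonneg fun ω => sq_nonneg _
  -- the truncation level
  set K : ℝ := 8 * (c + 1) / ε with hK
  have hK0 : 0 < K := by positivity
  have htr : Tendsto (fun n => ∫ ω, min |X n ω - Z ω| K ∂P) atTop (𝓝 (∫ _, (0 : ℝ) ∂P)) := by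
    refine tendsto_integral_of_dominated_convergence (fun _ => K) ?_ ?_ ?_ ?_
    · intro n
      exact ((hYi n).abs.aestronglyMeasurable).inf aestronglyMeasurable_const
    · exact integrable_const K
    · intro n
      refine Eventually.of_forall fun ω => ?_
      rw [Real.norm_eq_abs, abs_of_nonneg (le_min (abs_nonneg _) hK0.le)]
      exact min_le_right _ _
    · filter_upwards [hlim] with ω hω
      have h1 : Tendsto (fun n => |X n ω - Z ω|) atTop (𝓝 0) := by
        have := (hω.sub_const (Z ω)).abs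
        simpa using this
      have h2 : Tendsto (fun n => min |X n ω - Z ω| K) atTop (𝓝 (min 0 K)) :=
        h1.min tendsto_const_nhds
      rw [min_eq_left hK0.le] at h2
      exact h2
  rw [integral_zero, Metric.tendsto_atTop] at htr
  obtain ⟨n0, hn0⟩ := htr (ε / 4) (by positivity)
  refine ⟨n0, fun n hn => ?_⟩
  have h1 := hn0 n hn
  rw [Real.dist_eq, sub_zero] at h1
  have h2 : ∫ ω, min |X n ω - Z ω| K ∂P < ε / 4 := lt_of_abs_lt h1
  rw [Real.dist_eq, ← integral_sub (hXi n) hZi]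
  have h3 : |∫ ω, (X n ω - Z ω) ∂P| ≤ ∫ ω, |X n ω - Z ω| ∂P := by
    have := norm_integral_le_integral_norm (μ := P) (fun ω => X n ω - Z ω)
    simpa [Real.norm_eq_abs] using this
  have hmi : Integrable (fun ω => min |X n ω - Z ω| K) P := by
    refine (integrable_const K).mono'
      (((hYi n).abs.aestronglyMeasurable).inf aestronglyMeasurable_const) ?_
    refine Eventually.of_forall fun ω => ?_
    rw [Real.norm_eq_abs, abs_of_nonneg (le_min (abs_nonneg _) hK0.le)]
    exact min_le_right _ _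
  have h4 : ∫ ω, |X n ω - Z ω| ∂P ≤
      ∫ ω, (min |X n ω - Z ω| K + K⁻¹ * (X n ω - Z ω) ^ 2) ∂P := by
    refine integral_mono (hYi n).abs (hmi.add ((hY2 n).const_mul _)) ?_
    intro ω
    show |X n ω - Z ω| ≤ min |X n ω - Z ω| K + K⁻¹ * (X n ω - Z ω) ^ 2
    rcases le_total |X n ω - Z ω| K with h | h
    · rw [min_eq_left h]
      have : 0 ≤ K⁻¹ * (X n ω - Z ω) ^ 2 := by positivity
      linarith
    · rw [min_eq_right h]
      have h5 : |X n ω - Z ω| ≤ K⁻¹ * (X n ω - Z ω) ^ 2 := by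
        rw [← sq_abs, inv_mul_eq_div, le_div_iff₀ hK0]
        nlinarith [abs_nonneg (X n ω - Z ω)]
      linarith
  have h5 : ∫ ω, (min |X n ω - Z ω| K + K⁻¹ * (X n ω - Z ω) ^ 2) ∂P =
      ∫ ω, min |X n ω - Z ω| K ∂P + K⁻¹ * ∫ ω, (X n ω - Z ω) ^ 2 ∂P := by
    rw [integral_add hmi ((hY2 n).const_mul _), integral_const_mul]
  have h6 : K⁻¹ * ∫ ω, (X n ω - Z ω) ^ 2 ∂P ≤ ε / 2 := by
    have h7 : K⁻¹ * ∫ ω, (X n ω - Z ω) ^ 2 ∂P ≤ K⁻¹ * (4 * c) :=
      mul_le_mul_of_nonneg_left (hb n) (by positivity)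
    refine h7.trans ?_
    rw [hK, inv_div, div_mul_eq_mul_div, div_le_div_iff₀ (by positivity) (by norm_num)]
    nlinarith
  linarith

theorem stp_none {S : ℕ → Set ℝ} {N : ℕ} {b : ℕ → ℝ} (h : ¬ ∃ j, j ≤ N ∧ b j ∈ S j) :
    stp S N b = N := by
  unfold stp
  rw [dif_neg h]

theorem stp_some {S : ℕ → Set ℝ} {N : ℕ} {b : ℕ → ℝ} (h : ∃ j, j ≤ N ∧ b j ∈ S j) :
    stp S N b ≤ N ∧ b (stp S N b) ∈ S (stp S N b) ∧ ∀ i < stp S N b, b i ∉ S i := by
  classical
  unfold stp
  rw [dif_pos h]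
  refine ⟨(Nat.find_spec h).1, (Nat.find_spec h).2, fun i hi hbi => ?_⟩
  refine Nat.find_min h hi ⟨?_, hbi⟩
  exact hi.le.trans (Nat.find_spec h).1

end STP_

open STP_ in
theorem p_STP.{u} (hGRD : T_GRD.{u}) : T_STP.{u} := by
  intro Ω _ P _ B hB m b hm hint hmean hb hb0 hmb T
  set h : ℕ → ℝ≥0 := fun n => 1 / 2 ^ n with hh
  set N : ℕ → ℕ := fun n => T * 2 ^ n with hN
  set S : ℕ → ℕ → Set ℝ := fun n j => {z | b (j * h n) ≤ z} with hS
  set τ : ℕ → Ω → ℕ := fun n ω => stp (S n) (N n) (fun j => B (j * h n) ω) with hτ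
  set X : ℕ → Ω → ℝ := fun n ω => m (τ n ω * h n) (B (τ n ω * h n) ω) with hX
  have hms : ∀ s, Continuous (m s) := fun s => hm.comp (Continuous.prodMk continuous_const
    continuous_id)
  have hG := fun n => hGRD Ω P B hB.toIsPreBrownianReal m hms hint hmean (h n) (N n) (S n)
    (fun j => measurableSet_Ici)
  have hNh : ∀ n, (N n : ℝ≥0) * h n = T := by
    intro n
    rw [hN, hh]
    simp only
    push_cast
    field_simp
  -- the end value
  have hlaw := hB.toIsPreBrownianReal.hasLaw_eval (T : ℝ≥0)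
  have hTm : AEStronglyMeasurable (fun ω => m T (B T ω)) P :=
    ((hms T).measurable.comp_aemeasurable hlaw.aemeasurable).aestronglyMeasurable
  have hTL : MemLp (fun ω => m T (B T ω)) 2 P := by
    rw [memLp_two_iff_integrable_sq hTm]
    have h1 : Integrable ((fun z => (m T z) ^ 2) ∘ (B T)) P := by
      have h2 := hint T T
      rw [← hlaw.map_eq] at h2
      exact (integrable_map_measure ((((hms T).pow 2).measurable).aestronglyMeasurable)
        hlaw.aemeasurable).1 h2
    exact h1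
  -- the event
  set D : Set Ω := {ω | ∀ n k : ℕ, (k : ℝ≥0) / 2 ^ n ≤ T → B (k / 2 ^ n) ω < b (k / 2 ^ n)}
    with hD
  have hDm : NullMeasurableSet D P := by
    have h1 : D = ⋂ n : ℕ, ⋂ k : ℕ, {ω | (k : ℝ≥0) / 2 ^ n ≤ T →
        B (k / 2 ^ n) ω < b (k / 2 ^ n)} := by
      ext ω
      simp [hD]
    rw [h1]
    refine NullMeasurableSet.iInter fun n => NullMeasurableSet.iInter fun k => ?_
    by_cases hk : (k : ℝ≥0) / 2 ^ n ≤ T
    · have h2 : {ω | (k : ℝ≥0) / 2 ^ n ≤ T → B (k / 2 ^ n) ω < b (k / 2 ^ n)} =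
          {ω | B (k / 2 ^ n) ω < b (k / 2 ^ n)} := by
        ext ω
        exact ⟨fun h3 => h3 hk, fun h3 _ => h3⟩
      rw [h2]
      exact nullMeasurableSet_lt (hB.toIsPreBrownianReal.aemeasurable _) aemeasurable_const
    · have h2 : {ω | (k : ℝ≥0) / 2 ^ n ≤ T → B (k / 2 ^ n) ω < b (k / 2 ^ n)} = univ := by
        ext ω
        exact ⟨fun _ => trivial, fun _ h3 => absurd h3 hk⟩
      rw [h2]
      exact nullMeasurableSet_univ
  rw [← integral_indicator₀ hDm]
  set Z : Ω → ℝ := D.indicator (fun ω => m T (B T ω)) with hZ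
  have hZL : MemLp Z 2 P := by
    refine MemLp.of_le hTL (hTm.indicator₀ hDm) (Eventually.of_forall fun ω => ?_)
    exact norm_indicator_le_norm_self _ _
  have hZc : ∫ ω, Z ω ^ 2 ∂P ≤ ∫ ω, (m T (B T ω)) ^ 2 ∂P := by
    refine integral_mono hZL.integrable_sq hTL.integrable_sq ?_
    intro ω
    show Z ω ^ 2 ≤ (m T (B T ω)) ^ 2
    rw [hZ]
    by_cases hω : ω ∈ D
    · rw [indicator_of_mem hω]
    · rw [indicator_of_notMem hω]
      have := sq_nonneg (m T (B T ω))
      simpa using this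
  have hXc : ∀ n, ∫ ω, X n ω ^ 2 ∂P ≤ ∫ ω, (m T (B T ω)) ^ 2 ∂P := by
    intro n
    have h1 := (hG n).2.2
    rw [hNh n] at h1
    exact h1
  have hlim : ∀ᵐ ω ∂P, Tendsto (fun n => X n ω) atTop (𝓝 (Z ω)) := by
    filter_upwards [hB.cont, hB.toIsPreBrownianReal.eval_zero_ae_eq_zero] with ω hc h0
    by_cases hω : ω ∈ D
    · have h1 : ∀ n, X n ω = Z ω := by
        intro n
        have h2 : τ n ω = N n := by
          refine stp_none ?_
          rintro ⟨j, hj, hbj⟩
          have h3 : b (j * h n) ≤ B (j * h n) ω := hbj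
          have h4 : (j : ℝ≥0) * h n = j / 2 ^ n := by
            rw [hh]
            exact mul_one_div _ _
          have h5 : (j : ℝ≥0) / 2 ^ n ≤ T := by
            rw [← h4, ← hNh n]
            exact mul_le_mul_left (by exact_mod_cast hj) _
          have h6 := hω n j h5
          rw [h4] at h3
          exact absurd h6 (not_lt.2 h3)
        show m (τ n ω * h n) (B (τ n ω * h n) ω) = Z ω
        rw [h2, hNh n, hZ, indicator_of_mem hω]
      simp only [h1]
      exact tendsto_const_nhds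
    · have hZ0 : Z ω = 0 := by
        rw [hZ]
        exact indicator_of_notMem hω _
      rw [hZ0]
      have hω' : ∃ n k : ℕ, (k : ℝ≥0) / 2 ^ n ≤ T ∧ b (k / 2 ^ n) ≤ B (k / 2 ^ n) ω := by
        rw [hD] at hω
        simp only [mem_ofPred_eq] at hω
        push Not at hω
        exact hω
      obtain ⟨n0, k0, hk0, hbk⟩ := hω'
      -- the path
      have hGc : Continuous (fun s : ℝ≥0 => m s (B s ω)) := hm.comp (continuous_id.prodMk hc)
      have hGu : UniformContinuousOn (fun s : ℝ≥0 => m s (B s ω)) (Icc 0 (T : ℝ≥0)) :=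
        isCompact_Icc.uniformContinuousOn_of_continuous hGc.continuousOn
      rw [Metric.uniformContinuousOn_iff] at hGu
      rw [Metric.tendsto_atTop]
      intro ε hε
      obtain ⟨δ, hδ, hδ'⟩ := hGu ε hε
      have hp : Tendsto (fun n : ℕ => ((1 : ℝ) / 2) ^ n) atTop (𝓝 0) :=
        tendsto_pow_atTop_nhds_zero_of_lt_one (by norm_num) (by norm_num)
      obtain ⟨n1, hn1⟩ := (Metric.tendsto_atTop.1 hp) δ hδ
      refine ⟨max n0 n1, fun n hn => ?_⟩
      have hnn0 : n0 ≤ n := (le_max_left _ _).trans hn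
      have hnn1 : n1 ≤ n := (le_max_right _ _).trans hn
      have hhn : (h n : ℝ) < δ := by
        have h1 := hn1 n hnn1
        rw [Real.dist_eq, sub_zero, abs_of_nonneg (by positivity)] at h1
        have h2 : (h n : ℝ) = (1 / 2) ^ n := by
          rw [hh]
          push_cast
          rw [one_div_pow]
        rw [h2]
        exact h1
      -- there is a grid point where the curve is reached
      have hex : ∃ j, j ≤ N n ∧ (fun j : ℕ => B (j * h n) ω) j ∈ S n j := by
        refine ⟨k0 * 2 ^ (n - n0), ?_, ?_⟩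
        · have h1 : k0 ≤ T * 2 ^ n0 := by
            rw [div_le_iff₀ (by positivity)] at hk0
            exact_mod_cast hk0
          calc k0 * 2 ^ (n - n0) ≤ T * 2 ^ n0 * 2 ^ (n - n0) := Nat.mul_le_mul_right _ h1
            _ = T * 2 ^ n := by rw [mul_assoc, ← pow_add, Nat.add_sub_cancel' hnn0]
        · have h1 : ((k0 * 2 ^ (n - n0) : ℕ) : ℝ≥0) * h n = k0 / 2 ^ n0 := by
            rw [hh]
            simp only
            push_cast
            rw [mul_one_div, div_eq_div_iff (by positivity) (by positivity), mul_assoc, ← pow_add,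
              Nat.sub_add_cancel hnn0]
          show b (((k0 * 2 ^ (n - n0) : ℕ) : ℝ≥0) * h n) ≤
            B (((k0 * 2 ^ (n - n0) : ℕ) : ℝ≥0) * h n) ω
          rw [h1]
          exact hbk
      obtain ⟨h1, h2, h3⟩ := stp_some hex
      have hτn : stp (S n) (N n) (fun j => B (j * h n) ω) = τ n ω := rfl
      rw [hτn] at h1 h2 h3
      have h2' : b (τ n ω * h n) ≤ B (τ n ω * h n) ω := h2
      obtain ⟨i, hi⟩ : ∃ i, τ n ω = i + 1 := by
        rcases Nat.eq_zero_or_pos (τ n ω) with h4 | h4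
        · exfalso
          rw [h4] at h2'
          simp only [Nat.cast_zero, zero_mul] at h2'
          rw [h0] at h2'
          exact absurd hb0 (not_lt.2 h2')
        · exact ⟨τ n ω - 1, by omega⟩
      have h4 : B (i * h n) ω < b (i * h n) := by
        have := h3 i (by omega)
        exact not_le.1 this
      -- intermediate value
      have hle : (i : ℝ≥0) * h n ≤ τ n ω * h n := by
        refine mul_le_mul_left ?_ _
        rw [hi]
        push_cast
        exact le_self_add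
      have hfc : ContinuousOn (fun s : ℝ≥0 => B s ω - b s) (Icc (i * h n) (τ n ω * h n)) :=
        (hc.sub hb).continuousOn
      have h5 := intermediate_value_Icc hle hfc
      obtain ⟨s, hs, hs0⟩ := h5 ⟨(by
        show B (i * h n) ω - b (i * h n) ≤ 0
        linarith), (by
        show (0 : ℝ) ≤ B (τ n ω * h n) ω - b (τ n ω * h n)
        linarith)⟩
      have hs0' : B s ω = b s := by
        have : B s ω - b s = 0 := hs0
        linarith
      have hτT : (τ n ω : ℝ≥0) * h n ≤ T := by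
        rw [← hNh n]
        exact mul_le_mul_left (by exact_mod_cast h1) _
      have h6 := hδ' (τ n ω * h n) ⟨zero_le, hτT⟩ s ⟨zero_le, hs.2.trans hτT⟩ (by
        rw [NNReal.dist_eq]
        have h7 : (s : ℝ) ≤ ((τ n ω : ℝ≥0) * h n : ℝ≥0) := by exact_mod_cast hs.2
        have h8 : (((i : ℝ≥0) * h n : ℝ≥0) : ℝ) ≤ s := by exact_mod_cast hs.1
        have h9 : (((τ n ω : ℝ≥0) * h n : ℝ≥0) : ℝ) = (((i : ℝ≥0) * h n : ℝ≥0) : ℝ) + h n := by
          rw [hi]
          push_cast
          ring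
        rw [abs_of_nonneg (by linarith)]
        linarith)
      have h10 : m s (B s ω) = 0 := by
        rw [hs0']
        exact hmb s
      rw [h10] at h6
      exact h6
  have hmain := mean_of_ae P X Z _ (fun n => (hG n).1) hZL hXc hZc hlim
  have hconst : (fun n => ∫ ω, X n ω ∂P) = fun _ => m 0 0 := by
    funext n
    exact (hG n).2.1
  rw [hconst] at hmain
  exact tendsto_nhds_unique tendsto_const_nhds hmain

end Pool.Agent.CHN
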