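import Pool.Agent.CHN.Targets

/-! # CHN-TIN: the time horizon tends to infinity (helper86) -/

set_option autoImplicit false

open MeasureTheory ProbabilityTheory Filter Topology Set
open scoped NNReal

namespace Pool.Agent.CHN

namespace TIN_

theorem hasDerivAt_aux {a : ℝ} (ha : a ≠ 0) (K z : ℝ) :
    HasDerivAt (fun z => K * (Real.exp (2 * a * z) / (2 * a))) (K * Real.exp (2 * a * z)) z := by
  have h1 : HasDerivAt (fun z => 2 * a * z) (2 * a) z := by
    simpa using (hasDerivAt_id z).const_mul (2 * a)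
  have h2 := (h1.exp.div_const (2 * a)).const_mul K
  have h3 : Real.exp (2 * a * z) * (2 * a) / (2 * a) = Real.exp (2 * a * z) := by
    field_simp
  rwa [h3] at h2

/-- bound for `Q` -/
theorem Q_bound (hQPD : T_QPD) {C₁ : ℝ} {n : ℕ}
    (hR : ∀ a x : ℝ, a ≤ -1 → 0 ≤ x → |R a x| ≤ C₁ * (1 + a ^ 2) ^ n * Real.exp (2 * a * x))
    {C : ℝ} (hC : ∀ a : ℝ, Tendsto (Q a) atTop (𝓝 C)) {a X : ℝ} (ha : a ≤ -1) (hX : 0 ≤ X) :
    |Q a X - C| ≤ C₁ * (1 + a ^ 2) ^ n * Real.exp (2 * a * X) := by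
  have ha0 : a ≠ 0 := by intro h; rw [h] at ha; norm_num at ha
  set K := C₁ * (1 + a ^ 2) ^ n with hK
  have hK0 : 0 ≤ K := by
    have h1 := (abs_nonneg _).trans (hR a 0 ha le_rfl)
    simpa using h1
  have hQ : ∀ z, HasDerivAt (Q a) (R a z) z := fun z => hQPD.1 a z
  have hd1 : ∀ z, HasDerivAt (fun z => Q a z - K * (Real.exp (2 * a * z) / (2 * a)))
      (R a z - K * Real.exp (2 * a * z)) z := fun z => (hQ z).sub (hasDerivAt_aux ha0 K z)
  have hd2 : ∀ z, HasDerivAt (fun z => Q a z + K * (Real.exp (2 * a * z) / (2 * a)))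
      (R a z + K * Real.exp (2 * a * z)) z := fun z => (hQ z).add (hasDerivAt_aux ha0 K z)
  have h1 : AntitoneOn (fun z => Q a z - K * (Real.exp (2 * a * z) / (2 * a))) (Ici 0) := by
    refine antitoneOn_of_deriv_nonpos (convex_Ici 0)
      (fun z _ => (hd1 z).continuousAt.continuousWithinAt)
      (fun z _ => (hd1 z).differentiableAt.differentiableWithinAt) fun z hz => ?_
    rw [interior_Ici] at hz
    rw [(hd1 z).deriv]
    have h2 := (abs_le.1 (hR a z ha (le_of_lt hz))).2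
    linarith
  have h2 : MonotoneOn (fun z => Q a z + K * (Real.exp (2 * a * z) / (2 * a))) (Ici 0) := by
    refine monotoneOn_of_deriv_nonneg (convex_Ici 0)
      (fun z _ => (hd2 z).continuousAt.continuousWithinAt)
      (fun z _ => (hd2 z).differentiableAt.differentiableWithinAt) fun z hz => ?_
    rw [interior_Ici] at hz
    rw [(hd2 z).deriv]
    have h2 := (abs_le.1 (hR a z ha (le_of_lt hz))).1
    linarith
  have hlim : Tendsto (fun z => K * (Real.exp (2 * a * z) / (2 * a))) atTop (𝓝 0) := by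
    have h3 : Tendsto (fun z : ℝ => 2 * a * z) atTop atBot :=
      tendsto_id.const_mul_atTop_of_neg (by linarith)
    have h4 := ((Real.tendsto_exp_atBot.comp h3).div_const (2 * a)).const_mul K
    simpa using h4
  have hl1 : Tendsto (fun z => Q a z - K * (Real.exp (2 * a * z) / (2 * a))) atTop (𝓝 C) := by
    simpa using (hC a).sub hlim
  have hl2 : Tendsto (fun z => Q a z + K * (Real.exp (2 * a * z) / (2 * a))) atTop (𝓝 C) := by
    simpa using (hC a).add hlim
  have h3 : C ≤ Q a X - K * (Real.exp (2 * a * X) / (2 * a)) :=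
    le_of_tendsto hl1 ((eventually_ge_atTop X).mono fun z hz =>
      h1 (mem_Ici.2 hX) (mem_Ici.2 (hX.trans hz)) hz)
  have h4 : Q a X + K * (Real.exp (2 * a * X) / (2 * a)) ≤ C :=
    ge_of_tendsto hl2 ((eventually_ge_atTop X).mono fun z hz =>
      h2 (mem_Ici.2 hX) (mem_Ici.2 (hX.trans hz)) hz)
  have h5 : -(K * (Real.exp (2 * a * X) / (2 * a))) ≤ K * Real.exp (2 * a * X) := by
    rw [← mul_neg]
    refine mul_le_mul_of_nonneg_left ?_ hK0
    rw [← div_neg]
    refine div_le_self (Real.exp_pos _).le (by linarith)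
  rw [abs_le]
  constructor <;> linarith

theorem tendsto_aux (C₁ a x : ℝ) (n : ℕ) (hC₁ : 0 ≤ C₁) :
    Tendsto (fun T : ℕ => C₁ * (1 + (a - T) ^ 2) ^ n *
      (Real.exp (-(x + (T : ℝ) ^ 2 - 2 * a * T)) * Real.exp T)) atTop (𝓝 0) := by
  have hE : Tendsto (fun T : ℕ => (T : ℝ) * ((2 * n + 2 * a + 1) - (T : ℝ)) + (-2 * n * a - x))
      atTop atBot := by
    refine tendsto_atBot_add_const_right _ _ ?_
    refine Tendsto.atTop_mul_atBot₀ tendsto_natCast_atTop_atTop ?_
    have h1 : Tendsto (fun T : ℕ => -(T : ℝ)) atTop atBot :=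
      tendsto_neg_atTop_atBot.comp tendsto_natCast_atTop_atTop
    simpa [sub_eq_add_neg] using tendsto_atBot_add_const_left _ (2 * (n : ℝ) + 2 * a + 1) h1
  have hlim := (Real.tendsto_exp_atBot.comp hE).const_mul C₁
  rw [mul_zero] at hlim
  refine squeeze_zero' (Eventually.of_forall fun T => by positivity) ?_ hlim
  obtain ⟨T₀, hT₀⟩ := exists_nat_ge a
  filter_upwards [eventually_ge_atTop T₀] with T hT
  have hTa : 0 ≤ (T : ℝ) - a := by
    have : (T₀ : ℝ) ≤ T := by exact_mod_cast hT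
    linarith
  have h1 : (1 + (a - T) ^ 2 : ℝ) ≤ Real.exp (2 * ((T : ℝ) - a)) := by
    have h2 := Real.add_one_le_exp ((T : ℝ) - a)
    have h3 : Real.exp (2 * ((T : ℝ) - a)) = Real.exp ((T : ℝ) - a) ^ 2 := by
      rw [← Real.exp_nat_mul]
      norm_num
    rw [h3]
    nlinarith
  have h4 : (1 + (a - T) ^ 2 : ℝ) ^ n ≤ Real.exp (n * (2 * ((T : ℝ) - a))) := by
    rw [Real.exp_nat_mul]
    exact pow_le_pow_left₀ (by positivity) h1 n
  have h5 : C₁ * (1 + (a - T) ^ 2) ^ n * (Real.exp (-(x + (T : ℝ) ^ 2 - 2 * a * T)) * Real.exp T) ≤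
      C₁ * Real.exp (n * (2 * ((T : ℝ) - a))) *
        (Real.exp (-(x + (T : ℝ) ^ 2 - 2 * a * T)) * Real.exp T) :=
    mul_le_mul_of_nonneg_right (mul_le_mul_of_nonneg_left h4 hC₁) (by positivity)
  refine h5.trans (le_of_eq ?_)
  rw [mul_assoc, ← Real.exp_add, ← Real.exp_add, Function.comp_apply]
  congr 2
  ring

theorem slice_cont (m : ℝ → ℝ → ℝ) (hm : Continuous fun p : ℝ≥0 × ℝ => m p.1 p.2) (s : ℝ≥0) :
    Continuous (m (s : ℝ)) :=
  hm.comp (Continuous.prodMk_right s)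

theorem int_comp.{u} {Ω : Type u} [MeasurableSpace Ω] {P : Measure Ω} {X : Ω → ℝ} {v : ℝ≥0}
    (hX : HasLaw X (gaussianReal 0 v) P) {f : ℝ → ℝ} (hf : Continuous f)
    (h : Integrable (fun z => f z ^ 2) (gaussianReal 0 v)) : Integrable (fun ω => f (X ω)) P := by
  have h2 : MemLp f 2 (gaussianReal 0 v) :=
    (memLp_two_iff_integrable_sq hf.aestronglyMeasurable).2 h
  have h3 := h2.integrable (by norm_num)
  rw [← hX.map_eq] at h3
  exact h3.comp_aemeasurable hX.aemeasurable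

theorem int_exp.{u} {Ω : Type u} [MeasurableSpace Ω] {P : Measure Ω} {X : Ω → ℝ} {v : ℝ≥0}
    (hX : HasLaw X (gaussianReal 0 v) P) :
    Integrable (fun ω => Real.exp (√2 * X ω)) P ∧ ∫ ω, Real.exp (√2 * X ω) ∂P = Real.exp v := by
  constructor
  · have h1 : Integrable (fun z => Real.exp (√2 * z)) (gaussianReal 0 v) :=
      integrable_exp_mul_gaussianReal _
    rw [← hX.map_eq] at h1
    exact h1.comp_aemeasurable hX.aemeasurable
  · have hmgf := mgf_gaussianReal hX.map_eq √2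
    have h4 : mgf X P √2 = ∫ ω, Real.exp (√2 * X ω) ∂P := rfl
    rw [← h4, hmgf, Real.sq_sqrt (by norm_num)]
    congr 1
    ring

end TIN_

open TIN_ in
theorem p_TIN.{u} (hSTP : T_STP.{u}) (hMVP : T_MVP) (hQPD : T_QPD) (hRSH : T_RSH) :
    T_TIN.{u} := by
  intro Ω _ P _ B hB C hC a x hx
  obtain ⟨C₁, n, hR⟩ := hRSH
  have hC₁ : 0 ≤ C₁ := by
    have h1 := (abs_nonneg _).trans (hR (-1) 0 le_rfl le_rfl)
    rw [mul_zero, Real.exp_zero, mul_one] at h1
    exact nonneg_of_mul_nonneg_left h1 (by positivity)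
  obtain ⟨hM1, hM2, hM3⟩ := hMVP a x
  have hs2 : (0 : ℝ) < √2 := by positivity
  let b : ℝ≥0 → ℝ := fun s => (x + (s : ℝ) ^ 2 - 2 * a * s) / √2
  have hb : ∀ (s : ℝ≥0) (y : ℝ), y < b s ↔ √2 * y < x + (s : ℝ) ^ 2 - 2 * a * s := fun s y => by
    show y < (x + (s : ℝ) ^ 2 - 2 * a * s) / √2 ↔ _
    rw [lt_div_iff₀ hs2, mul_comm]
  have hbc : Continuous b := by
    show Continuous fun s : ℝ≥0 => (x + (s : ℝ) ^ 2 - 2 * a * s) / √2
    fun_prop
  let DT : ℕ → Set Ω := fun T =>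
    {ω | ∀ n k : ℕ, (k : ℝ≥0) / 2 ^ n ≤ T → B (k / 2 ^ n) ω < b (k / 2 ^ n)}
  have key : ∀ T : ℕ, Q a x = ∫ ω in DT T, M a x ((T : ℝ≥0) : ℝ) (B T ω) ∂P := by
    intro T
    have h := hSTP Ω P B hB (fun s z => M a x s z) b hM3 hM2 hM1 hbc
      (by
        show 0 < (x + ((0 : ℝ≥0) : ℝ) ^ 2 - 2 * a * ((0 : ℝ≥0) : ℝ)) / √2
        simp only [NNReal.coe_zero]
        have : 0 < x / √2 := div_pos hx hs2
        simpa using this)
      (fun s => by
        show Q (a - s) (x + (s : ℝ) ^ 2 - 2 * a * s -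
          √2 * ((x + (s : ℝ) ^ 2 - 2 * a * s) / √2)) = 0
        rw [mul_div_cancel₀ _ hs2.ne', sub_self]
        unfold Q
        rw [intervalIntegral.integral_same]) T
    have h0 : M a x ((0 : ℝ≥0) : ℝ) 0 = Q a x := by
      unfold M
      simp
    rw [← h0]
    exact h
  have hDnull : ∀ T, NullMeasurableSet (DT T) P := by
    intro T
    have h1 : DT T = ⋂ n : ℕ, ⋂ k : ℕ, ⋂ _ : (k : ℝ≥0) / 2 ^ n ≤ T,
        {ω | B (k / 2 ^ n) ω < b (k / 2 ^ n)} := by
      ext ω
      simp only [DT, mem_ofPred_eq, mem_iInter]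
    rw [h1]
    refine NullMeasurableSet.iInter fun n => NullMeasurableSet.iInter fun k =>
      NullMeasurableSet.iInter fun _ => ?_
    exact nullMeasurableSet_lt (hB.toIsPreBrownianReal.aemeasurable _) aemeasurable_const
  have hDanti : Antitone DT := by
    intro T T' hTT ω hω n k hk
    exact hω n k (hk.trans (by exact_mod_cast hTT))
  have hDlim : (⋂ T, DT T) = {ω | ∀ n k : ℕ,
      √2 * B (k / 2 ^ n) ω < x + (k / 2 ^ n : ℝ) ^ 2 - 2 * a * (k / 2 ^ n : ℝ)} := by
    ext ω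
    simp only [mem_iInter, mem_ofPred_eq, DT]
    have hcast : ∀ n k : ℕ, (((k : ℝ≥0) / 2 ^ n : ℝ≥0) : ℝ) = (k / 2 ^ n : ℝ) := by
      intro n k
      push_cast
      rfl
    constructor
    · intro h n k
      have h1 := h k n k (div_le_self zero_le (one_le_pow₀ one_le_two))
      rw [hb, hcast] at h1
      exact h1
    · intro h T n k _
      rw [hb, hcast]
      exact h n k
  have hPlim : Tendsto (fun T => P.real (DT T)) atTop (𝓝 (P.real {ω | ∀ n k : ℕ,
      √2 * B (k / 2 ^ n) ω < x + (k / 2 ^ n : ℝ) ^ 2 - 2 * a * (k / 2 ^ n : ℝ)})) := by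
    rw [← hDlim]
    exact (ENNReal.tendsto_toReal (measure_ne_top _ _)).comp
      (tendsto_measure_iInter_atTop hDnull hDanti ⟨0, measure_ne_top _ _⟩)
  have hlim1 : Tendsto (fun T => Q a x - C * P.real (DT T)) atTop
      (𝓝 (Q a x - C * P.real {ω | ∀ n k : ℕ,
        √2 * B (k / 2 ^ n) ω < x + (k / 2 ^ n : ℝ) ^ 2 - 2 * a * (k / 2 ^ n : ℝ)})) :=
    tendsto_const_nhds.sub (hPlim.const_mul C)
  have hlim2 : Tendsto (fun T => Q a x - C * P.real (DT T)) atTop (𝓝 0) := by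
    refine squeeze_zero_norm' ?_ (tendsto_aux C₁ a x n hC₁)
    obtain ⟨T₀, hT₀⟩ := exists_nat_ge (a + 1)
    filter_upwards [eventually_ge_atTop T₀] with T hT
    have hTa : a - T ≤ -1 := by
      have : (T₀ : ℝ) ≤ T := by exact_mod_cast hT
      linarith
    have hlaw := hB.toIsPreBrownianReal.hasLaw_eval (T : ℝ≥0)
    have hTc : (((T : ℝ≥0)) : ℝ) = (T : ℝ) := by simp
    -- integrability
    have hint : Integrable (fun ω => M a x ((T : ℝ≥0) : ℝ) (B T ω)) P := by
      exact int_comp hlaw (slice_cont (M a x) hM3 _) (hM2 (T : ℝ≥0) (T : ℝ≥0))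
    have hconst : ∫ _ in DT T, C ∂P = C * P.real (DT T) := by
      rw [setIntegral_const, smul_eq_mul, mul_comm]
    rw [key T, ← hconst, ← integral_sub hint.integrableOn (integrable_const C)]
    set K := C₁ * (1 + (a - T) ^ 2) ^ n with hK
    set L := x + (T : ℝ) ^ 2 - 2 * a * T with hL
    obtain ⟨hexpi, h3⟩ := int_exp hlaw
    rw [hTc] at h3
    have hgi : Integrable (fun ω => K * (Real.exp (-L) * Real.exp (√2 * B T ω))) P :=
      (hexpi.const_mul _).const_mul _
    have hK0 : 0 ≤ K := by positivity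
    have hb1 : ‖∫ ω in DT T, (M a x ((T : ℝ≥0) : ℝ) (B T ω) - C) ∂P‖ ≤
        ∫ ω in DT T, K * (Real.exp (-L) * Real.exp (√2 * B T ω)) ∂P := by
      refine MeasureTheory.norm_integral_le_of_norm_le hgi.integrableOn ?_
      rw [ae_restrict_iff'₀ (hDnull T)]
      refine ae_of_all _ fun ω hω => ?_
      have h1 := hω 0 T (by simp)
      rw [hb] at h1
      simp only [pow_zero, div_one] at h1
      rw [hTc] at h1
      have hY : 0 ≤ L - √2 * B T ω := by
        rw [hL]
        linarith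
      have h2 : M a x ((T : ℝ≥0) : ℝ) (B T ω) = Q (a - T) (L - √2 * B T ω) := by
        unfold M
        rw [hTc]
      rw [h2, Real.norm_eq_abs]
      refine (Q_bound hQPD hR hC hTa hY).trans ?_
      rw [← hK, ← Real.exp_add]
      refine mul_le_mul_of_nonneg_left (Real.exp_le_exp.2 ?_) hK0
      nlinarith
    have hb2 : ∫ ω in DT T, K * (Real.exp (-L) * Real.exp (√2 * B T ω)) ∂P ≤
        ∫ ω, K * (Real.exp (-L) * Real.exp (√2 * B T ω)) ∂P :=
      setIntegral_le_integral hgi (ae_of_all _ fun ω => by positivity)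
    refine (hb1.trans hb2).trans (le_of_eq ?_)
    rw [integral_const_mul, integral_const_mul]
    rw [h3]
  have h := tendsto_nhds_unique hlim1 hlim2
  linarith

end Pool.Agent.CHN
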