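import Pool.Agent.CHN.Targets

/-!
# MP_0e7bd3_pr (project CHN), target ULG: the logarithmic derivative of the Airy function
-/

set_option autoImplicit false

open MeasureTheory ProbabilityTheory Filter Topology Set
open scoped NNReal Interval

namespace Pool.Agent.CHN

open Pool.Agent.Freud (Airy Airy')

namespace ULG_

/-- the Riccati equation -/
theorem riccati {w : ℂ} (h : Airy w ≠ 0) :
    HasDerivAt (fun w => Airy' w / Airy w) (w - (Airy' w / Airy w) ^ 2) w := by
  have h1 := (Pool.Agent.Freud.Airy'_hasDerivAt w).div (Pool.Agent.Freud.Airy_hasDerivAt w) h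
  refine h1.congr_deriv ?_
  field_simp

theorem airy_ne (hAZR : T_AZR) {z : ℂ} (hz : 0 ≤ z.re) : Airy z ≠ 0 := fun h =>
  absurd (hAZR z h).2 (not_lt.2 hz)

theorem re_mul_nonneg {t : ℝ} (ht : 0 ≤ t) {z : ℂ} (hz : 0 ≤ z.re) : 0 ≤ ((t : ℂ) * z).re := by
  rw [Complex.re_ofReal_mul]
  exact mul_nonneg ht hz

theorem le_norm_add {a : ℝ} {w : ℂ} (hw : 0 ≤ w.re) : a ≤ ‖w + (a : ℂ)‖ := by
  calc a ≤ (w + (a : ℂ)).re := by simp [hw]
    _ ≤ ‖w + (a : ℂ)‖ := Complex.re_le_norm _

/-- the derivative of the left side along the segment -/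
theorem deriv_left (hAZR : T_AZR) {z : ℂ} (hz : 0 ≤ z.re) {t : ℝ} (ht : 0 ≤ t) :
    HasDerivAt (fun t : ℝ => Airy' ((t : ℂ) * z) / Airy ((t : ℂ) * z))
      (z * ((t : ℂ) * z - (Airy' ((t : ℂ) * z) / Airy ((t : ℂ) * z)) ^ 2)) t := by
  have h1 := riccati (airy_ne hAZR (re_mul_nonneg ht hz))
  have h2 : HasDerivAt (fun t : ℝ => (t : ℂ) * z) z t := by
    have := (Complex.ofRealCLM.hasDerivAt (x := t)).mul_const z
    simpa using this
  have h3 := h1.scomp t h2
  simpa [smul_eq_mul, Function.comp_def] using h3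

/-- the derivative of a term on the right side along the segment -/
theorem deriv_term {a : ℝ} (ha : 0 < a) {z : ℂ} (hz : 0 ≤ z.re) {t : ℝ} (ht : 0 ≤ t) :
    HasDerivAt (fun t : ℝ => 1 / ((t : ℂ) * z + (a : ℂ)))
      (-(z / ((t : ℂ) * z + (a : ℂ)) ^ 2)) t := by
  have hne : (t : ℂ) * z + (a : ℂ) ≠ 0 := by
    intro h
    have := le_norm_add (a := a) (re_mul_nonneg ht hz)
    rw [h, norm_zero] at this
    linarith
  have h2 : HasDerivAt (fun t : ℝ => (t : ℂ) * z + (a : ℂ)) z t := by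
    have := ((Complex.ofRealCLM.hasDerivAt (x := t)).mul_const z).add_const (a : ℂ)
    simpa using this
  have h3 := h2.inv hne
  have h4 : (fun t : ℝ => 1 / ((t : ℂ) * z + (a : ℂ))) =
      (fun t : ℝ => (t : ℂ) * z + (a : ℂ))⁻¹ := by
    ext t; simp
  rw [h4]
  refine h3.congr_deriv ?_
  rw [neg_div]

theorem cont_den {a : ℝ} (ha : 0 < a) {z : ℂ} (hz : 0 ≤ z.re) :
    ContinuousOn (fun t : ℝ => -(z / ((t : ℂ) * z + (a : ℂ)) ^ 2)) (uIcc 0 1) := by
  refine ContinuousOn.neg (ContinuousOn.div (by fun_prop) (by fun_prop) fun t ht => ?_)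
  rw [uIcc_of_le zero_le_one] at ht
  refine pow_ne_zero 2 fun h => ?_
  have := le_norm_add (a := a) (re_mul_nonneg ht.1 hz)
  rw [h, norm_zero] at this
  linarith

theorem cont_left (hAZR : T_AZR) {z : ℂ} (hz : 0 ≤ z.re) :
    ContinuousOn (fun t : ℝ => z * ((t : ℂ) * z -
      (Airy' ((t : ℂ) * z) / Airy ((t : ℂ) * z)) ^ 2)) (uIcc 0 1) := by
  have h1 : ContinuousOn (fun t : ℝ => Airy' ((t : ℂ) * z) / Airy ((t : ℂ) * z)) (uIcc 0 1) := by
    intro t ht
    rw [uIcc_of_le zero_le_one] at ht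
    exact (deriv_left hAZR hz ht.1).continuousAt.continuousWithinAt
  have h2 : ContinuousOn (fun t : ℝ => (t : ℂ) * z) (uIcc 0 1) := by fun_prop
  exact continuousOn_const.mul (h2.sub (h1.pow 2))

end ULG_

theorem p_ULG (hAZR : T_AZR) : T_ULG := by
  intro a ha z hz
  have hu0 : (u0 : ℂ) = Airy' 0 / Airy 0 := by
    have h1 : starRingEnd ℂ (Airy' 0 / Airy 0) = Airy' 0 / Airy 0 := by
      have e1 := Pool.Agent.Freud.Airy_conj 0
      have e2 := Pool.Agent.Freud.Airy'_conj 0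
      rw [map_zero] at e1 e2
      rw [map_div₀, ← e1, ← e2]
    exact Complex.conj_eq_iff_re.1 h1
  -- the left side
  have hL : ∫ t in (0 : ℝ)..1, z * ((t : ℂ) * z -
      (Airy' ((t : ℂ) * z) / Airy ((t : ℂ) * z)) ^ 2) = Airy' z / Airy z - (u0 : ℂ) := by
    have h := intervalIntegral.integral_eq_sub_of_hasDerivAt
      (f := fun t : ℝ => Airy' ((t : ℂ) * z) / Airy ((t : ℂ) * z))
      (fun t ht => ULG_.deriv_left hAZR hz (by
        rw [uIcc_of_le zero_le_one] at ht; exact ht.1))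
      ((ULG_.cont_left hAZR hz).intervalIntegrable)
    rw [h, hu0]
    simp
  -- the terms
  have hR : ∀ k, ∫ t in (0 : ℝ)..1, -(z / ((t : ℂ) * z + (a k : ℂ)) ^ 2) =
      1 / (z + (a k : ℂ)) - 1 / (a k : ℂ) := by
    intro k
    have h := intervalIntegral.integral_eq_sub_of_hasDerivAt
      (f := fun t : ℝ => 1 / ((t : ℂ) * z + (a k : ℂ)))
      (fun t ht => ULG_.deriv_term (ha.pos k) hz (by
        rw [uIcc_of_le zero_le_one] at ht; exact ht.1))
      ((ULG_.cont_den (ha.pos k) hz).intervalIntegrable)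
    rw [h]
    simp
  rw [← hL]
  simp_rw [← hR]
  refine intervalIntegral.hasSum_integral_of_dominated_convergence
    (fun k _ => ‖z‖ * (1 / a k ^ 2)) ?_ ?_ ?_ ?_ ?_
  · intro k
    have := (ULG_.cont_den (ha.pos k) hz).aestronglyMeasurable (μ := volume) measurableSet_uIcc
    exact this.mono_measure (Measure.restrict_mono uIoc_subset_uIcc le_rfl)
  · intro k
    refine Eventually.of_forall fun t ht => ?_
    rw [uIoc_of_le zero_le_one] at ht
    have h1 := ULG_.le_norm_add (a := a k) (ULG_.re_mul_nonneg ht.1.le hz)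
    have h2 := ha.pos k
    rw [norm_neg, norm_div, norm_pow, div_eq_mul_one_div]
    refine mul_le_mul_of_nonneg_left ?_ (norm_nonneg z)
    exact one_div_le_one_div_of_le (by positivity) (pow_le_pow_left₀ h2.le h1 2)
  · exact Eventually.of_forall fun t _ => ha.summ.mul_left _
  · exact intervalIntegrable_const
  · refine Eventually.of_forall fun t ht => ?_
    rw [uIoc_of_le zero_le_one] at ht
    have h1 := ha.ml ((t : ℂ) * z) (ULG_.airy_ne hAZR (ULG_.re_mul_nonneg ht.1.le hz))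
    have h2 := h1.mul_left (-z)
    have e1 : -z * ((Airy' ((t : ℂ) * z) / Airy ((t : ℂ) * z)) ^ 2 - (t : ℂ) * z) =
        z * ((t : ℂ) * z - (Airy' ((t : ℂ) * z) / Airy ((t : ℂ) * z)) ^ 2) := by ring
    rw [e1] at h2
    refine h2.congr_fun ?_
    intro k
    ring

end Pool.Agent.CHN
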