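import Pool.Agent.CHN.Final
import Pool.Agent.CHN.STP
import Pool.Agent.CHN.GRD
import Pool.Agent.CHN.LAW
import Pool.Agent.CHN.CVX
import Pool.Agent.CHN.SGN
import Pool.Agent.CHN.HAD
import Pool.Agent.CHN.RSH
import Pool.Agent.CHN.DYN
import Pool.Agent.CHN.RHO
import Pool.Agent.CHN.TIN
import Pool.Agent.CHN.GPR
import Pool.Agent.CHN.INC
import Pool.Agent.CHN.PBA
import Pool.Agent.CHN.AEN
import Pool.Agent.CHN.MVP
import Pool.Agent.CHN.CNT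
import Pool.Agent.CHN.GI1
import Pool.Agent.CHN.PAP
import Pool.Agent.CHN.LG2
import Pool.Agent.CHN.AZR
import Pool.Agent.CHN.ULG
import Pool.Agent.CHN.PRD
import Pool.Agent.CHN.ACL
import Pool.Agent.CHN.GI2
import Pool.Agent.CHN.PLM
import Pool.Agent.CHN.QPD
import Pool.Agent.CHN.DER
import Pool.Agent.CHN.POS
import Pool.Agent.CHN.RBD
import Pool.Agent.CHN.RDE
import Pool.Agent.CHN.GBS
import Pool.Agent.CHN.HIT
import Pool.Agent.CHN.AGR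
import Pool.Agent.CHN.ALO
import Pool.Agent.CHN.ARE
import Pool.Agent.CHN.BLQ
import Pool.Agent.CHN.ACM
import Pool.Agent.CHN.ALX
import Pool.Agent.CHN.QLI
import Pool.Agent.CHN.PEE
import Pool.Agent.CHN.PAT
import Pool.Agent.CHN.ALD
import Pool.Agent.CHN.RB0
import Pool.Agent.CHN.SCA

/-!
# MP_0e7bd3_pr (project CHN): all targets (helper77)
-/

set_option autoImplicit false

open MeasureTheory ProbabilityTheory Filter Topology Set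
open scoped NNReal

namespace Pool.Agent.CHN

theorem t_GRD.{u} : T_GRD.{u} := p_GRD
theorem t_STP.{u} : T_STP.{u} := p_STP t_GRD.{u}
theorem t_DYN : T_DYN := p_DYN
theorem t_AGR : T_AGR := p_AGR
theorem t_AZR : T_AZR := p_AZR
theorem t_ALO : T_ALO := p_ALO t_AZR
theorem t_BLQ : T_BLQ := p_BLQ
theorem t_CNT : T_CNT := p_CNT t_BLQ
theorem t_LG2 : T_LG2 := p_LG2
theorem t_HAD : T_HAD := p_HAD t_BLQ t_CNT t_LG2
theorem t_AEN : T_AEN := p_AEN t_AGR t_AZR t_ALO t_HAD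
theorem t_ALD : T_ALD := p_ALD t_AZR
theorem t_ALX : T_ALX := p_ALX t_ALD
theorem t_RHO : T_RHO := p_RHO t_AEN t_ALO t_ALX
theorem t_GBS : T_GBS := p_GBS t_ALO
theorem t_GPR : T_GPR := p_GPR t_ALO t_ALD t_GBS
theorem t_RB0 : T_RB0 := p_RB0 t_AEN t_GPR
theorem t_QPD : T_QPD := p_QPD t_RHO t_RB0
theorem t_RBD : T_RBD := p_RBD t_AEN t_ALO t_ALX
theorem t_MVP : T_MVP := p_MVP t_DYN t_QPD t_RBD
theorem t_ULG : T_ULG := p_ULG t_AZR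
theorem t_ACM : T_ACM := p_ACM t_ULG t_AZR
theorem t_ACL : T_ACL := p_ACL t_ULG t_AZR
theorem t_ARE : T_ARE := p_ARE t_AZR
theorem t_RSH : T_RSH := p_RSH t_AEN t_AZR t_ACM t_ACL t_ARE
theorem t_TIN.{u} : T_TIN.{u} := p_TIN t_STP.{u} t_MVP t_QPD t_RSH
theorem t_PEE : T_PEE := p_PEE
theorem t_PBA : T_PBA := p_PBA
theorem t_PAP : T_PAP := p_PAP t_PEE t_PBA
theorem t_PRD : T_PRD := p_PRD t_ULG t_AZR
theorem t_PLM : T_PLM := p_PLM t_PRD t_ALO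
theorem t_PAT : T_PAT := p_PAT t_PAP t_PLM t_AEN t_ARE
theorem t_GI2 : T_GI2 := p_GI2 t_GPR t_GBS t_ALO
theorem t_POS : T_POS := p_POS t_PAT t_AEN t_GI2 t_GBS t_ALO
theorem t_HIT.{u} : T_HIT.{u} := p_HIT t_TIN.{u} t_QPD t_RB0 t_POS
theorem t_INC.{u} : T_INC.{u} := p_INC
theorem t_LAW.{u} : T_LAW.{u} := p_LAW t_HIT.{u} t_INC.{u} t_QPD
theorem t_CVX : T_CVX := p_CVX
theorem t_SGN : T_SGN := p_SGN
theorem t_GI1 : T_GI1 := p_GI1 t_GPR t_ULG t_ALO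
theorem t_RDE : T_RDE := p_RDE t_AEN t_ALO t_ACM t_ALD t_ARE
theorem t_DER : T_DER := p_DER t_QPD t_RDE t_RB0
theorem t_QLI : T_QLI := p_QLI t_QPD t_RDE
theorem t_SCA.{u} : T_SCA.{u} := p_SCA

theorem t_EXU.{u} : T_EXU.{u} := p_EXU t_HIT.{u} t_INC.{u} t_QPD t_QLI

theorem t_EXM.{u} : T_EXM.{u} := p_EXM t_HIT.{u} t_INC.{u} t_QPD t_QLI

/-- The theorem about two-sided Brownian motion. -/
theorem all.{u} : ∀ (Ω : Type u) [MeasurableSpace Ω] (P : Measure Ω) [IsProbabilityMeasure P]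
      (W₁ W₂ : ℝ≥0 → Ω → ℝ), IsBrownianReal W₁ P → IsBrownianReal W₂ P →
      IndepFun (fun ω t => W₁ t ω) (fun ω t => W₂ t ω) P →
      ∀ W : ℝ → Ω → ℝ, (∀ t : ℝ, 0 ≤ t → W t = W₁ t.toNNReal) →
      (∀ t : ℝ, t < 0 → W t = W₂ (-t).toNNReal) →
      (∀ᵐ ω ∂P, ∃! t₀ : ℝ, ∀ t : ℝ, W t ω - t ^ 2 ≤ W t₀ ω - t₀ ^ 2) ∧
      ∀ Z : Ω → ℝ, (∀ᵐ ω ∂P, ∀ t : ℝ, W t ω - t ^ 2 ≤ W (Z ω) ω - Z ω ^ 2) →
      AEMeasurable Z P ∧
      (∃ T : ℝ → ℝ, ∀ w, cdf (gaussianReal 0 1) (T w) = cdf (P.map Z) w) ∧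
      ∀ T : ℝ → ℝ, (∀ w, 0 < w → cdf (gaussianReal 0 1) (T w) = cdf (P.map Z) w) →
        ConvexOn ℝ (Ioi 0) T :=
  final t_SCA.{u} t_EXU.{u} t_EXM.{u}
    (assemble t_SCA.{u} t_LAW.{u} t_DER t_QLI t_HIT.{u} t_POS t_CVX
      (mon t_AEN t_GBS t_GI1 t_GI2 t_PAT t_POS t_SGN))

end Pool.Agent.CHN
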