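import Pool.Agent.CHN.Targets

/-!
# CHN-CNT: counting zeros
-/

namespace Pool.Agent.CHN

namespace CNT_

/-- the basic inequality, from the division by a Blaschke product of radius `3 r` -/
theorem three_pow (hBLQ : T_BLQ) {f : ℂ → ℂ} {C : ℝ} (hf : Differentiable ℂ f)
    (hC : 0 < C) (hg : ∀ z, ‖f z‖ ≤ C * Real.exp (C * ‖z‖ ^ (3 / 2 : ℝ)))
    {r : ℝ} (hr : 1 ≤ r) {S : Finset ℂ} (hS : ∀ w ∈ S, ‖w‖ ≤ r ∧ f w = 0) :
    ‖f 0‖ * 3 ^ S.card ≤ C * Real.exp (C * (3 * r) ^ (3 / 2 : ℝ)) := by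
  have hr0 : 0 < r := by linarith
  obtain ⟨F, -, hF, hid⟩ := hBLQ f (3 * r) (C * Real.exp (C * (3 * r) ^ (3 / 2 : ℝ))) hf
    (by positivity) (by
      intro z hz
      refine (hg z).trans ?_
      gcongr) S (fun w hw => ⟨by linarith [(hS w hw).1], (hS w hw).2⟩)
  have h1 := hid 0
  have h2 : ‖F 0‖ * ∏ w ∈ S, (3 * r * ‖w‖) = ‖f 0‖ * (3 * r * (3 * r)) ^ S.card := by
    have := congrArg norm h1
    rw [norm_mul, norm_mul, norm_prod, norm_prod] at this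
    simp only [zero_sub, norm_mul, norm_neg, mul_zero, sub_zero, norm_pow,
      Complex.norm_real, Real.norm_eq_abs, Finset.prod_const] at this
    rw [abs_of_pos hr0, abs_of_pos (by norm_num : (0 : ℝ) < 3)] at this
    rw [this, pow_two]
  have h3 : ∏ w ∈ S, (3 * r * ‖w‖) ≤ (3 * r * r) ^ S.card := by
    rw [← Finset.prod_const]
    refine Finset.prod_le_prod (fun w _ => by positivity) fun w hw => ?_
    have := (hS w hw).1
    gcongr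
  have h4 : ‖F 0‖ ≤ C * Real.exp (C * (3 * r) ^ (3 / 2 : ℝ)) := hF 0 (by simp; positivity)
  have h5 : ‖f 0‖ * (3 * r * (3 * r)) ^ S.card ≤
      C * Real.exp (C * (3 * r) ^ (3 / 2 : ℝ)) * (3 * r * r) ^ S.card := by
    rw [← h2]
    gcongr
  have h6 : (3 * r * (3 * r)) ^ S.card = 3 ^ S.card * (3 * r * r) ^ S.card := by
    rw [← mul_pow]
    congr 1
    ring
  rw [h6, ← mul_assoc] at h5
  exact le_of_mul_le_mul_right h5 (by positivity)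

/-- the counting bound -/
theorem count (hBLQ : T_BLQ) {f : ℂ → ℂ} {C : ℝ} (hf : Differentiable ℂ f) (h0 : f 0 ≠ 0)
    (hg : ∀ z, ‖f z‖ ≤ C * Real.exp (C * ‖z‖ ^ (3 / 2 : ℝ))) :
    ∃ C' : ℝ, 0 ≤ C' ∧ ∀ r : ℝ, 1 ≤ r → ∀ S : Finset ℂ, (∀ w ∈ S, ‖w‖ ≤ r ∧ f w = 0) →
      (S.card : ℝ) ≤ C' * r ^ (3 / 2 : ℝ) := by
  have hf0 : 0 < ‖f 0‖ := norm_pos_iff.2 h0
  have hfC : ‖f 0‖ ≤ C := by
    have := hg 0
    rw [norm_zero, Real.zero_rpow (by norm_num), mul_zero, Real.exp_zero, mul_one] at this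
    exact this
  have hC : 0 < C := lt_of_lt_of_le hf0 hfC
  have hL : 0 ≤ Real.log C - Real.log ‖f 0‖ := by
    have := Real.log_le_log hf0 hfC
    linarith
  refine ⟨(Real.log C - Real.log ‖f 0‖) + 6 * C, by positivity, fun r hr S hS => ?_⟩
  have h1 := three_pow hBLQ hf hC hg hr hS
  have hr0 : 0 < r := by linarith
  have h2 : Real.exp (S.card : ℝ) ≤ 3 ^ S.card := by
    rw [← Real.exp_one_pow]
    have := Real.exp_one_lt_d9
    gcongr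
    linarith
  have h3 : ‖f 0‖ * Real.exp (S.card : ℝ) ≤ C * Real.exp (C * (3 * r) ^ (3 / 2 : ℝ)) :=
    (mul_le_mul_of_nonneg_left h2 hf0.le).trans h1
  have h4 := Real.log_le_log (by positivity) h3
  rw [Real.log_mul hf0.ne' (Real.exp_pos _).ne', Real.log_mul hC.ne' (Real.exp_pos _).ne',
    Real.log_exp, Real.log_exp] at h4
  have h5 : (3 * r) ^ (3 / 2 : ℝ) ≤ 6 * r ^ (3 / 2 : ℝ) := by
    rw [Real.mul_rpow (by norm_num) hr0.le]
    have h7 : (3 : ℝ) ^ (3 / 2 : ℝ) ≤ 6 := by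
      have e1 : (6 : ℝ) = (36 : ℝ) ^ (1 / 2 : ℝ) := by
        rw [← Real.sqrt_eq_rpow, show (36 : ℝ) = 6 ^ 2 by norm_num, Real.sqrt_sq (by norm_num)]
      have e2 : (3 : ℝ) ^ (3 / 2 : ℝ) = (27 : ℝ) ^ (1 / 2 : ℝ) := by
        rw [show (27 : ℝ) = 3 ^ (3 : ℝ) by norm_num, ← Real.rpow_mul (by norm_num)]
        norm_num
      rw [e2]
      rw [e1]
      gcongr
      norm_num
    gcongr
  have h6 : 1 ≤ r ^ (3 / 2 : ℝ) := Real.one_le_rpow hr (by norm_num)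
  have h7 : C * (3 * r) ^ (3 / 2 : ℝ) ≤ C * (6 * r ^ (3 / 2 : ℝ)) := by gcongr
  have h8 : (Real.log C - Real.log ‖f 0‖) * 1 ≤
      (Real.log C - Real.log ‖f 0‖) * r ^ (3 / 2 : ℝ) := by gcongr
  nlinarith

/-- the dyadic level of a point -/
noncomputable def lev (w : ℂ) : ℕ := Nat.log 2 ⌊‖w‖⌋₊

theorem norm_le_lev (w : ℂ) : ‖w‖ ≤ 2 ^ (lev w + 1) := by
  have h1 : ⌊‖w‖⌋₊ < 2 ^ (lev w + 1) := Nat.lt_pow_succ_log_self (by norm_num) _
  have h2 : ‖w‖ < (⌊‖w‖⌋₊ : ℝ) + 1 := Nat.lt_floor_add_one _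
  have h3 : ((⌊‖w‖⌋₊ : ℝ) + 1) ≤ 2 ^ (lev w + 1) := by
    have : ⌊‖w‖⌋₊ + 1 ≤ 2 ^ (lev w + 1) := h1
    exact_mod_cast this
  linarith

theorem inv_sq_le_lev {w : ℂ} {d : ℝ} (hd : 0 < d) (hd1 : d ≤ 1) (hw : d ≤ ‖w‖) :
    1 / ‖w‖ ^ 2 ≤ 1 / d ^ 2 * (1 / 4) ^ lev w := by
  rcases lt_or_ge ‖w‖ 1 with h | h
  · have h1 : lev w = 0 := by
      have : ⌊‖w‖⌋₊ = 0 := Nat.floor_eq_zero.2 h
      rw [lev, this]
      simp
    rw [h1, pow_zero, mul_one]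
    gcongr
  · have h1 : 1 ≤ ⌊‖w‖⌋₊ := (Nat.one_le_floor_iff _).2 h
    have h2 : 2 ^ lev w ≤ ⌊‖w‖⌋₊ := Nat.pow_log_le_self 2 (by omega)
    have h3 : (2 : ℝ) ^ lev w ≤ ‖w‖ := by
      have : ((2 ^ lev w : ℕ) : ℝ) ≤ (⌊‖w‖⌋₊ : ℝ) := by exact_mod_cast h2
      push_cast at this
      exact this.trans (Nat.floor_le (norm_nonneg w))
    have h4 : (1 : ℝ) ≤ 1 / d ^ 2 := by
      rw [le_div_iff₀ (by positivity)]
      nlinarith
    have h5 : 1 / ‖w‖ ^ 2 ≤ (1 / 4) ^ lev w := by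
      have e : ((1 : ℝ) / 4) ^ lev w = 1 / (2 ^ lev w) ^ 2 := by
        rw [← pow_mul, mul_comm, pow_mul, div_pow, one_pow]
        norm_num
      rw [e]
      gcongr
    calc 1 / ‖w‖ ^ 2 ≤ 1 * (1 / 4) ^ lev w := by rw [one_mul]; exact h5
      _ ≤ _ := by gcongr

theorem pow_bound (k : ℕ) : ((2 : ℝ) ^ (k + 1)) ^ (3 / 2 : ℝ) ≤ 3 ^ (k + 1) := by
  have h1 : ((2 : ℝ) ^ (k + 1)) ^ (3 / 2 : ℝ) = ((2 : ℝ) ^ (3 / 2 : ℝ)) ^ (k + 1) := by
    rw [← Real.rpow_natCast, ← Real.rpow_natCast, ← Real.rpow_mul (by norm_num),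
      ← Real.rpow_mul (by norm_num), mul_comm]
  rw [h1]
  have h2 : (2 : ℝ) ^ (3 / 2 : ℝ) ≤ 3 := by
    have e1 : (3 : ℝ) = (9 : ℝ) ^ (1 / 2 : ℝ) := by
      rw [← Real.sqrt_eq_rpow, show (9 : ℝ) = 3 ^ 2 by norm_num, Real.sqrt_sq (by norm_num)]
    have e2 : (2 : ℝ) ^ (3 / 2 : ℝ) = (8 : ℝ) ^ (1 / 2 : ℝ) := by
      rw [show (8 : ℝ) = 2 ^ (3 : ℝ) by norm_num, ← Real.rpow_mul (by norm_num)]
      norm_num
    rw [e2, e1]
    gcongr
    norm_num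
  gcongr

end CNT_

open CNT_ in
/-- CHN-CNT. Counting zeros. -/
theorem p_CNT (hBLQ : T_BLQ) : T_CNT := by
  intro f C hf h0 hg
  obtain ⟨C', hC', hcount⟩ := count hBLQ hf h0 hg
  refine ⟨⟨C', hcount⟩, ?_⟩
  obtain ⟨d, hd, hd1, hdist⟩ : ∃ d : ℝ, 0 < d ∧ d ≤ 1 ∧ ∀ w, f w = 0 → d ≤ ‖w‖ := by
    have h1 : ∀ᶠ w in nhds (0 : ℂ), f w ≠ 0 := hf.continuous.continuousAt.eventually_ne h0
    obtain ⟨e, he, h2⟩ := Metric.eventually_nhds_iff.1 h1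
    refine ⟨min e 1, by positivity, min_le_right _ _, fun w hw => ?_⟩
    by_contra hc
    push Not at hc
    exact h2 (by rw [dist_zero_right]; exact lt_of_lt_of_le hc (min_le_left _ _)) hw
  have hgeo : Summable fun k : ℕ => C' * 3 ^ (k + 1) * (1 / d ^ 2 * (1 / 4) ^ k) := by
    have h1 : Summable fun k : ℕ => ((3 : ℝ) / 4) ^ k :=
      summable_geometric_of_lt_one (by norm_num) (by norm_num)
    refine (h1.mul_left (C' * 3 * (1 / d ^ 2))).congr fun k => ?_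
    rw [div_pow, div_pow, one_pow]
    ring
  refine summable_of_sum_le (c := ∑' k : ℕ, C' * 3 ^ (k + 1) * (1 / d ^ 2 * (1 / 4) ^ k))
    (fun w => by positivity) fun u => ?_
  calc ∑ w ∈ u, 1 / ‖(w : ℂ)‖ ^ 2
      ≤ ∑ w ∈ u, 1 / d ^ 2 * (1 / 4) ^ lev (w : ℂ) :=
        Finset.sum_le_sum fun w _ => inv_sq_le_lev hd hd1 (hdist w w.2)
    _ = ∑ k ∈ u.image fun w : {w : ℂ // f w = 0} => lev (w : ℂ),
          ((u.filter fun w : {w : ℂ // f w = 0} => lev (w : ℂ) = k).card : ℕ) •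
            (1 / d ^ 2 * (1 / 4) ^ k : ℝ) :=
        Finset.sum_comp (fun k : ℕ => (1 / d ^ 2 * (1 / 4) ^ k : ℝ)) _
    _ ≤ ∑ k ∈ u.image fun w : {w : ℂ // f w = 0} => lev (w : ℂ),
          C' * 3 ^ (k + 1) * (1 / d ^ 2 * (1 / 4) ^ k) := by
        refine Finset.sum_le_sum fun k _ => ?_
        rw [nsmul_eq_mul]
        have h1 := hcount (2 ^ (k + 1)) (one_le_pow₀ (by norm_num))
          ((u.filter fun w : {w : ℂ // f w = 0} => lev (w : ℂ) = k).map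
            ⟨Subtype.val, Subtype.val_injective⟩) (by
            intro w hw
            simp only [Finset.mem_map, Finset.mem_filter, Function.Embedding.coeFn_mk] at hw
            obtain ⟨a, ⟨_, ha⟩, rfl⟩ := hw
            refine ⟨?_, a.2⟩
            rw [← ha]
            exact norm_le_lev _)
        rw [Finset.card_map] at h1
        have h2 := h1.trans (mul_le_mul_of_nonneg_left (pow_bound k) hC')
        gcongr
    _ ≤ _ := hgeo.sum_le_tsum _ fun k _ => by positivity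

end Pool.Agent.CHN
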