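import Pool.Agent.Freud.AiryAsymp
import Pool.Agent.Freud.Airy1

/-!
# MP_0e7bd3_pr (project CHN): convexity of the normal-to-Chernoff quantile transform, definitions

`g j` is the `j`-th derivative of the inverse Laplace transform of `1 / Ai`; in the units of this
project (the process `√2 W s - s ^ 2`) the density of Chernoff's distribution is a multiple of
`g 0 w * g 0 (-w)`.
-/

set_option autoImplicit false

open MeasureTheory ProbabilityTheory Filter Topology Set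
open scoped NNReal

namespace Pool.Agent.CHN

open Pool.Agent.Freud (Airy Airy')

/-! ## Analysis -/

/-- `(1 / 2π) ∫ (iy)^j exp(iyt) / Ai(iy) dy`. -/
noncomputable def gC (j : ℕ) (t : ℝ) : ℂ :=
  (1 / (2 * Real.pi) : ℂ) * ∫ y : ℝ, (Complex.I * y) ^ j * Complex.exp (Complex.I * y * t) /
    Airy (Complex.I * y)

/-- The function `g` and its derivatives. -/
noncomputable def g (j : ℕ) (t : ℝ) : ℝ := (gC j t).re

/-- The Airy function (`i = 0`) and its derivative (`i = 1`). -/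
noncomputable def Ak (i : Fin 2) (z : ℂ) : ℂ := if i = 0 then Airy z else Airy' z

/-- `(1 / 2π) ∫ (iy)^j exp(iya) Ai(x+iy) / Ai(iy)^2 dy`, for `i = 1` with `Ai'(x+iy)`. -/
noncomputable def rC (i : Fin 2) (j : ℕ) (a x : ℝ) : ℂ :=
  (1 / (2 * Real.pi) : ℂ) * ∫ y : ℝ, (Complex.I * y) ^ j * Complex.exp (Complex.I * y * a) *
    Ak i (x + Complex.I * y) / Airy (Complex.I * y) ^ 2

/-- The real part of `rC` (it is real). -/
noncomputable def r (i : Fin 2) (j : ℕ) (a x : ℝ) : ℝ := (rC i j a x).re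

/-- The space derivative of `Q`. -/
noncomputable def R (a x : ℝ) : ℝ := Real.exp (a * x - a ^ 3 / 3) * r 0 0 a x

/-- The space derivative of `R`. -/
noncomputable def R1 (a x : ℝ) : ℝ :=
  Real.exp (a * x - a ^ 3 / 3) * (a * r 0 0 a x + r 1 0 a x)

/-- The space derivative of `R1`. -/
noncomputable def R2 (a x : ℝ) : ℝ :=
  Real.exp (a * x - a ^ 3 / 3) *
    (a ^ 2 * r 0 0 a x + 2 * a * r 1 0 a x + (x * r 0 0 a x + r 0 1 a x))

/-- Up to a constant factor: the probability that `√2 B s ≤ x + s ^ 2 - 2 a s` for all `s`. -/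
noncomputable def Q (a x : ℝ) : ℝ := ∫ z in (0 : ℝ)..x, R a z

/-- `a` enumerates the zeros `- a k` of the Airy function, and the Riccati / Mittag-Leffler
identity `(Ai'/Ai)^2 - z = ∑ 1 / (z + a k)^2` holds. -/
structure ZS (a : ℕ → ℝ) : Prop where
  inj : Function.Injective a
  pos : ∀ k, 0 < a k
  summ : Summable fun k => 1 / a k ^ 2
  zero : ∀ z : ℂ, Airy z = 0 ↔ ∃ k, z = -(a k : ℂ)
  ml : ∀ z : ℂ, Airy z ≠ 0 →
    HasSum (fun k => 1 / (z + (a k : ℂ)) ^ 2) ((Airy' z / Airy z) ^ 2 - z)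

/-- `Ai'(0) / Ai(0)`. -/
noncomputable def u0 : ℝ := (Airy' 0 / Airy 0).re

/-- The sign pattern -, +, -, + (from left to right). -/
def Pat (F : ℝ → ℝ) : Prop :=
  ∃ x₁ x₂ x₃ x₄ : ℝ, x₁ < x₂ ∧ x₂ < x₃ ∧ x₃ < x₄ ∧ F x₁ < 0 ∧ 0 < F x₂ ∧ F x₃ < 0 ∧ 0 < F x₄

/-- The approximants: `(1 / 2π) ∫ (iy)^j exp(iy(x+β)) exp(-εy²/2) ∏_{k<n} (1 + iy/a k)⁻¹ dy`. -/
noncomputable def ap (a : ℕ → ℝ) (ε β : ℝ) (n j : ℕ) (x : ℝ) : ℝ :=
  ((1 / (2 * Real.pi) : ℂ) * ∫ y : ℝ, (Complex.I * y) ^ j * Complex.exp (Complex.I * y * (x + β)) *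
    Complex.exp (-(ε * y ^ 2 / 2)) / ∏ k ∈ Finset.range n, (1 + Complex.I * y / (a k : ℂ))).re

/-- The martingale function: `Q` along the process started in `x` at the time `a`; the value
of the Brownian motion at the time `s` is `z`. -/
noncomputable def M (a x s z : ℝ) : ℝ := Q (a - s) (x + s ^ 2 - 2 * a * s - √2 * z)

/-! ## Probability -/

variable {Ω : Type*} [MeasurableSpace Ω]

/-- `W` is a standard two-sided Brownian motion: `s ↦ W s` and `s ↦ W (-s)`, `s ≥ 0`, are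
independent standard Brownian motions. -/
structure IsTwoSidedBrownian (W : ℝ → Ω → ℝ) (P : Measure Ω) : Prop where
  right : IsBrownianReal (fun s : ℝ≥0 => W (s : ℝ)) P
  left : IsBrownianReal (fun s : ℝ≥0 => W (-(s : ℝ))) P
  indep : IndepFun (fun ω (s : ℝ≥0) => W (s : ℝ) ω) (fun ω (s : ℝ≥0) => W (-(s : ℝ)) ω) P

/-- The first index `j ≤ N` with `b j ∈ S j`, and `N` if there is none. -/
noncomputable def stp (S : ℕ → Set ℝ) (N : ℕ) (b : ℕ → ℝ) : ℕ :=
  open Classical in if h : ∃ j, j ≤ N ∧ b j ∈ S j then Nat.find h else N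

/-- The standard normal distribution function. -/
noncomputable def Phi (x : ℝ) : ℝ := (gaussianReal 0 1).real (Iic x)

end Pool.Agent.CHN
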