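import Pool.Agent.CHN.LAW

/-!
# CHN-EXU: a.s. existence and uniqueness of the argmax, and its measurability (helper27)
-/

set_option autoImplicit false

open MeasureTheory ProbabilityTheory Filter Topology Set
open scoped NNReal ENNReal

namespace Pool.Agent.CHN

/-- CHN-EXU. Almost surely the process `√2 W t - t ^ 2` attains its maximum at a unique point. -/
def T_EXU.{u} : Prop := ∀ (Ω : Type u) [MeasurableSpace Ω] (P : Measure Ω)
  [IsProbabilityMeasure P] (W : ℝ → Ω → ℝ), IsTwoSidedBrownian W P →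
  ∀ᵐ ω ∂P, ∃! t₀ : ℝ, ∀ t : ℝ, √2 * W t ω - t ^ 2 ≤ √2 * W t₀ ω - t₀ ^ 2

/-- CHN-EXM. Every function which is almost surely an argmax is a.e. measurable. -/
def T_EXM.{u} : Prop := ∀ (Ω : Type u) [MeasurableSpace Ω] (P : Measure Ω)
  [IsProbabilityMeasure P] (W : ℝ → Ω → ℝ), IsTwoSidedBrownian W P → ∀ Z : Ω → ℝ,
  (∀ᵐ ω ∂P, ∀ t : ℝ, √2 * W t ω - t ^ 2 ≤ √2 * W (Z ω) ω - Z ω ^ 2) → AEMeasurable Z P

namespace EXU_

universe u

variable {Ω : Type u} [MeasurableSpace Ω] {P : Measure Ω}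

/-- sublevel sets of an argmax -/
lemma sub [IsProbabilityMeasure P] {W : ℝ → Ω → ℝ} (hW : IsTwoSidedBrownian W P)
    (hHIT : T_HIT.{u}) (hINC : T_INC.{u}) (hQPD : T_QPD) (hQLI : T_QLI) {Z : Ω → ℝ}
    (hmax : ∀ᵐ ω ∂P, ∀ t : ℝ, √2 * W t ω - t ^ 2 ≤ √2 * W (Z ω) ω - Z ω ^ 2) (w : ℝ) :
    NullMeasurableSet {ω | Z ω ≤ w} P := by
  obtain ⟨C, hC⟩ := hQLI
  obtain ⟨U₁, U₂, ha1, ha2, h1, h2, h3, h4⟩ := LAW_.two hW hHIT hINC hC hQPD w
  have hns : NullMeasurableSet {ω | U₁ ω ≤ U₂ ω} P := nullMeasurableSet_le ha1 ha2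
  refine hns.congr ?_
  have hne : ∀ᵐ ω ∂P, U₁ ω ≠ U₂ ω := by
    rw [ae_iff]
    simpa using h4
  filter_upwards [hmax, h1, h2, hne] with ω hm g1 g2 hn
  apply propext
  show U₁ ω ≤ U₂ ω ↔ Z ω ≤ w
  have k1 : Z ω ≤ w → U₁ ω ≤ U₂ ω := by
    intro hz
    rw [g1 (U₂ ω)]
    intro s hs
    have := (g2 (U₂ ω)).1 le_rfl (Z ω) hz
    linarith [hm s]
  have k2 : w ≤ Z ω → U₂ ω ≤ U₁ ω := by
    intro hz
    rw [g2 (U₁ ω)]
    intro s hs
    have := (g1 (U₁ ω)).1 le_rfl (Z ω) hz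
    linarith [hm s]
  constructor
  · intro hle
    by_contra hcon
    push Not at hcon
    exact hn (le_antisymm hle (k2 hcon.le))
  · exact k1

/-- the paths are continuous and tend to `-∞` -/
lemma coer [IsProbabilityMeasure P] {W : ℝ → Ω → ℝ} (hW : IsTwoSidedBrownian W P)
    (hHIT : T_HIT.{u}) (hINC : T_INC.{u}) (hQLI : T_QLI) :
    ∀ᵐ ω ∂P, Continuous (fun t => W t ω) ∧ ∃ K : ℝ, ∀ t : ℝ, √2 * W t ω - t ^ 2 ≤ K - 2 * |t| := by
  obtain ⟨C, hC⟩ := hQLI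
  obtain ⟨h1, h2, -⟩ := hINC Ω P W hW 0
  filter_upwards [LAW_.U_iff h1 hHIT hC 1, LAW_.U_iff h2 hHIT hC 1, h1.cont, h2.cont] with
    ω g1 g2 c1 c2
  have e1 := (g1.2 _).1 le_rfl
  have e2 := (g2.2 _).1 le_rfl
  set u₁ := LAW_.U 1 (fun (s : ℝ≥0) ω => W (0 + s) ω - W 0 ω) ω
  set u₂ := LAW_.U 1 (fun (s : ℝ≥0) ω => W (0 - s) ω - W 0 ω) ω
  constructor
  · have hrep : (fun t => W t ω) = fun t : ℝ => W 0 ω +
        ((W (0 + ((t.toNNReal : ℝ≥0) : ℝ)) ω - W 0 ω) +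
          (W (0 - (((-t).toNNReal : ℝ≥0) : ℝ)) ω - W 0 ω)) := by
      funext t
      rcases le_total 0 t with ht | ht
      · rw [Real.coe_toNNReal _ ht, Real.toNNReal_of_nonpos (by linarith : -t ≤ 0)]
        simp
      · rw [Real.coe_toNNReal _ (by linarith : 0 ≤ -t), Real.toNNReal_of_nonpos ht]
        simp
    rw [hrep]
    have d1 : Continuous fun t : ℝ => W (0 + ((t.toNNReal : ℝ≥0) : ℝ)) ω - W 0 ω :=
      c1.comp continuous_real_toNNReal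
    have d2 : Continuous fun t : ℝ => W (0 - (((-t).toNNReal : ℝ≥0) : ℝ)) ω - W 0 ω :=
      c2.comp (continuous_real_toNNReal.comp continuous_neg)
    exact continuous_const.add (d1.add d2)
  · refine ⟨√2 * W 0 ω + u₁ + u₂, fun t => ?_⟩
    have n1 : 0 ≤ u₁ := g1.1
    have n2 : 0 ≤ u₂ := g2.1
    rcases le_total 0 t with ht | ht
    · have := e1 t.toNNReal
      rw [Real.coe_toNNReal _ ht, zero_add] at this
      rw [abs_of_nonneg ht]
      nlinarith [this]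
    · have := e2 (-t).toNNReal
      rw [Real.coe_toNNReal _ (by linarith : 0 ≤ -t), zero_sub, neg_neg] at this
      rw [abs_of_nonpos ht]
      nlinarith [this]

end EXU_

theorem p_EXM.{u} (hHIT : T_HIT.{u}) (hINC : T_INC.{u}) (hQPD : T_QPD) (hQLI : T_QLI) :
    T_EXM.{u} := by
  intro Ω _ P _ W hW Z hmax
  have h : NullMeasurable Z P := by
    have hm : @Measurable (NullMeasurableSpace Ω P) ℝ _ _ Z := by
      refine @measurable_of_Iic ℝ (NullMeasurableSpace Ω P) _ _ _ _ _ _ _ Z ?_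
      intro w
      exact EXU_.sub hW hHIT hINC hQPD hQLI hmax w
    exact hm
  exact h.aemeasurable

theorem p_EXU.{u} (hHIT : T_HIT.{u}) (hINC : T_INC.{u}) (hQPD : T_QPD) (hQLI : T_QLI) :
    T_EXU.{u} := by
  intro Ω _ P _ W hW
  obtain ⟨C, hC⟩ := hQLI
  have htwo := fun q : ℚ => LAW_.two hW hHIT hINC hC hQPD (q : ℝ)
  choose U₁ U₂ ha1 ha2 h1 h2 h3 h4 using htwo
  have hne : ∀ᵐ ω ∂P, ∀ q : ℚ, U₁ q ω ≠ U₂ q ω := by
    rw [ae_all_iff]
    intro q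
    rw [ae_iff]
    simpa using h4 q
  filter_upwards [EXU_.coer hW hHIT hINC ⟨C, hC⟩, ae_all_iff.2 h1, ae_all_iff.2 h2, hne] with
    ω hco g1 g2 hn
  obtain ⟨hcont, K, hK⟩ := hco
  have hcX : Continuous fun t : ℝ => √2 * W t ω - t ^ 2 := by fun_prop
  have hlim : Tendsto (fun t : ℝ => √2 * W t ω - t ^ 2) (cocompact ℝ) atBot := by
    refine tendsto_atBot_mono hK ?_
    have h5 : Tendsto (fun t : ℝ => |t|) (cocompact ℝ) atTop :=
      tendsto_norm_cocompact_atTop (E := ℝ)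
    have h6 : Tendsto (fun t : ℝ => 2 * |t|) (cocompact ℝ) atTop := h5.const_mul_atTop (by norm_num)
    have h7 : Tendsto (fun t : ℝ => -(2 * |t|)) (cocompact ℝ) atBot :=
      tendsto_neg_atTop_atBot.comp h6
    simpa [sub_eq_add_neg] using tendsto_atBot_add_const_left _ K h7
  obtain ⟨t₀, ht₀⟩ := hcX.exists_forall_ge hlim
  have key : ∀ t₁ t₂ : ℝ, t₁ < t₂ → (∀ t : ℝ, √2 * W t ω - t ^ 2 ≤ √2 * W t₁ ω - t₁ ^ 2) →
      (∀ t : ℝ, √2 * W t ω - t ^ 2 ≤ √2 * W t₂ ω - t₂ ^ 2) → False := by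
    intro t₁ t₂ hlt m1 m2
    obtain ⟨q, hq1, hq2⟩ := exists_rat_btwn hlt
    have hM : √2 * W t₁ ω - t₁ ^ 2 = √2 * W t₂ ω - t₂ ^ 2 := le_antisymm (m2 t₁) (m1 t₂)
    apply hn q
    have a1 : U₁ q ω = √2 * W t₁ ω - t₁ ^ 2 - (√2 * W q ω - (q : ℝ) ^ 2) := by
      apply le_antisymm
      · rw [g1 q]
        intro s hs
        linarith [m1 s]
      · have := (g1 q _).1 le_rfl t₂ hq2.le
        linarith
    have a2 : U₂ q ω = √2 * W t₁ ω - t₁ ^ 2 - (√2 * W q ω - (q : ℝ) ^ 2) := by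
      apply le_antisymm
      · rw [g2 q]
        intro s hs
        linarith [m1 s]
      · have := (g2 q _).1 le_rfl t₁ hq1.le
        linarith
    rw [a1, a2]
  refine ⟨t₀, ht₀, fun t₁ ht₁ => ?_⟩
  rcases lt_trichotomy t₁ t₀ with h | h | h
  · exact (key t₁ t₀ h ht₁ ht₀).elim
  · exact h
  · exact (key t₀ t₁ h ht₀ ht₁).elim

end Pool.Agent.CHN
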