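import Pool.Agent.CHN.Main
import Pool.Agent.CHN.EXU

/-!
# MP_0e7bd3_pr (project CHN): the two halves of the Brownian motion and the final form (helper77)
-/

set_option autoImplicit false

open MeasureTheory ProbabilityTheory Filter Topology Set
open scoped NNReal

namespace Pool.Agent.CHN

variable {Ω : Type*} [MeasurableSpace Ω] {P : Measure Ω}

/-- Two independent halves. -/
theorem twoSided {W₁ W₂ : ℝ≥0 → Ω → ℝ} (h₁ : IsBrownianReal W₁ P) (h₂ : IsBrownianReal W₂ P)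
    (hi : IndepFun (fun ω t => W₁ t ω) (fun ω t => W₂ t ω) P) {W : ℝ → Ω → ℝ}
    (hr : ∀ t : ℝ, 0 ≤ t → W t = W₁ t.toNNReal) (hl : ∀ t : ℝ, t < 0 → W t = W₂ (-t).toNNReal) :
    IsTwoSidedBrownian W P := by
  have e1 : (fun s : ℝ≥0 => W (s : ℝ)) = W₁ := by
    funext s
    have := hr (s : ℝ) s.2
    rwa [Real.toNNReal_coe] at this
  have e2 : ∀ s : ℝ≥0, s ≠ 0 → W (-(s : ℝ)) = W₂ s := by
    intro s hs
    have : (0 : ℝ) < s := lt_of_le_of_ne s.2 fun h => hs (NNReal.coe_eq_zero.1 h.symm)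
    have h3 := hl (-(s : ℝ)) (by linarith)
    rwa [neg_neg, Real.toNNReal_coe] at h3
  have e3 : ∀ᵐ ω ∂P, ∀ s : ℝ≥0, W₂ s ω = W (-(s : ℝ)) ω := by
    filter_upwards [h₁.eval_zero_ae_eq_zero, h₂.eval_zero_ae_eq_zero] with ω a1 a2 s
    by_cases hs : s = 0
    · subst hs
      rw [a2, NNReal.coe_zero, neg_zero, hr 0 le_rfl, Real.toNNReal_zero, a1]
    · rw [e2 s hs]
  refine ⟨?_, ?_, ?_⟩
  · rw [e1]
    exact h₁
  · refine { toIsPreBrownianReal := ?_, cont := ?_ }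
    · refine h₂.toIsPreBrownianReal.congr fun t => ?_
      filter_upwards [e3] with ω hω
      exact hω t
    · filter_upwards [e3, h₂.cont] with ω hω hc
      have : (fun s : ℝ≥0 => W (-(s : ℝ)) ω) = fun s => W₂ s ω := funext fun s => (hω s).symm
      exact this ▸ hc
  · have e4 : (fun ω (s : ℝ≥0) => W (s : ℝ) ω) = fun ω t => W₁ t ω := by
      funext ω s
      exact congrFun (congrFun e1 s) ω
    rw [e4]
    refine hi.congr (ae_eq_refl _) ?_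
    filter_upwards [e3] with ω hω
    funext s
    exact hω s

/-- Scaling of the maximised expression. -/
theorem sc_iff (a b t s : ℝ) : √2 * ((√sc)⁻¹ * a) - t ^ 2 ≤ √2 * ((√sc)⁻¹ * b) - s ^ 2 ↔
    a - (sc * t) ^ 2 ≤ b - (sc * s) ^ 2 := by
  have hc := sc_pos
  have e : ∀ a t : ℝ, √2 * ((√sc)⁻¹ * a) - t ^ 2 = (sc ^ 2)⁻¹ * (a - (sc * t) ^ 2) := by
    intro a t
    rw [← mul_assoc, sc_sqrt]
    field_simp
  rw [e, e]
  exact mul_le_mul_iff_right₀ (by positivity)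

/-- Existence and uniqueness of the argmax, after scaling. -/
theorem argmax_unique.{u} (hSCA : T_SCA.{u}) (hEXU : T_EXU.{u}) (Ω : Type u) [MeasurableSpace Ω]
    (P : Measure Ω) [IsProbabilityMeasure P] (W : ℝ → Ω → ℝ) (hW : IsTwoSidedBrownian W P) :
    ∀ᵐ ω ∂P, ∃! t₀ : ℝ, ∀ t : ℝ, W t ω - t ^ 2 ≤ W t₀ ω - t₀ ^ 2 := by
  have hc := sc_pos
  let c : ℝ≥0 := ⟨sc, hc.le⟩
  have hW' := hSCA Ω P W hW c (by
    intro h
    have : (c : ℝ) = 0 := by rw [h]; rfl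
    exact hc.ne' this)
  filter_upwards [hEXU Ω P _ hW'] with ω hω
  obtain ⟨t₀, h1, h2⟩ := hω
  refine ⟨sc * t₀, ?_, ?_⟩
  · intro t
    have h3 := (sc_iff (W (sc * (t / sc)) ω) (W (sc * t₀) ω) (t / sc) t₀).1 (h1 (t / sc))
    rwa [mul_div_cancel₀ _ hc.ne'] at h3
  · intro t₁ h3
    have h4 : t₁ / sc = t₀ := by
      refine h2 _ fun t => ?_
      refine (sc_iff (W (sc * t) ω) (W (sc * (t₁ / sc)) ω) t (t₁ / sc)).2 ?_
      rw [mul_div_cancel₀ _ hc.ne']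
      exact h3 _
    rw [← h4, mul_div_cancel₀ _ hc.ne']

/-- Measurability of the argmax, after scaling. -/
theorem argmax_meas.{u} (hSCA : T_SCA.{u}) (hEXM : T_EXM.{u}) (Ω : Type u) [MeasurableSpace Ω]
    (P : Measure Ω) [IsProbabilityMeasure P] (W : ℝ → Ω → ℝ) (hW : IsTwoSidedBrownian W P)
    (Z : Ω → ℝ) (hZ : ∀ᵐ ω ∂P, ∀ t : ℝ, W t ω - t ^ 2 ≤ W (Z ω) ω - Z ω ^ 2) :
    AEMeasurable Z P := by
  have hc := sc_pos
  let c : ℝ≥0 := ⟨sc, hc.le⟩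
  have hW' := hSCA Ω P W hW c (by
    intro h
    have : (c : ℝ) = 0 := by rw [h]; rfl
    exact hc.ne' this)
  have h1 : AEMeasurable (fun ω => Z ω / sc) P := by
    refine hEXM Ω P _ hW' _ ?_
    filter_upwards [hZ] with ω hω t
    refine (sc_iff (W (sc * t) ω) (W (sc * (Z ω / sc)) ω) t (Z ω / sc)).2 ?_
    rw [mul_div_cancel₀ _ hc.ne']
    exact hω _
  have h2 : Z = fun ω => sc * (Z ω / sc) := by
    funext ω
    rw [mul_div_cancel₀ _ hc.ne']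
  rw [h2]
  exact h1.const_mul _

/-- The final form, from the statement about two-sided Brownian motion. -/
theorem final.{u} (hSCA : T_SCA.{u}) (hEXU : T_EXU.{u}) (hEXM : T_EXM.{u})
    (H : ∀ (Ω : Type u) [MeasurableSpace Ω] (P : Measure Ω) [IsProbabilityMeasure P]
      (W : ℝ → Ω → ℝ) (Z : Ω → ℝ), IsTwoSidedBrownian W P → AEMeasurable Z P →
      (∀ᵐ ω ∂P, ∀ t : ℝ, W t ω - t ^ 2 ≤ W (Z ω) ω - Z ω ^ 2) →
      (∃ T : ℝ → ℝ, ∀ w, Phi (T w) = P.real {ω | Z ω ≤ w}) ∧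
      ∀ T : ℝ → ℝ, (∀ w, 0 < w → Phi (T w) = P.real {ω | Z ω ≤ w}) → ConvexOn ℝ (Ioi 0) T) :
    ∀ (Ω : Type u) [MeasurableSpace Ω] (P : Measure Ω) [IsProbabilityMeasure P]
      (W₁ W₂ : ℝ≥0 → Ω → ℝ), IsBrownianReal W₁ P → IsBrownianReal W₂ P →
      IndepFun (fun ω t => W₁ t ω) (fun ω t => W₂ t ω) P →
      ∀ W : ℝ → Ω → ℝ, (∀ t : ℝ, 0 ≤ t → W t = W₁ t.toNNReal) →
      (∀ t : ℝ, t < 0 → W t = W₂ (-t).toNNReal) →
      (∀ᵐ ω ∂P, ∃! t₀ : ℝ, ∀ t : ℝ, W t ω - t ^ 2 ≤ W t₀ ω - t₀ ^ 2) ∧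
      ∀ Z : Ω → ℝ, (∀ᵐ ω ∂P, ∀ t : ℝ, W t ω - t ^ 2 ≤ W (Z ω) ω - Z ω ^ 2) →
      AEMeasurable Z P ∧
      (∃ T : ℝ → ℝ, ∀ w, cdf (gaussianReal 0 1) (T w) = cdf (P.map Z) w) ∧
      ∀ T : ℝ → ℝ, (∀ w, 0 < w → cdf (gaussianReal 0 1) (T w) = cdf (P.map Z) w) →
        ConvexOn ℝ (Ioi 0) T := by
  intro Ω _ P _ W₁ W₂ h₁ h₂ hi W hr hl
  have hW : IsTwoSidedBrownian W P := twoSided h₁ h₂ hi hr hl
  refine ⟨argmax_unique hSCA hEXU Ω P W hW, fun Z hmax => ?_⟩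
  have hZ : AEMeasurable Z P := argmax_meas hSCA hEXM Ω P W hW Z hmax
  refine ⟨hZ, ?_⟩
  have h := H Ω P W Z hW hZ hmax
  have a1 : ∀ x, cdf (gaussianReal 0 1) x = Phi x := fun x => cdf_eq_real _ x
  have a2 : ∀ w, cdf (P.map Z) w = P.real {ω | Z ω ≤ w} := by
    intro w
    have : IsProbabilityMeasure (P.map Z) := Measure.isProbabilityMeasure_map hZ
    rw [cdf_eq_real, measureReal_def, measureReal_def,
      Measure.map_apply_of_aemeasurable hZ measurableSet_Iic]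
    rfl
  simp_rw [a1, a2]
  exact h

end Pool.Agent.CHN
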