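import Pool.Agent.CHN.Targets

/-!
# MP_0e7bd3_pr (project CHN): assembly (helper77)
-/

set_option autoImplicit false

open MeasureTheory ProbabilityTheory Filter Topology Set
open scoped NNReal

namespace Pool.Agent.CHN

open Pool.Agent.Freud (Airy Airy')

/-- The third derivative of `log g` is antitone. -/
theorem mon (hAEN : T_AEN) (hGBS : T_GBS) (hGI1 : T_GI1) (hGI2 : T_GI2) (hPAT : T_PAT)
    (hPOS : T_POS) (hSGN : T_SGN) :
    ∃ l₁ l₂ l₃ : ℝ → ℝ, (∀ t, HasDerivAt (fun t => Real.log (g 0 t)) (l₁ t) t) ∧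
      (∀ t, HasDerivAt l₁ (l₂ t) t) ∧ (∀ t, HasDerivAt l₂ (l₃ t) t) ∧ Antitone l₃ := by
  obtain ⟨a, ha⟩ := hAEN
  have hd := hGBS.2.1
  have h0 : ∀ t, g 0 t ≠ 0 := fun t => (hPOS t).ne'
  have key := hSGN g a u0 hd hGBS.2.2 hPOS ha.pos (hGI1 a ha) (hGI2 a ha) hPAT.1
  have hr : ∀ (j : ℕ) (t : ℝ), HasDerivAt (fun t => g j t / g 0 t)
      (g (j + 1) t / g 0 t - (g j t / g 0 t) * (g 1 t / g 0 t)) t := by
    intro j t
    have h1 := (hd j t).div (hd 0 t) (h0 t)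
    refine h1.congr_deriv ?_
    have := h0 t
    field_simp
  refine ⟨fun t => g 1 t / g 0 t, fun t => g 2 t / g 0 t - (g 1 t / g 0 t) ^ 2,
    fun t => g 3 t / g 0 t - 3 * (g 1 t / g 0 t) * (g 2 t / g 0 t) + 2 * (g 1 t / g 0 t) ^ 3,
    ?_, ?_, ?_, ?_⟩
  · intro t
    exact (hd 0 t).log (h0 t)
  · intro t
    refine (hr 1 t).congr_deriv ?_
    ring
  · intro t
    refine ((hr 2 t).sub ((hr 1 t).pow 2)).congr_deriv ?_
    norm_num
    ring
  · have hd3 : ∀ t, HasDerivAt (fun t => g 3 t / g 0 t - 3 * (g 1 t / g 0 t) * (g 2 t / g 0 t) +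
        2 * (g 1 t / g 0 t) ^ 3) (g 4 t / g 0 t - 4 * (g 1 t / g 0 t) * (g 3 t / g 0 t) -
        3 * (g 2 t / g 0 t) ^ 2 + 12 * (g 1 t / g 0 t) ^ 2 * (g 2 t / g 0 t) -
        6 * (g 1 t / g 0 t) ^ 4) t := by
      intro t
      refine (((hr 3 t).sub (((hr 1 t).const_mul 3).mul (hr 2 t))).add
        (((hr 1 t).pow 3).const_mul 2)).congr_deriv ?_
      norm_num
      ring
    exact antitone_of_hasDerivAt_nonpos hd3 key

/-- The scaling constant `2^(-1/3)`. -/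
noncomputable def sc : ℝ := (2 : ℝ) ^ (-(1 / 3) : ℝ)

theorem sc_pos : 0 < sc := Real.rpow_pos_of_pos two_pos _

theorem sc_pow : sc ^ 3 = 1 / 2 := by
  unfold sc
  rw [← Real.rpow_natCast, ← Real.rpow_mul two_pos.le]
  norm_num [Real.rpow_neg_one]

/-- `√2 / √c = 1 / c ^ 2`. -/
theorem sc_sqrt : √2 * (√sc)⁻¹ = (sc ^ 2)⁻¹ := by
  have h := sc_pos
  have h1 : 0 < √sc := Real.sqrt_pos.2 h
  have h2 : √sc ^ 2 = sc := Real.sq_sqrt h.le
  have h3 : √2 * sc ^ 2 = √sc := by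
    have h4 : (√2 * sc ^ 2) ^ 2 = sc := by
      rw [mul_pow, Real.sq_sqrt two_pos.le]
      have := sc_pow
      calc 2 * (sc ^ 2) ^ 2 = 2 * sc ^ 3 * sc := by ring
        _ = sc := by rw [this]; ring
    rw [← h4, Real.sqrt_sq (by positivity)]
    rw [h4]
  field_simp
  linarith [h3]

theorem assemble.{u} (hSCA : T_SCA.{u}) (hLAW : T_LAW.{u}) (hDER : T_DER) (hQLI : T_QLI)
    (hHIT : T_HIT.{u}) (hPOS : T_POS) (hCVX : T_CVX)
    (hmon : ∃ l₁ l₂ l₃ : ℝ → ℝ, (∀ t, HasDerivAt (fun t => Real.log (g 0 t)) (l₁ t) t) ∧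
      (∀ t, HasDerivAt l₁ (l₂ t) t) ∧ (∀ t, HasDerivAt l₂ (l₃ t) t) ∧ Antitone l₃) :
    ∀ (Ω : Type u) [MeasurableSpace Ω] (P : Measure Ω) [IsProbabilityMeasure P]
      (W : ℝ → Ω → ℝ) (Z : Ω → ℝ), IsTwoSidedBrownian W P → AEMeasurable Z P →
      (∀ᵐ ω ∂P, ∀ t : ℝ, W t ω - t ^ 2 ≤ W (Z ω) ω - Z ω ^ 2) →
      (∃ T : ℝ → ℝ, ∀ w, Phi (T w) = P.real {ω | Z ω ≤ w}) ∧
      ∀ T : ℝ → ℝ, (∀ w, 0 < w → Phi (T w) = P.real {ω | Z ω ≤ w}) → ConvexOn ℝ (Ioi 0) T := by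
  intro Ω _ P _ W Z hW hZ hmax
  obtain ⟨C, hC⟩ := hQLI
  obtain ⟨l₁, l₂, l₃, h1, h2, h3, h4⟩ := hmon
  have hc := sc_pos
  -- scaling
  let W' : ℝ → Ω → ℝ := fun s ω => (√sc)⁻¹ * W (sc * s) ω
  let c : ℝ≥0 := ⟨sc, hc.le⟩
  have hW' : IsTwoSidedBrownian W' P := hSCA Ω P W hW c (by
    intro h
    have : (c : ℝ) = 0 := by rw [h]; rfl
    exact hc.ne' this)
  let Z' : Ω → ℝ := fun ω => Z ω / sc
  have hZ' : AEMeasurable Z' P := hZ.div_const _
  have hmax' : ∀ᵐ ω ∂P, ∀ t : ℝ, √2 * W' t ω - t ^ 2 ≤ √2 * W' (Z' ω) ω - Z' ω ^ 2 := by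
    filter_upwards [hmax] with ω hω t
    have h5 := hω (sc * t)
    have e1 : √2 * W' t ω - t ^ 2 = (sc ^ 2)⁻¹ * (W (sc * t) ω - (sc * t) ^ 2) := by
      show √2 * ((√sc)⁻¹ * W (sc * t) ω) - t ^ 2 = _
      rw [← mul_assoc, sc_sqrt]
      field_simp
    have e2 : √2 * W' (Z' ω) ω - Z' ω ^ 2 = (sc ^ 2)⁻¹ * (W (Z ω) ω - Z ω ^ 2) := by
      show √2 * ((√sc)⁻¹ * W (sc * (Z ω / sc)) ω) - (Z ω / sc) ^ 2 = _
      rw [← mul_assoc, sc_sqrt, mul_div_cancel₀ _ hc.ne']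
      field_simp
    rw [e1, e2]
    exact mul_le_mul_of_nonneg_left h5 (by positivity)
  have hlaw := hLAW Ω P W' hW' Z' hZ' hmax' C hC
  -- the constant is positive
  have hinc : IsBrownianReal (fun (s : ℝ≥0) => W' (s : ℝ)) P := hW'.right
  have hCpos : 0 < C := (hHIT Ω P _ hinc C hC).1
  -- the distribution function of `Z'`
  let F : ℝ → ℝ := fun w => P.real {ω | Z' ω ≤ w}
  have hF : F = fun w => (∫ y in Ioi (0 : ℝ), Q (-w) y * R w y) / C ^ 2 := funext hlaw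
  have hcdf : F = fun w => cdf (P.map Z') w := by
    funext w
    have : IsProbabilityMeasure (P.map Z') := Measure.isProbabilityMeasure_map hZ'
    rw [cdf_eq_real]
    show P.real _ = (P.map Z').real (Iic w)
    rw [measureReal_def, measureReal_def,
      Measure.map_apply_of_aemeasurable hZ' measurableSet_Iic]
    rfl
  let f : ℝ → ℝ := fun w => g 0 w * g 0 (-w) / C ^ 2
  have hd : ∀ w, HasDerivAt F (f w) w := by
    intro w
    rw [hF]
    exact (hDER w).div_const _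
  have hpos : ∀ w, 0 < f w := fun w => div_pos (mul_pos (hPOS w) (hPOS (-w))) (pow_pos hCpos 2)
  have heven : ∀ w, f (-w) = f w := by
    intro w
    show g 0 (-w) * g 0 (- -w) / C ^ 2 = g 0 w * g 0 (-w) / C ^ 2
    rw [neg_neg, mul_comm]
  have hbot : Tendsto F atBot (𝓝 0) := by
    rw [hcdf]
    exact tendsto_cdf_atBot _
  have htop : Tendsto F atTop (𝓝 1) := by
    rw [hcdf]
    exact tendsto_cdf_atTop _
  have hlog : ∀ w, HasDerivAt (fun w => Real.log (f w)) (l₁ w - l₁ (-w)) w := by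
    intro w
    have e : (fun w => Real.log (f w)) =
        fun w => Real.log (g 0 w) + Real.log (g 0 (-w)) - Real.log (C ^ 2) := by
      funext v
      show Real.log (g 0 v * g 0 (-v) / C ^ 2) = _
      rw [Real.log_div (mul_pos (hPOS v) (hPOS (-v))).ne' (pow_pos hCpos 2).ne',
        Real.log_mul (hPOS v).ne' (hPOS (-v)).ne']
    rw [e]
    have h6 : HasDerivAt (fun w => Real.log (g 0 (-w))) (-l₁ (-w)) w := by
      have := (h1 (-w)).comp w (hasDerivAt_neg w)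
      exact this.congr_deriv (by ring)
    exact (((h1 w).add h6).sub_const _).congr_deriv (by ring)
  have hl1 : ∀ w, HasDerivAt (fun w => l₁ w - l₁ (-w)) (l₂ w + l₂ (-w)) w := by
    intro w
    have h6 : HasDerivAt (fun w => l₁ (-w)) (-l₂ (-w)) w := by
      have := (h2 (-w)).comp w (hasDerivAt_neg w)
      exact this.congr_deriv (by ring)
    exact ((h2 w).sub h6).congr_deriv (by ring)
  have hl2 : ∀ w, HasDerivAt (fun w => l₂ w + l₂ (-w)) (l₃ w - l₃ (-w)) w := by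
    intro w
    have h6 : HasDerivAt (fun w => l₂ (-w)) (-l₃ (-w)) w := by
      have := (h3 (-w)).comp w (hasDerivAt_neg w)
      exact this.congr_deriv (by ring)
    exact ((h3 w).add h6).congr_deriv (by ring)
  have hl3 : ∀ w, 0 < w → l₃ w - l₃ (-w) ≤ 0 := by
    intro w hw
    have := h4 (show -w ≤ w by linarith)
    linarith
  obtain ⟨⟨T₀, hT₀⟩, hconv⟩ := hCVX F f _ _ _ hd hpos heven hbot htop hlog hl1 hl2 hl3
  have hZF : ∀ w, P.real {ω | Z ω ≤ w} = F (w / sc) := by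
    intro w
    show _ = P.real {ω | Z ω / sc ≤ w / sc}
    congr 1
    ext ω
    simp only [Set.mem_ofPred_eq]
    rw [div_le_div_iff_of_pos_right hc]
  refine ⟨⟨fun w => T₀ (w / sc), fun w => by rw [hZF, hT₀]⟩, fun T hT => ?_⟩
  have h7 : ConvexOn ℝ (Ioi 0) fun v => T (sc * v) := by
    apply hconv
    intro v hv
    rw [hT (sc * v) (by positivity), hZF, mul_div_cancel_left₀ _ hc.ne']
  refine ⟨convex_Ioi 0, ?_⟩
  intro x hx y hy α β hα hβ hαβ
  have hx' : x / sc ∈ Ioi (0 : ℝ) := div_pos hx hc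
  have hy' : y / sc ∈ Ioi (0 : ℝ) := div_pos hy hc
  have h8 := h7.2 hx' hy' hα hβ hαβ
  simp only [smul_eq_mul] at h8 ⊢
  have e3 : sc * (α * (x / sc) + β * (y / sc)) = α * x + β * y := by field_simp
  rw [e3, mul_div_cancel₀ _ hc.ne', mul_div_cancel₀ _ hc.ne'] at h8
  exact h8

end Pool.Agent.CHN
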