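import Pool.Agent.CHN.Defs

/-!
# MP_0e7bd3_pr (project CHN): targets with complete proofs in the docstrings (helper77)

Overview: ideas row 1690. `Airy`, `Airy'` and their basic properties: `Pool.Agent.Freud.Airy1`
(`Airy_hasDerivAt`, `Airy'_hasDerivAt`, `Airy_conj`, `Airy'_conj`, `airy_ode_unique`), asymptotics:
`Pool.Agent.Freud.Airy_asymp` in `Pool.Agent.Freud.AiryAsymp`.
-/

set_option autoImplicit false

open MeasureTheory ProbabilityTheory Filter Topology Set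
open scoped NNReal

namespace Pool.Agent.CHN

open Pool.Agent.Freud (Airy Airy')

/-! ## The Airy function -/

/-- CHN-AGR. GROWTH.

PROOF. For real `c > 0`: `Airy z = (1/2π) ∫ exp((c+is)³/3 - z (c+is)) ds` (`Freud.aaJ_const` for
`p = 0`, see `Freud.AiryA`). The modulus of the integrand is
`exp(c³/3 - c s² - c Re z + s Im z) ≤ exp(c³/3 + c‖z‖ + ‖z‖²/(2c)) exp(-c s²/2)`, as
`|s| ‖z‖ ≤ c s²/2 + ‖z‖²/(2c)`. For `‖z‖ ≥ 1` take `c = √‖z‖ ≥ 1`: the exponent is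
`(1/3 + 1 + 1/2) ‖z‖^(3/2)` and `∫ exp(-c s²/2) ≤ √(2π)`. For `‖z‖ ≤ 1` take `c = 1`. -/
def T_AGR : Prop := ∃ C : ℝ, 0 < C ∧ ∀ z : ℂ, ‖Airy z‖ ≤ C * Real.exp (C * ‖z‖ ^ (3 / 2 : ℝ))

/-- CHN-AZR. THE ZEROS ARE NEGATIVE.

PROOF. Let `Airy s = 0`, `φ x = Airy (s + x)` (`x` real), `φ'' = (s + x) φ`, and
`W x = φ' x * conj (φ x)`, `W' = (s + x) |φ|² + |φ'|²`. `W 0 = 0` and `W x → 0` for `x → ∞` (by
`Airy_asymp` with `K = 0`, `Airy (s+x)` and `Airy' (s+x)` tend to `0`). `(Im W)' = Im s |φ|²`: if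
`Im s ≠ 0` then `Im W` is monotone with equal limits, so it is constant on `[0,∞)` and `φ = 0` there.
If `s` is real and `s ≥ 0` then `(Re W)' = (s+x)|φ|² + |φ'|² ≥ 0`, again `Re W` is constant and
`φ = 0` on `(0,∞)`. But `Airy (s + x) ≠ 0` for large `x` (`Airy_asymp`). -/
def T_AZR : Prop := ∀ z : ℂ, Airy z = 0 → z.im = 0 ∧ z.re < 0

/-- CHN-ALO. LOWER BOUND ON THE IMAGINARY AXIS.

PROOF. `Airy_asymp` for `K = 0`, `ε = 1`, `ζ = i y`, `|y|` large: `arg ζ = ± π/2`,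
`‖exp(2/3 ζ^(3/2))‖ = exp(2/3 |y|^(3/2) cos(3π/4)) = exp(-(√2/3) |y|^(3/2))`,
`‖ζ^(1/4)‖ = |y|^(1/4)`, so `‖Airy (iy)‖ ≥ |y|^(-1/4) exp((√2/3)|y|^(3/2)) / (4√π)` for `|y| ≥ y₀`. For
`|y| ≤ y₀` by compactness and `T_AZR`. -/
def T_ALO : Prop := ∃ c : ℝ, 0 < c ∧ ∀ y : ℝ,
  c * Real.exp (c * |y| ^ (3 / 2 : ℝ)) ≤ ‖Airy (Complex.I * y)‖

/-- CHN-ARE. BOUNDS ON THE POSITIVE HALF-LINE.

PROOF. Real by `Airy_conj`. `Airy_asymp` for `K = 0`, `ζ = x` large gives both bounds and positivity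
(`x^(1/4) ≤ 1 + x`); on `[0, x₀]` `Airy` is real, continuous and has no zero (`T_AZR`), hence it is
positive there and both bounds hold by compactness. -/
def T_ARE : Prop := ∃ c C : ℝ, 0 < c ∧ 0 < C ∧ ∀ x : ℝ, 0 ≤ x → (Airy (x : ℂ)).im = 0 ∧
  c * Real.exp (-(2 / 3 * x ^ (3 / 2 : ℝ))) / (1 + x) ≤ (Airy (x : ℂ)).re ∧
  (Airy (x : ℂ)).re ≤ C * Real.exp (-(2 / 3 * x ^ (3 / 2 : ℝ)))

/-- CHN-BLQ. DIVISION BY FINITE BLASCHKE PRODUCTS.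

PROOF. Induction on `S`. Step: let `w ∉ S` be a new zero and `F` be given for `S`. The identity at
`z = w` gives `F w = 0` (`f w = 0` and the product on the left is not `0` as `w ∉ S`, `r ≠ 0`). Put
`F₁ z = dslope F w z * (r² - conj w * z) / r` (`dslope F w` is entire, and
`F z = (z - w) * dslope F w z`). The identity is clear. Bound: on the circle `‖z‖ = r` one has
`‖r² - conj w z‖ = ‖z‖ ‖conj z - conj w‖ = r ‖z - w‖`, so `‖F₁ z‖ = ‖F z‖ ≤ K` there, and inside by the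
maximum modulus principle (`Complex.norm_le_of_forall_mem_frontier_norm_le`). -/
def T_BLQ : Prop := ∀ (f : ℂ → ℂ) (r K : ℝ), Differentiable ℂ f → 0 < r →
  (∀ z, ‖z‖ ≤ r → ‖f z‖ ≤ K) → ∀ S : Finset ℂ, (∀ w ∈ S, ‖w‖ < r ∧ f w = 0) →
  ∃ F : ℂ → ℂ, Differentiable ℂ F ∧ (∀ z, ‖z‖ ≤ r → ‖F z‖ ≤ K) ∧
    ∀ z, F z * ∏ w ∈ S, ((r : ℂ) * (z - w)) = f z * ∏ w ∈ S, ((r : ℂ) ^ 2 - starRingEnd ℂ w * z)

/-- CHN-CNT. COUNTING ZEROS.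

PROOF. `T_BLQ` with radius `3 r` at `z = 0`: `‖F 0‖ = ‖f 0‖ ∏ (3r/‖w‖) ≥ ‖f 0‖ 3^n` (the zeros are
not `0`), and `‖F 0‖ ≤ C exp(C (3r)^(3/2))`, so `n log 3 ≤ log C - log ‖f 0‖ + C (3 r)^(3/2) ≤ C' r^(3/2)`.
Summability: bounded finite sums (`summable_of_sum_le`). By continuity there is `δ > 0` with
`‖w‖ ≥ δ` for all zeros. For a finite set `S` of zeros the sum over those with `‖w‖ ≤ 1` is at most
`C'/δ²`, and the sum over those with `2^k ≤ ‖w‖ < 2^(k+1)` is at most `C' (2^(k+1))^(3/2) 4^(-k)`, which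
is a convergent geometric series with ratio `2^(-1/2)`. -/
def T_CNT : Prop := ∀ (f : ℂ → ℂ) (C : ℝ), Differentiable ℂ f → f 0 ≠ 0 →
  (∀ z, ‖f z‖ ≤ C * Real.exp (C * ‖z‖ ^ (3 / 2 : ℝ))) →
  (∃ C' : ℝ, ∀ r : ℝ, 1 ≤ r → ∀ S : Finset ℂ, (∀ w ∈ S, ‖w‖ ≤ r ∧ f w = 0) →
    (S.card : ℝ) ≤ C' * r ^ (3 / 2 : ℝ)) ∧
  Summable fun w : {w : ℂ // f w = 0} => 1 / ‖(w : ℂ)‖ ^ 2

/-- CHN-LG2. THE SECOND LOGARITHMIC DERIVATIVE OF A FUNCTION WITHOUT ZEROS.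

PROOF. On the ball of radius `r` there is a holomorphic logarithm `L`, `F = exp L`
(`Mathlib.Analysis.Complex.BranchLogRoot` or `HasPrimitives`), `Re L = log ‖F‖ ≤ B`. By
Borel-Caratheodory (`Mathlib.Analysis.Complex.BorelCaratheodory`), applied to `L - L 0`, whose real
part is `≤ B - log ‖F 0‖ =: A` (`A ≥ 0`; use `A + 1` if a positive bound is needed):
`‖L z - L 0‖ ≤ 2 (A + 1)` for `‖z‖ ≤ r/2`. The Cauchy estimate on the circle of radius `r/4` around `z`,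
`‖z‖ ≤ r/4`, gives `‖L'' z‖ ≤ 2 * 2 (A + 1) / (r/4)²`. `L'' = F''/F - (F'/F)²`. -/
def T_LG2 : Prop := ∃ K : ℝ, 0 < K ∧ ∀ (F : ℂ → ℂ) (r B : ℝ), Differentiable ℂ F → 0 < r →
  (∀ z, ‖z‖ ≤ r → ‖F z‖ ≤ Real.exp B) → (∀ z, ‖z‖ < r → F z ≠ 0) → ∀ z, ‖z‖ ≤ r / 4 →
  ‖deriv (deriv F) z / F z - (deriv F z / F z) ^ 2‖ ≤ K * (B - Real.log ‖F 0‖ + 1) / r ^ 2

/-- CHN-HAD. HADAMARD FOR ORDER `3/2` (from `T_BLQ`, `T_CNT`, `T_LG2`).

PROOF. Fix `z` with `f z ≠ 0`, let `r ≥ 4‖z‖ + 1` be large and let `S` be the (finite, `T_CNT`) set of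
all zeros in the ball `‖w‖ < r`; `F` from `T_BLQ` with `K = C exp(C r^(3/2))`. `F` has no zero in the
ball: where `f ≠ 0` this is clear from the identity (`r² - conj w z ≠ 0`); at `w₀ ∈ S` divide the
identity by `z - w₀` and let `z → w₀`: `F w₀ r ∏' = f' w₀ ∏ (r² - conj w w₀) ≠ 0`. At `0`:
`‖F 0‖ ≥ ‖f 0‖`. So by `T_LG2`: `‖(F'/F)' z‖ ≤ K' (C r^(3/2) + C'')/r² → 0`. Taking logarithmic
derivatives twice in the identity (near `z`):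
`(f'/f)' z = (F'/F)' z + ∑_{w∈S} (-1/(z-w)² + (conj w)²/(r² - conj w z)²)`, and the last terms are
at most `4/r²` each, there are at most `C' r^(3/2)` of them. So `∑_{w∈S_r} 1/(z-w)² → -(f'/f)' z` for
`r → ∞`. The family is (absolutely) summable, as `1/‖z-w‖² ≤ 4/‖w‖²` if `‖w‖ ≥ 2‖z‖`; its sum is the
limit. -/
def T_HAD : Prop := ∀ (f : ℂ → ℂ) (C : ℝ), Differentiable ℂ f → f 0 ≠ 0 →
  (∀ z, ‖f z‖ ≤ C * Real.exp (C * ‖z‖ ^ (3 / 2 : ℝ))) → (∀ w, f w = 0 → deriv f w ≠ 0) →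
  (Summable fun w : {w : ℂ // f w = 0} => 1 / ‖(w : ℂ)‖ ^ 2) ∧ ∀ z, f z ≠ 0 →
  HasSum (fun w : {w : ℂ // f w = 0} => 1 / (z - (w : ℂ)) ^ 2)
    ((deriv f z / f z) ^ 2 - deriv (deriv f) z / f z)

/-- CHN-AEN. ENUMERATION OF THE ZEROS (from `T_AGR`, `T_AZR`, `T_ALO`, `T_HAD`).

PROOF. `T_HAD` for `f = Airy` (`Airy'' = z Airy`, so the sum is `(Airy'/Airy)² - z`); the zeros are
simple: if `Airy w = Airy' w = 0` then `Airy = 0` by uniqueness (the Wronskian type argument of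
`Freud.airy_ode_unique`, or all derivatives vanish and `Airy` is analytic), against `T_ALO`. The set
`Z` of zeros is countable (summability of positive terms). It is infinite: if it is finite then
`(Airy'/Airy)' = - ∑ 1/(z-w)²` gives `Airy'/Airy (iy) = c + ∑ 1/(iy - w)` with a real `c` (the value at `0`
is real, all `w` are real), so `|d/dy log ‖Airy (iy)‖| ≤ n/|y|` for `y ≥ 1` and `‖Airy (iy)‖ ≤ C y^n`, which
contradicts `T_ALO`. Take a bijection of `ℕ` with `Z` and `a k = - Re w_k > 0` (`T_AZR`). -/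
def T_AEN : Prop := ∃ a : ℕ → ℝ, ZS a

/-- CHN-ULG. THE LOGARITHMIC DERIVATIVE (from `T_AZR`).

PROOF. On the convex open set `D = {Re z > -δ}`, `δ = min a k / 2` (`a k → ∞`), both sides are
holomorphic: `‖1/(z+a k) - 1/a k‖ = ‖z‖/(a k ‖z + a k‖) ≤ 2 ‖z‖/(a k)²`. They agree at `0`
(`Airy' 0/Airy 0` is real by `Airy_conj`, `Airy'_conj`), and their derivatives agree: on the left
`(u)' = z - u² = -∑ 1/(z + a k)²` with `u = Airy'/Airy` (`ZS.ml`), on the right termwise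
(`hasDerivAt_tsum_of_isPreconnected` or similar). It is enough to work along the segment from `0` to
`z`: the real-variable functions `t ↦ u (t z)` and `t ↦ ∑ (1/(t z + a k) - 1/a k)`, `t ∈ [0,1]`. -/
def T_ULG : Prop := ∀ a : ℕ → ℝ, ZS a → ∀ z : ℂ, 0 ≤ z.re →
  HasSum (fun k => 1 / (z + (a k : ℂ)) - 1 / (a k : ℂ)) (Airy' z / Airy z - (u0 : ℂ))

/-- CHN-PRD. THE PRODUCT FORMULA ON THE IMAGINARY AXIS (from `T_ULG`, `T_AZR`).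

PROOF. For real `y` let `E n y = Airy (iy) exp(iy (∑_{k<n} 1/a k - u0)) / ∏_{k<n} (1 + iy/a k)`. Its
logarithmic derivative in `y` is `i τ n (iy)`, with
`τ n z = Airy' z/Airy z - u0 - ∑_{k<n} (1/(z + a k) - 1/a k) = ∑_{k≥n} (1/(z + a k) - 1/a k)`,
`‖τ n (iy)‖ ≤ |y| ∑_{k≥n} 1/(a k)²`. So `E n y = Airy 0 * exp(∫₀^y i τ n (i y') dy')` (or: the
derivative of `E n y * exp(-...)` vanishes; or Gronwall), and it converges to `Airy 0`. -/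
def T_PRD : Prop := ∀ a : ℕ → ℝ, ZS a → ∀ y : ℝ,
  Tendsto (fun n : ℕ => Complex.exp (Complex.I * y * ((∑ k ∈ Finset.range n, 1 / a k - u0 : ℝ) : ℂ)) /
    ∏ k ∈ Finset.range n, (1 + Complex.I * y / (a k : ℂ))) atTop
    (𝓝 (Airy 0 / Airy (Complex.I * y)))

/-- CHN-ACM. COMPARISON WITH THE REAL AXIS (from `T_ULG`, `T_AZR`).

PROOF. For `Re s ≥ 0`: `Re (1/(s + a k)) = (Re s + a k)/‖s + a k‖² ≤ 1/(Re s + a k)`, so `T_ULG` for `s`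
and for `Re s` gives `Re (Airy'/Airy) s ≤ (Airy'/Airy) (Re s)`. Hence
`x ↦ log ‖Airy (c + x + iy)‖ - log ‖Airy (c + x)‖` is antitone on `[0,∞)` (its derivative is
`Re (Airy'/Airy)(c+x+iy) - (Airy'/Airy)(c+x) ≤ 0`); compare `x` with `0`. -/
def T_ACM : Prop := ∀ a : ℕ → ℝ, ZS a → ∀ c x y : ℝ, 0 ≤ c → 0 ≤ x →
  ‖Airy ((c + x : ℝ) + Complex.I * y)‖ * ‖Airy (c : ℂ)‖ ≤
    ‖Airy ((c + x : ℝ) : ℂ)‖ * ‖Airy ((c : ℂ) + Complex.I * y)‖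

/-- CHN-ACL. GROWTH IN THE IMAGINARY DIRECTION (from `T_ULG`, `T_AZR`).

PROOF. For `y ≥ 0` (the other case by `Airy_conj`):
`d/dy log ‖Airy (c+iy)‖ = Re (i (Airy'/Airy)(c+iy)) = - Im (Airy'/Airy)(c+iy) =
∑ y/((c + a k)² + y²)` by `T_ULG` (imaginary parts), which is at least the sum over `k < 6`, each term
being at least `y/((c + b)² + y²)` with `b = max_{k<6} a k`. Compare with
`3 log (1 + (y/(c+b))²)`, whose derivative is `6 y/((c+b)² + y²)`. -/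
def T_ACL : Prop := ∀ a : ℕ → ℝ, ZS a → ∃ b : ℝ, 0 < b ∧ ∀ c y : ℝ, 0 ≤ c →
  (1 + (y / (c + b)) ^ 2) ^ 3 * ‖Airy (c : ℂ)‖ ≤ ‖Airy ((c : ℂ) + Complex.I * y)‖

/-- CHN-ALD. THE LOGARITHMIC DERIVATIVE IN THE RIGHT HALF-PLANE (from `T_AZR`).

PROOF. `ZS.ml`: for `Re z ≥ 0`, `‖u² - z‖ ≤ ∑ 1/‖z + a k‖² ≤ S₂ := ∑ 1/(a k)²` with `u = Airy' z/Airy z`;
so `‖u‖² ≤ ‖z‖ + S₂ ≤ (1 + S₂)(1 + ‖z‖)²`. -/
def T_ALD : Prop := ∀ a : ℕ → ℝ, ZS a → ∃ C : ℝ, 0 < C ∧ ∀ z : ℂ, 0 ≤ z.re →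
  ‖Airy' z‖ ≤ C * (1 + ‖z‖) * ‖Airy z‖

/-- CHN-ALX. HORIZONTAL LINES (from `T_ALD`).

PROOF. Fix `x`, `y`, `q = √(|x| + |y| + 1) ≥ 1`. For `x'` between `0` and `x` let
`E x' = ‖Airy (x'+iy)‖ + ‖Airy' (x'+iy)‖/q`. As `‖x' + iy‖ ≤ q²`, Gronwall
(`|‖f‖'| ≤ ‖f'‖`: use the vector `(Airy, Airy'/q)`, whose derivative has norm at most `q` times its
norm; `norm_le_gronwallBound_of_norm_deriv_right_le`) gives `E x ≤ E 0 exp(q |x|)`; and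
`E 0 ≤ ‖Airy (iy)‖ (1 + C (1 + |y|))` by `T_ALD`. Finally `‖Airy'‖ ≤ q E`, `q ≤ (1 + |x|)(1 + |y|)`. -/
def T_ALX : Prop := ∀ a : ℕ → ℝ, ZS a → ∃ C : ℝ, 0 < C ∧ ∀ (i : Fin 2) (x y : ℝ),
  ‖Ak i (x + Complex.I * y)‖ ≤ C * (1 + |x|) * (1 + |y|) ^ 2 *
    Real.exp (|x| * √(|x| + |y| + 1)) * ‖Airy (Complex.I * y)‖

/-! ## The function `g` -/

/-- CHN-GBS. BASICS (from `T_ALO`).

PROOF. The integrands are continuous (`T_ALO`: no zero) and dominated by `|y|^j exp(-c |y|^(3/2))/c`,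
which is integrable. Real: `y ↦ -y` and `Airy_conj`. Derivative: differentiation under the integral
(`hasDerivAt_integral_of_dominated_loc_of_deriv_le`). -/
def T_GBS : Prop := (∀ (j : ℕ) (t : ℝ), gC j t = (g j t : ℂ)) ∧
  (∀ (j : ℕ) (t : ℝ), HasDerivAt (g j) (g (j + 1) t) t) ∧ ∀ j : ℕ, ∃ C : ℝ, ∀ t, |g j t| ≤ C

/-- CHN-GPR. MULTIPLICATION BY `t` (from `T_ALO`, `T_ALD`, `T_AZR`, `T_GBS`).

PROOF. Integration by parts on `ℝ` (`integral_mul_deriv_eq_deriv_mul_of_integrable` or similar).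
`d/dy (1/Airy (iy)) = - i u/Airy (iy)`, `u = Airy'/Airy (iy)`, `u' = z - u²`. First formula: `t (iy)^j
e^{iyt} = -i d/dy (e^{iyt}) (iy)^j`, so `t g_j = (1/2π) ∫ e^{iyt} i d/dy((iy)^j/Airy(iy)) dy =
(1/2π) ∫ e^{iyt} (-j (iy)^(j-1) + (iy)^j u)/Airy(iy) dy = -j g_{j-1} + ...`. Second: apply it twice, or
directly with `(1/Airy)'' = (2u² - z)/Airy`: `t² g ↔ (2u² - z)/Airy` and `g' ↔ z/Airy`. For general
`j` use Leibniz as in the statement; integrability of all the functions: `T_ALO`, `T_ALD`. -/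
def T_GPR : Prop := ∀ a : ℕ → ℝ, ZS a → ∀ (j : ℕ) (t : ℝ),
  (((t * g j t + j * g (j - 1) t : ℝ) : ℂ) = (1 / (2 * Real.pi) : ℂ) * ∫ y : ℝ,
    (Complex.I * y) ^ j * Complex.exp (Complex.I * y * t) *
      (Airy' (Complex.I * y) / Airy (Complex.I * y)) / Airy (Complex.I * y)) ∧
  (((t ^ 2 * g j t + 2 * j * t * g (j - 1) t + j * (j - 1 : ℝ) * g (j - 2) t - g (j + 1) t : ℝ) : ℂ) =
    (1 / (2 * Real.pi) : ℂ) * ∫ y : ℝ, (Complex.I * y) ^ j * Complex.exp (Complex.I * y * t) *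
      (2 * ((Airy' (Complex.I * y) / Airy (Complex.I * y)) ^ 2 - Complex.I * y)) /
        Airy (Complex.I * y))

/-- CHN-GI1. FIRST IDENTITY (from `T_GPR`, `T_ULG`, `T_GBS`, `T_ALO`, `T_AZR`).

PROOF. Fubini: `∫_{v>0} e^{-a v} g_j(t-v) dv = (1/2π) ∫ (iy)^j e^{iyt}/(Airy(iy) (a + iy)) dy`. So the
`k`-th term is `(1/2π) ∫ (iy)^j e^{iyt}/Airy(iy) (1/(a k + iy) - 1/a k) dy`, with
`‖1/(a k + iy) - 1/a k‖ ≤ |y|/(a k)²`; sum under the integral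
(`hasSum_integral_of_summable_integral_norm`), `T_ULG` for `z = iy`, `T_GPR` (first formula). -/
def T_GI1 : Prop := ∀ a : ℕ → ℝ, ZS a → ∀ (j : ℕ) (t : ℝ),
  HasSum (fun k => (∫ v in Ioi (0 : ℝ), Real.exp (-(a k * v)) * g j (t - v)) - g j t / a k)
    ((t - u0) * g j t + j * g (j - 1) t)

/-- CHN-GI2. SECOND IDENTITY (from `T_GPR`, `T_GBS`, `T_ALO`, `T_AZR`).

PROOF. As for `T_GI1`, with `∫_{v>0} v e^{-(a+iy)v} dv = 1/(a+iy)²`, `‖1/(a k + iy)²‖ ≤ 1/(a k)²`, `ZS.ml`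
for `z = iy` and the second formula of `T_GPR`. -/
def T_GI2 : Prop := ∀ a : ℕ → ℝ, ZS a → ∀ (j : ℕ) (t : ℝ),
  HasSum (fun k => 2 * ∫ v in Ioi (0 : ℝ), v * Real.exp (-(a k * v)) * g j (t - v))
    (t ^ 2 * g j t + 2 * j * t * g (j - 1) t + j * (j - 1 : ℝ) * g (j - 2) t - g (j + 1) t)

/-- CHN-PEE. PEELING OFF ONE EXPONENTIAL VARIABLE.

PROOF. `H x = e^{bx} F x` has the derivative `b e^{bx} G x` and tends to `0` for `x → -∞`. If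
`F x₁ < 0` then `H x₁ < 0` and `H` is not monotone on `(-∞, x₁]`, so `G x₁' < 0` for some `x₁' < x₁`. If
`F x₁ < 0 < F x₂` then the mean value theorem gives `x₂' ∈ (x₁, x₂)` with `G x₂' > 0`, and so on. -/
def T_PEE : Prop := ∀ (b : ℝ) (F G : ℝ → ℝ), 0 < b → (∀ x, HasDerivAt F (b * (G x - F x)) x) →
  (∃ C : ℝ, ∀ x, |F x| ≤ C) → (Pat F → Pat G) ∧ ((∃ x, F x < 0) → ∃ x, G x < 0)

/-- CHN-PBA. THE GAUSSIAN CASE.

PROOF. `ap a ε β 0 j x` is the `j`-th derivative of `φ z = exp(-z²/(2ε))/√(2πε)` at `z = x + β`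
(Fourier transform of the Gaussian and differentiation under the integral; for `j ≤ 3` one may also
integrate by parts: `J_j := ap .. j` satisfies `ε J_{j+2} + z J_{j+1} + (j+1) J_j = 0` and
`ε J_1 + z J_0 = 0`). So `φ' = -(z/ε) φ`, `φ'' = (z²/ε² - 1/ε) φ`, `φ''' = (-z³/ε³ + 3z/ε²) φ`, and the
combination is `φ z * p z` with a cubic polynomial `p` with negative leading coefficient
`-c₃/ε³`. `p` is positive for very negative `z` and negative for very large `z`; together with the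
pattern this gives five sign changes, five zeros of a cubic polynomial. (Or: divided differences.) -/
def T_PBA : Prop := ∀ (a : ℕ → ℝ) (ε β c₀ c₁ c₂ c₃ : ℝ), 0 < ε → 0 < c₃ →
  ¬ Pat (fun x => c₀ * ap a ε β 0 0 x + c₁ * ap a ε β 0 1 x + c₂ * ap a ε β 0 2 x +
    c₃ * ap a ε β 0 3 x) ∧ ∀ x, 0 < ap a ε β 0 0 x

/-- CHN-PAP. THE APPROXIMANTS (from `T_PEE`, `T_PBA`).

PROOF. Induction on `n`. `ap a ε β (n+1) j` is differentiable with derivative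
`ap a ε β (n+1) (j+1) = a n (ap a ε β n j - ap a ε β (n+1) j)` (as `iy = a n ((1 + iy/a n) - 1)`), and
bounded (`‖1 + iy/a k‖ ≥ 1`, the integrand is dominated by `|y|^j exp(-ε y²/2)`). So `T_PEE` with
`b = a n`, `F =` the combination for `n+1`, `G =` the combination for `n`. Nonnegativity: the second
part of `T_PEE`. (Taking real parts commutes with everything.) -/
def T_PAP : Prop := ∀ a : ℕ → ℝ, (∀ k, 0 < a k) → ∀ (ε β : ℝ) (n : ℕ), 0 < ε →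
  (∀ c₀ c₁ c₂ c₃ : ℝ, 0 < c₃ →
    ¬ Pat (fun x => c₀ * ap a ε β n 0 x + c₁ * ap a ε β n 1 x + c₂ * ap a ε β n 2 x +
      c₃ * ap a ε β n 3 x)) ∧ ∀ x, 0 ≤ ap a ε β n 0 x

/-- CHN-PLM. THE LIMITS (from `T_PRD`, `T_ALO`).

PROOF. `L ε j x = ((1/2π) ∫ (iy)^j e^{iyx} e^{-εy²/2} Airy 0/Airy(iy) dy).re`. For `n → ∞`: dominated
convergence, `T_PRD` for the pointwise limit (`exp(iy(x+β)) = exp(iyx) exp(iyβ)`), bound
`|y|^j exp(-εy²/2)`. For `ε → 0+`: dominated convergence with `|y|^j ‖Airy 0/Airy(iy)‖` (`T_ALO`);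
`Airy 0` is real. -/
def T_PLM : Prop := ∀ a : ℕ → ℝ, ZS a → ∃ L : ℝ → ℕ → ℝ → ℝ,
  (∀ (ε : ℝ) (j : ℕ) (x : ℝ), 0 < ε → Tendsto
    (fun n => ap a ε (∑ k ∈ Finset.range n, 1 / a k - u0) n j x) atTop (𝓝 (L ε j x))) ∧
  ∀ (j : ℕ) (x : ℝ), Tendsto (fun ε => L ε j x) (𝓝[>] 0) (𝓝 ((Airy 0).re * g j x))

/-- CHN-PAT. THE EXCLUDED PATTERN (from `T_PAP`, `T_PLM`, `T_AEN`, `T_ARE`).

PROOF. `(Airy 0).re > 0`. If the combination of the `g j` has the pattern at `x₁ < .. < x₄` then so has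
the combination of the `L ε j` for some small `ε > 0` (strict inequalities at four points), and then the
combination of the `ap a ε β_n n j` for large `n`, against `T_PAP`. Similarly for `0 ≤ g 0 x`. -/
def T_PAT : Prop := (∀ c₀ c₁ c₂ c₃ : ℝ, 0 < c₃ →
  ¬ Pat (fun x => c₀ * g 0 x + c₁ * g 1 x + c₂ * g 2 x + c₃ * g 3 x)) ∧ ∀ x, 0 ≤ g 0 x

/-- CHN-POS. POSITIVITY (from `T_PAT`, `T_AEN`, `T_GI2`, `T_GBS`, `T_ALO`).

PROOF. Let `g 0 t₀ = 0`. By `T_GI2` (`j = 0`), `t² g - g' ≥ 0`, so `e^{-t³/3} g 0 t` is antitone and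
`g 0 = 0` on `[t₀,∞)`. For `t > t₀` the sum in `T_GI2` is `0` and its terms are nonnegative, so
`∫_{v>0} v e^{-a v} g 0 (t-v) dv = 0`, and by continuity `g 0 = 0` on `(-∞,t]`. So `g 0 = 0`
everywhere. By Fourier inversion (the function `y ↦ 1/Airy(iy)` is continuous and integrable and its
Fourier transform vanishes, `T_GBS` for `gC 0 = g 0`) `1/Airy(iy) = 0` for all `y`: a
contradiction. -/
def T_POS : Prop := ∀ t, 0 < g 0 t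

/-- CHN-SGN. THE SIGN ARGUMENT: THE FOURTH DERIVATIVE OF `log g` IS NOT POSITIVE.

PROOF. Fix `t`, `ρ_j = G j t/G 0 t`, `D` the expression in the statement (it is `(log G)''''`). Suppose
`D > 0`. Put `c₃ = 1/G 0 t`, `c₂ = -3ρ₁/G 0 t`, `c₁ = 3(2ρ₁²-ρ₂)/G 0 t`,
`c₀ = (-ρ₃+6ρ₁ρ₂-6ρ₁³)/G 0 t`, `Λ v = ∑_{j≤3} c_j G j (t-v)`. Then `Λ 0 = ∑ c_j G j t = 0`,
`∑ j c_j G (j-1) t = 0`, `∑ j(j-1) c_j G (j-2) t = 0`, `∑ c_j G (j+1) t = D` (all by `field_simp; ring`), and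
`Λ' 0 = -D < 0`. So `Λ > 0` on some `(-δ,0)` and `Λ < 0` on some `(0,δ)`. The combinations of the
hypotheses with the coefficients `c_j` are
(1) `HasSum (fun k => ∫_{v>0} e^{-a k v} Λ v dv) 0` and
(2) `HasSum (fun k => 2 ∫_{v>0} v e^{-a k v} Λ v dv) (-D)`.
If `0 < v₃ < v₄` and `Λ v₃ > 0 > Λ v₄`, take `v₂ ∈ (0, min δ v₃)` and `v₁ ∈ (-δ,0)`: the points
`t - v₄ < t - v₃ < t - v₂ < t - v₁` give the pattern, which is excluded. If `Λ ≤ 0` on `(0,∞)` then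
every term in (1) is `< 0`, a contradiction. Otherwise let `v₀ = inf {v > 0 | Λ v > 0}`; `Λ ≤ 0` on
`(0,v₀)`, `Λ ≥ 0` on `(v₀,∞)`. So `∫_{v>0} (v-v₀) e^{-a k v} Λ v dv ≥ 0` for all `k`, and the sum of these,
`-D/2 - v₀·0`, is `≥ 0`: a contradiction. Integrability: the `G j` are bounded and continuous. -/
def T_SGN : Prop := ∀ (G : ℕ → ℝ → ℝ) (a : ℕ → ℝ) (u : ℝ),
  (∀ (j : ℕ) (t : ℝ), HasDerivAt (G j) (G (j + 1) t) t) → (∀ j : ℕ, ∃ C : ℝ, ∀ t, |G j t| ≤ C) →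
  (∀ t, 0 < G 0 t) → (∀ k, 0 < a k) →
  (∀ (j : ℕ) (t : ℝ),
    HasSum (fun k => (∫ v in Ioi (0 : ℝ), Real.exp (-(a k * v)) * G j (t - v)) - G j t / a k)
      ((t - u) * G j t + j * G (j - 1) t)) →
  (∀ (j : ℕ) (t : ℝ), HasSum (fun k => 2 * ∫ v in Ioi (0 : ℝ), v * Real.exp (-(a k * v)) * G j (t - v))
    (t ^ 2 * G j t + 2 * j * t * G (j - 1) t + j * (j - 1 : ℝ) * G (j - 2) t - G (j + 1) t)) →
  (∀ c₀ c₁ c₂ c₃ : ℝ, 0 < c₃ →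
    ¬ Pat (fun x => c₀ * G 0 x + c₁ * G 1 x + c₂ * G 2 x + c₃ * G 3 x)) →
  ∀ t, G 4 t / G 0 t - 4 * (G 1 t / G 0 t) * (G 3 t / G 0 t) - 3 * (G 2 t / G 0 t) ^ 2 +
    12 * (G 1 t / G 0 t) ^ 2 * (G 2 t / G 0 t) - 6 * (G 1 t / G 0 t) ^ 4 ≤ 0

/-! ## The function `Q` -/

/-- CHN-RHO. BASICS (from `T_AEN`, `T_ALO`, `T_ALX`).

PROOF. For `x` in a bounded set the integrands are dominated by (`T_ALX`, `T_ALO`)
`|y|^j C (1+|x|) (1+|y|)² exp(|x| √(|x|+|y|+1)) / (c exp(c |y|^(3/2)))`, which is integrable (locally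
uniformly in `x`, uniformly in `a`). Real: `y ↦ -y`. Derivatives: differentiation under the integral
(`Airy_hasDerivAt`, `Airy'_hasDerivAt`: the derivative of `Airy' (x+iy)` in `x` is
`(x+iy) Airy (x+iy)`). Joint continuity: `continuous_of_dominated` (locally). -/
def T_RHO : Prop := (∀ (i : Fin 2) (j : ℕ) (a x : ℝ), rC i j a x = (r i j a x : ℂ)) ∧
  (∀ (i : Fin 2) (j : ℕ) (a x : ℝ), HasDerivAt (fun a => r i j a x) (r i (j + 1) a x) a) ∧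
  (∀ (j : ℕ) (a x : ℝ), HasDerivAt (fun x => r 0 j a x) (r 1 j a x) x) ∧
  (∀ (j : ℕ) (a x : ℝ), HasDerivAt (fun x => r 1 j a x) (x * r 0 j a x + r 0 (j + 1) a x) x) ∧
  ∀ (i : Fin 2) (j : ℕ), Continuous fun p : ℝ × ℝ => r i j p.1 p.2

/-- CHN-RB0. BOUNDARY VALUES (from `T_AEN`, `T_GPR`).

PROOF. At `x = 0` the integrands of `rC 0 0 a 0` and `gC 0 a` are the same (cancel `Airy (iy)`, `T_AZR`
is not needed if one uses `z / z^2 = 1/z`, valid also for `z = 0`). `rC 1 0 a 0` is the right hand side of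
the first formula of `T_GPR` for `j = 0`, `t = a`. Take real parts. -/
def T_RB0 : Prop := ∀ a : ℝ, r 0 0 a 0 = g 0 a ∧ r 1 0 a 0 = a * g 0 a

/-- CHN-RBD. GAUSSIAN GROWTH (from `T_AEN`, `T_ALO`, `T_ALX`).

PROOF. `|r i j a x| ≤ (1/2π) ∫ |y|^j C (1+|x|)(1+|y|)² exp(|x| √(|x|+|y|+1))/(c exp(c|y|^(3/2))) dy`.
Here `√(|x|+|y|+1) ≤ √(|x|+1) + √|y|`, `|x| √(|x|+1) ≤ (ε/3) x² + C_ε`, `|x| √|y| ≤ (ε/3) x² + |y|·3/(4ε)`,
`1 + |x| ≤ C_ε exp((ε/3) x²)`, and `∫ |y|^j (1+|y|)² exp(3|y|/(4ε) - c|y|^(3/2)) dy < ∞`. -/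
def T_RBD : Prop := ∀ (ε : ℝ) (j : ℕ), 0 < ε → ∃ C : ℝ, ∀ (i : Fin 2) (a x : ℝ),
  |r i j a x| ≤ C * Real.exp (ε * x ^ 2)

/-- CHN-RDE. DECAY (from `T_AEN`, `T_ALO`, `T_ACM`, `T_ALD`, `T_ARE`).

PROOF. For `x ≥ 0`: `‖Airy (x+iy)‖ ≤ ‖Airy x‖ ‖Airy (iy)‖/‖Airy 0‖` (`T_ACM`, `c = 0`) and
`‖Airy' (x+iy)‖ ≤ C (1+|x|)(1+|y|) ‖Airy (x+iy)‖` (`T_ALD`), so
`|r i j a x| ≤ C (1+|x|) ‖Airy x‖ ∫ |y|^j (1+|y|)/‖Airy (iy)‖ dy`, the integral is finite (`T_ALO`) and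
`(1+|x|) ‖Airy x‖ ≤ C (1+|x|) exp(-(2/3) x^(3/2)) ≤ C' exp(-λ x)` (`T_ARE`). -/
def T_RDE : Prop := ∀ (lam : ℝ) (j : ℕ), ∃ C : ℝ, ∀ (i : Fin 2) (a x : ℝ), 0 ≤ x →
  |r i j a x| ≤ C * Real.exp (-(lam * x))

/-- CHN-RSH. SHIFTED CONTOUR (from `T_AEN`, `T_AZR`, `T_ACM`, `T_ACL`, `T_ARE`, `T_ALO`).

PROOF. Let `a ≤ -1`, `b = a² = |a|²`, `x ≥ 0`. The function
`s ↦ e^{as} Airy (x+s)/Airy(s)²` is holomorphic on `Re s ≥ 0` (`T_AZR`) and, for `s = c + iy`,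
`0 ≤ c ≤ b`, bounded by (`T_ACM`, `T_ACL`) `(‖Airy (c+x)‖/‖Airy c‖²) (1 + (y/(c+b₀))²)^(-3)`, so the
contour `Re s = 0` may be shifted to `Re s = b` (rectangles,
`Complex.integral_boundary_rect_eq_zero_of_differentiableOn`, horizontal sides tend to `0`):
`r 0 0 a x = ((1/2π) ∫ e^{a(b+iy)} Airy (x+b+iy)/Airy(b+iy)² dy).re`. Hence
`|R a x| ≤ exp(ax - a³/3 + ab) (Airy (b+x)/Airy(b)²) (1/2π) ∫ (1 + (y/(b+b₀))²)^(-3) dy`, the integral is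
`≤ 4 (b+b₀)`. `T_ARE`: `Airy (b+x)/Airy(b)² ≤ C (1+b)² exp((4/3) b^(3/2) - (2/3)(b+x)^(3/2))`. With
`|a| = √b`, `a b = -b^(3/2)`, `-a³/3 = b^(3/2)/3`, the exponent is
`-√b x + (2/3) b^(3/2) - (2/3)(b+x)^(3/2) ≤ -2 √b x`, as `(b+x)^(3/2) ≥ b^(3/2) + (3/2) √b x`. -/
def T_RSH : Prop := ∃ (C : ℝ) (n : ℕ), ∀ a x : ℝ, a ≤ -1 → 0 ≤ x →
  |R a x| ≤ C * (1 + a ^ 2) ^ n * Real.exp (2 * a * x)

/-- CHN-QPD. THE PARABOLIC EQUATION (from `T_RHO`, `T_RB0`).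

PROOF. The `x`-derivatives of `R`, `R1` are the product rule and `T_RHO`. `a`-derivative of `R`:
`(x - a²) R + exp(..) r 0 1` and `R2 - 2 a R1 = exp(..)(a² r00 + 2a r10 + x r00 + r01 - 2a² r00 - 2a r10)`,
the same. `R1`: similarly not needed. `Q`: `Q a x = ∫₀^x R a z dz`; differentiation under the integral
(`hasDerivAt_integral_of_dominated_loc_of_deriv_le`, everything is jointly continuous) gives
`∂_a Q = ∫₀^x (R2 - 2a R1) dz = R1 a x - 2a R a x - (R1 a 0 - 2a R a 0)` (fundamental theorem of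
calculus), and `R1 a 0 - 2a R a 0 = exp(-a³/3) (a r00 + r10 - 2a r00) = 0` by `T_RB0`. Joint continuity of
`Q`: `continuous_parametric_intervalIntegral_of_continuous` or from the two derivatives. -/
def T_QPD : Prop := (∀ a x, HasDerivAt (Q a) (R a x) x) ∧ (∀ a x, HasDerivAt (R a) (R1 a x) x) ∧
  (∀ a x, HasDerivAt (R1 a) (R2 a x) x) ∧
  (∀ a x, HasDerivAt (fun a => R a x) (R2 a x - 2 * a * R1 a x) a) ∧
  (∀ a x, HasDerivAt (fun a => Q a x) (R1 a x - 2 * a * R a x) a) ∧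
  (Continuous fun p : ℝ × ℝ => Q p.1 p.2) ∧ (Continuous fun p : ℝ × ℝ => R p.1 p.2) ∧
  (Continuous fun p : ℝ × ℝ => R1 p.1 p.2) ∧ Continuous fun p : ℝ × ℝ => R2 p.1 p.2

/-- CHN-QLI. THE LIMIT (from `T_QPD`, `T_RDE`).

PROOF. By `T_RDE` with `λ = K + 1`: for `|a| ≤ K` and `x ≥ 0`, `|R a x|`, `|R1 a x| ≤ C exp(-x)`. So
`Q a x` converges for `x → ∞`, and for `a₁ < a₂`:
`|Q a₂ x - Q a₁ x| ≤ (a₂ - a₁) sup |R1 - 2 a R| ≤ C exp(-x) → 0`, so the limit does not depend on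
`a`. -/
def T_QLI : Prop := ∃ C : ℝ, ∀ a : ℝ, Tendsto (Q a) atTop (𝓝 C)

/-! ## Brownian motion -/

/-- CHN-DYN. DYNKIN'S FORMULA FOR THE HEAT EQUATION.

PROOF. `K s = ∫ H s (z + √s ξ) dγ(ξ)`, `γ = gaussianReal 0 1`; for `s = σ` this is the integral in
the statement (`gaussianReal_map_const_mul`), `K 0 = H 0 z`. `K` is continuous on `[0,∞)` (dominated
convergence, bounds with `ε` small) and for `s > 0`, by differentiation under the integral sign,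
`K' s = ∫ (Hs s (z+√s ξ) + (ξ/(2√s)) Hz s (z + √s ξ)) dγ = ∫ (Hs + Hzz/2) dγ = 0`, using Stein's
identity `∫ ξ φ(ξ) dγ = ∫ φ'(ξ) dγ` (integration by parts with the density) for
`φ ξ = Hz s (z + √s ξ)`. So `K` is constant. -/
def T_DYN : Prop := ∀ (H Hs Hz Hzz : ℝ → ℝ → ℝ),
  (∀ s z, HasDerivAt (fun s => H s z) (Hs s z) s) → (∀ s z, HasDerivAt (H s) (Hz s z) z) →
  (∀ s z, HasDerivAt (Hz s) (Hzz s z) z) → (Continuous fun p : ℝ × ℝ => H p.1 p.2) →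
  (Continuous fun p : ℝ × ℝ => Hs p.1 p.2) → (Continuous fun p : ℝ × ℝ => Hz p.1 p.2) →
  (Continuous fun p : ℝ × ℝ => Hzz p.1 p.2) → (∀ s z, Hs s z + Hzz s z / 2 = 0) →
  (∀ K ε : ℝ, 0 < ε → ∃ C : ℝ, ∀ s z, |s| ≤ K → |H s z| ≤ C * Real.exp (ε * z ^ 2) ∧
    |Hs s z| ≤ C * Real.exp (ε * z ^ 2) ∧ |Hz s z| ≤ C * Real.exp (ε * z ^ 2) ∧
    |Hzz s z| ≤ C * Real.exp (ε * z ^ 2)) →
  ∀ (σ : ℝ≥0) (z : ℝ), ∫ ζ, H σ (z + ζ) ∂(gaussianReal 0 σ) = H 0 z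

/-- CHN-MVP. THE MEAN VALUE PROPERTY OF `M` (from `T_DYN`, `T_QPD`, `T_RBD`).

PROOF. `T_DYN` for `H s' z = M a x (s + s') z`: `∂_z M = -√2 R`, `∂_zz M = 2 R1` (at the point
`(a - s, x + s² - 2as - √2 z)`), `∂_s M = -(R1 - 2(a-s) R) + (2s - 2a) R = -R1`. Bounds: for `a - s` in
a bounded set `|Q|, |R|, |R1| ≤ C_ε exp(ε X²)` (`T_RBD`; `Q` by integration,
`|Q a X| ≤ |X| sup |R|`; the factor `exp(aX - a³/3)` is harmless: `aX ≤ ε X² + C`), `X² ≤ 2 C + 4 z²`.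
Square integrability: `|M| ≤ C exp(ε z²)` with `ε < 1/(8v)` (if `v = 0` the measure is a Dirac mass). -/
def T_MVP : Prop := ∀ a x : ℝ, (∀ (s h : ℝ≥0) (z : ℝ),
    ∫ ζ, M a x (s + h : ℝ≥0) (z + ζ) ∂(gaussianReal 0 h) = M a x s z) ∧
  (∀ s v : ℝ≥0, Integrable (fun z => (M a x s z) ^ 2) (gaussianReal 0 v)) ∧
  Continuous fun p : ℝ≥0 × ℝ => M a x p.1 p.2

/-- CHN-GRD. OPTIONAL STOPPING ON A GRID.

PROOF. Put `b j = B (j h)`, `X j = m (j h) (b j)`, `F_j` the information of `b 0, .., b j`. For `j < N` let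
`A_j` be the event that `b 0 ∉ S 0, .., b j ∉ S j`, it is a measurable condition on `(b 0, .., b j)`.
`X (stp ∧ (j+1)) - X (stp ∧ j) = 1_{A_j} (X (j+1) - X j)`, and `X (j+1) - X j =
m ((j+1)h) (b j + ζ) - m (j h) (b j)`, where `ζ = b (j+1) - b j` is independent of `(b 0, .., b j)` and
has the law `gaussianReal 0 h` (`IsPreBrownianReal.indepFun_shift`, `hasLaw_sub`). So by Fubini and the
mean value property `∫ 1_{A_j} (X (j+1) - X j) = 0`; telescoping, `∫ X stp = ∫ X 0 = m 0 0`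
(`B 0 = 0` almost surely). Squares: in the same way, on `A_jᶜ`
(an event of `(b 0, .., b j)`), `∫ 1_{A_jᶜ} (X (j+1)² - X j²) ≥ 0` (Jensen: `m s z² ≤ ∫ m(s+h)(z+ζ)²`),
and `X N² - X stp² = ∑_{j<N} 1_{A_jᶜ} (X (j+1)² - X j²)`. (Or use the martingale library of Mathlib.)
All `X j` are square integrable: law of `B (j h)` and the hypothesis. -/
def T_GRD.{u} : Prop := ∀ (Ω : Type u) [MeasurableSpace Ω] (P : Measure Ω) [IsProbabilityMeasure P]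
  (B : ℝ≥0 → Ω → ℝ), IsPreBrownianReal B P → ∀ m : ℝ≥0 → ℝ → ℝ, (∀ s, Continuous (m s)) →
  (∀ s v : ℝ≥0, Integrable (fun z => (m s z) ^ 2) (gaussianReal 0 v)) →
  (∀ (s h : ℝ≥0) (z : ℝ), ∫ ζ, m (s + h) (z + ζ) ∂(gaussianReal 0 h) = m s z) →
  ∀ (h : ℝ≥0) (N : ℕ) (S : ℕ → Set ℝ), (∀ j, MeasurableSet (S j)) →
  MemLp (fun ω => m (stp S N (fun j => B (j * h) ω) * h)
    (B (stp S N (fun j => B (j * h) ω) * h) ω)) 2 P ∧
  ∫ ω, m (stp S N (fun j => B (j * h) ω) * h) (B (stp S N (fun j => B (j * h) ω) * h) ω) ∂P =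
    m 0 0 ∧
  ∫ ω, (m (stp S N (fun j => B (j * h) ω) * h) (B (stp S N (fun j => B (j * h) ω) * h) ω)) ^ 2 ∂P ≤
    ∫ ω, (m (N * h) (B (N * h) ω)) ^ 2 ∂P

/-- CHN-STP. OPTIONAL STOPPING AT A CURVE (from `T_GRD`).

PROOF. For `n : ℕ` let `h = 2^(-n)`, `N = T 2^n`, `S j = {z | b (j h) ≤ z}`, `τ_n = stp S N ..`, and let `A_n`
be the event that `B (j h) < b (j h)` for all `j ≤ N`. `T_GRD`: `m 0 0 = ∫ X_n`,
`X_n = m (τ_n h) (B (τ_n h))`, `∫ X_n² ≤ ∫ m T (B T)² =: c`. On `A_n` `X_n = m T (B T)`; the events `A_n`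
decrease to the event in the statement, so `∫_{A_n} m T (B T) → ∫_D m T (B T)` (dominated
convergence). It remains to show `∫ X_n 1_{A_nᶜ} → 0`. Almost surely (continuous path, `B 0 = 0 < b 0`)
`X_n 1_{A_nᶜ} → 0`: on `A_nᶜ` with `j = τ_n ≥ 1`, `B (jh) ≥ b (jh)` and `B ((j-1)h) < b ((j-1)h)`, so
`|B (jh) - b (jh)|` is at most the sum of the moduli of continuity of `B` and `b` on `[0,T]` at the scale
`h`, and `m s (b s) = 0` with `m` uniformly continuous on compact sets. For `δ > 0`: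
`∫ |X_n| 1_{A_nᶜ} ≤ δ + √c √(P(|X_n| 1_{A_nᶜ} > δ))` (Cauchy-Schwarz), and the probability tends to
`0`. -/
def T_STP.{u} : Prop := ∀ (Ω : Type u) [MeasurableSpace Ω] (P : Measure Ω) [IsProbabilityMeasure P]
  (B : ℝ≥0 → Ω → ℝ), IsBrownianReal B P → ∀ (m : ℝ≥0 → ℝ → ℝ) (b : ℝ≥0 → ℝ),
  (Continuous fun p : ℝ≥0 × ℝ => m p.1 p.2) →
  (∀ s v : ℝ≥0, Integrable (fun z => (m s z) ^ 2) (gaussianReal 0 v)) →
  (∀ (s h : ℝ≥0) (z : ℝ), ∫ ζ, m (s + h) (z + ζ) ∂(gaussianReal 0 h) = m s z) →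
  Continuous b → 0 < b 0 → (∀ s, m s (b s) = 0) → ∀ T : ℕ,
  m 0 0 = ∫ ω in {ω | ∀ n k : ℕ, (k : ℝ≥0) / 2 ^ n ≤ T → B (k / 2 ^ n) ω < b (k / 2 ^ n)},
    m T (B T ω) ∂P

/-- CHN-TIN. THE TIME HORIZON TENDS TO INFINITY (from `T_STP`, `T_MVP`, `T_QPD`, `T_RSH`).

PROOF. `T_STP` for `m = M a x`, `b s = (x + s² - 2as)/√2` (`m s (b s) = Q (a-s) 0 = 0`,
`m 0 0 = Q a x`): `Q a x = ∫_{D_T} Q (a-T) (Y_T)`, `Y_T = x + T² - 2aT - √2 B T`, for all `T : ℕ`. The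
`D_T` decrease to the event `D` in the statement (up to nothing: it is exactly the intersection;
`Y_T > 0` on `D_T`). Let `T` be large, so `a - T ≤ -1`. By `T_RSH` and integration, for `X ≥ 0`:
`|Q (a-T) X - C| ≤ ∫_X^∞ |R| ≤ C₁ (1 + (a-T)²)^n exp(2(a-T)X)` (`2|a-T| ≥ 1`), so
`|Q (a-T) X - C| ≤ poly(T)` for all `X ≥ 0`, and it is `≤ poly(T) exp(-T³/2)` for `X ≥ T²/2`, `T`
large. And `P(Y_T < T²/2) ≤ P(|B T| ≥ T²/4)` for large `T`, which is at most `T^(-N)` for every `N` and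
large `T` (Gaussian moments/tails: e.g. Markov with `exp`). So `|Q a x - C P(D_T)| → 0`. -/
def T_TIN.{u} : Prop := ∀ (Ω : Type u) [MeasurableSpace Ω] (P : Measure Ω) [IsProbabilityMeasure P]
  (B : ℝ≥0 → Ω → ℝ), IsBrownianReal B P → ∀ C : ℝ, (∀ a : ℝ, Tendsto (Q a) atTop (𝓝 C)) →
  ∀ a x : ℝ, 0 < x → Q a x = C * P.real {ω | ∀ n k : ℕ,
    √2 * B (k / 2 ^ n) ω < x + (k / 2 ^ n : ℝ) ^ 2 - 2 * a * (k / 2 ^ n : ℝ)}

/-- CHN-HIT. THE PROBABILITY OF STAYING BELOW THE PARABOLA (from `T_TIN`, `T_QPD`, `T_RB0`, `T_POS`).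

PROOF. `Q a 0 = 0` and `R a 0 = exp(-a³/3) g 0 a > 0`, so `Q a x > 0` for small `x > 0`, hence `C > 0` by
`T_TIN`. Let `E x` be the event in the statement and `D x` that of `T_TIN`. For `x > 0`, `x' > x`:
`D x ⊆ E x` almost surely (continuity of paths: dyadic numbers are dense) and `E x ⊆ D x'`. So
`Q a x/C ≤ P(E x) ≤ Q a x'/C`, and `x' → x` (continuity of `Q a`). This also covers `x = 0` (`E 0 ⊆ D x'`
for all `x' > 0`, `Q a 0 = 0`). -/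
def T_HIT.{u} : Prop := ∀ (Ω : Type u) [MeasurableSpace Ω] (P : Measure Ω) [IsProbabilityMeasure P]
  (B : ℝ≥0 → Ω → ℝ), IsBrownianReal B P → ∀ C : ℝ, (∀ a : ℝ, Tendsto (Q a) atTop (𝓝 C)) →
  0 < C ∧ ∀ a x : ℝ, 0 ≤ x →
    P.real {ω | ∀ s : ℝ≥0, √2 * B s ω ≤ x + (s : ℝ) ^ 2 - 2 * a * s} = Q a x / C

/-- CHN-INC. INCREMENTS OF TWO-SIDED BROWNIAN MOTION.

PROOF. `W` is a centred Gaussian process indexed by `ℝ` (independence of the two halves;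
`IndepFun` of two Gaussian processes is jointly Gaussian, see
`Mathlib.Probability.Distributions.Gaussian.IsGaussianProcess.Independence`) with covariance
`(|s| + |t| - |s - t|)/2`, i.e. `min(|s|,|t|)` for the same sign and `0` otherwise. So
`(W (w+s) - W w)_{s≥0}`, `(W (w-s) - W w)_{s≥0}` are jointly Gaussian, with covariance `min s s'` each and
cross covariance `0` (a computation with the formula), use
`IsGaussianProcess.isPreBrownianReal_of_covariance` and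
`IsGaussianProcess.indepFun_of_covariance_eq_zero` as in `IsPreBrownianReal.indepFun_shift`.
Continuity of paths is clear (the two halves agree at `0`). -/
def T_INC.{u} : Prop := ∀ (Ω : Type u) [MeasurableSpace Ω] (P : Measure Ω) [IsProbabilityMeasure P]
  (W : ℝ → Ω → ℝ), IsTwoSidedBrownian W P → ∀ w : ℝ,
  IsBrownianReal (fun (s : ℝ≥0) ω => W (w + s) ω - W w ω) P ∧
  IsBrownianReal (fun (s : ℝ≥0) ω => W (w - s) ω - W w ω) P ∧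
  IndepFun (fun ω (s : ℝ≥0) => W (w + s) ω - W w ω) (fun ω (s : ℝ≥0) => W (w - s) ω - W w ω) P

/-- CHN-SCA. SCALING.

PROOF. `IsBrownianReal.smul` for both halves; independence: `IndepFun.comp`. -/
def T_SCA.{u} : Prop := ∀ (Ω : Type u) [MeasurableSpace Ω] (P : Measure Ω)
  (W : ℝ → Ω → ℝ), IsTwoSidedBrownian W P → ∀ c : ℝ≥0, c ≠ 0 →
  IsTwoSidedBrownian (fun (s : ℝ) ω => (√(c : ℝ))⁻¹ * W (c * s) ω) P

/-- CHN-LAW. THE DISTRIBUTION FUNCTION OF THE ARGMAX (from `T_HIT`, `T_INC`, `T_QPD`).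

PROOF. Fix `w` and put `X t = √2 W t - t²`, `U⁺ = sup_{s≥0} (X (w+s) - X w)`,
`U⁻ = sup_{s≥0} (X (w-s) - X w)` (suprema over nonnegative rationals; by continuity the same). By
`T_INC` and `T_HIT`: `X (w+s) - X w = √2 B⁺ s - s² - 2ws`, so for `y ≥ 0`
`P(U⁺ ≤ y) = Q (-w) y/C`, similarly `P(U⁻ ≤ y) = Q w y/C`, and `U⁺, U⁻ ≥ 0` are finite almost surely
(`Q/C → 1`) and independent. So `U⁻` has the density `R w y/C` on `(0,∞)`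
(`Measure.ext_of_Iic`; `R w ≥ 0` as `Q w` is monotone), no atoms, and
`P(U⁺ ≤ U⁻) = ∫ P(U⁺ ≤ y) dP_{U⁻}(y) = (1/C²) ∫_{y>0} Q (-w) y R w y dy`, `P(U⁺ = U⁻) = 0`.
If `Z ≤ w` then `X (w+s) ≤ X Z` for all `s`, and `X Z - X w ≤ U⁻`: so `U⁺ ≤ U⁻`. If `Z ≥ w` then
`U⁻ ≤ U⁺`. Hence `P(Z ≤ w) ≤ P(U⁺ ≤ U⁻)` and `P(Z ≤ w) ≥ 1 - P(Z ≥ w) ≥ 1 - P(U⁻ ≤ U⁺) =
P(U⁺ < U⁻) = P(U⁺ ≤ U⁻)`. -/
def T_LAW.{u} : Prop := ∀ (Ω : Type u) [MeasurableSpace Ω] (P : Measure Ω) [IsProbabilityMeasure P]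
  (W : ℝ → Ω → ℝ), IsTwoSidedBrownian W P → ∀ Z : Ω → ℝ, AEMeasurable Z P →
  (∀ᵐ ω ∂P, ∀ t : ℝ, √2 * W t ω - t ^ 2 ≤ √2 * W (Z ω) ω - Z ω ^ 2) →
  ∀ C : ℝ, (∀ a : ℝ, Tendsto (Q a) atTop (𝓝 C)) → ∀ w : ℝ,
  P.real {ω | Z ω ≤ w} = (∫ y in Ioi (0 : ℝ), Q (-w) y * R w y) / C ^ 2

/-- CHN-DER. THE DENSITY (from `T_QPD`, `T_RDE`, `T_RB0`, `T_QLI`).

PROOF. Differentiation under the integral sign: for `w` in a bounded set `|Q|` is bounded on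
`[0,∞)` and `|R|, |R1|, |R2| ≤ C e^{-y}` (`T_RDE` with large `λ`, as in `T_QLI`; `j ≤ 1`). The derivative of the
integrand is `-(R1 - 2(-w) R)(-w,y) R(w,y) + Q(-w,y) (R2 - 2w R1)(w,y)`, that is
`-R1(-w)R(w) - 2w R(-w) R(w) + Q(-w) R2(w) - 2w Q(-w) R1(w)`, which is the `y`-derivative of
`Ψ y = -2w Q(-w,y) R(w,y) + Q(-w,y) R1(w,y) - R(-w,y) R(w,y)`. So the derivative of the integral is
`Ψ ∞ - Ψ 0 = 0 + R(-w,0) R(w,0) = g 0 (-w) * g 0 w` (`Q a 0 = 0`, `R a 0 = exp(-a³/3) g 0 a`). -/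
def T_DER : Prop := ∀ w : ℝ,
  HasDerivAt (fun w : ℝ => ∫ y in Ioi (0 : ℝ), Q (-w) y * R w y) (g 0 w * g 0 (-w)) w

/-- CHN-CVX. FROM THE THIRD DERIVATIVE TO CONVEXITY.

PROOF. `Phi` is a strictly increasing `C^1` function with derivative
`φ x = exp(-x²/2)/√(2π)`, values in `(0,1)`, `Phi 0 = 1/2`, limits `0`, `1`. `F` is strictly increasing with
values in `(0,1)` and, `f` being even, `F (-w) = 1 - F w`, `F 0 = 1/2`. So there is `G : ℝ → ℝ` with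
`Phi (G w) = F w` for all `w` (intermediate values), it is unique, `G 0 = 0`, and by the inverse
function theorem `G' = f/φ(G)`. `T = G` on `(0,∞)`. `log G' = log f + G²/2 + log √(2π)`, so with
`m := ℓ₁ + G G'`: `G'' = G' m`. `m 0 = 0` (`ℓ₁` is odd). `m' = q + G G' m` with
`q := ℓ₂ + G'²`, and `q' = ℓ₃ + 2 G'² m ≤ 2 G'² m` on `(0,∞)`. Claim: `m ≥ 0` on `(0,∞)`, so `G'' ≥ 0` and
`G` is convex there. Suppose `m w₀ < 0`, `w₀ > 0`. Let `w₁ = sup {w ∈ [0,w₀] | m w ≥ 0}`: `m w₁ = 0`, `m < 0` on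
`(w₁,w₀]`, so `q w₁ = m' w₁ ≤ 0`. As long as `m < 0` after `w₁`, `q` is antitone, so `q ≤ 0`, and
`m' ≤ G G' m ≤ 0`, `m` is antitone; so `m` can not return to `0`, and `m ≤ m w₀ =: -c < 0` on `[w₀,∞)`. Then
`G'' ≤ -c G'`, `G' w ≤ G' w₀ exp(-c (w-w₀))`, and `G` is bounded on `[w₀,∞)`, so `F = Phi G` is bounded away
from `1`: contradiction. -/
def T_CVX : Prop := ∀ F f ℓ₁ ℓ₂ ℓ₃ : ℝ → ℝ, (∀ w, HasDerivAt F (f w) w) → (∀ w, 0 < f w) →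
  (∀ w, f (-w) = f w) → Tendsto F atBot (𝓝 0) → Tendsto F atTop (𝓝 1) →
  (∀ w, HasDerivAt (fun w => Real.log (f w)) (ℓ₁ w) w) → (∀ w, HasDerivAt ℓ₁ (ℓ₂ w) w) →
  (∀ w, HasDerivAt ℓ₂ (ℓ₃ w) w) → (∀ w, 0 < w → ℓ₃ w ≤ 0) →
  (∃ T : ℝ → ℝ, ∀ w, Phi (T w) = F w) ∧
  ∀ T : ℝ → ℝ, (∀ w, 0 < w → Phi (T w) = F w) → ConvexOn ℝ (Ioi 0) T

end Pool.Agent.CHN
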